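import Pool.Agent.H88.CP7

/-!
# Points of degree three: few violations, larger exponents
-/

set_option autoImplicit false

namespace Pool.Agent.H88.CP

open NumberField IsDedekindDomain Finset Pool.Agent.H691R3 Pool.Agent.W223.AK
open Pool.Agent.W222.UABC Pool.Agent.R365.QP Pool.Agent.W301.Lin

/-- the exponent `3 / κ` -/
theorem vio_three {κ c ε : ℝ} (hκ : 0 < κ) (hε : 0 < ε) : ∃ M : ℝ, 0 < M ∧
    ∀ B : ℝ, 1 ≤ B → ∀ E : Finset (AlgebraicClosure ℚ), (∀ x ∈ E, Vio3 κ c B x) →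
      (E.card : ℝ) ≤ M * B ^ (3 / κ + ε) := by
  classical
  obtain ⟨ε1, hε1⟩ : ∃ ε1 : ℝ, ε1 = ε * κ / 6 := ⟨_, rfl⟩
  have hε10 : 0 < ε1 := by rw [hε1]; positivity
  obtain ⟨C, hC, hF⟩ := davenport hε10
  obtain ⟨M, hM⟩ := viol_card 3 (by norm_num) (1 + ε1) (by linarith) C hC hF κ c (ε / 2) hκ
    (by positivity)
  refine ⟨|M| + 1, by positivity, fun B hB E hE => ?_⟩
  obtain ⟨h1, h2⟩ := hM B hB
  have hex : ∀ x : AlgebraicClosure ℚ, ∃ K : IntermediateField ℚ (AlgebraicClosure ℚ),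
      x ∈ E → (K, x) ∈ Viol 3 κ c B := by
    intro x
    by_cases hx : x ∈ E
    · obtain ⟨K, hnf, t, k1, k2, k3, k4, k5⟩ := hE x hx
      have ht0 : t ≠ 0 := fun h => k3 0 (by rw [h, map_zero])
      have ht1 : t ≠ 1 := fun h => k3 1 (by rw [h, map_one])
      exact ⟨K, fun _ => ⟨hnf, t, k1, k2, ht0, ht1, k4, k5⟩⟩
    · exact ⟨⊥, fun h => absurd h hx⟩
  choose K hK using hex
  have hinj : Set.InjOn (fun x : AlgebraicClosure ℚ => (K x, x)) (E : Set _) := by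
    intro x _ y _ h
    exact (Prod.ext_iff.1 h).2
  have h3 : ((E.image fun x => (K x, x)).card : ℝ) ≤ ((Viol 3 κ c B).ncard : ℝ) := by
    rw [← Set.ncard_coe_finset]
    refine Nat.cast_le.2 (Set.ncard_le_ncard ?_ h1)
    intro p hp
    obtain ⟨x, hx, rfl⟩ := Finset.mem_image.1 (Finset.mem_coe.1 hp)
    exact hK x hx
  rw [Finset.card_image_of_injOn hinj] at h3
  have hB0 : 0 < B := by linarith
  have e : ((3 : ℕ) : ℝ) * (1 + ε1) / κ + ε / 2 = 3 / κ + ε := by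
    rw [hε1]
    push_cast
    field_simp
    ring
  rw [e] at h2
  have h4 : 0 ≤ B ^ (3 / κ + ε) := by positivity
  calc (E.card : ℝ) ≤ M * B ^ (3 / κ + ε) := h3.trans h2
    _ ≤ (|M| + 1) * B ^ (3 / κ + ε) := by
      refine mul_le_mul_of_nonneg_right ?_ h4
      have := le_abs_self M
      linarith

/-- the exponent `3 / 4 + 9 / (4 κ)` -/
theorem vio_two {κ c ε : ℝ} (hκ : 0 < κ) (hε : 0 < ε) : ∃ M : ℝ, 0 < M ∧
    ∀ B : ℝ, 1 ≤ B → ∀ E : Finset (AlgebraicClosure ℚ), (∀ x ∈ E, Vio3 κ c B x) →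
      (E.card : ℝ) ≤ M * B ^ (3 / 4 + 9 / (4 * κ) + ε) := by
  classical
  obtain ⟨τ, hτ⟩ : ∃ τ : ℝ, τ = 3 / 4 + 1 / (4 * κ) := ⟨_, rfl⟩
  have hτ0 : 0 < τ := by rw [hτ]; positivity
  obtain ⟨ε1, hε1⟩ : ∃ ε1 : ℝ, ε1 = ε / (3 * (2 + τ)) := ⟨_, rfl⟩
  have hε10 : 0 < ε1 := by rw [hε1]; positivity
  have hε12 : ε1 * (3 * (2 + τ)) = ε := by
    rw [hε1, div_mul_cancel₀ _ (by positivity)]
  obtain ⟨C, hC, hF⟩ := davenport hε10
  obtain ⟨D1, hD1, hlarge⟩ := vio_large κ c hε10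
  obtain ⟨D2, hD2, hpairs⟩ := pairs_core 3 (1 + ε1) (by linarith) C hC hF hε10
  refine ⟨D1 * Real.exp (3 * |c| / κ) + D2 * (τ / ε1 + 1) * Real.exp (2 * |c| / κ), by positivity,
    ?_⟩
  intro B hB E hE
  have hB0 : 0 < B := by linarith
  have hlB : 0 ≤ Real.log B := Real.log_nonneg hB
  obtain ⟨X, hX⟩ : ∃ X : ℝ, X = 3 * Real.log B := ⟨_, rfl⟩
  have hX0 : 0 ≤ X := by rw [hX]; positivity
  obtain ⟨θ, hθ⟩ : ∃ θ : ℝ, θ = τ * X := ⟨_, rfl⟩
  have hθ0 : 0 ≤ θ := by rw [hθ]; positivity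
  have hex : ∀ x : AlgebraicClosure ℚ, ∃ δ K, x ∈ E → Dat3 κ c X x δ K := by
    intro x
    by_cases hx : x ∈ E
    · obtain ⟨δ, K, h⟩ := exists_dat hκ (hE x hx)
      rw [← hX] at h
      exact ⟨δ, K, fun _ => h⟩
    · exact ⟨0, ⊥, fun h => absurd h hx⟩
  choose δ K hd using hex
  have hsplit : E.card = (E.filter fun x => θ ≤ δ x).card + (E.filter fun x => ¬ θ ≤ δ x).card :=
    (Finset.card_filter_add_card_filter_not (s := E) (fun x => θ ≤ δ x)).symm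
  have h1 := hlarge X θ (E.filter fun x => θ ≤ δ x) hX0 (by
    intro x hx
    obtain ⟨hxE, hxd⟩ := Finset.mem_filter.1 hx
    exact ⟨_, _, hd x hxE, hxd⟩)
  have hinj : Set.InjOn (fun x : AlgebraicClosure ℚ => (K x, x))
      ((E.filter fun x => ¬ θ ≤ δ x : Finset _) : Set _) := by
    intro x _ y _ h
    exact (Prod.ext_iff.1 h).2
  have h2 := hpairs X ((X + 3 * |c|) / κ) θ hX0 hθ0
    ((E.filter fun x => ¬ θ ≤ δ x).image fun x => (K x, x)) (by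
    intro p hp
    obtain ⟨x, hx, rfl⟩ := Finset.mem_image.1 hp
    obtain ⟨hxE, hxd⟩ := Finset.mem_filter.1 hx
    obtain ⟨-, hδ0, hnf, t, k1, k2, k3, k4, k5, k6, -, y, hy, hy0, hy1, hyh, hyc⟩ := hd x hxE
    have hdd : dd (K x) = δ x := by
      rw [dd_eq]
      exact k6
    refine ⟨hnf, y, hy, k2, hy0, hy1, ?_, ?_, ?_, ?_⟩
    · push_cast
      exact hyh
    · push_cast
      rw [hdd]
      exact hyc
    · rw [hdd]
      exact hδ0
    · rw [hdd]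
      exact (not_le.1 hxd).le)
  rw [Finset.card_image_of_injOn hinj] at h2
  have hlin : θ + 1 ≤ (τ / ε1 + 1) * Real.exp (ε1 * X) := by
    have e1 : ε1 * X + 1 ≤ Real.exp (ε1 * X) := Real.add_one_le_exp _
    have e2 : 1 ≤ Real.exp (ε1 * X) := Real.one_le_exp (by positivity)
    have e3 : τ * X = τ / ε1 * (ε1 * X) := by field_simp
    rw [hθ, e3]
    have e4 : 0 < τ / ε1 := by positivity
    nlinarith
  have e1 : Real.exp (X + ((X + 3 * |c|) / κ - θ) + ε1 * X) ≤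
      Real.exp (3 * |c| / κ) * B ^ (3 / 4 + 9 / (4 * κ) + ε) := by
    rw [Real.rpow_def_of_pos hB0, ← Real.exp_add]
    apply Real.exp_le_exp.2
    have e2 : X + ((X + 3 * |c|) / κ - θ) + ε1 * X = 3 * |c| / κ +
        Real.log B * (3 / 4 + 9 / (4 * κ) + 3 * ε1) := by
      rw [hθ, hτ, hX]
      field_simp
      ring
    rw [e2]
    have e3 : 3 * ε1 ≤ ε := by
      rw [← hε12]
      nlinarith
    gcongr
  have e2 : D2 * (θ + 1) * Real.exp (2 / 3 * ((X + 3 * |c|) / κ) + ε1 * X +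
      (1 + ε1 - 2 / 3) * θ) ≤
      D2 * (τ / ε1 + 1) * Real.exp (2 * |c| / κ) * B ^ (3 / 4 + 9 / (4 * κ) + ε) := by
    have e3 : Real.exp (ε1 * X) * Real.exp (2 / 3 * ((X + 3 * |c|) / κ) + ε1 * X +
        (1 + ε1 - 2 / 3) * θ) = Real.exp (2 * |c| / κ) * B ^ (3 / 4 + 9 / (4 * κ) + ε) := by
      rw [Real.rpow_def_of_pos hB0, ← Real.exp_add, ← Real.exp_add]
      congr 1
      have e4 : Real.log B * (3 / 4 + 9 / (4 * κ) + ε) =
          Real.log B * (3 / 4 + 9 / (4 * κ)) + Real.log B * (ε1 * (3 * (2 + τ))) := by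
        rw [hε12]
        ring
      rw [e4, hθ, hτ, hX]
      field_simp
      ring
    calc D2 * (θ + 1) * Real.exp (2 / 3 * ((X + 3 * |c|) / κ) + ε1 * X +
          (1 + ε1 - 2 / 3) * θ) ≤ D2 * ((τ / ε1 + 1) * Real.exp (ε1 * X)) *
          Real.exp (2 / 3 * ((X + 3 * |c|) / κ) + ε1 * X + (1 + ε1 - 2 / 3) * θ) := by gcongr
      _ = D2 * (τ / ε1 + 1) * (Real.exp (ε1 * X) *
          Real.exp (2 / 3 * ((X + 3 * |c|) / κ) + ε1 * X + (1 + ε1 - 2 / 3) * θ)) := by ring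
      _ = _ := by rw [e3]; ring
  rw [hsplit]
  push_cast
  have e3 : (D1 * Real.exp (3 * |c| / κ) + D2 * (τ / ε1 + 1) * Real.exp (2 * |c| / κ)) *
      B ^ (3 / 4 + 9 / (4 * κ) + ε) =
      D1 * (Real.exp (3 * |c| / κ) * B ^ (3 / 4 + 9 / (4 * κ) + ε)) +
      D2 * (τ / ε1 + 1) * Real.exp (2 * |c| / κ) * B ^ (3 / 4 + 9 / (4 * κ) + ε) := by ring
  rw [e3]
  exact add_le_add (h1.trans (mul_le_mul_of_nonneg_left e1 hD1.le)) (h2.trans e2)

end Pool.Agent.H88.CP
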