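import Mathlib
import Pool.Agent.H510R2.Div

/-!
# Pairs of integer vectors whose determinant divides the value of a form
-/

set_option autoImplicit false

namespace Pool.Agent.H88.CP

open Finset

theorem card_le_real {α β : Type*} [DecidableEq β] (s : Finset α) (f : α → β) (r : ℝ)
    (h : ∀ b ∈ s.image f, ((s.filter fun x => f x = b).card : ℝ) ≤ r) :
    (s.card : ℝ) ≤ r * ((s.image f).card : ℝ) := by
  rw [Finset.card_eq_sum_card_image f s]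
  push_cast
  refine (Finset.sum_le_sum h).trans (le_of_eq ?_)
  rw [Finset.sum_const, nsmul_eq_mul, mul_comm]

/-- a set of integers in `[-Q, Q]` which are congruent modulo `n` -/
theorem card_class (n : ℕ) (hn : 1 ≤ n) (Q : ℝ) (hQ0 : 0 ≤ Q) (S : Finset ℤ)
    (hQ : ∀ y ∈ S, |(y : ℝ)| ≤ Q) (hc : ∀ y ∈ S, ∀ y' ∈ S, (n : ℤ) ∣ y - y') :
    (S.card : ℝ) ≤ 2 * Q / n + 1 := by
  classical
  have hn0 : (0 : ℝ) < n := by exact_mod_cast hn
  have hnz : (n : ℤ) ≠ 0 := by exact_mod_cast (by omega : n ≠ 0)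
  have hnp : (0 : ℤ) < n := by exact_mod_cast hn
  rcases S.eq_empty_or_nonempty with rfl | hne
  · rw [Finset.card_empty, Nat.cast_zero]
    positivity
  set y0 := S.min' hne with hy0
  have hy0S : y0 ∈ S := Finset.min'_mem _ _
  have hmaps : ∀ y ∈ S, (y - y0) / n ∈ Finset.Icc (0 : ℤ) ⌊2 * Q / n⌋ := by
    intro y hy
    have h1 : y0 ≤ y := Finset.min'_le _ _ hy
    obtain ⟨q, hq⟩ := hc y hy y0 hy0S
    have h2 : (y - y0) / n = q := by
      rw [hq]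
      exact Int.mul_ediv_cancel_left _ hnz
    rw [h2, Finset.mem_Icc]
    constructor
    · by_contra hlt
      push Not at hlt
      have : (n : ℤ) * q < 0 := mul_neg_of_pos_of_neg hnp hlt
      omega
    · rw [Int.le_floor, le_div_iff₀ hn0]
      have h3 := (abs_le.1 (hQ y hy)).2
      have h4 := (abs_le.1 (hQ y0 hy0S)).1
      have h5 : ((y : ℝ) - y0) = n * q := by exact_mod_cast hq
      linarith
  have hinj : Set.InjOn (fun y : ℤ => (y - y0) / n) (S : Set ℤ) := by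
    intro y hy y' hy' h
    simp only at h
    obtain ⟨q, hq⟩ := hc y hy y0 hy0S
    obtain ⟨q', hq'⟩ := hc y' hy' y0 hy0S
    rw [hq, hq', Int.mul_ediv_cancel_left _ hnz, Int.mul_ediv_cancel_left _ hnz] at h
    rw [h] at hq
    omega
  have h1 := Finset.card_le_card_of_injOn _ hmaps hinj
  rw [Int.card_Icc] at h1
  have h0 : 0 ≤ ⌊2 * Q / n⌋ := Int.floor_nonneg.2 (by positivity)
  have h2 : ((⌊2 * Q / n⌋ + 1 - 0).toNat : ℤ) = ⌊2 * Q / n⌋ + 1 := by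
    rw [Int.toNat_of_nonneg (by omega)]
    ring
  have h3 : (((⌊2 * Q / n⌋ + 1 - 0).toNat : ℕ) : ℝ) = (⌊2 * Q / n⌋ : ℝ) + 1 := by
    exact_mod_cast h2
  calc (S.card : ℝ) ≤ (((⌊2 * Q / n⌋ + 1 - 0).toNat : ℕ) : ℝ) := by exact_mod_cast h1
    _ = (⌊2 * Q / n⌋ : ℝ) + 1 := h3
    _ ≤ _ := by
      have := Int.floor_le (2 * Q / n)
      linarith

/-- the partners of a vector -/
theorem card_partner {w1 w2 m e k n : ℤ} (hw2 : w2 ≠ 0) (hw : w1 = e * k) (hw' : w2 = e * n)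
    (hco : IsCoprime n k) {Q : ℝ} (hQ0 : 0 ≤ Q) (S : Finset (ℤ × ℤ))
    (hS : ∀ y ∈ S, w1 * y.2 - w2 * y.1 = m ∧ |(y.2 : ℝ)| ≤ Q) :
    (S.card : ℝ) ≤ 2 * Q / |(n : ℝ)| + 1 := by
  classical
  have hn : n ≠ 0 := by
    rintro rfl
    exact hw2 (by rw [hw', mul_zero])
  have he : e ≠ 0 := by
    rintro rfl
    exact hw2 (by rw [hw', zero_mul])
  have hinj : Set.InjOn (fun y : ℤ × ℤ => y.2) (S : Set (ℤ × ℤ)) := by
    intro y hy y' hy' h
    simp only at h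
    have h1 := (hS y hy).1
    have h2 := (hS y' hy').1
    rw [← h2, h] at h1
    have h3 : w2 * y.1 = w2 * y'.1 := by linarith
    exact Prod.ext (mul_left_cancel₀ hw2 h3) h
  rw [← Finset.card_image_of_injOn hinj]
  have habs : |(n : ℝ)| = ((n.natAbs : ℕ) : ℝ) := by
    rw [Nat.cast_natAbs, Int.cast_abs]
  rw [habs]
  refine card_class n.natAbs (Int.natAbs_pos.2 hn) Q hQ0 _ ?_ ?_
  · intro y hy
    obtain ⟨z, hz, rfl⟩ := Finset.mem_image.1 hy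
    exact (hS z hz).2
  · intro y hy y' hy'
    obtain ⟨z, hz, rfl⟩ := Finset.mem_image.1 hy
    obtain ⟨z', hz', rfl⟩ := Finset.mem_image.1 hy'
    have h1 := (hS z hz).1
    have h2 := (hS z' hz').1
    rw [Int.natAbs_dvd]
    have h3 : e * (k * (z.2 - z'.2)) = e * (n * (z.1 - z'.1)) := by
      rw [hw, hw'] at h1 h2
      linear_combination h1 - h2
    have h4 := mul_left_cancel₀ he h3
    exact hco.dvd_of_dvd_mul_left ⟨_, h4⟩

/-- the integers whose absolute value divides `g` -/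
theorem card_dvd {C ε : ℝ} (hC : 0 < C) (hε : 0 < ε)
    (hdiv : ∀ n : ℕ, 1 ≤ n → (n.divisors.card : ℝ) ≤ C * (n : ℝ) ^ ε) {g : ℤ} (hg : g ≠ 0)
    {M : ℝ} (hM : |(g : ℝ)| ≤ M) (A : Finset ℤ) (hA : ∀ m ∈ A, m ∣ g) :
    (A.card : ℝ) ≤ 2 * (C * M ^ ε) := by
  classical
  have hgn : 1 ≤ g.natAbs := Int.natAbs_pos.2 hg
  have hsub : A ⊆ (g.natAbs.divisors ×ˢ ({1, -1} : Finset ℤ)).image
      (fun p : ℕ × ℤ => p.2 * (p.1 : ℤ)) := by
    intro m hm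
    have h1 := hA m hm
    rw [Finset.mem_image]
    rcases Int.natAbs_eq m with h | h
    · refine ⟨(m.natAbs, 1), ?_, ?_⟩
      · rw [Finset.mem_product]
        exact ⟨Nat.mem_divisors.2 ⟨Int.natAbs_dvd_natAbs.2 h1, by omega⟩, by simp⟩
      · simp only [one_mul]
        exact h.symm
    · refine ⟨(m.natAbs, -1), ?_, ?_⟩
      · rw [Finset.mem_product]
        exact ⟨Nat.mem_divisors.2 ⟨Int.natAbs_dvd_natAbs.2 h1, by omega⟩, by simp⟩
      · simp only [neg_mul, one_mul]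
        exact h.symm
  have h1 := (Finset.card_le_card hsub).trans Finset.card_image_le
  rw [Finset.card_product] at h1
  have h2 : ({1, -1} : Finset ℤ).card ≤ 2 := Finset.card_le_two
  have h3 : (A.card : ℝ) ≤ (g.natAbs.divisors.card : ℝ) * 2 := by
    exact_mod_cast h1.trans (Nat.mul_le_mul_left _ h2)
  have h4 := hdiv g.natAbs hgn
  have habs : ((g.natAbs : ℕ) : ℝ) = |(g : ℝ)| := by rw [Nat.cast_natAbs, Int.cast_abs]
  have h5 : ((g.natAbs : ℕ) : ℝ) ^ ε ≤ M ^ ε :=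
    Real.rpow_le_rpow (Nat.cast_nonneg _) (by rw [habs]; exact hM) hε.le
  calc (A.card : ℝ) ≤ (g.natAbs.divisors.card : ℝ) * 2 := h3
    _ ≤ (C * ((g.natAbs : ℕ) : ℝ) ^ ε) * 2 := by gcongr
    _ ≤ (C * M ^ ε) * 2 := by gcongr
    _ = _ := by ring

theorem sum_inv_le {Q : ℝ} (hQ : 1 ≤ Q) :
    ∑ k ∈ Finset.Icc 1 ⌊Q⌋₊, 1 / (k : ℝ) ≤ 1 + Real.log Q := by
  have h := harmonic_floor_le_one_add_log Q hQ
  rw [harmonic_eq_sum_Icc] at h
  push_cast at h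
  simpa [one_div] using h

/-- the vectors `(w, y)` such that `det (w, y)` divides `G w`, and `w.2 ≠ 0` -/
theorem fiber_one {ε : ℝ} (hε : 0 < ε) : ∃ C : ℝ, 0 < C ∧
    ∀ (G : ℤ → ℤ → ℤ) (P Q M : ℝ) (S : Finset (ℤ × ℤ × ℤ × ℤ)), 1 ≤ Q → Q ≤ P → 1 ≤ M →
      (∀ s ∈ S, s.2.1 ≠ 0 ∧ |(s.1 : ℝ)| ≤ P ∧ |(s.2.1 : ℝ)| ≤ Q ∧ |(s.2.2.2 : ℝ)| ≤ Q ∧
        (s.1 * s.2.2.2 - s.2.1 * s.2.2.1) ∣ G s.1 s.2.1 ∧ G s.1 s.2.1 ≠ 0 ∧
        |(G s.1 s.2.1 : ℝ)| ≤ M) →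
      (S.card : ℝ) ≤ C * M ^ ε * (P * Q) * (1 + Real.log Q) ^ 2 := by
  classical
  obtain ⟨C, hC, hdiv⟩ := Pool.Agent.H510R2.divisor_bound ε hε
  refine ⟨36 * C, by positivity, ?_⟩
  intro G P Q M S hQ hP hM hS
  have hQ0 : 0 < Q := by linarith
  have hP0 : 0 < P := by linarith
  have hM0 : 0 < M := by linarith
  have hMe : 0 < M ^ ε := Real.rpow_pos_of_pos hM0 _
  set φ : ℤ × ℤ × ℤ × ℤ → ℕ × ℕ := fun s =>
    (Int.gcd s.1 s.2.1, (s.2.1 / (Int.gcd s.1 s.2.1 : ℤ)).natAbs) with hφ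
  -- the basic facts on the gcd
  have key : ∀ s ∈ S, 1 ≤ Int.gcd s.1 s.2.1 ∧ ∃ k n : ℤ, s.1 = (Int.gcd s.1 s.2.1 : ℤ) * k ∧
      s.2.1 = (Int.gcd s.1 s.2.1 : ℤ) * n ∧ n ≠ 0 ∧ (φ s).2 = n.natAbs ∧ IsCoprime n k := by
    intro s hs
    obtain ⟨h0, -⟩ := hS s hs
    have hg : 0 < Int.gcd s.1 s.2.1 := Int.gcd_pos_of_ne_zero_right _ h0
    have hgz : (Int.gcd s.1 s.2.1 : ℤ) ≠ 0 := by exact_mod_cast hg.ne'
    refine ⟨hg, s.1 / (Int.gcd s.1 s.2.1 : ℤ), s.2.1 / (Int.gcd s.1 s.2.1 : ℤ), ?_, ?_, ?_, rfl,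
      ?_⟩
    · exact (Int.mul_ediv_cancel' (Int.gcd_dvd_left _ _)).symm
    · exact (Int.mul_ediv_cancel' (Int.gcd_dvd_right _ _)).symm
    · intro h
      apply h0
      rw [← Int.mul_ediv_cancel' (Int.gcd_dvd_right s.1 s.2.1), h, mul_zero]
    · rw [Int.isCoprime_iff_gcd_eq_one, Int.gcd_comm]
      exact Int.gcd_ediv_gcd_ediv_gcd hg
  have hmaps : ∀ s ∈ S, φ s ∈ Finset.Icc 1 ⌊Q⌋₊ ×ˢ Finset.Icc 1 ⌊Q⌋₊ := by
    intro s hs
    obtain ⟨h1, k, n, h2, h3, h4, h5, -⟩ := key s hs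
    obtain ⟨h0, -, h6, -⟩ := hS s hs
    have h7 : (Int.gcd s.1 s.2.1 : ℝ) * |(n : ℝ)| ≤ Q := by
      have h6' : |(((Int.gcd s.1 s.2.1 : ℤ) * n : ℤ) : ℝ)| ≤ Q := by
        rw [← h3]
        exact h6
      rwa [Int.cast_mul, Int.cast_natCast, abs_mul, Nat.abs_cast] at h6'
    have h8 : (1 : ℝ) ≤ |(n : ℝ)| := by exact_mod_cast Int.one_le_abs h4
    have h9 : (1 : ℝ) ≤ (Int.gcd s.1 s.2.1 : ℝ) := by exact_mod_cast h1
    rw [Finset.mem_product, Finset.mem_Icc, Finset.mem_Icc]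
    refine ⟨⟨h1, Nat.le_floor ?_⟩, ?_, Nat.le_floor ?_⟩
    · show ((Int.gcd s.1 s.2.1 : ℕ) : ℝ) ≤ Q
      nlinarith
    · rw [h5]
      exact Int.natAbs_pos.2 h4
    · rw [h5, Nat.cast_natAbs, Int.cast_abs]
      nlinarith
  have hfib : ∀ b ∈ Finset.Icc 1 ⌊Q⌋₊ ×ˢ Finset.Icc 1 ⌊Q⌋₊,
      ((S.filter fun s => φ s = b).card : ℝ) ≤
        36 * C * M ^ ε * (P * Q) * ((1 / (b.1 : ℝ)) * (1 / (b.2 : ℝ))) := by
    rintro ⟨e, ν⟩ hb
    rw [Finset.mem_product, Finset.mem_Icc, Finset.mem_Icc] at hb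
    obtain ⟨⟨he1, he2⟩, hν1, hν2⟩ := hb
    simp only at he1 he2 hν1 hν2 ⊢
    have he0 : (0 : ℝ) < e := by exact_mod_cast he1
    have hν0 : (0 : ℝ) < ν := by exact_mod_cast hν1
    have heQ : (e : ℝ) ≤ Q := (Nat.cast_le.2 he2).trans (Nat.floor_le hQ0.le)
    have hνQ : (ν : ℝ) ≤ Q := (Nat.cast_le.2 hν2).trans (Nat.floor_le hQ0.le)
    set F := S.filter fun s => φ s = (e, ν) with hF
    have hFm : ∀ s ∈ F, s ∈ S ∧ (Int.gcd s.1 s.2.1) = e ∧ ∃ k n : ℤ, s.1 = (e : ℤ) * k ∧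
        s.2.1 = (e : ℤ) * n ∧ n ≠ 0 ∧ n.natAbs = ν ∧ IsCoprime n k := by
      intro s hs
      obtain ⟨hsS, hsφ⟩ := Finset.mem_filter.1 hs
      obtain ⟨-, k, n, h2, h3, h4, h5, h6⟩ := key s hsS
      have h7 : Int.gcd s.1 s.2.1 = e := congrArg Prod.fst hsφ
      have h8 : (φ s).2 = ν := congrArg Prod.snd hsφ
      rw [h7] at h2 h3
      exact ⟨hsS, h7, k, n, h2, h3, h4, h5.symm.trans h8, h6⟩
    have h1 := card_le_real F (fun s => (s.1, s.2.1)) (2 * (C * M ^ ε) * (3 * Q / ν)) (by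
      rintro ⟨w1, w2⟩ hw
      obtain ⟨s0, hs0, hs0w⟩ := Finset.mem_image.1 hw
      obtain ⟨e1, e2⟩ := Prod.ext_iff.1 hs0w
      simp only at e1 e2
      obtain ⟨hs0S, -, k, n, hk, hn, hn0, hnν, hco⟩ := hFm s0 hs0
      obtain ⟨hw20, -, -, -, -, hG0, hGM⟩ := hS s0 hs0S
      rw [e1, e2] at hG0 hGM
      rw [e1] at hk
      rw [e2] at hn hw20
      set F' := F.filter fun s => (s.1, s.2.1) = (w1, w2) with hF'
      have hF'm : ∀ s ∈ F', s ∈ S ∧ s.1 = w1 ∧ s.2.1 = w2 := by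
        intro s hs
        obtain ⟨hsF, hsw⟩ := Finset.mem_filter.1 hs
        obtain ⟨f1, f2⟩ := Prod.ext_iff.1 hsw
        exact ⟨(hFm s hsF).1, f1, f2⟩
      have h2 := card_le_real F' (fun s => s.1 * s.2.2.2 - s.2.1 * s.2.2.1) (3 * Q / ν) (by
        intro m hm
        set F'' := F'.filter fun s => s.1 * s.2.2.2 - s.2.1 * s.2.2.1 = m with hF''
        have hinj : Set.InjOn (fun s : ℤ × ℤ × ℤ × ℤ => (s.2.2.1, s.2.2.2)) (F'' : Set _) := by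
          intro s hs s' hs' h
          obtain ⟨g1, -⟩ := Finset.mem_filter.1 (Finset.mem_coe.1 hs)
          obtain ⟨g2, -⟩ := Finset.mem_filter.1 (Finset.mem_coe.1 hs')
          obtain ⟨-, g3, g4⟩ := hF'm s g1
          obtain ⟨-, g5, g6⟩ := hF'm s' g2
          obtain ⟨g7, g8⟩ := Prod.ext_iff.1 h
          exact Prod.ext (g3.trans g5.symm) (Prod.ext (g4.trans g6.symm) (Prod.ext g7 g8))
        rw [← Finset.card_image_of_injOn hinj]
        refine (card_partner (m := m) hw20 hk hn hco hQ0.le _ ?_).trans ?_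
        · intro y hy
          obtain ⟨s, hs, rfl⟩ := Finset.mem_image.1 hy
          obtain ⟨g1, g2⟩ := Finset.mem_filter.1 hs
          obtain ⟨g3, g4, g5⟩ := hF'm s g1
          rw [g4, g5] at g2
          exact ⟨g2, (hS s g3).2.2.2.1⟩
        · have habs : |(n : ℝ)| = (ν : ℝ) := by
            rw [← hnν, Nat.cast_natAbs, Int.cast_abs]
          rw [habs]
          have : 1 ≤ Q / ν := by
            rw [le_div_iff₀ hν0]
            linarith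
          have h3 : 3 * Q / ν = 2 * Q / ν + Q / ν := by ring
          rw [h3]
          linarith)
      have h3 := card_dvd hC hε hdiv hG0 hGM (F'.image fun s => s.1 * s.2.2.2 - s.2.1 * s.2.2.1)
        (by
          intro m hm
          obtain ⟨s, hs, rfl⟩ := Finset.mem_image.1 hm
          obtain ⟨g3, g4, g5⟩ := hF'm s hs
          have := (hS s g3).2.2.2.2.1
          rw [g4, g5] at this
          rw [g4, g5]
          exact this)
      calc (F'.card : ℝ) ≤ _ := h2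
        _ ≤ (3 * Q / ν) * (2 * (C * M ^ ε)) := by gcongr
        _ = _ := by ring)
    have h4 : ((F.image fun s => (s.1, s.2.1)).card : ℝ) ≤ 6 * P / e := by
      have hsub : (F.image fun s => (s.1, s.2.1)) ⊆
          (F.image fun s => s.1) ×ˢ ({(e : ℤ) * ν, -((e : ℤ) * ν)} : Finset ℤ) := by
        intro x hx
        obtain ⟨s, hs, rfl⟩ := Finset.mem_image.1 hx
        obtain ⟨-, -, k, n, hk, hn, hn0, hnν, hco⟩ := hFm s hs
        rw [Finset.mem_product]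
        refine ⟨Finset.mem_image_of_mem _ hs, ?_⟩
        show s.2.1 ∈ _
        rw [hn, ← hnν, Finset.mem_insert, Finset.mem_singleton]
        rcases Int.natAbs_eq n with h | h
        · left
          rw [← h]
        · right
          have h' : (n.natAbs : ℤ) = -n := by omega
          rw [h']
          ring
      have h5 := card_class e he1 P hP0.le (F.image fun s => s.1) (by
        intro y hy
        obtain ⟨s, hs, rfl⟩ := Finset.mem_image.1 hy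
        exact (hS s (hFm s hs).1).2.1) (by
        intro y hy y' hy'
        obtain ⟨s, hs, rfl⟩ := Finset.mem_image.1 hy
        obtain ⟨s', hs', rfl⟩ := Finset.mem_image.1 hy'
        obtain ⟨-, -, k, n, hk, -⟩ := hFm s hs
        obtain ⟨-, -, k', n', hk', -⟩ := hFm s' hs'
        rw [hk, hk', ← mul_sub]
        exact dvd_mul_right _ _)
      have h6 := Finset.card_le_card hsub
      rw [Finset.card_product] at h6
      have h7 : ({(e : ℤ) * ν, -((e : ℤ) * ν)} : Finset ℤ).card ≤ 2 := Finset.card_le_two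
      have h8 : ((F.image fun s => (s.1, s.2.1)).card : ℝ) ≤
          ((F.image fun s => s.1).card : ℝ) * 2 := by
        exact_mod_cast h6.trans (Nat.mul_le_mul_left _ h7)
      have h9 : 1 ≤ P / e := by
        rw [le_div_iff₀ he0]
        linarith
      have h10 : 6 * P / e = 6 * (P / e) := by ring
      have h11 : 2 * P / e = 2 * (P / e) := by ring
      rw [h11] at h5
      rw [h10]
      linarith
    calc (F.card : ℝ) ≤ _ := h1
      _ ≤ 2 * (C * M ^ ε) * (3 * Q / ν) * (6 * P / e) := by gcongr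
      _ = _ := by
        field_simp
        ring
  rw [Finset.card_eq_sum_card_fiberwise hmaps]
  push_cast
  refine (Finset.sum_le_sum hfib).trans ?_
  have hs : ∑ b ∈ Finset.Icc 1 ⌊Q⌋₊ ×ˢ Finset.Icc 1 ⌊Q⌋₊, ((1 / (b.1 : ℝ)) * (1 / (b.2 : ℝ))) =
      (∑ k ∈ Finset.Icc 1 ⌊Q⌋₊, 1 / (k : ℝ)) * ∑ k ∈ Finset.Icc 1 ⌊Q⌋₊, 1 / (k : ℝ) := by
    rw [Finset.sum_mul_sum, Finset.sum_product]
  rw [← Finset.mul_sum, hs]
  have h1 := sum_inv_le hQ
  have h3 : 0 ≤ 1 + Real.log Q := by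
    have := Real.log_nonneg hQ
    linarith
  have h2 : 0 ≤ ∑ k ∈ Finset.Icc 1 ⌊Q⌋₊, 1 / (k : ℝ) := Finset.sum_nonneg fun k _ => by positivity
  rw [sq]
  gcongr

/-- the vectors `(u, v)` such that `det (u, v)` divides `G u` and `G v` -/
theorem fiber_two {ε : ℝ} (hε : 0 < ε) : ∃ C : ℝ, 0 < C ∧
    ∀ (G : ℤ → ℤ → ℤ) (P Q M : ℝ) (S : Finset (ℤ × ℤ × ℤ × ℤ)), 1 ≤ Q → Q ≤ P → 1 ≤ M →
      (∀ s ∈ S, |(s.1 : ℝ)| ≤ P ∧ |(s.2.1 : ℝ)| ≤ Q ∧ |(s.2.2.1 : ℝ)| ≤ P ∧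
        |(s.2.2.2 : ℝ)| ≤ Q ∧
        (s.1 * s.2.2.2 - s.2.1 * s.2.2.1) ∣ G s.1 s.2.1 ∧ G s.1 s.2.1 ≠ 0 ∧
        |(G s.1 s.2.1 : ℝ)| ≤ M ∧
        (s.1 * s.2.2.2 - s.2.1 * s.2.2.1) ∣ G s.2.2.1 s.2.2.2 ∧ G s.2.2.1 s.2.2.2 ≠ 0 ∧
        |(G s.2.2.1 s.2.2.2 : ℝ)| ≤ M) →
      (S.card : ℝ) ≤ C * M ^ ε * (P * Q) * (1 + Real.log Q) ^ 2 := by
  classical
  obtain ⟨C, hC, h1⟩ := fiber_one hε
  refine ⟨2 * C, by positivity, ?_⟩
  intro G P Q M S hQ hP hM hS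
  have hsplit : S.card = (S.filter fun s => s.2.1 ≠ 0).card +
      (S.filter fun s => ¬ s.2.1 ≠ 0).card :=
    (Finset.card_filter_add_card_filter_not (s := S) (fun s => s.2.1 ≠ 0)).symm
  have h2 := h1 G P Q M (S.filter fun s => s.2.1 ≠ 0) hQ hP hM (by
    intro s hs
    obtain ⟨g1, g2⟩ := Finset.mem_filter.1 hs
    obtain ⟨k1, k2, k3, k4, k5, k6, k7, k8, k9, k10⟩ := hS s g1
    exact ⟨g2, k1, k2, k4, k5, k6, k7⟩)
  have hinj : Function.Injective (fun s : ℤ × ℤ × ℤ × ℤ => (s.2.2.1, s.2.2.2, s.1, s.2.1)) := by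
    rintro ⟨a, b, c, d⟩ ⟨a', b', c', d'⟩ h
    simp only [Prod.mk.injEq] at h ⊢
    tauto
  have h3 := h1 G P Q M ((S.filter fun s => ¬ s.2.1 ≠ 0).image
      (fun s : ℤ × ℤ × ℤ × ℤ => (s.2.2.1, s.2.2.2, s.1, s.2.1))) hQ hP hM (by
    intro s' hs'
    obtain ⟨s, hs, rfl⟩ := Finset.mem_image.1 hs'
    obtain ⟨g1, g2⟩ := Finset.mem_filter.1 hs
    obtain ⟨k1, k2, k3, k4, k5, k6, k7, k8, k9, k10⟩ := hS s g1
    simp only
    push Not at g2
    refine ⟨?_, k3, k4, k2, ?_, k9, k10⟩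
    · intro h
      rw [g2, h] at k5
      simp only [mul_zero, zero_mul, sub_zero, zero_dvd_iff] at k5
      rw [g2] at k6
      exact k6 k5
    · have e1 : s.2.2.1 * s.2.1 - s.2.2.2 * s.1 = -(s.1 * s.2.2.2 - s.2.1 * s.2.2.1) := by ring
      rw [e1]
      exact (neg_dvd).2 k8)
  rw [Finset.card_image_of_injective _ hinj] at h3
  rw [hsplit]
  push_cast
  have e2 : 2 * C * M ^ ε * (P * Q) * (1 + Real.log Q) ^ 2 =
      C * M ^ ε * (P * Q) * (1 + Real.log Q) ^ 2 + C * M ^ ε * (P * Q) * (1 + Real.log Q) ^ 2 := by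
    ring
  rw [e2]
  exact add_le_add h2 h3

end Pool.Agent.H88.CP
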