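import Pool.Agent.H88.CP0

/-!
# Counting the binary cubic forms which are represented by a reduced index form
-/

set_option autoImplicit false

namespace Pool.Agent.H88.CP

open Finset

/-- the value of a binary cubic form -/
def cub (f : ℤ × ℤ × ℤ × ℤ) (x y : ℤ) : ℤ :=
  f.1 * x ^ 3 + f.2.1 * x ^ 2 * y + f.2.2.1 * x * y ^ 2 + f.2.2.2 * y ^ 3

/-- the form `f` is obtained from the reduced form `g` -/
structure Rep (R W : ℝ) (f g u : ℤ × ℤ × ℤ × ℤ) (X1 X2 : ℝ) : Prop where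
  one_le : 1 ≤ X1
  le : X1 ≤ X2
  mul_le : X1 * X2 ≤ W
  g0 : g.1 ≠ 0
  b0 : |(g.1 : ℝ)| * X2 ≤ 2 * X1 ^ 2
  b1 : |(g.2.1 : ℝ)| ≤ 6 * X1
  b2 : |(g.2.2.1 : ℝ)| ≤ 6 * X2
  b3 : |(g.2.2.2 : ℝ)| * X1 ≤ 2 * X2 ^ 2
  u1 : |(u.1 : ℝ)| * X1 ≤ R
  u2 : |(u.2.1 : ℝ)| * X2 ≤ R
  v1 : |(u.2.2.1 : ℝ)| * X1 ≤ R
  v2 : |(u.2.2.2 : ℝ)| * X2 ≤ R
  rel : ∀ x y : ℤ, cub g (x * u.1 + y * u.2.2.1) (x * u.2.1 + y * u.2.2.2) =
    (u.1 * u.2.2.2 - u.2.1 * u.2.2.1) * cub f x y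
  det_ne : u.1 * u.2.2.2 - u.2.1 * u.2.2.1 ≠ 0
  a_ne : f.1 ≠ 0
  d_ne : f.2.2.2 ≠ 0

/-- the values of the reduced form at short vectors -/
theorem cub_le {g : ℤ × ℤ × ℤ × ℤ} {X1 X2 R : ℝ} (h1 : 1 ≤ X1) (h2 : X1 ≤ X2)
    (b0 : |(g.1 : ℝ)| * X2 ≤ 2 * X1 ^ 2) (b1 : |(g.2.1 : ℝ)| ≤ 6 * X1)
    (b2 : |(g.2.2.1 : ℝ)| ≤ 6 * X2) (b3 : |(g.2.2.2 : ℝ)| * X1 ≤ 2 * X2 ^ 2) {x y : ℤ}
    (hx : |(x : ℝ)| * X1 ≤ R) (hy : |(y : ℝ)| * X2 ≤ R) :
    |(cub g x y : ℝ)| ≤ 16 * R ^ 3 := by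
  have hX1 : 0 < X1 := by linarith
  have hX2 : 0 < X2 := by linarith
  have hR : 0 ≤ R := le_trans (by positivity) hx
  have hXX : 1 ≤ X1 * X2 := by nlinarith
  have e0 : |(g.1 : ℝ) * x ^ 3| ≤ 2 * R ^ 3 := by
    rw [abs_mul, abs_pow]
    calc |(g.1 : ℝ)| * |(x : ℝ)| ^ 3 ≤ (|(g.1 : ℝ)| * |(x : ℝ)| ^ 3) * (X1 * X2) :=
          le_mul_of_one_le_right (by positivity) hXX
      _ = (|(g.1 : ℝ)| * X2) * (|(x : ℝ)| ^ 3 * X1) := by ring
      _ ≤ (2 * X1 ^ 2) * (|(x : ℝ)| ^ 3 * X1) := by gcongr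
      _ = 2 * (|(x : ℝ)| * X1) ^ 3 := by ring
      _ ≤ 2 * R ^ 3 := by gcongr
  have e1 : |(g.2.1 : ℝ) * x ^ 2 * y| ≤ 6 * R ^ 3 := by
    rw [abs_mul, abs_mul, abs_pow]
    calc |(g.2.1 : ℝ)| * |(x : ℝ)| ^ 2 * |(y : ℝ)| ≤
          (|(g.2.1 : ℝ)| * |(x : ℝ)| ^ 2 * |(y : ℝ)|) * (X1 * X2) :=
          le_mul_of_one_le_right (by positivity) hXX
      _ ≤ ((6 * X1) * |(x : ℝ)| ^ 2 * |(y : ℝ)|) * (X1 * X2) := by gcongr
      _ = 6 * (|(x : ℝ)| * X1) ^ 2 * (|(y : ℝ)| * X2) := by ring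
      _ ≤ 6 * R ^ 2 * R := by gcongr
      _ = 6 * R ^ 3 := by ring
  have e2 : |(g.2.2.1 : ℝ) * x * y ^ 2| ≤ 6 * R ^ 3 := by
    rw [abs_mul, abs_mul, abs_pow]
    calc |(g.2.2.1 : ℝ)| * |(x : ℝ)| * |(y : ℝ)| ^ 2 ≤
          (|(g.2.2.1 : ℝ)| * |(x : ℝ)| * |(y : ℝ)| ^ 2) * (X1 * X2) :=
          le_mul_of_one_le_right (by positivity) hXX
      _ ≤ ((6 * X2) * |(x : ℝ)| * |(y : ℝ)| ^ 2) * (X1 * X2) := by gcongr
      _ = 6 * (|(x : ℝ)| * X1) * (|(y : ℝ)| * X2) ^ 2 := by ring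
      _ ≤ 6 * R * R ^ 2 := by gcongr
      _ = 6 * R ^ 3 := by ring
  have e3 : |(g.2.2.2 : ℝ) * y ^ 3| ≤ 2 * R ^ 3 := by
    rw [abs_mul, abs_pow]
    calc |(g.2.2.2 : ℝ)| * |(y : ℝ)| ^ 3 ≤ (|(g.2.2.2 : ℝ)| * |(y : ℝ)| ^ 3) * (X1 * X2) :=
          le_mul_of_one_le_right (by positivity) hXX
      _ = (|(g.2.2.2 : ℝ)| * X1) * (|(y : ℝ)| ^ 3 * X2) := by ring
      _ ≤ (2 * X2 ^ 2) * (|(y : ℝ)| ^ 3 * X2) := by gcongr
      _ = 2 * (|(y : ℝ)| * X2) ^ 3 := by ring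
      _ ≤ 2 * R ^ 3 := by gcongr
  have e4 : (cub g x y : ℝ) = (g.1 : ℝ) * x ^ 3 + (g.2.1 : ℝ) * x ^ 2 * y +
      (g.2.2.1 : ℝ) * x * y ^ 2 + (g.2.2.2 : ℝ) * y ^ 3 := by
    unfold cub
    push_cast
    ring
  rw [e4]
  refine (abs_add_le _ _).trans ?_
  have f1 := abs_add_le ((g.1 : ℝ) * x ^ 3 + (g.2.1 : ℝ) * x ^ 2 * y) ((g.2.2.1 : ℝ) * x * y ^ 2)
  have f2 := abs_add_le ((g.1 : ℝ) * x ^ 3) ((g.2.1 : ℝ) * x ^ 2 * y)
  linarith

/-- a cubic form is determined by four of its values -/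
theorem cub_inj {f f' : ℤ × ℤ × ℤ × ℤ} (h : ∀ x y : ℤ, cub f x y = cub f' x y) : f = f' := by
  obtain ⟨a, b, c, d⟩ := f
  obtain ⟨a', b', c', d'⟩ := f'
  have h1 := h 1 0
  have h2 := h 0 1
  have h3 := h 1 1
  have h4 := h 1 (-1)
  simp only [cub] at h1 h2 h3 h4
  have e1 : a = a' := by linarith
  have e2 : d = d' := by linarith
  have e3 : b = b' := by
    have : 2 * b = 2 * b' := by linarith
    omega
  have e4 : c = c' := by linarith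
  rw [e1, e2, e3, e4]

/-- `(u, v)` and `g` determine `f` -/
theorem rep_inj {R W : ℝ} {f f' g u : ℤ × ℤ × ℤ × ℤ} {X1 X2 X1' X2' : ℝ}
    (h : Rep R W f g u X1 X2) (h' : Rep R W f' g u X1' X2') : f = f' := by
  refine cub_inj fun x y => ?_
  have h1 := h.rel x y
  have h2 := h'.rel x y
  rw [h1] at h2
  exact mul_left_cancel₀ h.det_ne h2

/-- integers in an interval -/
theorem card_Icc_le {r : ℝ} (hr : 1 ≤ r) : ((Finset.Icc (-⌊r⌋) ⌊r⌋).card : ℝ) ≤ 3 * r := by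
  have h0 : 0 ≤ ⌊r⌋ := Int.floor_nonneg.2 (by linarith)
  rw [Int.card_Icc]
  have h2 : ((⌊r⌋ + 1 - -⌊r⌋).toNat : ℤ) = 2 * ⌊r⌋ + 1 := by
    rw [Int.toNat_of_nonneg (by omega)]
    ring
  have h3 : (((⌊r⌋ + 1 - -⌊r⌋).toNat : ℕ) : ℝ) = 2 * (⌊r⌋ : ℝ) + 1 := by exact_mod_cast h2
  rw [h3]
  have := Int.floor_le r
  linarith

theorem mem_Icc_of {r : ℝ} {x : ℤ} (h : |(x : ℝ)| ≤ r) : x ∈ Finset.Icc (-⌊r⌋) ⌊r⌋ := by
  rw [abs_le] at h
  rw [Finset.mem_Icc]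
  constructor
  · have : -x ≤ ⌊r⌋ := by
      rw [Int.le_floor]
      push_cast
      linarith [h.1]
    omega
  · rw [Int.le_floor]
    exact h.2

/-- the reduced forms in a dyadic range -/
theorem card_red (p q : ℝ) (hp : 1 ≤ p) (hq : p ≤ q) (A : Finset (ℤ × ℤ × ℤ × ℤ))
    (hA : ∀ g ∈ A, g.1 ≠ 0 ∧ |(g.1 : ℝ)| ≤ 8 * (p ^ 2 / q) ∧ |(g.2.1 : ℝ)| ≤ 12 * p ∧
      |(g.2.2.1 : ℝ)| ≤ 12 * q ∧ |(g.2.2.2 : ℝ)| ≤ 8 * (q ^ 2 / p)) :
    (A.card : ℝ) ≤ 746496 * (p * q) ^ 2 := by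
  classical
  rcases A.eq_empty_or_nonempty with rfl | ⟨g, hg⟩
  · rw [Finset.card_empty, Nat.cast_zero]
    positivity
  have hp0 : 0 < p := by linarith
  have hq0 : 0 < q := by linarith
  have h1 : 1 ≤ 8 * (p ^ 2 / q) := by
    obtain ⟨h0, h1, -⟩ := hA g hg
    have : (1 : ℝ) ≤ |(g.1 : ℝ)| := by exact_mod_cast Int.one_le_abs h0
    linarith
  have h4 : 1 ≤ 8 * (q ^ 2 / p) := by
    have : 1 ≤ q ^ 2 / p := by
      rw [le_div_iff₀ hp0]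
      nlinarith
    linarith
  have hsub : A ⊆ Finset.Icc (-⌊8 * (p ^ 2 / q)⌋) ⌊8 * (p ^ 2 / q)⌋ ×ˢ
      (Finset.Icc (-⌊12 * p⌋) ⌊12 * p⌋ ×ˢ (Finset.Icc (-⌊12 * q⌋) ⌊12 * q⌋ ×ˢ
        Finset.Icc (-⌊8 * (q ^ 2 / p)⌋) ⌊8 * (q ^ 2 / p)⌋)) := by
    intro g hg
    obtain ⟨-, k1, k2, k3, k4⟩ := hA g hg
    exact Finset.mem_product.2 ⟨mem_Icc_of k1, Finset.mem_product.2 ⟨mem_Icc_of k2,
      Finset.mem_product.2 ⟨mem_Icc_of k3, mem_Icc_of k4⟩⟩⟩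
  have h5 := Finset.card_le_card hsub
  rw [Finset.card_product, Finset.card_product, Finset.card_product] at h5
  have c1 := card_Icc_le h1
  have c2 := card_Icc_le (r := 12 * p) (by linarith)
  have c3 := card_Icc_le (r := 12 * q) (by linarith)
  have c4 := card_Icc_le h4
  have h6 : (A.card : ℝ) ≤ ((Finset.Icc (-⌊8 * (p ^ 2 / q)⌋) ⌊8 * (p ^ 2 / q)⌋).card : ℝ) *
      (((Finset.Icc (-⌊12 * p⌋) ⌊12 * p⌋).card : ℝ) * (((Finset.Icc (-⌊12 * q⌋) ⌊12 * q⌋).card : ℝ) *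
        ((Finset.Icc (-⌊8 * (q ^ 2 / p)⌋) ⌊8 * (q ^ 2 / p)⌋).card : ℝ))) := by
    exact_mod_cast h5
  refine h6.trans ?_
  calc _ ≤ (3 * (8 * (p ^ 2 / q))) * ((3 * (12 * p)) * ((3 * (12 * q)) *
        (3 * (8 * (q ^ 2 / p))))) := by gcongr
    _ = 746496 * (p * q) ^ 2 := by
      field_simp
      ring

theorem log_pow_le {ε : ℝ} (hε : 0 < ε) : ∃ C : ℝ, 0 < C ∧ ∀ R : ℝ, 1 ≤ R →
    (1 + Real.log R) ^ 4 ≤ C * R ^ ε := by
  refine ⟨(1 + 4 / ε) ^ 4, by positivity, fun R hR => ?_⟩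
  have hR0 : 0 < R := by linarith
  have h1 : Real.log R ≤ R ^ (ε / 4) / (ε / 4) := Real.log_le_rpow_div hR0.le (by positivity)
  have h2 : 1 ≤ R ^ (ε / 4) := Real.one_le_rpow hR (by positivity)
  have h3 : 1 + Real.log R ≤ (1 + 4 / ε) * R ^ (ε / 4) := by
    have e : R ^ (ε / 4) / (ε / 4) = 4 / ε * R ^ (ε / 4) := by
      field_simp
    rw [e] at h1
    nlinarith
  have h4 : 0 ≤ 1 + Real.log R := by
    have := Real.log_nonneg hR
    linarith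
  calc (1 + Real.log R) ^ 4 ≤ ((1 + 4 / ε) * R ^ (ε / 4)) ^ 4 := by gcongr
    _ = (1 + 4 / ε) ^ 4 * R ^ ε := by
      rw [mul_pow, ← Real.rpow_natCast (R ^ (ε / 4)) 4, ← Real.rpow_mul hR0.le]
      congr 2
      push_cast
      ring

/-- the number of forms which are represented by a reduced form -/
theorem cnt {ε : ℝ} (hε : 0 < ε) : ∃ D : ℝ, 0 < D ∧ ∀ (R W : ℝ) (F : Finset (ℤ × ℤ × ℤ × ℤ)),
    1 ≤ R → 1 ≤ W → (∀ f ∈ F, ∃ g u X1 X2, Rep R W f g u X1 X2) →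
      (F.card : ℝ) ≤ D * R ^ (2 + ε) * W := by
  classical
  obtain ⟨C1, hC1, hfib⟩ := fiber_two (ε := ε / 6) (by positivity)
  obtain ⟨C2, hC2, hlog⟩ := log_pow_le (ε := ε / 2) (by positivity)
  refine ⟨4 * (746496 * C1 * 16 ^ (ε / 6)) * C2, by positivity, ?_⟩
  intro R W F hR hW hF
  have hR0 : 0 < R := by linarith
  have hW0 : 0 < W := by linarith
  have hex : ∀ f : ℤ × ℤ × ℤ × ℤ, ∃ (g u : ℤ × ℤ × ℤ × ℤ) (X1 X2 : ℝ) (i j : ℕ), f ∈ F →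
      Rep R W f g u X1 X2 ∧ 2 ^ i ≤ X1 ∧ X1 < 2 ^ (i + 1) ∧ 2 ^ j ≤ X2 ∧ X2 < 2 ^ (j + 1) := by
    intro f
    by_cases hf : f ∈ F
    · obtain ⟨g, u, X1, X2, h⟩ := hF f hf
      obtain ⟨i, hi1, hi2⟩ := exists_nat_pow_near h.one_le (by norm_num : (1 : ℝ) < 2)
      obtain ⟨j, hj1, hj2⟩ := exists_nat_pow_near (h.one_le.trans h.le) (by norm_num : (1 : ℝ) < 2)
      exact ⟨g, u, X1, X2, i, j, fun _ => ⟨h, hi1, hi2, hj1, hj2⟩⟩
    · exact ⟨0, 0, 0, 0, 0, 0, fun h => absurd h hf⟩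
  choose g u X1 X2 i j hd using hex
  -- the ranges of `i` and `j`
  have hrange : ∀ f ∈ F, i f ≤ j f ∧ 1 ≤ R / 2 ^ (j f) ∧ (2 : ℝ) ^ (i f + j f) ≤ W := by
    intro f hf
    obtain ⟨h, hi1, hi2, hj1, hj2⟩ := hd f hf
    refine ⟨?_, ?_, ?_⟩
    · have : (2 : ℝ) ^ (i f) < 2 ^ (j f + 1) := lt_of_le_of_lt (hi1.trans h.le) hj2
      have := (pow_lt_pow_iff_right₀ (by norm_num : (1 : ℝ) < 2)).1 this
      omega
    · have hX2 : 0 < X2 f := by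
        have := h.one_le
        have := h.le
        linarith
      have h1 : X2 f ≤ R := by
        by_cases h0 : (u f).2.1 = 0
        · have h0' : (u f).2.2.2 ≠ 0 := by
            intro h0'
            apply h.det_ne
            rw [h0, h0']
            ring
          have h2 := h.v2
          have h3 : (1 : ℝ) ≤ |((u f).2.2.2 : ℝ)| := by exact_mod_cast Int.one_le_abs h0'
          nlinarith
        · have h2 := h.u2
          have h3 : (1 : ℝ) ≤ |((u f).2.1 : ℝ)| := by exact_mod_cast Int.one_le_abs h0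
          nlinarith
      rw [le_div_iff₀ (by positivity)]
      linarith
    · rw [pow_add]
      refine le_trans ?_ h.mul_le
      have := h.one_le
      gcongr
  set N : ℕ := ⌊2 * Real.log R⌋₊ with hN
  have hlR : 0 ≤ Real.log R := Real.log_nonneg hR
  have hmaps : ∀ f ∈ F, (i f, j f) ∈ Finset.range (N + 1) ×ˢ Finset.range (N + 1) := by
    intro f hf
    obtain ⟨h1, h2, -⟩ := hrange f hf
    have h3 : j f ≤ N := by
      rw [hN]
      apply Nat.le_floor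
      rw [le_div_iff₀ (by positivity), one_mul] at h2
      have h4 := Real.log_le_log (by positivity) h2
      rw [Real.log_pow] at h4
      have h5 := Real.log_two_gt_d9
      have h6 : (0 : ℝ) ≤ (j f : ℝ) := Nat.cast_nonneg _
      nlinarith
    rw [Finset.mem_product, Finset.mem_range, Finset.mem_range]
    constructor
    · show i f < N + 1
      omega
    · show j f < N + 1
      omega
  have hbox : ∀ b ∈ Finset.range (N + 1) ×ˢ Finset.range (N + 1),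
      ((F.filter fun f => (i f, j f) = b).card : ℝ) ≤
        (746496 * C1 * 16 ^ (ε / 6)) * (R ^ (2 + ε / 2) * W * (1 + Real.log R) ^ 2) := by
    rintro ⟨i0, j0⟩ -
    set F1 := F.filter fun f => (i f, j f) = (i0, j0) with hF1
    rcases F1.eq_empty_or_nonempty with hemp | ⟨f1, hf1⟩
    · rw [hemp, Finset.card_empty, Nat.cast_zero]
      positivity
    have hF1m : ∀ f ∈ F1, f ∈ F ∧ i f = i0 ∧ j f = j0 := by
      intro f hf
      obtain ⟨h1, h2⟩ := Finset.mem_filter.1 hf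
      exact ⟨h1, congrArg Prod.fst h2, congrArg Prod.snd h2⟩
    obtain ⟨k1, k2, k3⟩ := hF1m f1 hf1
    obtain ⟨m1, m2, m3⟩ := hrange f1 k1
    rw [k2, k3] at m1 m3
    rw [k3] at m2
    obtain ⟨p, hp⟩ : ∃ p : ℝ, p = 2 ^ i0 := ⟨_, rfl⟩
    obtain ⟨q, hq⟩ : ∃ q : ℝ, q = 2 ^ j0 := ⟨_, rfl⟩
    have hp1 : 1 ≤ p := by rw [hp]; exact one_le_pow₀ (by norm_num)
    have hpq : p ≤ q := by rw [hp, hq]; exact pow_le_pow_right₀ (by norm_num) m1
    have hp0 : 0 < p := by linarith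
    have hq0 : 0 < q := by linarith
    rw [← hq] at m2
    rw [pow_add, ← hp, ← hq] at m3
    have hF1d : ∀ f ∈ F1, Rep R W f (g f) (u f) (X1 f) (X2 f) ∧ p ≤ X1 f ∧ X1 f ≤ 2 * p ∧
        q ≤ X2 f ∧ X2 f ≤ 2 * q := by
      intro f hf
      obtain ⟨k1, k2, k3⟩ := hF1m f hf
      obtain ⟨h, hi1, hi2, hj1, hj2⟩ := hd f k1
      rw [k2] at hi1 hi2
      rw [k3] at hj1 hj2
      rw [pow_succ] at hi2 hj2
      rw [hp, hq]
      exact ⟨h, hi1, by linarith, hj1, by linarith⟩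
    have hPQ : R / q ≤ R / p := by gcongr
    have h1 := card_le_real F1 g (C1 * (16 * R ^ 3) ^ (ε / 6) * (R / p * (R / q)) *
      (1 + Real.log R) ^ 2) (by
      intro g0 hg0
      set F2 := F1.filter fun f => g f = g0 with hF2
      have hF2m : ∀ f ∈ F2, f ∈ F1 ∧ g f = g0 := fun f hf => Finset.mem_filter.1 hf
      have hinj : Set.InjOn u (F2 : Set _) := by
        intro f hf f' hf' h
        obtain ⟨a1, a2⟩ := hF2m f (Finset.mem_coe.1 hf)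
        obtain ⟨b1, b2⟩ := hF2m f' (Finset.mem_coe.1 hf')
        have c1 := (hF1d f a1).1
        have c2 := (hF1d f' b1).1
        rw [a2] at c1
        rw [b2, ← h] at c2
        exact rep_inj c1 c2
      rw [← Finset.card_image_of_injOn hinj]
      refine (hfib (cub g0) (R / p) (R / q) (16 * R ^ 3) (F2.image u) m2 hPQ (by
        have : 1 ≤ R ^ 3 := one_le_pow₀ hR
        linarith) ?_).trans ?_
      · intro s hs
        obtain ⟨f, hf, rfl⟩ := Finset.mem_image.1 hs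
        obtain ⟨a1, a2⟩ := hF2m f hf
        obtain ⟨h, e1, e2, e3, e4⟩ := hF1d f a1
        rw [a2] at h
        have r1 := h.rel 1 0
        have r2 := h.rel 0 1
        simp only [one_mul, zero_mul, add_zero, zero_add] at r1 r2
        have v1 : cub f 1 0 = f.1 := by simp [cub]
        have v2 : cub f 0 1 = f.2.2.2 := by simp [cub]
        rw [v1] at r1
        rw [v2] at r2
        have hle : ∀ x : ℤ, |(x : ℝ)| * X1 f ≤ R → |(x : ℝ)| ≤ R / p := by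
          intro x hx
          rw [le_div_iff₀ hp0]
          have := abs_nonneg (x : ℝ)
          nlinarith
        have hle' : ∀ x : ℤ, |(x : ℝ)| * X2 f ≤ R → |(x : ℝ)| ≤ R / q := by
          intro x hx
          rw [le_div_iff₀ hq0]
          have := abs_nonneg (x : ℝ)
          nlinarith
        refine ⟨hle _ h.u1, hle' _ h.u2, hle _ h.v1, hle' _ h.v2, ⟨_, r1⟩, ?_, ?_, ⟨_, r2⟩, ?_, ?_⟩
        · rw [r1]
          exact mul_ne_zero h.det_ne h.a_ne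
        · exact cub_le h.one_le h.le h.b0 h.b1 h.b2 h.b3 h.u1 h.u2
        · rw [r2]
          exact mul_ne_zero h.det_ne h.d_ne
        · exact cub_le h.one_le h.le h.b0 h.b1 h.b2 h.b3 h.v1 h.v2
      · have hlq : Real.log (R / q) ≤ Real.log R := by
          apply Real.log_le_log (by positivity)
          rw [div_le_iff₀ hq0]
          nlinarith
        have hlq0 : 0 ≤ Real.log (R / q) := Real.log_nonneg m2
        gcongr)
    have h2 := card_red p q hp1 hpq (F1.image g) (by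
      intro g0 hg0
      obtain ⟨f, hf, rfl⟩ := Finset.mem_image.1 hg0
      obtain ⟨h, e1, e2, e3, e4⟩ := hF1d f hf
      have hX1 : 0 < X1 f := by linarith
      have hX2 : 0 < X2 f := by linarith
      refine ⟨h.g0, ?_, ?_, ?_, ?_⟩
      · have a1 : |((g f).1 : ℝ)| * q ≤ 8 * p ^ 2 := by
          calc |((g f).1 : ℝ)| * q ≤ |((g f).1 : ℝ)| * X2 f := by gcongr
            _ ≤ 2 * (X1 f) ^ 2 := h.b0
            _ ≤ 2 * (2 * p) ^ 2 := by gcongr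
            _ = 8 * p ^ 2 := by ring
        rw [← mul_div_assoc, le_div_iff₀ hq0]
        exact a1
      · have := h.b1
        linarith
      · have := h.b2
        linarith
      · have a1 : |((g f).2.2.2 : ℝ)| * p ≤ 8 * q ^ 2 := by
          calc |((g f).2.2.2 : ℝ)| * p ≤ |((g f).2.2.2 : ℝ)| * X1 f := by gcongr
            _ ≤ 2 * (X2 f) ^ 2 := h.b3
            _ ≤ 2 * (2 * q) ^ 2 := by gcongr
            _ = 8 * q ^ 2 := by ring
        rw [← mul_div_assoc, le_div_iff₀ hp0]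
        exact a1)
    calc (F1.card : ℝ) ≤ _ := h1
      _ ≤ (C1 * (16 * R ^ 3) ^ (ε / 6) * (R / p * (R / q)) * (1 + Real.log R) ^ 2) *
          (746496 * (p * q) ^ 2) := by gcongr
      _ = (746496 * C1) * (16 * R ^ 3) ^ (ε / 6) * (R ^ 2 * (p * q)) * (1 + Real.log R) ^ 2 := by
          field_simp
      _ ≤ (746496 * C1) * (16 * R ^ 3) ^ (ε / 6) * (R ^ 2 * W) * (1 + Real.log R) ^ 2 := by
          gcongr
      _ = (746496 * C1 * 16 ^ (ε / 6)) * (R ^ (2 + ε / 2) * W * (1 + Real.log R) ^ 2) := by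
          rw [Real.mul_rpow (by norm_num) (by positivity), ← Real.rpow_natCast R 3,
            ← Real.rpow_mul hR0.le, Real.rpow_add hR0, Real.rpow_two]
          have : ((3 : ℕ) : ℝ) * (ε / 6) = ε / 2 := by
            push_cast
            ring
          rw [this]
          ring
  rw [Finset.card_eq_sum_card_fiberwise hmaps]
  push_cast
  refine (Finset.sum_le_sum hbox).trans ?_
  rw [Finset.sum_const, Finset.card_product, Finset.card_range, nsmul_eq_mul]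
  have hNle : ((N + 1 : ℕ) : ℝ) ≤ 2 * (1 + Real.log R) := by
    push_cast
    have : (N : ℝ) ≤ 2 * Real.log R := Nat.floor_le (by positivity)
    linarith
  have hl := hlog R hR
  calc (((N + 1) * (N + 1) : ℕ) : ℝ) * ((746496 * C1 * 16 ^ (ε / 6)) *
        (R ^ (2 + ε / 2) * W * (1 + Real.log R) ^ 2))
      = (((N + 1 : ℕ) : ℝ) * ((N + 1 : ℕ) : ℝ)) * ((746496 * C1 * 16 ^ (ε / 6)) *
        (R ^ (2 + ε / 2) * W * (1 + Real.log R) ^ 2)) := by push_cast; ring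
    _ ≤ ((2 * (1 + Real.log R)) * (2 * (1 + Real.log R))) * ((746496 * C1 * 16 ^ (ε / 6)) *
        (R ^ (2 + ε / 2) * W * (1 + Real.log R) ^ 2)) := by gcongr
    _ = 4 * (746496 * C1 * 16 ^ (ε / 6)) * (R ^ (2 + ε / 2) * W) * (1 + Real.log R) ^ 4 := by ring
    _ ≤ 4 * (746496 * C1 * 16 ^ (ε / 6)) * (R ^ (2 + ε / 2) * W) * (C2 * R ^ (ε / 2)) := by
        gcongr
    _ = 4 * (746496 * C1 * 16 ^ (ε / 6)) * C2 * (R ^ (2 + ε / 2) * R ^ (ε / 2)) * W := by ring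
    _ = 4 * (746496 * C1 * 16 ^ (ε / 6)) * C2 * R ^ (2 + ε) * W := by
        rw [← Real.rpow_add hR0]
        congr 3
        ring

end Pool.Agent.H88.CP
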