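import Pool.Agent.H88.CP9
import Pool.Agent.R365.QP.CoprP

/-!
# The number of points of degree three
-/

set_option autoImplicit false

namespace Pool.Agent.H88.CP

open NumberField IsDedekindDomain Finset Pool.Agent.H691R3 Pool.Agent.W223.AK
open Pool.Agent.W222.UABC Pool.Agent.R365.QP

/-- admissible coefficients -/
def Adm3 (p : ℤ × ℤ × ℤ × ℤ) : Prop :=
  p.1 % 2 = 1 ∧ p.2.1 % 2 = 0 ∧ p.2.2.1 % 2 = 0 ∧ p.2.2.2 % 4 = 2 ∧ 0 < p.1 ∧
    IsCoprime p.1 p.2.2.2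

/-- the point attached to admissible coefficients -/
def At3 (T : ℝ) (p : ℤ × ℤ × ℤ × ℤ) (x : AlgebraicClosure ℚ) : Prop :=
  ∃ (K : IntermediateField ℚ (AlgebraicClosure ℚ)) (_ : NumberField K) (y : K),
    (y : AlgebraicClosure ℚ) = x ∧ Module.finrank ℚ K = 3 ∧ (∀ q : ℚ, y ≠ algebraMap ℚ K q) ∧
      (p.1 : K) * (y / (1 - y)) ^ 3 + p.2.1 * (y / (1 - y)) ^ 2 + p.2.2.1 * (y / (1 - y)) +
        p.2.2.2 = 0 ∧
      3 * W222.UABC.height ![y, 1 - y, -1] ≤ Real.log (24 * T)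

theorem exists_at3 {T : ℝ} {p : ℤ × ℤ × ℤ × ℤ} (hp : Adm3 p)
    (h0 : |(p.1 : ℝ)| ≤ T) (h1 : |(p.2.1 : ℝ)| ≤ T) (h2 : |(p.2.2.1 : ℝ)| ≤ T)
    (h3 : |(p.2.2.2 : ℝ)| ≤ T) : ∃ x, At3 T p x := by
  obtain ⟨k1, k2, k3, k4, k5, k6⟩ := hp
  obtain ⟨K, hnf, t, hK, hirr, ht⟩ := root3 k1 k2 k3 k4
  have ht1 : (1 : K) + t ≠ 0 := by
    intro h
    apply hirr (-1)
    rw [map_neg, map_one]
    linear_combination h
  have ht0 : t ≠ 0 := by
    intro h
    apply hirr 0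
    rw [h, map_zero]
  have hPt : Pt t := ⟨ht0, by rwa [add_comm] at ht1⟩
  have hy1 : 1 - t / (1 + t) = 1 / (1 + t) := by
    field_simp
    ring
  have hy : (t / (1 + t)) / (1 - t / (1 + t)) = t := by
    rw [hy1]
    field_simp
  have hne1 : t / (1 + t) ≠ 1 := by
    intro h
    rw [h, sub_self] at hy1
    exact one_div_ne_zero ht1 hy1.symm
  have hirr' : ∀ r : ℚ, t ≠ (r : K) := fun r h => hirr r (by rw [h]; simp)
  refine ⟨((t / (1 + t) : K) : AlgebraicClosure ℚ), K, hnf, t / (1 + t), rfl, hK, ?_, ?_, ?_⟩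
  · intro q hq
    apply hirr (q / (1 - q))
    have h4 : (1 : K) - algebraMap ℚ K q ≠ 0 := by
      rw [← hq]
      exact sub_ne_zero.2 hne1.symm
    rw [map_div₀, map_sub, map_one, ← hq, hy]
  · rw [hy]
    exact ht
  · have h4 := height_le3 hK hne1
    rw [hy] at h4
    have h5 := ht_le3 hK hirr' hPt k5.ne' ht k6 h0 h1 h2 h3
    have hT : 0 < T := lt_of_lt_of_le (abs_pos.2 (by exact_mod_cast k5.ne')) h0
    have h6 : Real.log (24 * T) = Real.log (3 * T) + 3 * Real.log 2 := by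
      have e : (24 : ℝ) * T = 3 * T * 2 ^ 3 := by ring
      rw [e, Real.log_mul (by positivity) (by norm_num), Real.log_pow]
      push_cast
      ring
    linarith

theorem prop3 {K : Type} [Field K] [NumberField K] (hK : Module.finrank ℚ K = 3) {t : K}
    (hirr : ∀ r : ℚ, t ≠ (r : K)) {u v w : ℤ} (h : (u : K) * t ^ 2 + v * t + w = 0) :
    u = 0 ∧ v = 0 ∧ w = 0 := by
  classical
  obtain ⟨s⟩ : Nonempty (Fin 3 ≃ (K →+* ℂ)) := by
    apply Fintype.card_eq.1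
    rw [Embeddings.card, hK, Fintype.card_fin]
  have hroot : ∀ i : Fin 3, (u : ℂ) * (s i t) ^ 2 + v * (s i t) + w = 0 := by
    intro i
    have h1 := congrArg (s i) h
    simpa using h1
  have h01 : s 0 t ≠ s 1 t := emb_ne hK hirr (s.injective.ne (by decide))
  have h02 : s 0 t ≠ s 2 t := emb_ne hK hirr (s.injective.ne (by decide))
  have h12 : s 1 t ≠ s 2 t := emb_ne hK hirr (s.injective.ne (by decide))
  have e01 : (u : ℂ) * (s 0 t + s 1 t) + v = 0 := by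
    have : (s 0 t - s 1 t) * ((u : ℂ) * (s 0 t + s 1 t) + v) = 0 := by
      linear_combination hroot 0 - hroot 1
    exact (mul_eq_zero.1 this).resolve_left (sub_ne_zero.2 h01)
  have e02 : (u : ℂ) * (s 0 t + s 2 t) + v = 0 := by
    have : (s 0 t - s 2 t) * ((u : ℂ) * (s 0 t + s 2 t) + v) = 0 := by
      linear_combination hroot 0 - hroot 2
    exact (mul_eq_zero.1 this).resolve_left (sub_ne_zero.2 h02)
  have hu : (u : ℂ) = 0 := by
    have : (s 1 t - s 2 t) * (u : ℂ) = 0 := by linear_combination e01 - e02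
    exact (mul_eq_zero.1 this).resolve_left (sub_ne_zero.2 h12)
  rw [hu, zero_mul, zero_add] at e01
  have hr := hroot 0
  rw [hu, e01, zero_mul, zero_mul, zero_add, zero_add] at hr
  exact ⟨by exact_mod_cast hu, by exact_mod_cast e01, by exact_mod_cast hr⟩

theorem at3_inj {T T' : ℝ} {p q : ℤ × ℤ × ℤ × ℤ} {x : AlgebraicClosure ℚ} (hp : Adm3 p)
    (hq : Adm3 q) (h : At3 T p x) (h' : At3 T' q x) : p = q := by
  obtain ⟨a, b, c, d⟩ := p
  obtain ⟨a', b', c', d'⟩ := q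
  obtain ⟨-, -, -, -, p5, p6⟩ := hp
  obtain ⟨-, -, -, -, q5, q6⟩ := hq
  obtain ⟨K, hnf, t, htx, hK, hirr, he, -⟩ := h
  obtain ⟨K', hnf', t', htx', hK', hirr', he', -⟩ := h'
  simp only at p5 p6 q5 q6 he he'
  have he'' : (a' : K) * (t / (1 - t)) ^ 3 + b' * (t / (1 - t)) ^ 2 + c' * (t / (1 - t)) + d' = 0 := by
    apply (algebraMap K (AlgebraicClosure ℚ)).injective
    have h1 := congrArg (algebraMap K' (AlgebraicClosure ℚ)) he'
    simp only [map_add, map_mul, map_pow, map_div₀, map_sub, map_one, map_intCast, map_zero]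
      at h1 ⊢
    have e1 : algebraMap K' (AlgebraicClosure ℚ) t' = x := htx'
    have e2 : algebraMap K (AlgebraicClosure ℚ) t = x := htx
    rw [e1] at h1
    rw [e2]
    exact h1
  have hfr := frac_irr hirr
  have h1 : ((a' * b - a * b' : ℤ) : K) * (t / (1 - t)) ^ 2 +
      ((a' * c - a * c' : ℤ) : K) * (t / (1 - t)) + ((a' * d - a * d' : ℤ) : K) = 0 := by
    push_cast
    linear_combination (a' : K) * he - (a : K) * he''
  obtain ⟨k1, k2, k3⟩ := prop3 hK (fun r h => hfr r (by rw [h]; simp)) h1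
  have d1 : a ∣ a' := p6.dvd_of_dvd_mul_right ⟨d', by linarith⟩
  have d2 : a' ∣ a := q6.dvd_of_dvd_mul_right ⟨d, by linarith⟩
  have haa : a = a' := le_antisymm (Int.le_of_dvd q5 d1) (Int.le_of_dvd p5 d2)
  subst haa
  have hb : b = b' := mul_left_cancel₀ p5.ne' (by linarith)
  have hc : c = c' := mul_left_cancel₀ p5.ne' (by linarith)
  have hd : d = d' := mul_left_cancel₀ p5.ne' (by linarith)
  rw [hb, hc, hd]

/-- the points of a set of admissible coefficients -/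
theorem exists_pts3 (T : ℝ) (F : Finset (ℤ × ℤ × ℤ × ℤ))
    (hF : ∀ p ∈ F, Adm3 p ∧ |(p.1 : ℝ)| ≤ T ∧ |(p.2.1 : ℝ)| ≤ T ∧ |(p.2.2.1 : ℝ)| ≤ T ∧
      |(p.2.2.2 : ℝ)| ≤ T) :
    ∃ E : Finset (AlgebraicClosure ℚ), E.card = F.card ∧ ∀ x ∈ E, ∃ p ∈ F, At3 T p x := by
  classical
  have hex : ∀ p : ℤ × ℤ × ℤ × ℤ, ∃ x : AlgebraicClosure ℚ, p ∈ F → At3 T p x := by
    intro p
    by_cases hp : p ∈ F
    · obtain ⟨h1, h2, h3, h4, h5⟩ := hF p hp
      obtain ⟨x, hx⟩ := exists_at3 h1 h2 h3 h4 h5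
      exact ⟨x, fun _ => hx⟩
    · exact ⟨0, fun h => absurd h hp⟩
  choose φ hφ using hex
  refine ⟨F.image φ, ?_, ?_⟩
  · apply Finset.card_image_of_injOn
    intro p hp q hq hpq
    have h1 := hφ p hp
    have h2 := hφ q hq
    rw [hpq] at h1
    exact at3_inj (hF p hp).1 (hF q hq).1 h1 h2
  · intro x hx
    obtain ⟨p, hp, rfl⟩ := Finset.mem_image.1 hx
    exact ⟨p, hp, hφ p hp⟩

/-- `x` has degree three and height at most `B` -/
def Cub3 (B : ℝ) (x : AlgebraicClosure ℚ) : Prop :=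
  ∃ (K : IntermediateField ℚ (AlgebraicClosure ℚ)) (_ : NumberField K) (t : K),
    (t : AlgebraicClosure ℚ) = x ∧ Module.finrank ℚ K = 3 ∧ (∀ q : ℚ, t ≠ algebraMap ℚ K q) ∧
      W222.UABC.height ![t, 1 - t, -1] ≤ Real.log B

/-- odd coprime pairs -/
theorem odd_pairs (M : ℕ) (hM : 1 ≤ M) : ∃ Q : Finset (ℕ × ℕ), (M : ℝ) ^ 2 / 8 ≤ (Q.card : ℝ) ∧
    ∀ r ∈ Q, r.1 ≤ 2 * M ∧ r.2 ≤ M ∧ r.1 % 2 = 1 ∧ r.2 % 2 = 1 ∧ Nat.Coprime r.1 r.2 := by
  classical
  have h := t_COPR M hM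
  set Q0 := (Finset.Icc 1 M ×ˢ Finset.Icc 1 M).filter
      fun p : ℕ × ℕ => Nat.Coprime p.1 p.2 ∧ ¬ 2 ∣ p.2 with hQ0
  set ψ : ℕ × ℕ → ℕ × ℕ := fun p => if p.1 % 2 = 1 then p else (p.1 + p.2, p.2) with hψ
  have hfib : ∀ b ∈ Q0.image ψ, (Q0.filter fun x => ψ x = b).card ≤ 2 := by
    intro b _
    have hsub : (Q0.filter fun x => ψ x = b) ⊆ {b, (b.1 - b.2, b.2)} := by
      intro x hx
      obtain ⟨-, hxb⟩ := Finset.mem_filter.1 hx
      rw [Finset.mem_insert, Finset.mem_singleton]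
      rw [hψ] at hxb
      simp only at hxb
      split_ifs at hxb with h1
      · left
        exact hxb
      · right
        rw [← hxb]
        simp
    exact (Finset.card_le_card hsub).trans Finset.card_le_two
  have h1 := Finset.card_le_mul_card_image Q0 2 hfib
  refine ⟨Q0.image ψ, ?_, ?_⟩
  · have h2 : (Q0.card : ℝ) ≤ 2 * ((Q0.image ψ).card : ℝ) := by exact_mod_cast h1
    linarith
  · intro r hr
    obtain ⟨x, hx, rfl⟩ := Finset.mem_image.1 hr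
    rw [hQ0] at hx
    obtain ⟨hx1, hx2, hx3⟩ := Finset.mem_filter.1 hx
    obtain ⟨hx4, hx5⟩ := Finset.mem_product.1 hx1
    rw [Finset.mem_Icc] at hx4 hx5
    rw [hψ]
    simp only
    split_ifs with h1
    · exact ⟨by omega, by omega, h1, by omega, hx2⟩
    · refine ⟨by simp only; omega, by simp only; omega, by simp only; omega, by simp only; omega,
        ?_⟩
      simp only
      rw [Nat.coprime_add_self_left]
      exact hx2

/-- many points of degree three -/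
theorem many3 : ∃ c B0 : ℝ, 0 < c ∧ 1 ≤ B0 ∧
    ∀ B : ℝ, B0 ≤ B → ∃ E : Finset (AlgebraicClosure ℚ), c * B ^ 12 ≤ (E.card : ℝ) ∧
      ∀ x ∈ E, Cub3 B x := by
  classical
  refine ⟨1 / (24 ^ 4 * 32768), 5, by positivity, by norm_num, ?_⟩
  intro B hB
  have hB1 : 1 ≤ B := by linarith
  have hB0 : 0 < B := by linarith
  obtain ⟨T, hT⟩ : ∃ T : ℝ, T = B ^ 3 / 24 := ⟨_, rfl⟩
  have hT4 : 4 ≤ T := by
    have h1 : (5 : ℝ) ^ 3 ≤ B ^ 3 := by gcongr
    rw [hT]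
    linarith
  obtain ⟨M, hM⟩ : ∃ M : ℕ, M = ⌊T / 4⌋₊ := ⟨_, rfl⟩
  have hM1 : 1 ≤ M := by
    rw [hM]
    exact Nat.le_floor (by push_cast; linarith)
  have hMT : 4 * (M : ℝ) ≤ T := by
    have := Nat.floor_le (by linarith : 0 ≤ T / 4)
    rw [← hM] at this
    linarith
  have hMT2 : T / 8 ≤ M := by
    have h1 := Nat.lt_floor_add_one (T / 4)
    rw [← hM] at h1
    have h2 : (1 : ℝ) ≤ M := by exact_mod_cast hM1
    linarith
  obtain ⟨Q, hQ1, hQ2⟩ := odd_pairs M hM1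
  set f : ℕ × ℕ × (ℕ × ℕ) → ℤ × ℤ × ℤ × ℤ := fun r =>
    ((r.2.2.2 : ℤ), 2 * (r.1 : ℤ), 2 * (r.2.1 : ℤ), 2 * (r.2.2.1 : ℤ)) with hf
  have hinj : Function.Injective f := by
    rintro ⟨i, k, u, v⟩ ⟨i', k', u', v'⟩ h
    rw [hf] at h
    simp only [Prod.mk.injEq] at h ⊢
    omega
  set F : Finset (ℤ × ℤ × ℤ × ℤ) :=
    (Finset.Icc 1 M ×ˢ (Finset.Icc 1 M ×ˢ Q)).image f with hF
  have hFcard : (M : ℝ) ^ 4 / 8 ≤ (F.card : ℝ) := by
    rw [hF, Finset.card_image_of_injective _ hinj, Finset.card_product, Finset.card_product,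
      Nat.card_Icc]
    push_cast
    have hM0 : (0 : ℝ) ≤ M := Nat.cast_nonneg M
    calc (M : ℝ) ^ 4 / 8 = M * (M * ((M : ℝ) ^ 2 / 8)) := by ring
      _ ≤ M * (M * (Q.card : ℝ)) := by gcongr
  obtain ⟨E, hE1, hE2⟩ := exists_pts3 T F (by
    intro p hp
    obtain ⟨⟨i, k, u, v⟩, hr, rfl⟩ := Finset.mem_image.1 hp
    obtain ⟨hi, hr2⟩ := Finset.mem_product.1 hr
    obtain ⟨hk, huv⟩ := Finset.mem_product.1 hr2
    rw [Finset.mem_Icc] at hi hk
    obtain ⟨q1, q2, q3, q4, q5⟩ := hQ2 _ huv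
    simp only at hi hk q1 q2 q3 q4 q5
    have hiM : (i : ℝ) ≤ M := by exact_mod_cast hi.2
    have hkM : (k : ℝ) ≤ M := by exact_mod_cast hk.2
    have huM : (u : ℝ) ≤ 2 * M := by exact_mod_cast q1
    have hvM : (v : ℝ) ≤ M := by exact_mod_cast q2
    have hM0 : (0 : ℝ) ≤ M := Nat.cast_nonneg M
    refine ⟨⟨?_, ?_, ?_, ?_, ?_, ?_⟩, ?_, ?_, ?_, ?_⟩
    · simp only [hf]; omega
    · simp only [hf]; omega
    · simp only [hf]; omega
    · simp only [hf]; omega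
    · simp only [hf]; omega
    · simp only [hf]
      have h1 : IsCoprime (v : ℤ) (u : ℤ) := (Nat.isCoprime_iff_coprime.2 q5).symm
      have h2 : IsCoprime (v : ℤ) 2 := by
        refine ⟨1, -((v : ℤ) / 2), ?_⟩
        omega
      exact h2.mul_right h1
    · simp only [hf]
      push_cast
      rw [abs_of_nonneg (by positivity)]
      linarith
    · simp only [hf]
      push_cast
      rw [abs_of_nonneg (by positivity)]
      linarith
    · simp only [hf]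
      push_cast
      rw [abs_of_nonneg (by positivity)]
      linarith
    · simp only [hf]
      push_cast
      rw [abs_of_nonneg (by positivity)]
      linarith)
  refine ⟨E, ?_, ?_⟩
  · rw [hE1]
    refine le_trans ?_ hFcard
    have h3 : (T / 8) ^ 4 ≤ (M : ℝ) ^ 4 := by gcongr
    have h4 : 1 / (24 ^ 4 * 32768) * B ^ 12 = (T / 8) ^ 4 / 8 := by
      rw [hT]
      ring
    rw [h4]
    linarith
  · intro x hx
    obtain ⟨p, -, K, hnf, t, k1, k2, k3, -, k5⟩ := hE2 x hx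
    refine ⟨K, hnf, t, k1, k2, k3, ?_⟩
    have e : 24 * T = B ^ 3 := by rw [hT]; ring
    rw [e, Real.log_pow] at k5
    push_cast at k5
    linarith

/-- not too many points of degree three -/
theorem cub_up {B : ℝ} (hB : 1 ≤ B) (E : Finset (AlgebraicClosure ℚ))
    (hE : ∀ x ∈ E, Cub3 B x) : (E.card : ℝ) ≤ 3 * 96 ^ 4 * B ^ 12 := by
  classical
  have hB0 : 0 < B := by linarith
  have hlB : 0 ≤ Real.log B := Real.log_nonneg hB
  obtain ⟨X, hX⟩ : ∃ X : ℝ, X = 3 * Real.log B := ⟨_, rfl⟩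
  have hX0 : 0 ≤ X := by rw [hX]; positivity
  have hex : ∀ x : AlgebraicClosure ℚ, ∃ p : ℤ × ℤ × ℤ × ℤ, x ∈ E → (p.1 ≠ 0 ∧
      |(p.1 : ℝ)| ≤ 32 * Real.exp X ∧ |(p.2.1 : ℝ)| ≤ 32 * Real.exp X ∧
      |(p.2.2.1 : ℝ)| ≤ 32 * Real.exp X ∧ |(p.2.2.2 : ℝ)| ≤ 32 * Real.exp X) ∧ x ≠ 1 ∧
      (p.1 : AlgebraicClosure ℚ) * (x / (1 - x)) ^ 3 + p.2.1 * (x / (1 - x)) ^ 2 +
        p.2.2.1 * (x / (1 - x)) + p.2.2.2 = 0 := by
    intro x
    by_cases hx : x ∈ E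
    · obtain ⟨K, hnf, t, htx, hK, hirr, hh⟩ := hE x hx
      have ht0 : t ≠ 0 := fun h => hirr 0 (by rw [h, map_zero])
      have ht1 : t ≠ 1 := fun h => hirr 1 (by rw [h, map_one])
      obtain ⟨hPt, hht, -⟩ := point_of ht0 ht1
      obtain ⟨a, b, c, d, h1, h2, h3, h4, h5, h6⟩ := cubic_of hK hPt
      rw [hK] at hht
      push_cast at hht
      have he : 32 * Real.exp (ht (t / (1 - t))) ≤ 32 * Real.exp X :=
        mul_le_mul_of_nonneg_left (Real.exp_le_exp.2 (by rw [hX]; linarith)) (by norm_num)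
      refine ⟨(a, b, c, d), fun _ => ⟨⟨h1, h2.trans he, h3.trans he, h4.trans he, h5.trans he⟩,
        ?_, ?_⟩⟩
      · rw [← htx]
        intro h
        apply ht1
        exact_mod_cast h
      · rw [← htx]
        have := congrArg (algebraMap K (AlgebraicClosure ℚ)) h6
        simpa using this
    · exact ⟨(0, 0, 0, 0), fun h => absurd h hx⟩
  choose Φ hΦ using hex
  have hfib : ∀ b ∈ E.image Φ, (E.filter fun x => Φ x = b).card ≤ 3 := by
    intro b hb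
    obtain ⟨x0, hx0, rfl⟩ := Finset.mem_image.1 hb
    rw [← Finset.card_image_of_injOn (inj_div (E.filter fun x => Φ x = Φ x0) fun x hx =>
      (hΦ x (Finset.mem_filter.1 hx).1).2.1)]
    refine card_roots_le _ (Φ x0) (hΦ x0 hx0).1.1 ?_
    intro y hy
    obtain ⟨x, hx, rfl⟩ := Finset.mem_image.1 hy
    obtain ⟨hxE, hxx⟩ := Finset.mem_filter.1 hx
    have := (hΦ x hxE).2.2
    rwa [hxx] at this
  have h1 := Finset.card_le_mul_card_image E 3 hfib
  have hexp : 1 ≤ Real.exp X := Real.one_le_exp hX0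
  obtain ⟨r, hr⟩ : ∃ r : ℝ, r = 32 * Real.exp X := ⟨_, rfl⟩
  have hr1 : 1 ≤ r := by rw [hr]; linarith
  have himg : E.image Φ ⊆ Finset.Icc (-⌊r⌋) ⌊r⌋ ×ˢ (Finset.Icc (-⌊r⌋) ⌊r⌋ ×ˢ
      (Finset.Icc (-⌊r⌋) ⌊r⌋ ×ˢ Finset.Icc (-⌊r⌋) ⌊r⌋)) := by
    intro p hp
    obtain ⟨x, hx, rfl⟩ := Finset.mem_image.1 hp
    obtain ⟨⟨-, k2, k3, k4, k5⟩, -⟩ := hΦ x hx
    rw [← hr] at k2 k3 k4 k5
    exact Finset.mem_product.2 ⟨mem_Icc_of k2, Finset.mem_product.2 ⟨mem_Icc_of k3,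
      Finset.mem_product.2 ⟨mem_Icc_of k4, mem_Icc_of k5⟩⟩⟩
  have h2 := Finset.card_le_card himg
  rw [Finset.card_product, Finset.card_product, Finset.card_product] at h2
  have hc := card_Icc_le hr1
  have h3 : ((E.image Φ).card : ℝ) ≤ (3 * r) ^ 4 := by
    calc ((E.image Φ).card : ℝ) ≤ ((Finset.Icc (-⌊r⌋) ⌊r⌋).card : ℝ) *
          (((Finset.Icc (-⌊r⌋) ⌊r⌋).card : ℝ) * (((Finset.Icc (-⌊r⌋) ⌊r⌋).card : ℝ) *
            ((Finset.Icc (-⌊r⌋) ⌊r⌋).card : ℝ))) := by exact_mod_cast h2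
      _ ≤ (3 * r) * ((3 * r) * ((3 * r) * (3 * r))) := by gcongr
      _ = (3 * r) ^ 4 := by ring
  calc (E.card : ℝ) ≤ 3 * ((E.image Φ).card : ℝ) := by exact_mod_cast h1
    _ ≤ 3 * (3 * r) ^ 4 := by gcongr
    _ = 3 * 96 ^ 4 * B ^ 12 := by
        have : Real.exp X = B ^ 3 := by
          have e : (3 : ℝ) * Real.log B = Real.log (B ^ 3) := by
            rw [Real.log_pow]
            norm_num
          rw [hX, e, Real.exp_log (by positivity)]
        rw [hr, this]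
        ring

end Pool.Agent.H88.CP
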