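import Pool.Agent.H88.CP10

/-!
# Cubic polynomials with large index
-/

set_option autoImplicit false

namespace Pool.Agent.H88.CP

open NumberField IsDedekindDomain Finset Pool.Agent.H691R3 Pool.Agent.W223.AK
open Pool.Agent.W222.UABC Pool.Agent.R365.QP

/-- the discriminant of a cubic form -/
def dsc (p : ℤ × ℤ × ℤ × ℤ) : ℤ :=
  p.2.1 ^ 2 * p.2.2.1 ^ 2 - 4 * p.1 * p.2.2.1 ^ 3 - 4 * p.2.1 ^ 3 * p.2.2.2 -
    27 * p.1 ^ 2 * p.2.2.2 ^ 2 + 18 * p.1 * p.2.1 * p.2.2.1 * p.2.2.2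

theorem dsc_dvd (a b c d r m : ℤ) (h1 : m ∣ 3 * a * r ^ 2 + 2 * b * r + c)
    (h2 : m ∣ a * r ^ 3 + b * r ^ 2 + c * r + d) : m ∣ dsc (a, b, c, d) := by
  obtain ⟨B, hB⟩ : ∃ B : ℤ, B = 3 * a * r + b := ⟨_, rfl⟩
  obtain ⟨C, hC⟩ : ∃ C : ℤ, C = 3 * a * r ^ 2 + 2 * b * r + c := ⟨_, rfl⟩
  obtain ⟨D, hD⟩ : ∃ D : ℤ, D = a * r ^ 3 + b * r ^ 2 + c * r + d := ⟨_, rfl⟩
  rw [← hC] at h1
  rw [← hD] at h2
  have e : dsc (a, b, c, d) = C * (B ^ 2 * C - 4 * a * C ^ 2 + 18 * a * B * D) +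
      D * (-4 * B ^ 3 - 27 * a ^ 2 * D) := by
    rw [hB, hC, hD]
    unfold dsc
    ring
  rw [e]
  exact dvd_add (Dvd.dvd.mul_right h1 _) (Dvd.dvd.mul_right h2 _)

theorem dsc_le {p : ℤ × ℤ × ℤ × ℤ} {T : ℝ} (h0 : |(p.1 : ℝ)| ≤ T) (h1 : |(p.2.1 : ℝ)| ≤ T)
    (h2 : |(p.2.2.1 : ℝ)| ≤ T) (h3 : |(p.2.2.2 : ℝ)| ≤ T) : |(dsc p : ℝ)| ≤ 54 * T ^ 4 := by
  obtain ⟨a, b, c, d⟩ := p
  simp only at h0 h1 h2 h3
  have hT : 0 ≤ T := (abs_nonneg _).trans h0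
  have e : ((dsc (a, b, c, d) : ℤ) : ℝ) = (b : ℝ) ^ 2 * c ^ 2 - 4 * a * c ^ 3 - 4 * b ^ 3 * d -
      27 * a ^ 2 * d ^ 2 + 18 * a * b * c * d := by
    unfold dsc
    push_cast
    ring
  have k1 : |(b : ℝ) ^ 2 * c ^ 2| ≤ T ^ 4 := by
    rw [abs_mul, abs_pow, abs_pow]
    calc |(b : ℝ)| ^ 2 * |(c : ℝ)| ^ 2 ≤ T ^ 2 * T ^ 2 := by gcongr
      _ = T ^ 4 := by ring
  have k2 : |4 * (a : ℝ) * c ^ 3| ≤ 4 * T ^ 4 := by
    rw [abs_mul, abs_mul, abs_pow, abs_of_pos (by norm_num : (0 : ℝ) < 4)]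
    calc 4 * |(a : ℝ)| * |(c : ℝ)| ^ 3 ≤ 4 * T * T ^ 3 := by gcongr
      _ = 4 * T ^ 4 := by ring
  have k3 : |4 * (b : ℝ) ^ 3 * d| ≤ 4 * T ^ 4 := by
    rw [abs_mul, abs_mul, abs_pow, abs_of_pos (by norm_num : (0 : ℝ) < 4)]
    calc 4 * |(b : ℝ)| ^ 3 * |(d : ℝ)| ≤ 4 * T ^ 3 * T := by gcongr
      _ = 4 * T ^ 4 := by ring
  have k4 : |27 * (a : ℝ) ^ 2 * d ^ 2| ≤ 27 * T ^ 4 := by
    rw [abs_mul, abs_mul, abs_pow, abs_pow, abs_of_pos (by norm_num : (0 : ℝ) < 27)]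
    calc 27 * |(a : ℝ)| ^ 2 * |(d : ℝ)| ^ 2 ≤ 27 * T ^ 2 * T ^ 2 := by gcongr
      _ = 27 * T ^ 4 := by ring
  have k5 : |18 * (a : ℝ) * b * c * d| ≤ 18 * T ^ 4 := by
    rw [abs_mul, abs_mul, abs_mul, abs_mul, abs_of_pos (by norm_num : (0 : ℝ) < 18)]
    calc 18 * |(a : ℝ)| * |(b : ℝ)| * |(c : ℝ)| * |(d : ℝ)| ≤ 18 * T * T * T * T := by gcongr
      _ = 18 * T ^ 4 := by ring
  rw [e]
  rw [abs_le] at k1 k2 k3 k4 k5 ⊢
  constructor <;> linarith [k1.1, k1.2, k2.1, k2.2, k3.1, k3.2, k4.1, k4.2, k5.1, k5.2]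

section Field

variable {K : Type} [Field K] [NumberField K]

/-- the discriminant does not vanish -/
theorem dsc_ne (hK : Module.finrank ℚ K = 3) {t : K}
    (hirr : ∀ r : ℚ, t ≠ (r : K)) {a b c d : ℤ}
    (ha0 : a ≠ 0) (h : (a : K) * t ^ 3 + b * t ^ 2 + c * t + d = 0) : dsc (a, b, c, d) ≠ 0 := by
  classical
  obtain ⟨s⟩ : Nonempty (Fin 3 ≃ (K →+* ℂ)) := by
    apply Fintype.card_eq.1
    rw [Embeddings.card, hK, Fintype.card_fin]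
  have hroot : ∀ i : Fin 3, (a : ℂ) * (s i t) ^ 3 + b * (s i t) ^ 2 + c * (s i t) + d = 0 := by
    intro i
    have h1 := congrArg (s i) h
    simpa using h1
  have h01 : s 0 t ≠ s 1 t := emb_ne hK hirr (s.injective.ne (by decide))
  have h02 : s 0 t ≠ s 2 t := emb_ne hK hirr (s.injective.ne (by decide))
  have h12 : s 1 t ≠ s 2 t := emb_ne hK hirr (s.injective.ne (by decide))
  obtain ⟨v1, v2, v3⟩ := vieta h01 h02 h12 (hroot 0) (hroot 1) (hroot 2)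
  have hac : (a : ℂ) ≠ 0 := by exact_mod_cast ha0
  have e : ((dsc (a, b, c, d) : ℤ) : ℂ) =
      a ^ 4 * ((s 0 t - s 1 t) * (s 0 t - s 2 t) * (s 1 t - s 2 t)) ^ 2 := by
    have hb : (b : ℂ) = -(a * (s 0 t + s 1 t + s 2 t)) := by rw [v1, neg_neg]
    have hd : (d : ℂ) = -(a * (s 0 t * s 1 t * s 2 t)) := by rw [v3, neg_neg]
    unfold dsc
    push_cast
    rw [hb, hd, ← v2]
    ring
  intro h0
  rw [h0, Int.cast_zero] at e
  have := e.symm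
  rw [mul_eq_zero, pow_eq_zero_iff (by norm_num), pow_eq_zero_iff (by norm_num)] at this
  rcases this with h3 | h3
  · exact hac h3
  · exact mul_ne_zero (mul_ne_zero (sub_ne_zero.2 h01) (sub_ne_zero.2 h02)) (sub_ne_zero.2 h12) h3

/-- the discriminant of the field is small -/
theorem disc_div (hK : Module.finrank ℚ K = 3) {t : K}
    (hirr : ∀ r : ℚ, t ≠ (r : K)) {a b c d r m : ℤ}
    (ha0 : a ≠ 0) (h : (a : K) * t ^ 3 + b * t ^ 2 + c * t + d = 0) (hm : m ≠ 0)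
    (h1 : m ∣ 3 * a * r ^ 2 + 2 * b * r + c) (h2 : m ^ 2 ∣ a * r ^ 3 + b * r ^ 2 + c * r + d)
    {T : ℝ} (ha : |(a : ℝ)| ≤ T) (hb : |(b : ℝ)| ≤ T) (hc : |(c : ℝ)| ≤ T) (hd : |(d : ℝ)| ≤ T) :
    |(discr K : ℝ)| ≤ (72 * T ^ 2 / |(m : ℝ)|) ^ 2 := by
  classical
  obtain ⟨s⟩ : Nonempty (Fin 3 ≃ (K →+* ℂ)) := by
    apply Fintype.card_eq.1
    rw [Embeddings.card, hK, Fintype.card_fin]
  have hT : 0 ≤ T := (abs_nonneg _).trans ha
  have ht0 : t ≠ 0 := by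
    intro h0
    apply hirr 0
    rw [h0]
    simp
  have hroot : ∀ i : Fin 3, (a : ℂ) * (s i t) ^ 3 + b * (s i t) ^ 2 + c * (s i t) + d = 0 := by
    intro i
    have h1 := congrArg (s i) h
    simpa using h1
  have hs0 : ∀ i : Fin 3, s i t ≠ 0 := fun i => (map_ne_zero (s i)).2 ht0
  have h01 : s 0 t ≠ s 1 t := emb_ne hK hirr (s.injective.ne (by decide))
  have h02 : s 0 t ≠ s 2 t := emb_ne hK hirr (s.injective.ne (by decide))
  have h12 : s 1 t ≠ s 2 t := emb_ne hK hirr (s.injective.ne (by decide))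
  obtain ⟨v1, v2, v3⟩ := vieta h01 h02 h12 (hroot 0) (hroot 1) (hroot 2)
  have hac : (a : ℂ) ≠ 0 := by exact_mod_cast ha0
  have hmc : (m : ℂ) ≠ 0 := by exact_mod_cast hm
  have hmK : (m : K) ≠ 0 := by exact_mod_cast hm
  have na : ‖(a : ℂ)‖ ≤ T := by rw [Complex.norm_intCast]; exact ha
  have nb : ‖(b : ℂ)‖ ≤ T := by rw [Complex.norm_intCast]; exact hb
  have nc : ‖(c : ℂ)‖ ≤ T := by rw [Complex.norm_intCast]; exact hc
  have nd : ‖(d : ℂ)‖ ≤ T := by rw [Complex.norm_intCast]; exact hd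
  have r0 := root_bd na nb nc nd (hroot 0)
  have r1 := root_bd na nb nc nd (hroot 1)
  have r2 := root_bd na nb nc nd (hroot 2)
  have p01 : ‖(a : ℂ) * (s 0 t * s 1 t)‖ ≤ 3 * T :=
    root_bd2 na nb nc nd (hs0 2) (hroot 2) v3
  have p12 : ‖(a : ℂ) * (s 1 t * s 2 t)‖ ≤ 3 * T :=
    root_bd2 na nb nc nd (hs0 0) (hroot 0) (by rw [← v3]; ring)
  have p02 : ‖(a : ℂ) * (s 0 t * s 2 t)‖ ≤ 3 * T :=
    root_bd2 na nb nc nd (hs0 1) (hroot 1) (by rw [← v3]; ring)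
  have hsix : ∀ x y : ℂ, ‖x‖ ≤ 3 * T → ‖y‖ ≤ 3 * T → ‖x - y‖ ≤ 6 * T := by
    intro x y hx hy
    have h1 := (norm_sub_le x y).trans (add_le_add hx hy)
    linarith
  obtain ⟨Δ, hΔ⟩ : ∃ Δ : ℂ, Δ = a ^ 2 * ((s 1 t - s 2 t) * (s 2 t - s 0 t) * (s 0 t - s 1 t)) :=
    ⟨_, rfl⟩
  have hΔ0 : Δ ≠ 0 := by
    rw [hΔ]
    exact mul_ne_zero (pow_ne_zero _ hac) (mul_ne_zero (mul_ne_zero (sub_ne_zero.2 h12)
      (sub_ne_zero.2 h02.symm)) (sub_ne_zero.2 h01))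
  have hΔle : ‖Δ‖ ≤ 72 * T ^ 2 := by
    have h3 : Δ = (a * s 1 t - a * s 2 t) * (a * (s 0 t * s 1 t) - a * (s 1 t * s 2 t)) -
        (a * s 2 t - a * s 0 t) * (a * (s 0 t * s 2 t) - a * (s 0 t * s 1 t)) := by
      rw [hΔ]
      ring
    have h4 : ‖Δ‖ ≤ (6 * T) * (6 * T) + (6 * T) * (6 * T) := by
      rw [h3]
      refine (norm_sub_le _ _).trans ?_
      rw [_root_.norm_mul, _root_.norm_mul]
      have e1 := hsix _ _ r1 r2
      have e2 := hsix _ _ p01 p12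
      have e3 := hsix _ _ r2 r0
      have e4 := hsix _ _ p02 p01
      gcongr
    linarith
  -- the integral elements
  obtain ⟨c', hc'⟩ := h1
  obtain ⟨d', hd'⟩ := h2
  have i1 : IsIntegral ℤ ((a : K) * t) := by
    apply integral_of_cubic (p := b) (q := a * c) (r := a ^ 2 * d)
    push_cast
    linear_combination (a : K) ^ 2 * h
  have hc'K : (3 : K) * a * r ^ 2 + 2 * b * r + c = m * c' := by exact_mod_cast congrArg (Int.cast : ℤ → K) hc'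
  have hd'K : (a : K) * r ^ 3 + b * r ^ 2 + c * r + d = m ^ 2 * d' := by exact_mod_cast congrArg (Int.cast : ℤ → K) hd'
  obtain ⟨z, hz⟩ : ∃ z : K, z = ((a : K) * (t - r) ^ 2 + (3 * a * r + b) * (t - r) + m * c') / m :=
    ⟨_, rfl⟩
  have hmz : (m : K) * z = (a : K) * (t - r) ^ 2 + (3 * a * r + b) * (t - r) + m * c' := by
    rw [hz, mul_div_cancel₀ _ hmK]
  have hzs : z * (t - r) = -(m * d') := by
    have h3 : (m : K) * (z * (t - r)) = m * (-(m * d')) := by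
      rw [← mul_assoc, hmz]
      linear_combination h - hd'K - (t - r) * hc'K
    exact mul_left_cancel₀ hmK h3
  have i2 : IsIntegral ℤ z := by
    apply integral_of_cubic (p := -c') (q := (3 * a * r + b) * d') (r := -(a * m * d' ^ 2))
    have h3 : (m : K) * (z ^ 3 + ((-c' : ℤ) : K) * z ^ 2 + (((3 * a * r + b) * d' : ℤ) : K) * z +
        ((-(a * m * d' ^ 2) : ℤ) : K)) = 0 := by
      push_cast
      linear_combination z ^ 2 * hmz + ((a : K) * (z * (t - r) - m * d') +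
        (3 * a * r + b) * z) * hzs
    exact (mul_eq_zero.1 h3).resolve_left hmK
  obtain ⟨v, hv⟩ : ∃ v : 𝓞 K, (v : K) = (a : K) * t := ⟨⟨_, i1⟩, rfl⟩
  obtain ⟨w, hw⟩ : ∃ w : 𝓞 K, (w : K) = z := ⟨⟨_, i2⟩, rfl⟩
  have hdl : dl s (v : K) (w : K) = Δ / m := by
    rw [hv, hw, eq_div_iff hmc]
    have hzi : ∀ i, (m : ℂ) * s i z = (a : ℂ) * (s i t - r) ^ 2 + (3 * a * r + b) * (s i t - r) +
        m * c' := by
      intro i
      have h3 := congrArg (s i) hmz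
      simpa [map_ofNat] using h3
    unfold dl d0 d1
    simp only [map_mul, map_intCast]
    rw [hΔ]
    linear_combination (a : ℂ) * (s 1 t - s 2 t) * (hzi 2 - hzi 0) -
      (a : ℂ) * (s 2 t - s 0 t) * (hzi 1 - hzi 2)
  have h3 := disc_le_dl s hK v w (by
    rw [hdl]
    exact div_ne_zero hΔ0 hmc)
  rw [hdl, norm_div, Complex.norm_intCast] at h3
  have hmpos : 0 < |(m : ℝ)| := abs_pos.2 (by exact_mod_cast hm)
  refine h3.trans ?_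
  gcongr

/-- the height of a root, from below -/
theorem ht_ge3 (hK : Module.finrank ℚ K = 3) {t : K}
    (hirr : ∀ r : ℚ, t ≠ (r : K)) (hPt : Pt t) {a b c d : ℤ}
    (h : (a : K) * t ^ 3 + b * t ^ 2 + c * t + d = 0) (hco : IsCoprime a d) :
    |(a : ℝ)| ≤ 32 * Real.exp (ht t) := by
  obtain ⟨a', b', c', d', k1, k2, k3, k4, k5, k6⟩ := cubic_of hK hPt
  have h1 : ((a' * b - a * b' : ℤ) : K) * t ^ 2 +
      ((a' * c - a * c' : ℤ) : K) * t + ((a' * d - a * d' : ℤ) : K) = 0 := by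
    push_cast
    linear_combination (a' : K) * h - (a : K) * k6
  obtain ⟨-, -, e3⟩ := prop3 hK hirr h1
  have d1 : a ∣ a' := hco.dvd_of_dvd_mul_right ⟨d', by linarith⟩
  have h2 : |a| ≤ |a'| := Int.le_of_dvd (abs_pos.2 k1) ((abs_dvd_abs _ _).2 d1)
  have h3 : |(a : ℝ)| ≤ |(a' : ℝ)| := by exact_mod_cast h2
  exact h3.trans k2

end Field

end Pool.Agent.H88.CP
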