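import Pool.Agent.H88.CP11

/-!
# Many cubic polynomials with large index
-/

set_option autoImplicit false

namespace Pool.Agent.H88.CP

open Finset

/-- Chebyshev: many primes between `x / 4` and `x` -/
theorem primes_many {x : ℝ} (hx : 10 ^ 8 ≤ x) : ∃ P : Finset ℕ,
    (∀ p ∈ P, p.Prime ∧ x / 4 < p ∧ (p : ℝ) ≤ x) ∧ x / 8 ≤ P.card * Real.log x := by
  classical
  have hx0 : 0 < x := by linarith
  have hx1 : 1 ≤ x := by linarith
  refine ⟨(Nat.primesLE ⌊x⌋₊).filter fun p : ℕ => x / 4 < (p : ℝ), ?_, ?_⟩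
  · intro p hp
    obtain ⟨h1, h2⟩ := Finset.mem_filter.1 hp
    rw [Nat.mem_primesLE] at h1
    exact ⟨h1.2, h2, (Nat.le_floor_iff hx0.le).1 h1.1⟩
  · have h1 := Chebyshev.theta_ge' hx1
    have h2 := Chebyshev.theta_le_log4_mul_x (x := x / 4) (by positivity)
    rw [Chebyshev.theta_eq_sum_primesLE] at h1 h2
    have h3 : ∑ p ∈ Nat.primesLE ⌊x⌋₊, Real.log p =
        ∑ p ∈ (Nat.primesLE ⌊x⌋₊).filter (fun p : ℕ => x / 4 < (p : ℝ)), Real.log p +
        ∑ p ∈ (Nat.primesLE ⌊x⌋₊).filter (fun p : ℕ => ¬ x / 4 < (p : ℝ)), Real.log p :=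
      (Finset.sum_filter_add_sum_filter_not (Nat.primesLE ⌊x⌋₊) (fun p : ℕ => x / 4 < (p : ℝ))
        (fun p : ℕ => Real.log p)).symm
    have h4 : ∑ p ∈ (Nat.primesLE ⌊x⌋₊).filter (fun p : ℕ => ¬ x / 4 < (p : ℝ)), Real.log p ≤
        ∑ p ∈ Nat.primesLE ⌊x / 4⌋₊, Real.log p := by
      refine Finset.sum_le_sum_of_subset_of_nonneg ?_ (fun p _ _ => Real.log_natCast_nonneg p)
      intro p hp
      obtain ⟨k1, k2⟩ := Finset.mem_filter.1 hp
      rw [Nat.mem_primesLE] at k1 ⊢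
      exact ⟨Nat.le_floor (not_lt.1 k2), k1.2⟩
    have h5 : ∑ p ∈ (Nat.primesLE ⌊x⌋₊).filter (fun p : ℕ => x / 4 < (p : ℝ)), Real.log p ≤
        (((Nat.primesLE ⌊x⌋₊).filter fun p : ℕ => x / 4 < (p : ℝ)).card : ℝ) * Real.log x := by
      rw [← nsmul_eq_mul, ← Finset.sum_const]
      refine Finset.sum_le_sum fun p hp => ?_
      obtain ⟨k1, k2⟩ := Finset.mem_filter.1 hp
      rw [Nat.mem_primesLE] at k1
      have k3 : (p : ℝ) ≤ x := (Nat.le_floor_iff hx0.le).1 k1.1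
      exact Real.log_le_log (by exact_mod_cast k1.2.pos) k3
    -- the error terms
    obtain ⟨y, hy⟩ : ∃ y : ℝ, y = √(√x) := ⟨_, rfl⟩
    have hsx : 10 ^ 4 ≤ √x := by
      apply Real.le_sqrt_of_sq_le
      norm_num
      linarith
    have hy100 : 100 ≤ y := by
      rw [hy]
      apply Real.le_sqrt_of_sq_le
      norm_num
      linarith
    have hy2 : y ^ 2 = √x := by rw [hy, Real.sq_sqrt (Real.sqrt_nonneg _)]
    have hy4 : y ^ 4 = x := by
      have : y ^ 4 = (y ^ 2) ^ 2 := by ring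
      rw [this, hy2, Real.sq_sqrt hx0.le]
    have hy0 : 0 < y := by linarith
    have hly : Real.log y ≤ y := (Real.log_le_sub_one_of_pos hy0).trans (by linarith)
    have hlx : Real.log x = 4 * Real.log y := by
      rw [← hy4, Real.log_pow]
      norm_num
    have e1 : 2 * √x * Real.log x ≤ 8 * y ^ 3 := by
      rw [← hy2, hlx]
      have : 0 ≤ y ^ 2 := by positivity
      nlinarith
    have e2 : Real.log (x + 2) ≤ 2 + 4 * y := by
      have h6 : Real.log (x + 2) ≤ Real.log (3 * x) := Real.log_le_log (by linarith) (by linarith)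
      rw [Real.log_mul (by norm_num) hx0.ne', hlx] at h6
      have h7 : Real.log 3 ≤ 2 := (Real.log_le_sub_one_of_pos (by norm_num)).trans (by norm_num)
      linarith
    have e3 : 3 + 4 * y + 8 * y ^ 3 ≤ 15 * y ^ 3 := by nlinarith [sq_nonneg y, sq_nonneg (y - 1)]
    have e4 : 15 * y ^ 3 ≤ 0.15 * x := by
      rw [← hy4]
      have : 0 ≤ y ^ 3 := by positivity
      nlinarith
    have l2 := Real.log_two_gt_d9
    have l2' := Real.log_two_lt_d9
    have l4 : Real.log 4 = 2 * Real.log 2 := by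
      rw [show (4 : ℝ) = 2 ^ 2 by norm_num, Real.log_pow]
      norm_num
    rw [l4] at h2
    nlinarith

/-- the third coefficient -/
def cc (m r a b k : ℤ) : ℤ := (-(3 * a * r ^ 2 + 2 * b * r) * (m + 1)) % (2 * m) + 2 * m * k

/-- the last coefficient -/
def de (m r a b c l : ℤ) : ℤ :=
  (-(a * r ^ 3 + b * r ^ 2 + c * r) * (1 - m ^ 2) + 2 * m ^ 2) % (4 * m ^ 2) + 4 * m ^ 2 * l

theorem cc_dvd (m r a b k : ℤ) : m ∣ 3 * a * r ^ 2 + 2 * b * r + cc m r a b k := by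
  unfold cc
  rw [Int.emod_def]
  refine ⟨-(3 * a * r ^ 2 + 2 * b * r) -
    2 * ((-(3 * a * r ^ 2 + 2 * b * r) * (m + 1)) / (2 * m)) + 2 * k, by ring⟩

theorem cc_even {m : ℤ} (hm : m % 2 = 1) (r a b k : ℤ) : cc m r a b k % 2 = 0 := by
  obtain ⟨j, hj⟩ : ∃ j, m + 1 = 2 * j := ⟨(m + 1) / 2, by omega⟩
  obtain ⟨q, hq⟩ : ∃ q : ℤ, q = -(3 * a * r ^ 2 + 2 * b * r) * (m + 1) / (2 * m) := ⟨_, rfl⟩
  have e : cc m r a b k =
      2 * (-(3 * a * r ^ 2 + 2 * b * r) * j - m * q + m * k) := by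
    have h0 := Int.emod_def (-(3 * a * r ^ 2 + 2 * b * r) * (m + 1)) (2 * m)
    unfold cc
    rw [h0, ← hq]
    linear_combination (-(3 * a * r ^ 2 + 2 * b * r)) * hj
  rw [e]
  omega

theorem cc_range {m : ℤ} (hm : 0 < m) (r a b k : ℤ) :
    2 * m * k ≤ cc m r a b k ∧ cc m r a b k < 2 * m * (k + 1) := by
  unfold cc
  have h1 := Int.emod_nonneg (-(3 * a * r ^ 2 + 2 * b * r) * (m + 1)) (by omega : 2 * m ≠ 0)
  have h2 := Int.emod_lt_of_pos (-(3 * a * r ^ 2 + 2 * b * r) * (m + 1)) (by omega : 0 < 2 * m)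
  constructor
  · linarith
  · linarith

theorem de_dvd (m r a b c l : ℤ) : m ^ 2 ∣ a * r ^ 3 + b * r ^ 2 + c * r + de m r a b c l := by
  unfold de
  rw [Int.emod_def]
  refine ⟨(a * r ^ 3 + b * r ^ 2 + c * r) + 2 -
    4 * ((-(a * r ^ 3 + b * r ^ 2 + c * r) * (1 - m ^ 2) + 2 * m ^ 2) / (4 * m ^ 2)) + 4 * l,
    by ring⟩

theorem de_mod {m : ℤ} (hm : m % 2 = 1) (r a b c l : ℤ) : de m r a b c l % 4 = 2 := by
  obtain ⟨j, hj⟩ : ∃ j, m = 2 * j + 1 := ⟨m / 2, by omega⟩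
  have hj2 : m ^ 2 = 4 * (j ^ 2 + j) + 1 := by
    rw [hj]
    ring
  obtain ⟨q, hq⟩ : ∃ q : ℤ, q = (-(a * r ^ 3 + b * r ^ 2 + c * r) * (1 - m ^ 2) + 2 * m ^ 2) /
    (4 * m ^ 2) := ⟨_, rfl⟩
  have e : de m r a b c l = 4 * ((a * r ^ 3 + b * r ^ 2 + c * r) * (j ^ 2 + j) + 2 * (j ^ 2 + j) -
        m ^ 2 * q + m ^ 2 * l) + 2 := by
    have h0 := Int.emod_def (-(a * r ^ 3 + b * r ^ 2 + c * r) * (1 - m ^ 2) + 2 * m ^ 2)
      (4 * m ^ 2)
    unfold de
    rw [h0, ← hq]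
    linear_combination ((a * r ^ 3 + b * r ^ 2 + c * r) + 2) * hj2
  rw [e]
  omega

theorem de_range {m : ℤ} (hm : 0 < m) (r a b c l : ℤ) :
    4 * m ^ 2 * l ≤ de m r a b c l ∧ de m r a b c l < 4 * m ^ 2 * (l + 1) := by
  unfold de
  have hm2 : 0 < 4 * m ^ 2 := by positivity
  have h1 := Int.emod_nonneg (-(a * r ^ 3 + b * r ^ 2 + c * r) * (1 - m ^ 2) + 2 * m ^ 2) hm2.ne'
  have h2 := Int.emod_lt_of_pos (-(a * r ^ 3 + b * r ^ 2 + c * r) * (1 - m ^ 2) + 2 * m ^ 2) hm2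
  constructor
  · linarith
  · linarith

/-- uniqueness of the double root -/
theorem root_uniq {a b c d r r' m : ℤ} (hm : Prime m) (ha : ¬ m ∣ a)
    (h1 : m ∣ 3 * a * r ^ 2 + 2 * b * r + c) (h2 : m ∣ a * r ^ 3 + b * r ^ 2 + c * r + d)
    (h1' : m ∣ 3 * a * r' ^ 2 + 2 * b * r' + c) (h2' : m ∣ a * r' ^ 3 + b * r' ^ 2 + c * r' + d) :
    m ∣ r' - r := by
  by_contra hh
  have k1 : m ∣ (r' - r) ^ 2 * (3 * a * r + b + a * (r' - r)) := by
    have e : (r' - r) ^ 2 * (3 * a * r + b + a * (r' - r)) =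
        (a * r' ^ 3 + b * r' ^ 2 + c * r' + d) - (a * r ^ 3 + b * r ^ 2 + c * r + d) -
          (3 * a * r ^ 2 + 2 * b * r + c) * (r' - r) := by ring
    rw [e]
    exact dvd_sub (dvd_sub h2' h2) (Dvd.dvd.mul_right h1 _)
  have k2 : m ∣ (r' - r) * (2 * (3 * a * r + b) + 3 * a * (r' - r)) := by
    have e : (r' - r) * (2 * (3 * a * r + b) + 3 * a * (r' - r)) =
        (3 * a * r' ^ 2 + 2 * b * r' + c) - (3 * a * r ^ 2 + 2 * b * r + c) := by ring
    rw [e]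
    exact dvd_sub h1' h1
  have k3 : m ∣ 3 * a * r + b + a * (r' - r) :=
    (hm.dvd_or_dvd k1).resolve_left fun h => hh (hm.dvd_of_dvd_pow h)
  have k4 : m ∣ 2 * (3 * a * r + b) + 3 * a * (r' - r) := (hm.dvd_or_dvd k2).resolve_left hh
  have k5 : m ∣ a * (r' - r) := by
    have e : a * (r' - r) = (2 * (3 * a * r + b) + 3 * a * (r' - r)) -
        2 * (3 * a * r + b + a * (r' - r)) := by ring
    rw [e]
    exact dvd_sub k4 (Dvd.dvd.mul_left k3 _)
  rcases hm.dvd_or_dvd k5 with h | h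
  · exact ha h
  · exact hh h

/-- the parameters: `(m, r, a, i, k, l)` -/
def Psi (w : ℕ × ℕ × ℕ × ℕ × ℕ × ℕ) : ℤ × ℤ × ℤ × ℤ :=
  ((w.2.2.1 : ℤ), 2 * ((w.2.2.2.1 : ℤ) + 1),
    cc w.1 w.2.1 w.2.2.1 (2 * ((w.2.2.2.1 : ℤ) + 1)) w.2.2.2.2.1,
    de w.1 w.2.1 w.2.2.1 (2 * ((w.2.2.2.1 : ℤ) + 1))
      (cc w.1 w.2.1 w.2.2.1 (2 * ((w.2.2.2.1 : ℤ) + 1)) w.2.2.2.2.1) w.2.2.2.2.2)

theorem floor_half {x : ℝ} (hx : 1 ≤ x) : x / 2 ≤ (⌊x⌋₊ : ℝ) := by
  have h1 := Nat.lt_floor_add_one x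
  have h2 : (1 : ℝ) ≤ ⌊x⌋₊ := by exact_mod_cast Nat.le_floor (by exact_mod_cast hx)
  linarith

/-- many cubic polynomials with large index -/
theorem fam {ε : ℝ} (hε : 0 < ε) : ∃ c : ℝ, 0 < c ∧ ∀ T M : ℝ, 10 ^ 8 ≤ M → 64 * M ^ 2 ≤ T →
    ∃ F : Finset (ℤ × ℤ × ℤ × ℤ), c * T ^ (4 - ε) / M ≤ F.card ∧ ∀ p ∈ F, Adm3 p ∧
      |(p.1 : ℝ)| ≤ T ∧ |(p.2.1 : ℝ)| ≤ T ∧ |(p.2.2.1 : ℝ)| ≤ T ∧ |(p.2.2.2 : ℝ)| ≤ T ∧
      T / 4 ≤ |(p.1 : ℝ)| ∧ ∃ r m : ℤ, m ≠ 0 ∧ M / 4 ≤ |(m : ℝ)| ∧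
        m ∣ 3 * p.1 * r ^ 2 + 2 * p.2.1 * r + p.2.2.1 ∧
        m ^ 2 ∣ p.1 * r ^ 3 + p.2.1 * r ^ 2 + p.2.2.1 * r + p.2.2.2 := by
  classical
  obtain ⟨C1, hC1, hdiv⟩ := Pool.Agent.H510R2.divisor_bound (ε / 8) (by positivity)
  obtain ⟨C2, hC2, hlog⟩ := log_pow_le (ε := ε / 2) (by positivity)
  refine ⟨1 / (2 ^ 22 * (C1 * 54 ^ (ε / 8)) * C2), by positivity, ?_⟩
  intro T M hM hT
  have hM0 : 0 < M := by linarith
  have hM1 : 1 ≤ M := by linarith
  have hMT : M ≤ T := by nlinarith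
  have hT8 : 10 ^ 8 ≤ T := by linarith
  have hT0 : 0 < T := by linarith
  have hT1 : 1 ≤ T := by linarith
  obtain ⟨PA, hPA1, hPA2⟩ := primes_many hT8
  obtain ⟨PM, hPM1, hPM2⟩ := primes_many hM
  set R0 := ⌊M / 4⌋₊ with hR0
  set I := ⌊T / 2⌋₊ - 1 with hI
  set Kc := ⌊T / (4 * M)⌋₊ with hKc
  set Ld := ⌊T / (64 * M ^ 2)⌋₊ with hLd
  have hR0le : (R0 : ℝ) ≤ M / 4 := Nat.floor_le (by positivity)
  have hIle : (I : ℝ) + 1 ≤ T / 2 := by
    have h1 : (⌊T / 2⌋₊ : ℝ) ≤ T / 2 := Nat.floor_le (by positivity)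
    have h2 : 1 ≤ ⌊T / 2⌋₊ := Nat.le_floor (by push_cast; linarith)
    have h3 : I + 1 = ⌊T / 2⌋₊ := by omega
    have h4 : ((I + 1 : ℕ) : ℝ) ≤ T / 2 := by rw [h3]; exact h1
    push_cast at h4
    exact h4
  have hKle : (Kc : ℝ) ≤ T / (4 * M) := Nat.floor_le (by positivity)
  have hLle : (Ld : ℝ) ≤ T / (64 * M ^ 2) := Nat.floor_le (by positivity)
  set Ω : Finset (ℕ × ℕ × ℕ × ℕ × ℕ × ℕ) :=
    PM ×ˢ (Finset.range R0 ×ˢ (PA ×ˢ (Finset.range I ×ˢ (Finset.range Kc ×ˢ Finset.range Ld))))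
    with hΩ
  -- the properties of the polynomials
  have hprop : ∀ w ∈ Ω, (w.1.Prime ∧ (w.1 : ℤ) % 2 = 1 ∧ w.2.1 < w.1 ∧ ¬ ((w.1 : ℤ) ∣ (w.2.2.1 : ℤ))) ∧
      Adm3 (Psi w) ∧ |((Psi w).1 : ℝ)| ≤ T ∧ |((Psi w).2.1 : ℝ)| ≤ T ∧
      |((Psi w).2.2.1 : ℝ)| ≤ T ∧ |((Psi w).2.2.2 : ℝ)| ≤ T ∧ T / 4 ≤ |((Psi w).1 : ℝ)| ∧
      M / 4 ≤ |((w.1 : ℤ) : ℝ)| ∧
        (w.1 : ℤ) ∣ 3 * (Psi w).1 * (w.2.1 : ℤ) ^ 2 + 2 * (Psi w).2.1 * (w.2.1 : ℤ) + (Psi w).2.2.1 ∧
        (w.1 : ℤ) ^ 2 ∣ (Psi w).1 * (w.2.1 : ℤ) ^ 3 + (Psi w).2.1 * (w.2.1 : ℤ) ^ 2 +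
          (Psi w).2.2.1 * (w.2.1 : ℤ) + (Psi w).2.2.2 := by
    rintro ⟨m, r, a, i, k, l⟩ hw
    rw [hΩ] at hw
    simp only [Finset.mem_product, Finset.mem_range] at hw
    obtain ⟨hm, hr, ha, hi, hk, hl⟩ := hw
    obtain ⟨m1, m2, m3⟩ := hPM1 m hm
    obtain ⟨a1, a2, a3⟩ := hPA1 a ha
    have hm4 : (4 : ℝ) < m := by linarith
    have hm4' : 4 < m := by exact_mod_cast hm4
    have hmodd : (m : ℤ) % 2 = 1 := by
      have := m1.eq_two_or_odd
      omega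
    have ha4 : (4 : ℝ) < a := by linarith
    have ha4' : 4 < a := by exact_mod_cast ha4
    have haodd : (a : ℤ) % 2 = 1 := by
      have := a1.eq_two_or_odd
      omega
    have hrm : r < m := by
      have : (r : ℝ) < m := by
        have h1 : (r : ℝ) < R0 := by exact_mod_cast hr
        linarith
      exact_mod_cast this
    have hma : (m : ℝ) < a := by
      have : M < T / 4 := by nlinarith
      linarith
    have hmpos : (0 : ℤ) < m := by omega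
    have hndvd : ¬ ((m : ℤ) ∣ (a : ℤ)) := by
      intro h
      have h1 : m ∣ a := by exact_mod_cast h
      rcases (Nat.dvd_prime a1).1 h1 with h2 | h2
      · omega
      · rw [h2] at hma
        exact lt_irrefl _ hma
    obtain ⟨b, hb⟩ : ∃ b : ℤ, b = 2 * ((i : ℤ) + 1) := ⟨_, rfl⟩
    obtain ⟨c, hc⟩ : ∃ c : ℤ, c = cc m r a b k := ⟨_, rfl⟩
    obtain ⟨d, hd⟩ : ∃ d : ℤ, d = de m r a b c l := ⟨_, rfl⟩
    have hPsi : Psi (m, r, a, i, k, l) = ((a : ℤ), b, c, d) := by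
      unfold Psi
      simp only
      rw [← hb, ← hc, ← hd]
    rw [hPsi]
    simp only
    obtain ⟨c1, c2⟩ := cc_range hmpos r a b k
    obtain ⟨d1, d2⟩ := de_range hmpos r a b c l
    rw [← hc] at c1 c2
    rw [← hd] at d1 d2
    have hmM : ((m : ℤ) : ℝ) ≤ M := by exact_mod_cast m3
    have hmR : (0 : ℝ) < ((m : ℤ) : ℝ) := by exact_mod_cast hmpos
    have hk1 : (((k : ℤ) + 1 : ℤ) : ℝ) ≤ Kc := by exact_mod_cast hk
    have hl1 : (((l : ℤ) + 1 : ℤ) : ℝ) ≤ Ld := by exact_mod_cast hl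
    have hk0 : (0 : ℝ) ≤ (((k : ℤ) + 1 : ℤ) : ℝ) := by positivity
    have hl0 : (0 : ℝ) ≤ (((l : ℤ) + 1 : ℤ) : ℝ) := by positivity
    have hc0 : 0 ≤ c := le_trans (by positivity) c1
    have hd0 : 0 ≤ d := le_trans (by positivity) d1
    have hcT : (c : ℝ) ≤ T := by
      have h1 : (c : ℝ) ≤ 2 * ((m : ℤ) : ℝ) * (((k : ℤ) + 1 : ℤ) : ℝ) := by exact_mod_cast c2.le
      calc (c : ℝ) ≤ 2 * ((m : ℤ) : ℝ) * (((k : ℤ) + 1 : ℤ) : ℝ) := h1
        _ ≤ 2 * M * (T / (4 * M)) := by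
            gcongr
            exact hk1.trans hKle
        _ = T / 2 := by
            field_simp
            ring
        _ ≤ T := by linarith
    have hdT : (d : ℝ) ≤ T / 16 := by
      have h1 : (d : ℝ) ≤ 4 * ((m : ℤ) : ℝ) ^ 2 * (((l : ℤ) + 1 : ℤ) : ℝ) := by
        exact_mod_cast d2.le
      calc (d : ℝ) ≤ 4 * ((m : ℤ) : ℝ) ^ 2 * (((l : ℤ) + 1 : ℤ) : ℝ) := h1
        _ ≤ 4 * M ^ 2 * (T / (64 * M ^ 2)) := by
            gcongr
            exact hl1.trans hLle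
        _ = T / 16 := by
            field_simp
            ring
    have hdmod : d % 4 = 2 := by rw [hd]; exact de_mod hmodd r a b c l
    have hda : d < a := by
      have : (d : ℝ) < a := by linarith
      exact_mod_cast this
    have hcop : IsCoprime (a : ℤ) d := by
      have hp : Prime (a : ℤ) := Nat.prime_iff_prime_int.1 a1
      rw [Int.isCoprime_iff_gcd_eq_one, Int.gcd_comm, ← Int.isCoprime_iff_gcd_eq_one]
      refine ((Prime.coprime_iff_not_dvd hp).2 ?_).symm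
      intro h
      have := Int.le_of_dvd (by omega) h
      omega
    refine ⟨⟨m1, hmodd, hrm, hndvd⟩, ⟨haodd, ?_, ?_, hdmod, by omega, hcop⟩, ?_, ?_, ?_, ?_, ?_, ?_,
      ?_, ?_⟩
    · simp only
      omega
    · rw [hc]
      exact cc_even hmodd r a b k
    · rw [Int.cast_natCast, Nat.abs_cast]
      exact a3
    · rw [hb]
      push_cast
      rw [abs_of_pos (by positivity)]
      have h1 : (i : ℝ) + 1 ≤ I := by exact_mod_cast hi
      linarith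
    · rw [abs_of_nonneg (by exact_mod_cast hc0)]
      exact hcT
    · rw [abs_of_nonneg (by exact_mod_cast hd0)]
      linarith
    · rw [Int.cast_natCast, Nat.abs_cast]
      linarith
    · rw [Int.cast_natCast, Nat.abs_cast]
      linarith
    · rw [hc]
      exact cc_dvd m r a b k
    · rw [hd]
      exact de_dvd m r a b c l
  -- the fibres
  have hfib : ∀ p ∈ Ω.image Psi, ((Ω.filter fun w => Psi w = p).card : ℝ) ≤
      C1 * (54 * T ^ 4) ^ (ε / 8) := by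
    intro p hp
    obtain ⟨w0, hw0, hw0p⟩ := Finset.mem_image.1 hp
    obtain ⟨-, hadm, k1, k2, k3, k4, -⟩ := hprop w0 hw0
    rw [hw0p] at hadm k1 k2 k3 k4
    have hdne : dsc p ≠ 0 := by
      obtain ⟨a1, a2, a3, a4, a5, -⟩ := hadm
      obtain ⟨K, hnf, t, hK, hirr, ht⟩ := root3 a1 a2 a3 a4
      exact dsc_ne hK (fun r h => hirr r (by rw [h]; simp)) a5.ne' ht
    have hdle := dsc_le k1 k2 k3 k4
    have hinj : Set.InjOn (fun w : ℕ × ℕ × ℕ × ℕ × ℕ × ℕ => w.1)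
        ((Ω.filter fun w => Psi w = p : Finset _) : Set _) := by
      intro w hw w' hw' hww
      obtain ⟨e1, e2⟩ := Finset.mem_filter.1 (Finset.mem_coe.1 hw)
      obtain ⟨e1', e2'⟩ := Finset.mem_filter.1 (Finset.mem_coe.1 hw')
      obtain ⟨⟨q1, q2, q3, q4⟩, -, -, -, -, -, -, -, q5, q6⟩ := hprop w e1
      obtain ⟨⟨q1', q2', q3', q4'⟩, -, -, -, -, -, -, -, q5', q6'⟩ := hprop w' e1'
      rw [e2] at q5 q6
      rw [e2'] at q5' q6'
      have e3 : Psi w = Psi w' := e2.trans e2'.symm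
      obtain ⟨m, r, a, i, k, l⟩ := w
      obtain ⟨m', r', a', i', k', l'⟩ := w'
      simp only at hww q1 q2 q3 q4 q5 q6 q1' q2' q3' q4' q5' q6'
      subst hww
      have hmp : Prime (m : ℤ) := Nat.prime_iff_prime_int.1 q1
      have hpa : p.1 = (a : ℤ) := by rw [← e2]; rfl
      have hd1 := root_uniq hmp (by rw [hpa]; exact q4) q5
        ((dvd_pow_self _ two_ne_zero).trans q6) q5' ((dvd_pow_self _ two_ne_zero).trans q6')
      have hrr : r = r' := by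
        obtain ⟨j, hj⟩ := hd1
        have hj0 : j = 0 := by
          by_contra hne
          rcases lt_or_gt_of_ne hne with h | h
          · have : (m : ℤ) * j ≤ (m : ℤ) * (-1) := mul_le_mul_of_nonneg_left (by omega) (by omega)
            omega
          · have : (m : ℤ) * 1 ≤ (m : ℤ) * j := mul_le_mul_of_nonneg_left (by omega) (by omega)
            omega
        rw [hj0, mul_zero] at hj
        omega
      subst hrr
      unfold Psi at e3
      simp only [Prod.mk.injEq] at e3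
      obtain ⟨f1, f2, f3, f4⟩ := e3
      have g1 : a = a' := by exact_mod_cast f1
      subst g1
      have g2 : i = i' := by omega
      subst g2
      have hmpos : (0 : ℤ) < m := by exact_mod_cast q1.pos
      have g3 : k = k' := by
        unfold cc at f3
        have : 2 * (m : ℤ) * k = 2 * m * k' := by linarith
        have := mul_left_cancel₀ (by positivity : (2 * (m : ℤ)) ≠ 0) this
        exact_mod_cast this
      subst g3
      have g4 : l = l' := by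
        unfold de at f4
        have : 4 * (m : ℤ) ^ 2 * l = 4 * m ^ 2 * l' := by linarith
        have := mul_left_cancel₀ (by positivity : (4 * (m : ℤ) ^ 2) ≠ 0) this
        exact_mod_cast this
      subst g4
      rfl
    rw [← Finset.card_image_of_injOn hinj]
    have hsub : ((Ω.filter fun w => Psi w = p).image fun w => w.1) ⊆ (dsc p).natAbs.divisors := by
      intro m hm
      obtain ⟨w, hw, rfl⟩ := Finset.mem_image.1 hm
      obtain ⟨e1, e2⟩ := Finset.mem_filter.1 hw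
      obtain ⟨-, -, -, -, -, -, -, -, q5, q6⟩ := hprop w e1
      rw [e2] at q5 q6
      rw [Nat.mem_divisors]
      refine ⟨?_, Int.natAbs_ne_zero.2 hdne⟩
      have h1 : (w.1 : ℤ) ∣ dsc p := dsc_dvd p.1 p.2.1 p.2.2.1 p.2.2.2 (w.2.1 : ℤ) (w.1 : ℤ) q5
        ((dvd_pow_self _ two_ne_zero).trans q6)
      exact Int.natCast_dvd.1 h1
    have h1 : (((Ω.filter fun w => Psi w = p).image fun w => w.1).card : ℝ) ≤
        ((dsc p).natAbs.divisors.card : ℝ) := by exact_mod_cast Finset.card_le_card hsub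
    have h2 := hdiv (dsc p).natAbs (Int.natAbs_pos.2 hdne)
    refine h1.trans (h2.trans ?_)
    refine mul_le_mul_of_nonneg_left ?_ hC1.le
    refine Real.rpow_le_rpow (Nat.cast_nonneg _) ?_ (by positivity)
    rw [Nat.cast_natAbs, Int.cast_abs]
    exact hdle
  have hcard := card_le_real Ω Psi _ hfib
  refine ⟨Ω.image Psi, ?_, ?_⟩
  swap
  · intro p hp
    obtain ⟨w, hw, rfl⟩ := Finset.mem_image.1 hp
    obtain ⟨⟨q1, -⟩, h1, h2, h3, h4, h5, h6, h7, h8, h9⟩ := hprop w hw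
    refine ⟨h1, h2, h3, h4, h5, h6, (w.2.1 : ℤ), (w.1 : ℤ), ?_, h7, h8, h9⟩
    exact_mod_cast q1.ne_zero
  -- the size of `Ω`
  have hlM : 0 ≤ Real.log M := Real.log_nonneg hM1
  have hlT : 0 ≤ Real.log T := Real.log_nonneg hT1
  have b1 : M / 8 ≤ (R0 : ℝ) := by
    have := floor_half (x := M / 4) (by linarith)
    linarith
  have b2 : T / 8 ≤ (I : ℝ) := by
    have h1 := floor_half (x := T / 2) (by linarith)
    have h2 : 1 ≤ ⌊T / 2⌋₊ := Nat.le_floor (by push_cast; linarith)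
    have h3 : I + 1 = ⌊T / 2⌋₊ := by omega
    have h4 : T / 2 / 2 ≤ ((I + 1 : ℕ) : ℝ) := by rw [h3]; exact h1
    push_cast at h4
    linarith
  have b3 : T / (8 * M) ≤ (Kc : ℝ) := by
    have h1 : 1 ≤ T / (4 * M) := by
      rw [le_div_iff₀ (by positivity)]
      nlinarith
    have h2 := floor_half h1
    have e : T / (4 * M) / 2 = T / (8 * M) := by
      field_simp
      ring
    rw [e] at h2
    exact h2
  have b4 : T / (128 * M ^ 2) ≤ (Ld : ℝ) := by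
    have h1 : 1 ≤ T / (64 * M ^ 2) := by
      rw [le_div_iff₀ (by positivity)]
      linarith
    have h2 := floor_half h1
    have e : T / (64 * M ^ 2) / 2 = T / (128 * M ^ 2) := by
      field_simp
      ring
    rw [e] at h2
    exact h2
  have hΩcard : (Ω.card : ℝ) = PM.card * (R0 * (PA.card * (I * (Kc * Ld)))) := by
    rw [hΩ]
    simp only [Finset.card_product, Finset.card_range]
    push_cast
    ring
  obtain ⟨lT, hlTdef⟩ : ∃ lT : ℝ, lT = 1 + Real.log T := ⟨_, rfl⟩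
  have hlT1 : 1 ≤ lT := by rw [hlTdef]; linarith
  have hPMc : M / 8 / lT ≤ PM.card := by
    rw [div_le_iff₀ (by linarith)]
    refine hPM2.trans (mul_le_mul_of_nonneg_left ?_ (Nat.cast_nonneg _))
    have := Real.log_le_log hM0 hMT
    rw [hlTdef]
    linarith
  have hPAc : T / 8 / lT ≤ PA.card := by
    rw [div_le_iff₀ (by linarith)]
    refine hPA2.trans (mul_le_mul_of_nonneg_left ?_ (Nat.cast_nonneg _))
    rw [hlTdef]
    linarith
  have hlT0 : 0 < lT := by linarith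
  have hΩ2 : T ^ 4 / (2 ^ 22 * M * lT ^ 2) ≤ (Ω.card : ℝ) := by
    rw [hΩcard]
    have e : T ^ 4 / (2 ^ 22 * M * lT ^ 2) =
          (M / 8 / lT) * ((M / 8) * ((T / 8 / lT) * ((T / 8) * ((T / (8 * M)) *
            (T / (128 * M ^ 2)))))) := by
      field_simp
      norm_num
    rw [e]
    have k1 : 0 ≤ M / 8 / lT := by positivity
    have k2 : 0 ≤ T / 8 / lT := by positivity
    have k3 : 0 ≤ T / (8 * M) := by positivity
    have k4 : 0 ≤ T / (128 * M ^ 2) := by positivity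
    have k5 : 0 ≤ T / 8 := by positivity
    have k6 : 0 ≤ M / 8 := by positivity
    refine mul_le_mul hPMc ?_ (by positivity) (Nat.cast_nonneg _)
    refine mul_le_mul b1 ?_ (by positivity) (Nat.cast_nonneg _)
    refine mul_le_mul hPAc ?_ (by positivity) (Nat.cast_nonneg _)
    refine mul_le_mul b2 ?_ (by positivity) (Nat.cast_nonneg _)
    exact mul_le_mul b3 b4 (by positivity) (Nat.cast_nonneg _)
  have hl2 : lT ^ 2 ≤ C2 * T ^ (ε / 2) := by
    have h1 : lT ^ 2 ≤ lT ^ 4 := pow_le_pow_right₀ hlT1 (by norm_num)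
    rw [hlTdef] at h1 ⊢
    exact h1.trans (hlog T hT1)
  obtain ⟨N, hN⟩ : ∃ N : ℝ, N = ((Ω.image Psi).card : ℝ) := ⟨_, rfl⟩
  rw [← hN] at hcard ⊢
  have hN0 : 0 ≤ N := by rw [hN]; exact Nat.cast_nonneg _
  have h54 : ((54 : ℝ) * T ^ 4) ^ (ε / 8) = 54 ^ (ε / 8) * T ^ (ε / 2) := by
    rw [Real.mul_rpow (by norm_num) (by positivity), ← Real.rpow_natCast T 4, ← Real.rpow_mul hT0.le]
    congr 2
    push_cast
    ring
  rw [h54] at hcard
  have hTe : T ^ (4 - ε) = T ^ 4 / (T ^ (ε / 2) * T ^ (ε / 2)) := by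
    rw [← Real.rpow_add hT0, Real.rpow_sub hT0]
    congr 1
    · rw [show (4 : ℝ) = ((4 : ℕ) : ℝ) by norm_num, Real.rpow_natCast]
    · congr 1
      ring
  rw [hTe]
  obtain ⟨E, hE⟩ : ∃ E : ℝ, E = T ^ (ε / 2) := ⟨_, rfl⟩
  have hE0 : 0 < E := by rw [hE]; exact Real.rpow_pos_of_pos hT0 _
  rw [← hE] at hcard hl2 ⊢
  obtain ⟨A, hA⟩ : ∃ A : ℝ, A = C1 * 54 ^ (ε / 8) := ⟨_, rfl⟩
  have hA0 : 0 < A := by rw [hA]; positivity
  have hcard' : (Ω.card : ℝ) ≤ A * E * N := by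
    rw [hA]
    calc (Ω.card : ℝ) ≤ _ := hcard
      _ = _ := by ring
  rw [← hA]
  have h1 : T ^ 4 ≤ A * E * N * (2 ^ 22 * M * lT ^ 2) := by
    rw [div_le_iff₀ (by positivity)] at hΩ2
    exact hΩ2.trans (mul_le_mul_of_nonneg_right hcard' (by positivity))
  have h2 : T ^ 4 ≤ A * E * N * (2 ^ 22 * M * (C2 * E)) := by
    refine h1.trans ?_
    gcongr
  calc 1 / (2 ^ 22 * A * C2) * (T ^ 4 / (E * E)) / M = T ^ 4 / (2 ^ 22 * A * C2 * (E * E) * M) := by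
        field_simp
    _ ≤ N := by
        rw [div_le_iff₀ (by positivity)]
        calc T ^ 4 ≤ _ := h2
          _ = _ := by ring

end Pool.Agent.H88.CP
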