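import Pool.Agent.H88.CP12
import Pool.Agent.H88.CP8

/-!
# Many violations
-/

set_option autoImplicit false

namespace Pool.Agent.H88.CP

open NumberField IsDedekindDomain Finset Pool.Agent.H691R3 Pool.Agent.W223.AK
open Pool.Agent.W222.UABC Pool.Agent.R365.QP

/-- the violation at a point attached to a polynomial of large index -/
theorem viol_at3 {κ c T M : ℝ} (hκ0 : 0 < κ) (hκ6 : κ < 1 / 6) (hM : 1 ≤ M)
    {p : ℤ × ℤ × ℤ × ℤ} {x : AlgebraicClosure ℚ}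
    (hadm : Adm3 p) (h1 : |(p.1 : ℝ)| ≤ T) (h2 : |(p.2.1 : ℝ)| ≤ T) (h3 : |(p.2.2.1 : ℝ)| ≤ T)
    (h4 : |(p.2.2.2 : ℝ)| ≤ T) (h5 : T / 4 ≤ |(p.1 : ℝ)|) {r m : ℤ} (hm : m ≠ 0)
    (hmM : M / 4 ≤ |(m : ℝ)|) (h6 : m ∣ 3 * p.1 * r ^ 2 + 2 * p.2.1 * r + p.2.2.1)
    (h7 : m ^ 2 ∣ p.1 * r ^ 3 + p.2.1 * r ^ 2 + p.2.2.1 * r + p.2.2.2) (hx : At3 T p x)
    (hlog : c + κ * (2 / 3 * (Real.log 288 + 2 * Real.log T - Real.log M) + 3 * Real.log 2) <
      (1 - 3 * κ) * ((Real.log T - Real.log 128) / 3)) :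
    Vio3 κ c ((24 * T) ^ (1 / 3 : ℝ)) x := by
  obtain ⟨K, hnf, y, hyx, hK, hirr, he, hh⟩ := hx
  obtain ⟨-, -, -, -, hpos, hco⟩ := hadm
  have ha0 : (0 : ℝ) < |(p.1 : ℝ)| := abs_pos.2 (by exact_mod_cast hpos.ne')
  have hT : 0 < T := lt_of_lt_of_le ha0 h1
  have hM0 : 0 < M := by linarith
  have hy0 : y ≠ 0 := fun h => hirr 0 (by rw [h, map_zero])
  have hy1 : y ≠ 1 := fun h => hirr 1 (by rw [h, map_one])
  have hfr := frac_irr hirr
  have hfr' : ∀ r : ℚ, y / (1 - y) ≠ (r : K) := fun r h => hfr r (by rw [h]; simp)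
  obtain ⟨hPt, hht, -⟩ := point_of hy0 hy1
  rw [hK] at hht
  push_cast at hht
  obtain ⟨h, hhdef⟩ : ∃ h : ℝ, h = W222.UABC.height ![y, 1 - y, -1] := ⟨_, rfl⟩
  obtain ⟨n, hndef⟩ : ∃ n : ℝ, n = W222.UABC.conductor ![y, 1 - y, -1] := ⟨_, rfl⟩
  have hc := cond_le3 hK hy0 hy1
  rw [← hhdef, ← hndef] at hc
  rw [← hhdef] at hh hht
  -- the height
  have hlow := ht_ge3 hK hfr' hPt he hco
  have hlow2 : T / 128 ≤ Real.exp (3 * h) := by
    have k1 : Real.exp (ht (y / (1 - y))) ≤ Real.exp (3 * h) := Real.exp_le_exp.2 hht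
    linarith
  have hlow3 : (Real.log T - Real.log 128) / 3 ≤ h := by
    have k1 := Real.log_le_log (by positivity) hlow2
    rw [Real.log_div hT.ne' (by norm_num), Real.log_exp] at k1
    linarith
  -- the discriminant
  have hd := disc_div hK hfr' hpos.ne' he hm h6 h7 h1 h2 h3 h4
  have hd0 : (0 : ℝ) < |(NumberField.discr K : ℝ)| := by
    have := one_le_disc (K := K)
    linarith
  have hmpos : 0 < |(m : ℝ)| := abs_pos.2 (by exact_mod_cast hm)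
  have hd2 : |(NumberField.discr K : ℝ)| ≤ (288 * T ^ 2 / M) ^ 2 := by
    refine hd.trans ?_
    have k1 : 72 * T ^ 2 / |(m : ℝ)| ≤ 288 * T ^ 2 / M := by
      rw [div_le_div_iff₀ hmpos hM0]
      have : 0 ≤ 72 * T ^ 2 := by positivity
      nlinarith
    gcongr
  have hd3 := Real.log_le_log hd0 hd2
  have e1 : Real.log ((288 * T ^ 2 / M) ^ 2) =
      2 * (Real.log 288 + 2 * Real.log T - Real.log M) := by
    rw [Real.log_pow, Real.log_div (by positivity) hM0.ne', Real.log_mul (by norm_num)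
      (by positivity), Real.log_pow]
    push_cast
    ring
  rw [e1] at hd3
  have hrd : W222.UABC.rootDisc K ≤ 2 / 3 * (Real.log 288 + 2 * Real.log T - Real.log M) := by
    unfold W222.UABC.rootDisc
    rw [hK]
    push_cast
    linarith
  refine ⟨K, hnf, y, hyx, hK, hirr, ?_, ?_⟩
  · rw [Real.log_rpow (by positivity), ← hhdef]
    linarith
  · rw [← hndef, ← hhdef]
    have k1 : κ * (W222.UABC.rootDisc K + n) ≤
        κ * (2 / 3 * (Real.log 288 + 2 * Real.log T - Real.log M) + (3 * h + 3 * Real.log 2)) :=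
      mul_le_mul_of_nonneg_left (add_le_add hrd hc) hκ0.le
    have k2 : (1 - 3 * κ) * ((Real.log T - Real.log 128) / 3) ≤ (1 - 3 * κ) * h :=
      mul_le_mul_of_nonneg_left hlow3 (by linarith)
    nlinarith

/-- many violations -/
theorem vio_low {κ : ℝ} (c : ℝ) {ε : ℝ} (h1 : 1 / 7 ≤ κ) (h2 : κ < 1 / 6) (hε : 0 < ε) :
    ∃ m B0 : ℝ, 0 < m ∧ 1 ≤ B0 ∧ ∀ B : ℝ, B0 ≤ B → ∃ E : Finset (AlgebraicClosure ℚ),
      m * B ^ (3 / 2 + 3 / (2 * κ) - ε) ≤ (E.card : ℝ) ∧ ∀ x ∈ E, Vio3 κ c B x := by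
  classical
  have hκ0 : 0 < κ := by linarith
  obtain ⟨g, hg⟩ : ∃ g : ℝ, g = 7 - 1 / κ := ⟨_, rfl⟩
  have hg0 : 0 ≤ g := by
    have : 1 / κ ≤ 7 := by
      rw [div_le_iff₀ hκ0]
      linarith
    linarith
  have hg1 : g < 1 := by
    have : 6 < 1 / κ := by
      rw [lt_div_iff₀ hκ0]
      linarith
    linarith
  obtain ⟨η, hη⟩ : ∃ η : ℝ, η = min ((1 - g) / 2) (ε / 3) := ⟨_, rfl⟩
  have hη0 : 0 < η := by rw [hη]; exact lt_min (by linarith) (by positivity)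
  have hη1 : η ≤ (1 - g) / 2 := by rw [hη]; exact min_le_left _ _
  have hη2 : η ≤ ε / 3 := by rw [hη]; exact min_le_right _ _
  obtain ⟨μ, hμ⟩ : ∃ μ : ℝ, μ = (g + η) / 2 := ⟨_, rfl⟩
  have hμ0 : 0 < μ := by rw [hμ]; linarith
  have hμ1 : 0 < 1 - 2 * μ := by rw [hμ]; linarith
  obtain ⟨s, hs⟩ : ∃ s : ℝ, s = (1 - κ * (7 - 2 * μ)) / 3 := ⟨_, rfl⟩
  have hs0 : 0 < s := by
    have e : κ * (7 - 2 * μ) = 1 - κ * η := by
      rw [hμ, hg]
      field_simp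
      ring
    rw [hs, e]
    have : 0 < κ * η := by positivity
    linarith
  obtain ⟨c0, hc0, hfam⟩ := fam (ε := ε / 6) (by positivity)
  -- large `T`
  obtain ⟨A, hA⟩ : ∃ A : ℝ, A = c + κ * (2 / 3 * Real.log 288 + 3 * Real.log 2) +
    (1 - 3 * κ) * (Real.log 128 / 3) := ⟨_, rfl⟩
  have ev : ∀ᶠ T : ℝ in Filter.atTop, 1 ≤ T ∧ 10 ^ 8 ≤ T ^ μ ∧ 64 ≤ T ^ (1 - 2 * μ) ∧
      A < s * Real.log T := by
    refine (Filter.eventually_ge_atTop 1).and (((tendsto_rpow_atTop hμ0).eventually_ge_atTop _).and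
      (((tendsto_rpow_atTop hμ1).eventually_ge_atTop _).and ?_))
    exact (Real.tendsto_log_atTop.const_mul_atTop hs0).eventually_gt_atTop A
  obtain ⟨T0, hT0⟩ := Filter.eventually_atTop.1 ev
  refine ⟨c0 * (1 / 24) ^ 4, max 1 (24 * T0), by positivity, le_max_left _ _, ?_⟩
  intro B hB
  have hB1 : 1 ≤ B := (le_max_left _ _).trans hB
  have hB0 : 0 < B := by linarith
  obtain ⟨T, hT⟩ : ∃ T : ℝ, T = B ^ 3 / 24 := ⟨_, rfl⟩
  have hTT0 : T0 ≤ T := by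
    have k1 : 24 * T0 ≤ B := (le_max_right _ _).trans hB
    have k2 : B ≤ B ^ 3 := by nlinarith [sq_nonneg (B - 1)]
    rw [hT]
    linarith
  obtain ⟨t1, t2, t3, t4⟩ := hT0 T hTT0
  have hTpos : 0 < T := by linarith
  obtain ⟨M, hM⟩ : ∃ M : ℝ, M = T ^ μ := ⟨_, rfl⟩
  have hMT : 64 * M ^ 2 ≤ T := by
    have e : T = T ^ (1 - 2 * μ) * M ^ 2 := by
      rw [hM, ← Real.rpow_natCast (T ^ μ) 2, ← Real.rpow_mul hTpos.le, ← Real.rpow_add hTpos]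
      push_cast
      rw [show 1 - 2 * μ + μ * 2 = 1 by ring, Real.rpow_one]
    have k1 : 0 ≤ M ^ 2 := by positivity
    calc 64 * M ^ 2 ≤ T ^ (1 - 2 * μ) * M ^ 2 := mul_le_mul_of_nonneg_right t3 k1
      _ = T := e.symm
  obtain ⟨F, hF1, hF2⟩ := hfam T M (by rw [hM]; exact t2) hMT
  obtain ⟨E, hE1, hE2⟩ := exists_pts3 T F (fun p hp => by
    obtain ⟨k1, k2, k3, k4, k5, -⟩ := hF2 p hp
    exact ⟨k1, k2, k3, k4, k5⟩)
  refine ⟨E, ?_, ?_⟩
  · rw [hE1]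
    refine le_trans ?_ hF1
    have e1 : T ^ (4 - ε / 6) / M = T ^ (4 - ε / 6 - μ) := by
      rw [hM, ← Real.rpow_sub hTpos]
    have e2 : T = B ^ (3 : ℝ) * (1 / 24) := by
      rw [hT, show (3 : ℝ) = ((3 : ℕ) : ℝ) by norm_num, Real.rpow_natCast]
      push_cast
      ring
    have hx0 : 0 ≤ 4 - ε / 6 - μ ∨ 4 - ε / 6 - μ < 0 := le_or_gt _ _
    rw [mul_div_assoc, e1]
    have e3 : T ^ (4 - ε / 6 - μ) =
        B ^ (3 * (4 - ε / 6 - μ)) * (1 / 24) ^ (4 - ε / 6 - μ) := by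
      rw [e2, Real.mul_rpow (by positivity) (by norm_num), ← Real.rpow_mul hB0.le]
    have e4 : ((1 : ℝ) / 24) ^ 4 ≤ (1 / 24) ^ (4 - ε / 6 - μ) := by
      rw [← Real.rpow_natCast]
      refine Real.rpow_le_rpow_of_exponent_ge (by norm_num) (by norm_num) ?_
      push_cast
      have : 0 < ε := hε
      linarith
    have e5 : B ^ (3 / 2 + 3 / (2 * κ) - ε) ≤ B ^ (3 * (4 - ε / 6 - μ)) := by
      refine Real.rpow_le_rpow_of_exponent_le hB1 ?_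
      have e6 : 3 / (2 * κ) = 3 / 2 * (1 / κ) := by
        field_simp
      rw [hμ, hg, e6]
      linarith
    rw [e3]
    have k3 : 0 ≤ B ^ (3 * (4 - ε / 6 - μ)) := by positivity
    calc c0 * (1 / 24) ^ 4 * B ^ (3 / 2 + 3 / (2 * κ) - ε) ≤
          c0 * (1 / 24) ^ 4 * B ^ (3 * (4 - ε / 6 - μ)) := by gcongr
      _ = c0 * (B ^ (3 * (4 - ε / 6 - μ)) * (1 / 24) ^ 4) := by ring
      _ ≤ c0 * (B ^ (3 * (4 - ε / 6 - μ)) * (1 / 24) ^ (4 - ε / 6 - μ)) := by gcongr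
  · intro x hx
    obtain ⟨p, hp, hAt⟩ := hE2 x hx
    obtain ⟨k1, k2, k3, k4, k5, k6, r, m, k7, k8, k9, k10⟩ := hF2 p hp
    have hM1 : 1 ≤ M := by
      rw [hM]
      linarith
    have hlM : Real.log M = μ * Real.log T := by rw [hM, Real.log_rpow hTpos]
    have hv := viol_at3 (κ := κ) (c := c) hκ0 h2 hM1 k1 k2 k3 k4 k5 k6 k7 k8 k9 k10 hAt (by
      rw [hlM]
      rw [hs] at t4
      rw [hA] at t4
      linarith)
    have e : (24 * T) ^ (1 / 3 : ℝ) = B := by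
      rw [hT, show 24 * (B ^ 3 / 24) = B ^ (3 : ℝ) by
        rw [show (3 : ℝ) = ((3 : ℕ) : ℝ) by norm_num, Real.rpow_natCast]
        push_cast
        ring, ← Real.rpow_mul hB0.le]
      norm_num
    rw [e] at hv
    exact hv

end Pool.Agent.H88.CP
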