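import Mathlib

/-!
# Reduced integral bases of cubic fields
-/

set_option autoImplicit false

namespace Pool.Agent.H88.CP

open NumberField Finset

section Form

variable {K : Type} [Field K]

def d0 (s : Fin 3 ≃ (K →+* ℂ)) (v : K) : ℂ := s 1 v - s 2 v
def d1 (s : Fin 3 ≃ (K →+* ℂ)) (v : K) : ℂ := s 2 v - s 0 v
def d2 (s : Fin 3 ≃ (K →+* ℂ)) (v : K) : ℂ := s 0 v - s 1 v

/-- the positive form on `K / ℚ` -/
noncomputable def qf (s : Fin 3 ≃ (K →+* ℂ)) (v : K) : ℝ :=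
  ‖d0 s v‖ ^ 2 + ‖d1 s v‖ ^ 2 + ‖d2 s v‖ ^ 2

/-- its hermitian form -/
noncomputable def ip (s : Fin 3 ≃ (K →+* ℂ)) (v w : K) : ℂ :=
  d0 s v * (starRingEnd ℂ) (d0 s w) + d1 s v * (starRingEnd ℂ) (d1 s w) +
    d2 s v * (starRingEnd ℂ) (d2 s w)

/-- the determinant of `1, v, w` -/
def dl (s : Fin 3 ≃ (K →+* ℂ)) (v w : K) : ℂ := d0 s v * d1 s w - d1 s v * d0 s w

/-- the product of the differences -/
def vv (s : Fin 3 ≃ (K →+* ℂ)) (v : K) : ℂ := d0 s v * d1 s v * d2 s v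

variable (s : Fin 3 ≃ (K →+* ℂ))

theorem d_sum (v : K) : d2 s v = -d0 s v - d1 s v := by
  unfold d0 d1 d2
  ring

theorem d0_add (v w : K) : d0 s (v + w) = d0 s v + d0 s w := by
  unfold d0
  rw [map_add, map_add]
  ring

theorem d1_add (v w : K) : d1 s (v + w) = d1 s v + d1 s w := by
  unfold d1
  rw [map_add, map_add]
  ring

theorem d2_add (v w : K) : d2 s (v + w) = d2 s v + d2 s w := by
  unfold d2
  rw [map_add, map_add]
  ring


theorem d0_rat (r : ℚ) : d0 s (r : K) = 0 := by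
  unfold d0
  rw [map_ratCast, map_ratCast, sub_self]

theorem d1_rat (r : ℚ) : d1 s (r : K) = 0 := by
  unfold d1
  rw [map_ratCast, map_ratCast, sub_self]

theorem d2_rat (r : ℚ) : d2 s (r : K) = 0 := by
  unfold d2
  rw [map_ratCast, map_ratCast, sub_self]

theorem d0_smul (r : ℚ) (v : K) : d0 s (r * v) = r * d0 s v := by
  unfold d0
  rw [map_mul, map_mul, map_ratCast, map_ratCast]
  ring

theorem d1_smul (r : ℚ) (v : K) : d1 s (r * v) = r * d1 s v := by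
  unfold d1
  rw [map_mul, map_mul, map_ratCast, map_ratCast]
  ring

theorem d2_smul (r : ℚ) (v : K) : d2 s (r * v) = r * d2 s v := by
  unfold d2
  rw [map_mul, map_mul, map_ratCast, map_ratCast]
  ring

theorem nsq (a b : ℂ) (x y : ℝ) : ‖(x : ℂ) * a + (y : ℂ) * b‖ ^ 2 =
    x ^ 2 * ‖a‖ ^ 2 + 2 * x * y * (a * (starRingEnd ℂ) b).re + y ^ 2 * ‖b‖ ^ 2 := by
  rw [Complex.sq_norm, Complex.sq_norm, Complex.sq_norm, Complex.normSq_apply,
    Complex.normSq_apply, Complex.normSq_apply]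
  simp
  ring

theorem d0_comb (r x y : ℚ) (v w : K) : d0 s (r + x * v + y * w) =
    ((x : ℝ) : ℂ) * d0 s v + ((y : ℝ) : ℂ) * d0 s w := by
  rw [d0_add, d0_add, d0_rat, d0_smul, d0_smul]
  push_cast
  ring

theorem d1_comb (r x y : ℚ) (v w : K) : d1 s (r + x * v + y * w) =
    ((x : ℝ) : ℂ) * d1 s v + ((y : ℝ) : ℂ) * d1 s w := by
  rw [d1_add, d1_add, d1_rat, d1_smul, d1_smul]
  push_cast
  ring

theorem d2_comb (r x y : ℚ) (v w : K) : d2 s (r + x * v + y * w) =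
    ((x : ℝ) : ℂ) * d2 s v + ((y : ℝ) : ℂ) * d2 s w := by
  rw [d2_add, d2_add, d2_rat, d2_smul, d2_smul]
  push_cast
  ring

theorem qf_comb (r x y : ℚ) (v w : K) : qf s (r + x * v + y * w) =
    (x : ℝ) ^ 2 * qf s v + 2 * x * y * (ip s v w).re + (y : ℝ) ^ 2 * qf s w := by
  unfold qf ip
  rw [d0_comb, d1_comb, d2_comb, nsq, nsq, nsq, Complex.add_re, Complex.add_re]
  ring


theorem qf_nonneg (v : K) : 0 ≤ qf s v := by
  unfold qf
  positivity

end Form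

section Real

variable {K : Type} [Field K] [NumberField K] (s : Fin 3 ≃ (K →+* ℂ))

theorem sum_conj (F : (K →+* ℂ) → ℂ)
    (hF : ∀ σ, (starRingEnd ℂ) (F σ) = F (ComplexEmbedding.conjugate σ)) :
    (starRingEnd ℂ) (∑ σ, F σ) = ∑ σ, F σ := by
  rw [map_sum]
  simp only [hF]
  exact Equiv.sum_comp ((ComplexEmbedding.involutive_conjugate K).toPerm _) F

theorem sum_fin (F : (K →+* ℂ) → ℂ) : ∑ σ, F σ = F (s 0) + F (s 1) + F (s 2) := by
  rw [← Equiv.sum_comp s F, Fin.sum_univ_three]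

theorem tr_real (v : K) : ∃ r : ℝ, s 0 v + s 1 v + s 2 v = (r : ℂ) := by
  rw [← Complex.conj_eq_iff_real, ← sum_fin s (fun σ => σ v)]
  apply sum_conj
  intro σ
  rw [ComplexEmbedding.conjugate_coe_eq]

theorem ip_real (v w : K) : (ip s v w).im = 0 := by
  rw [← Complex.conj_eq_iff_im]
  have h1 : 2 * ip s v w = ∑ σ : K →+* ℂ, ∑ τ : K →+* ℂ,
      (σ v - τ v) * (starRingEnd ℂ) (σ w - τ w) := by
    simp only [sum_fin s]
    unfold ip d0 d1 d2
    simp only [map_sub]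
    ring
  have h2 : (starRingEnd ℂ) (2 * ip s v w) = 2 * ip s v w := by
    rw [h1, map_sum]
    have h3 : ∀ σ : K →+* ℂ, (starRingEnd ℂ) (∑ τ : K →+* ℂ,
        (σ v - τ v) * (starRingEnd ℂ) (σ w - τ w)) =
        ∑ τ : K →+* ℂ, (ComplexEmbedding.conjugate σ v - τ v) *
          (starRingEnd ℂ) (ComplexEmbedding.conjugate σ w - τ w) := by
      intro σ
      rw [map_sum, ← Equiv.sum_comp ((ComplexEmbedding.involutive_conjugate K).toPerm _)
        (fun τ : K →+* ℂ => (ComplexEmbedding.conjugate σ v - τ v) *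
          (starRingEnd ℂ) (ComplexEmbedding.conjugate σ w - τ w))]
      refine Finset.sum_congr rfl fun τ _ => ?_
      simp only [Function.Involutive.coe_toPerm, ComplexEmbedding.conjugate_coe_eq, map_sub,
        map_mul]
    simp only [h3]
    exact Equiv.sum_comp ((ComplexEmbedding.involutive_conjugate K).toPerm _)
      (fun σ : K →+* ℂ => ∑ τ : K →+* ℂ, (σ v - τ v) * (starRingEnd ℂ) (σ w - τ w))
  rw [map_mul] at h2
  have h4 : (starRingEnd ℂ) 2 = 2 := by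
    rw [Complex.conj_eq_iff_real]
    exact ⟨2, by norm_num⟩
  rw [h4] at h2
  exact mul_left_cancel₀ two_ne_zero h2

/-- the identity of Lagrange -/
theorem lagrange (v w : K) : qf s v * qf s w = (ip s v w).re ^ 2 + 3 * ‖dl s v w‖ ^ 2 := by
  have h := ip_real s v w
  have e : (ip s v w).re ^ 2 = Complex.normSq (ip s v w) := by
    rw [Complex.normSq_apply, h]
    ring
  rw [e]
  unfold qf ip dl
  rw [d_sum s v, d_sum s w]
  simp only [Complex.sq_norm]
  obtain ⟨a, ha⟩ : ∃ a : ℂ, a = d0 s v := ⟨_, rfl⟩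
  obtain ⟨b, hb⟩ : ∃ b : ℂ, b = d1 s v := ⟨_, rfl⟩
  obtain ⟨c, hc⟩ : ∃ c : ℂ, c = d0 s w := ⟨_, rfl⟩
  obtain ⟨d, hd⟩ : ∃ d : ℂ, d = d1 s w := ⟨_, rfl⟩
  rw [← ha, ← hb, ← hc, ← hd]
  simp only [Complex.normSq_apply, Complex.add_re, Complex.add_im, Complex.sub_re, Complex.sub_im,
    Complex.neg_re, Complex.neg_im, Complex.mul_re, Complex.mul_im, Complex.conj_re,
    Complex.conj_im]
  ring

/-- distinct conjugates -/
theorem emb_ne (hK : Module.finrank ℚ K = 3) {v : K} (hv : ∀ r : ℚ, v ≠ (r : K)) {σ τ : K →+* ℂ}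
    (h : σ ≠ τ) : σ v ≠ τ v := by
  intro hστ
  apply h
  have hs := IntermediateField.isSimpleOrder_of_finrank_prime ℚ K (by
    rw [hK]
    exact Nat.prime_three)
  set L : IntermediateField ℚ K := Subfield.toIntermediateField (RingHom.eqLocusField σ τ)
    (fun x => by
      show σ _ = τ _
      simp) with hL
  have hmem : ∀ x : K, x ∈ L ↔ σ x = τ x := fun x => Iff.rfl
  rcases hs.eq_bot_or_eq_top L with h1 | h1
  · exfalso
    have h2 : v ∈ L := (hmem v).2 hστ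
    rw [h1, IntermediateField.mem_bot] at h2
    obtain ⟨r, hr⟩ := h2
    apply hv r
    rw [← hr]
    simp
  · ext x
    exact (hmem x).1 (by rw [h1]; exact IntermediateField.mem_top)

theorem d_ne (hK : Module.finrank ℚ K = 3) {v : K} (hv : ∀ r : ℚ, v ≠ (r : K)) :
    d0 s v ≠ 0 ∧ d1 s v ≠ 0 ∧ d2 s v ≠ 0 := by
  refine ⟨sub_ne_zero.2 (emb_ne hK hv ?_), sub_ne_zero.2 (emb_ne hK hv ?_),
    sub_ne_zero.2 (emb_ne hK hv ?_)⟩
  · exact s.injective.ne (by decide)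
  · exact s.injective.ne (by decide)
  · exact s.injective.ne (by decide)

/-- the integers whose conjugates are bounded -/
theorem fin_box (R : ℝ) : {v : 𝓞 K | ∀ i, ‖s i (v : K)‖ ≤ R}.Finite := by
  have h := Embeddings.finite_of_norm_le K ℂ R
  refine Set.Finite.subset (h.preimage (RingOfIntegers.coe_injective.injOn)) ?_
  intro v hv
  refine ⟨v.isIntegral_coe, fun φ => ?_⟩
  obtain ⟨i, rfl⟩ := s.surjective φ
  exact hv i

/-- existence of minima -/
theorem exists_min (P : 𝓞 K → Prop) (h0 : ∃ v, P v) (hinv : ∀ v (n : ℤ), P v → P (v - n)) :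
    ∃ v, P v ∧ ∀ w, P w → qf s (v : K) ≤ qf s (w : K) := by
  have hnorm : ∀ v : 𝓞 K, P v → ∃ w : 𝓞 K, P w ∧ qf s (w : K) = qf s (v : K) ∧
      ‖s 0 (w : K) + s 1 (w : K) + s 2 (w : K)‖ ≤ 3 := by
    intro v hv
    obtain ⟨r, hr⟩ := tr_real s (v : K)
    refine ⟨v - (⌊r / 3⌋ : ℤ), hinv _ _ hv, ?_, ?_⟩
    · unfold qf d0 d1 d2
      simp
    · have e : s 0 ((v - (⌊r / 3⌋ : ℤ) : 𝓞 K) : K) + s 1 ((v - (⌊r / 3⌋ : ℤ) : 𝓞 K) : K) +
          s 2 ((v - (⌊r / 3⌋ : ℤ) : 𝓞 K) : K) = ((r - 3 * (⌊r / 3⌋ : ℝ) : ℝ) : ℂ) := by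
        push_cast
        rw [← hr]
        simp only [map_sub, map_intCast]
        ring
      rw [e, Complex.norm_real, Real.norm_eq_abs, abs_le]
      have h1 := Int.floor_le (r / 3)
      have h2 := Int.lt_floor_add_one (r / 3)
      constructor <;> linarith
  obtain ⟨v0, hv0⟩ := h0
  obtain ⟨v1, hv1, hq1, ht1⟩ := hnorm v0 hv0
  set A : Set (𝓞 K) := {v | P v ∧ qf s (v : K) ≤ qf s (v1 : K) ∧
    ‖s 0 (v : K) + s 1 (v : K) + s 2 (v : K)‖ ≤ 3} with hA
  have hfin : A.Finite := by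
    refine (fin_box s (3 + qf s (v1 : K))).subset ?_
    rintro v ⟨-, h1, h2⟩
    have hd0 : ‖d0 s (v : K)‖ ≤ 1 + qf s (v1 : K) := by
      have : ‖d0 s (v : K)‖ ^ 2 ≤ qf s (v : K) := by
        unfold qf
        nlinarith [sq_nonneg ‖d1 s (v : K)‖, sq_nonneg ‖d2 s (v : K)‖]
      nlinarith [sq_nonneg (‖d0 s (v : K)‖ - 1)]
    have hd1 : ‖d1 s (v : K)‖ ≤ 1 + qf s (v1 : K) := by
      have : ‖d1 s (v : K)‖ ^ 2 ≤ qf s (v : K) := by
        unfold qf
        nlinarith [sq_nonneg ‖d0 s (v : K)‖, sq_nonneg ‖d2 s (v : K)‖]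
      nlinarith [sq_nonneg (‖d1 s (v : K)‖ - 1)]
    have hd2 : ‖d2 s (v : K)‖ ≤ 1 + qf s (v1 : K) := by
      have : ‖d2 s (v : K)‖ ^ 2 ≤ qf s (v : K) := by
        unfold qf
        nlinarith [sq_nonneg ‖d0 s (v : K)‖, sq_nonneg ‖d1 s (v : K)‖]
      nlinarith [sq_nonneg (‖d2 s (v : K)‖ - 1)]
    have key : ∀ x y z : ℂ, ‖x‖ ≤ 3 → ‖y‖ ≤ 1 + qf s (v1 : K) → ‖z‖ ≤ 1 + qf s (v1 : K) →
        ‖(x + y - z) / 3‖ ≤ 3 + qf s (v1 : K) := by
      intro x y z hx hy hz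
      rw [norm_div, Complex.norm_ofNat, div_le_iff₀ (by norm_num)]
      have h3 := norm_sub_le (x + y) z
      have h4 := norm_add_le x y
      have := qf_nonneg s (v1 : K)
      linarith
    intro i
    fin_cases i
    · have e : s 0 (v : K) = (s 0 (v : K) + s 1 (v : K) + s 2 (v : K) + d2 s (v : K) -
          d1 s (v : K)) / 3 := by
        unfold d1 d2
        ring
      show ‖s 0 (v : K)‖ ≤ _
      rw [e]
      exact key _ _ _ h2 hd2 hd1
    · have e : s 1 (v : K) = (s 0 (v : K) + s 1 (v : K) + s 2 (v : K) + d0 s (v : K) -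
          d2 s (v : K)) / 3 := by
        unfold d0 d2
        ring
      show ‖s 1 (v : K)‖ ≤ _
      rw [e]
      exact key _ _ _ h2 hd0 hd2
    · have e : s 2 (v : K) = (s 0 (v : K) + s 1 (v : K) + s 2 (v : K) + d1 s (v : K) -
          d0 s (v : K)) / 3 := by
        unfold d0 d1
        ring
      show ‖s 2 (v : K)‖ ≤ _
      rw [e]
      exact key _ _ _ h2 hd1 hd0
  obtain ⟨v, hvA, hv⟩ := Set.exists_min_image A (fun v => qf s (v : K)) hfin
    ⟨v1, hv1, le_rfl, ht1⟩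
  refine ⟨v, hvA.1, fun w hw => ?_⟩
  obtain ⟨w', hw', hq', ht'⟩ := hnorm w hw
  by_cases h : qf s (w : K) ≤ qf s (v1 : K)
  · rw [← hq']
    exact hv w' ⟨hw', by rw [hq']; exact h, ht'⟩
  · push Not at h
    exact hvA.2.1.trans h.le

end Real

end Pool.Agent.H88.CP
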