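import Pool.Agent.H88.CP2

/-!
# Reduced integral bases of cubic fields, continued
-/

set_option autoImplicit false

namespace Pool.Agent.H88.CP

open NumberField Finset

variable {K : Type} [Field K] [NumberField K] (s : Fin 3 ≃ (K →+* ℂ))

/-- the discriminant of a basis `1, b 1, b 2` -/
theorem discr_basis (b : Module.Basis (Fin 3) ℤ (𝓞 K)) (h0 : b 0 = 1) :
    ((discr K : ℤ) : ℂ) = (dl s (b 1 : K) (b 2 : K)) ^ 2 := by
  have h1 : ((discr K : ℤ) : ℚ) = Algebra.discr ℚ (fun i => (b i : K)) := by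
    have h2 := Algebra.discr_localizationLocalization ℤ (nonZeroDivisors ℤ) (Rₘ := ℚ) K b
    rw [discr_eq_discr] at h2
    have h3 : ((discr K : ℤ) : ℚ) = (algebraMap ℤ ℚ) (discr K) := rfl
    rw [h3, ← h2]
    congr 1
    funext i
    rw [Module.Basis.localizationLocalization_apply]
  have h2 := Algebra.discr_eq_det_embeddingsMatrixReindex_pow_two ℚ ℂ (fun i => (b i : K))
    (s.trans (RingHom.equivRatAlgHom K ℂ))
  rw [← h1] at h2
  have h3 : ((discr K : ℤ) : ℂ) = (algebraMap ℚ ℂ) ((discr K : ℤ) : ℚ) := by simp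
  rw [h3, h2, Matrix.det_fin_three]
  unfold dl d0 d1
  simp only [Algebra.embeddingsMatrixReindex, Matrix.reindex_apply, Matrix.submatrix_apply,
    Algebra.embeddingsMatrix_apply, Equiv.refl_symm, Equiv.coe_refl, id_eq, Equiv.symm_symm,
    Equiv.trans_apply, RingHom.equivRatAlgHom_apply, RingHom.toRatAlgHom_apply, h0, map_one]
  ring

omit [NumberField K] in
theorem coe_int (n : ℤ) : ((n : 𝓞 K) : K) = (n : K) := map_intCast (algebraMap (𝓞 K) K) n

omit [NumberField K] in
theorem coe_sub_int (v : 𝓞 K) (n : ℤ) : ((v - n : 𝓞 K) : K) = v - n := by simp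

omit [NumberField K] in
theorem coe_comb2 (x y : ℤ) (α β : 𝓞 K) :
    (((x : 𝓞 K) * α + y * β : 𝓞 K) : K) = (x : K) * α + y * β := by simp

omit [NumberField K] in
theorem coe_comb3 (n x y : ℤ) (α β : 𝓞 K) :
    (((n : 𝓞 K) + x * α + y * β : 𝓞 K) : K) = (n : K) + x * α + y * β := by simp

include s in
theorem exists_irr : ∃ v : 𝓞 K, ∀ r : ℚ, (v : K) ≠ (r : K) := by
  by_contra hcon
  push Not at hcon
  have h1 : s 1 = s 2 := by
    ext x
    obtain ⟨a, b, -, rfl⟩ := IsFractionRing.div_surjective (A := 𝓞 K) x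
    obtain ⟨p, hp⟩ := hcon a
    obtain ⟨q, hq⟩ := hcon b
    have e1 : algebraMap (𝓞 K) K a = (p : K) := hp
    have e2 : algebraMap (𝓞 K) K b = (q : K) := hq
    rw [e1, e2, map_div₀, map_div₀, map_ratCast, map_ratCast, map_ratCast, map_ratCast]
  exact absurd (s.injective h1) (by decide)

/-- a reduced integral basis -/
theorem exists_red (hK : Module.finrank ℚ K = 3) : ∃ α β : 𝓞 K,
    (∀ v : 𝓞 K, ∃ n x y : ℤ, v = n + x * α + y * β) ∧
    ((discr K : ℤ) : ℂ) = (dl s (α : K) (β : K)) ^ 2 ∧ vv s (α : K) ≠ 0 ∧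
    qf s (α : K) ≤ qf s (β : K) ∧ |2 * (ip s (α : K) (β : K)).re| ≤ qf s (α : K) := by
  classical
  obtain ⟨α, hα, hαmin⟩ := exists_min s (fun v => ∀ r : ℚ, (v : K) ≠ (r : K)) (exists_irr s) (by
    intro v n hv r h
    apply hv (r + n)
    rw [coe_sub_int] at h
    push_cast
    rw [← h]
    ring)
  obtain ⟨k0, k1, k2⟩ := d_ne s hK hα
  have hvv : vv s (α : K) ≠ 0 := mul_ne_zero (mul_ne_zero k0 k1) k2
  obtain ⟨β, hβ, hβmin⟩ := exists_min s (fun v => dl s (α : K) (v : K) ≠ 0) ⟨α ^ 2, by
    have : dl s (α : K) ((α ^ 2 : 𝓞 K) : K) = vv s (α : K) := by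
      unfold dl vv d0 d1 d2
      push_cast
      simp only [map_pow]
      ring
    rw [this]
    exact hvv⟩ (by
    intro v n hv h
    apply hv
    rw [← h]
    rw [coe_sub_int]
    unfold dl d0 d1
    simp only [map_sub, map_intCast]
    ring)
  -- combinations
  have hdl : ∀ n x y : ℚ, dl s (α : K) ((n : K) + x * α + y * β) = y * dl s (α : K) (β : K) := by
    intro n x y
    unfold dl
    rw [d0_comb, d1_comb]
    push_cast
    ring
  have hβirr : ∀ r : ℚ, (β : K) ≠ (r : K) := by
    intro r h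
    apply hβ
    rw [h]
    unfold dl
    rw [d0_rat, d1_rat]
    ring
  have hAC : qf s (α : K) ≤ qf s (β : K) := hαmin β hβirr
  have hcomb : ∀ x y : ℤ, qf s ((((x : 𝓞 K) * α + y * β : 𝓞 K)) : K) =
      (x : ℝ) ^ 2 * qf s (α : K) + 2 * x * y * (ip s (α : K) (β : K)).re +
        (y : ℝ) ^ 2 * qf s (β : K) := by
    intro x y
    have := qf_comb s 0 x y (α : K) (β : K)
    push_cast at this
    rw [zero_add] at this
    rw [coe_comb2]
    exact this
  have hdl' : ∀ x y : ℤ, dl s (α : K) ((((x : 𝓞 K) * α + y * β : 𝓞 K)) : K) =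
      y * dl s (α : K) (β : K) := by
    intro x y
    have := hdl 0 x y
    push_cast at this
    rw [zero_add] at this
    rw [coe_comb2]
    exact this
  have hB : |2 * (ip s (α : K) (β : K)).re| ≤ qf s (α : K) := by
    have e1 := hβmin ((1 : ℤ) * α + (1 : ℤ) * β) (by
      show dl s (α : K) ((((1 : ℤ) : 𝓞 K) * α + ((1 : ℤ) : 𝓞 K) * β : 𝓞 K) : K) ≠ 0
      rw [hdl']
      simpa using hβ)
    have e2 := hβmin ((-1 : ℤ) * α + (1 : ℤ) * β) (by
      show dl s (α : K) ((((-1 : ℤ) : 𝓞 K) * α + ((1 : ℤ) : 𝓞 K) * β : 𝓞 K) : K) ≠ 0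
      rw [hdl']
      simpa using hβ)
    rw [hcomb] at e1 e2
    push_cast at e1 e2
    rw [abs_le]
    constructor <;> linarith
  have hA0 : 0 < qf s (α : K) := by
    unfold qf
    have := norm_pos_iff.2 k0
    positivity
  have hC0 : 0 < qf s (β : K) := lt_of_lt_of_le hA0 hAC
  -- the rational basis
  have hli : LinearIndependent ℚ ![(1 : K), (α : K), (β : K)] := by
    rw [Fintype.linearIndependent_iff]
    intro g hg
    rw [Fin.sum_univ_three] at hg
    simp only [Matrix.cons_val_zero, Matrix.cons_val_one, Matrix.cons_val_two, Matrix.head_cons,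
      Matrix.tail_cons, Matrix.cons_val, Rat.smul_def, mul_one] at hg
    have h2 : (g 2 : ℂ) = 0 := by
      have := hdl (g 0) (g 1) (g 2)
      rw [hg] at this
      have h3 : dl s (α : K) 0 = 0 := by
        unfold dl d0 d1
        simp
      rw [h3] at this
      exact (mul_eq_zero.1 this.symm).resolve_right hβ
    have h2' : g 2 = 0 := by exact_mod_cast h2
    rw [h2'] at hg
    have h1 : (g 1 : ℂ) = 0 := by
      have := d0_comb s (g 0) (g 1) 0 (α : K) (β : K)
      rw [hg] at this
      have h3 : d0 s (0 : K) = 0 := by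
        unfold d0
        simp
      rw [h3] at this
      push_cast at this
      rw [zero_mul, add_zero] at this
      exact (mul_eq_zero.1 this.symm).resolve_right k0
    have h1' : g 1 = 0 := by exact_mod_cast h1
    rw [h1'] at hg
    have h0' : g 0 = 0 := by
      have : (g 0 : K) = 0 := by simpa using hg
      exact_mod_cast this
    intro i
    fin_cases i
    · exact h0'
    · exact h1'
    · exact h2'
  have hspanQ : ∀ v : K, ∃ n x y : ℚ, v = n + x * α + y * β := by
    intro v
    have h1 := hli.span_eq_top_of_card_eq_finrank' (by rw [hK]; rfl)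
    have h2 : v ∈ Submodule.span ℚ (Set.range ![(1 : K), (α : K), (β : K)]) := by
      rw [h1]
      exact Submodule.mem_top
    rw [Submodule.mem_span_range_iff_exists_fun] at h2
    obtain ⟨c, hc⟩ := h2
    rw [Fin.sum_univ_three] at hc
    simp only [Matrix.cons_val_zero, Matrix.cons_val_one, Matrix.cons_val_two, Matrix.head_cons,
      Matrix.tail_cons, Matrix.cons_val, Rat.smul_def, mul_one] at hc
    exact ⟨c 0, c 1, c 2, hc.symm⟩
  have hspan : ∀ v : 𝓞 K, ∃ n x y : ℤ, v = n + x * α + y * β := by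
    intro v
    obtain ⟨n, x, y, hv⟩ := hspanQ (v : K)
    obtain ⟨v', hv'⟩ : ∃ v' : 𝓞 K, v' = v - (round x : ℤ) * α - (round y : ℤ) * β := ⟨_, rfl⟩
    obtain ⟨x', hx'⟩ : ∃ x' : ℚ, x' = x - round x := ⟨_, rfl⟩
    obtain ⟨y', hy'⟩ : ∃ y' : ℚ, y' = y - round y := ⟨_, rfl⟩
    have hvK : (v' : K) = (n : K) + (x' : K) * α + (y' : K) * β := by
      rw [hv', hx', hy']
      have e0 : ((v - (round x : ℤ) * α - (round y : ℤ) * β : 𝓞 K) : K) =
          (v : K) - (((round x : ℤ) : 𝓞 K) : K) * (α : K) - (((round y : ℤ) : 𝓞 K) : K) * (β : K) :=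
        by push_cast; rfl
      rw [e0, coe_int, coe_int, hv]
      push_cast
      ring
    have hxa : |(x' : ℝ)| ≤ 1 / 2 := by
      have := abs_sub_round x
      rw [← hx'] at this
      have h' : ((|x'| : ℚ) : ℝ) ≤ ((1 / 2 : ℚ) : ℝ) := by exact_mod_cast this
      push_cast at h'
      exact h'
    have hya : |(y' : ℝ)| ≤ 1 / 2 := by
      have := abs_sub_round y
      rw [← hy'] at this
      have h' : ((|y'| : ℚ) : ℝ) ≤ ((1 / 2 : ℚ) : ℝ) := by exact_mod_cast this
      push_cast at h'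
      exact h'
    have hq : qf s (v' : K) = (x' : ℝ) ^ 2 * qf s (α : K) +
        2 * x' * y' * (ip s (α : K) (β : K)).re + (y' : ℝ) ^ 2 * qf s (β : K) := by
      rw [hvK]
      exact qf_comb s n x' y' (α : K) (β : K)
    have hx2 : (x' : ℝ) ^ 2 ≤ 1 / 4 := by
      rw [← sq_abs]
      nlinarith [abs_nonneg (x' : ℝ)]
    have hy2 : (y' : ℝ) ^ 2 ≤ 1 / 4 := by
      rw [← sq_abs]
      nlinarith [abs_nonneg (y' : ℝ)]
    have hy0 : y' = 0 := by
      by_contra hne
      have h1 := hβmin v' (by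
        show dl s (α : K) (v' : K) ≠ 0
        rw [hvK, hdl]
        exact mul_ne_zero (by exact_mod_cast hne) hβ)
      have h2 : 2 * (x' : ℝ) * y' * (ip s (α : K) (β : K)).re ≤ 1 / 4 * qf s (α : K) := by
        have h3 : 2 * (x' : ℝ) * y' * (ip s (α : K) (β : K)).re ≤
            |(x' : ℝ)| * |(y' : ℝ)| * |2 * (ip s (α : K) (β : K)).re| := by
          rw [← abs_mul, ← abs_mul]
          refine le_trans (le_of_eq ?_) (le_abs_self _)
          ring
        refine h3.trans ?_
        have h4 : |(x' : ℝ)| * |(y' : ℝ)| ≤ 1 / 2 * (1 / 2) := by gcongr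
        calc |(x' : ℝ)| * |(y' : ℝ)| * |2 * (ip s (α : K) (β : K)).re| ≤
              (1 / 2 * (1 / 2)) * qf s (α : K) := by gcongr
          _ = 1 / 4 * qf s (α : K) := by ring
      have h3 : (x' : ℝ) ^ 2 * qf s (α : K) ≤ 1 / 4 * qf s (α : K) := by gcongr
      have h4 : (y' : ℝ) ^ 2 * qf s (β : K) ≤ 1 / 4 * qf s (β : K) := by gcongr
      rw [hq] at h1
      linarith
    have hx0 : x' = 0 := by
      by_contra hne
      rw [hy0] at hvK hq
      have h1 := hαmin v' (by
        intro r hr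
        have h2 : d0 s (v' : K) = 0 := by
          rw [hr, d0_rat]
        rw [hvK, d0_comb] at h2
        push_cast at h2
        rw [zero_mul, add_zero] at h2
        rcases mul_eq_zero.1 h2 with h3 | h3
        · exact hne (by exact_mod_cast h3)
        · exact k0 h3)
      have h3 : (x' : ℝ) ^ 2 * qf s (α : K) ≤ 1 / 4 * qf s (α : K) := by gcongr
      rw [hq] at h1
      push_cast at h1
      linarith
    rw [hx0, hy0] at hvK
    have hn : (v' : K) = (n : K) := by
      rw [hvK]
      push_cast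
      ring
    have hint : IsIntegral ℤ (n : ℚ) := by
      have h1 : IsIntegral ℤ (algebraMap ℚ K n) := by
        have h2 : algebraMap ℚ K n = (v' : K) := by
          rw [hn]
          simp
        rw [h2]
        exact v'.isIntegral_coe
      exact (isIntegral_algebraMap_iff (algebraMap ℚ K).injective).1 h1
    obtain ⟨m, hm⟩ := IsIntegrallyClosed.isIntegral_iff.1 hint
    refine ⟨m, round x, round y, ?_⟩
    have hm' : (m : ℚ) = n := hm
    have h5 : v' = (m : 𝓞 K) := by
      apply RingOfIntegers.coe_injective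
      show (v' : K) = ((m : 𝓞 K) : K)
      rw [hn, ← hm', coe_int]
      push_cast
      rfl
    rw [← h5, hv']
    ring
  -- the integral basis
  have hliZ : LinearIndependent ℤ ![(1 : 𝓞 K), α, β] := by
    rw [Fintype.linearIndependent_iff]
    intro g hg
    rw [Fintype.linearIndependent_iff] at hli
    have h1 := hli (fun i => (g i : ℚ)) (by
      rw [Fin.sum_univ_three] at hg ⊢
      simp only [Matrix.cons_val_zero, Matrix.cons_val_one, Matrix.cons_val_two, Matrix.head_cons,
        Matrix.tail_cons, Matrix.cons_val, Rat.smul_def, mul_one, zsmul_eq_mul] at hg ⊢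
      have h2 := congrArg (algebraMap (𝓞 K) K) hg
      rw [map_add, map_add, map_mul, map_mul, map_intCast, map_intCast, map_intCast,
        map_zero] at h2
      push_cast
      exact h2)
    intro i
    exact_mod_cast h1 i
  have hspZ : ⊤ ≤ Submodule.span ℤ (Set.range ![(1 : 𝓞 K), α, β]) := by
    rintro v -
    rw [Submodule.mem_span_range_iff_exists_fun]
    obtain ⟨n, x, y, hv⟩ := hspan v
    refine ⟨![n, x, y], ?_⟩
    rw [Fin.sum_univ_three, hv]
    simp
  have hdisc := discr_basis s (Module.Basis.mk hliZ hspZ) (by simp)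
  simp only [Module.Basis.mk_apply, Matrix.cons_val_one, Matrix.cons_val_zero,
    Matrix.cons_val] at hdisc
  exact ⟨α, β, hspan, hdisc, hvv, hAC, hB⟩

end Pool.Agent.H88.CP
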