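import Pool.Agent.H88.CP1
import Pool.Agent.H88.CP3

/-!
# The cubic polynomials of the elements of a cubic field and its reduced index form
-/

set_option autoImplicit false

namespace Pool.Agent.H88.CP

open NumberField Finset Polynomial

section Complex

/-- the size of a root -/
theorem root_bd {a b c d t : ℂ} {T : ℝ} (ha : ‖a‖ ≤ T) (hb : ‖b‖ ≤ T) (hc : ‖c‖ ≤ T)
    (hd : ‖d‖ ≤ T) (h : a * t ^ 3 + b * t ^ 2 + c * t + d = 0) : ‖a * t‖ ≤ 3 * T := by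
  have hT : 0 ≤ T := (norm_nonneg _).trans ha
  rcases le_or_gt ‖t‖ 1 with h1 | h1
  · rw [norm_mul]
    calc ‖a‖ * ‖t‖ ≤ T * 1 := by gcongr
      _ ≤ 3 * T := by linarith
  · have e : a * t * t ^ 2 = -(b * t ^ 2 + c * t + d) := by linear_combination h
    have h2 : ‖a * t‖ * ‖t‖ ^ 2 ≤ 3 * T * ‖t‖ ^ 2 := by
      have e2 : ‖a * t‖ * ‖t‖ ^ 2 = ‖a * t * t ^ 2‖ := by
        rw [norm_mul (a * t), norm_pow]
      rw [e2, e, norm_neg]
      refine (norm_add_le _ _).trans ?_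
      have h3 := norm_add_le (b * t ^ 2) (c * t)
      have h4 : ‖b * t ^ 2‖ ≤ T * ‖t‖ ^ 2 := by
        rw [norm_mul, norm_pow]
        gcongr
      have h5 : ‖c * t‖ ≤ T * ‖t‖ ^ 2 := by
        rw [norm_mul]
        have : ‖t‖ ≤ ‖t‖ ^ 2 := by nlinarith
        gcongr
      have h6 : ‖d‖ ≤ T * ‖t‖ ^ 2 := by
        have : 1 ≤ ‖t‖ ^ 2 := by nlinarith
        nlinarith
      linarith
    have h7 : 0 < ‖t‖ ^ 2 := by positivity
    exact le_of_mul_le_mul_right h2 h7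

theorem vieta {a b c d t0 t1 t2 : ℂ} (h01 : t0 ≠ t1) (h02 : t0 ≠ t2) (h12 : t1 ≠ t2)
    (h0 : a * t0 ^ 3 + b * t0 ^ 2 + c * t0 + d = 0) (h1 : a * t1 ^ 3 + b * t1 ^ 2 + c * t1 + d = 0)
    (h2 : a * t2 ^ 3 + b * t2 ^ 2 + c * t2 + d = 0) :
    a * (t0 + t1 + t2) = -b ∧ a * (t0 * t1 + t0 * t2 + t1 * t2) = c ∧ a * (t0 * t1 * t2) = -d := by
  have e01 : a * (t0 ^ 2 + t0 * t1 + t1 ^ 2) + b * (t0 + t1) + c = 0 := by
    have : (t0 - t1) * (a * (t0 ^ 2 + t0 * t1 + t1 ^ 2) + b * (t0 + t1) + c) = 0 := by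
      linear_combination h0 - h1
    exact (mul_eq_zero.1 this).resolve_left (sub_ne_zero.2 h01)
  have e02 : a * (t0 ^ 2 + t0 * t2 + t2 ^ 2) + b * (t0 + t2) + c = 0 := by
    have : (t0 - t2) * (a * (t0 ^ 2 + t0 * t2 + t2 ^ 2) + b * (t0 + t2) + c) = 0 := by
      linear_combination h0 - h2
    exact (mul_eq_zero.1 this).resolve_left (sub_ne_zero.2 h02)
  have v1 : a * (t0 + t1 + t2) + b = 0 := by
    have : (t1 - t2) * (a * (t0 + t1 + t2) + b) = 0 := by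
      linear_combination e01 - e02
    exact (mul_eq_zero.1 this).resolve_left (sub_ne_zero.2 h12)
  have v2 : a * (t0 * t1 + t0 * t2 + t1 * t2) - c = 0 := by
    linear_combination -e01 + (t0 + t1) * v1
  refine ⟨by linear_combination v1, by linear_combination v2, ?_⟩
  linear_combination h0 - t0 ^ 2 * v1 + t0 * v2

/-- the size of the product of two roots -/
theorem root_bd2 {a b c d t0 t1 t2 : ℂ} {T : ℝ} (ha : ‖a‖ ≤ T) (hb : ‖b‖ ≤ T) (hc : ‖c‖ ≤ T)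
    (hd : ‖d‖ ≤ T) (ht : t2 ≠ 0) (h : a * t2 ^ 3 + b * t2 ^ 2 + c * t2 + d = 0)
    (h' : a * (t0 * t1 * t2) = -d) : ‖a * (t0 * t1)‖ ≤ 3 * T := by
  have h1 : ‖d * t2⁻¹‖ ≤ 3 * T := by
    refine root_bd (b := c) (c := b) (d := a) hd hc hb ha ?_
    field_simp
    linear_combination h
  have h2 : a * (t0 * t1) = -(d * t2⁻¹) := by
    field_simp
    linear_combination h'
  rw [h2, norm_neg]
  exact h1

/-- the coefficients of a product of linear forms -/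
theorem coeffs {a0 a1 a2 b0 b1 b2 δ : ℂ} {g : ℤ × ℤ × ℤ × ℤ}
    (h : ∀ x y : ℤ, ((x : ℂ) * a0 + y * b0) * (x * a1 + y * b1) * (x * a2 + y * b2) =
      (cub g x y : ℂ) * δ) :
    (g.1 : ℂ) * δ = a0 * a1 * a2 ∧ (g.2.1 : ℂ) * δ = b0 * a1 * a2 + a0 * b1 * a2 + a0 * a1 * b2 ∧
      (g.2.2.1 : ℂ) * δ = a0 * b1 * b2 + b0 * a1 * b2 + b0 * b1 * a2 ∧
      (g.2.2.2 : ℂ) * δ = b0 * b1 * b2 := by
  have h1 := h 1 0
  have h2 := h 0 1
  have h3 := h 1 1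
  have h4 := h 1 (-1)
  unfold cub at h1 h2 h3 h4
  push_cast at h1 h2 h3 h4
  refine ⟨?_, ?_, ?_, ?_⟩
  · linear_combination -h1
  · linear_combination h2 - (h3 - h4) / 2
  · linear_combination h1 - (h3 + h4) / 2
  · linear_combination -h2

theorem norm_three {a b c : ℂ} {A B C : ℝ} (ha : ‖a‖ ≤ A) (hb : ‖b‖ ≤ B) (hc : ‖c‖ ≤ C) :
    ‖a * b * c‖ ≤ A * B * C := by
  have hA := (norm_nonneg _).trans ha
  have hB := (norm_nonneg _).trans hb
  rw [norm_mul, norm_mul]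
  gcongr

end Complex

variable {K : Type} [Field K] [NumberField K] (s : Fin 3 ≃ (K →+* ℂ))

/-- the index form -/
theorem index_form {α β : 𝓞 K} (hspan : ∀ v : 𝓞 K, ∃ n x y : ℤ, v = n + x * α + y * β) :
    ∃ g : ℤ × ℤ × ℤ × ℤ, ∀ x y : ℤ,
      ((x : ℂ) * d0 s (α : K) + y * d0 s (β : K)) * (x * d1 s (α : K) + y * d1 s (β : K)) *
        (x * d2 s (α : K) + y * d2 s (β : K)) = (cub g x y : ℂ) * dl s (α : K) (β : K) := by
  obtain ⟨A0, A1, A2, hA⟩ := hspan (α * α)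
  obtain ⟨B0, B1, B2, hB⟩ := hspan (α * β)
  obtain ⟨C0, C1, C2, hC⟩ := hspan (β * β)
  have key : ∀ (v w : 𝓞 K) (n x y : ℤ), v * w = n + x * α + y * β → ∀ i : Fin 3,
      s i (v : K) * s i (w : K) = n + x * s i (α : K) + y * s i (β : K) := by
    intro v w n x y h i
    have h1 := congrArg (fun z : 𝓞 K => s i (z : K)) h
    rw [coe_comb3] at h1
    have h2 : ((v * w : 𝓞 K) : K) = v * w := by simp
    rw [h2] at h1
    simpa using h1
  have kA := key α α A0 A1 A2 hA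
  have kB := key α β B0 B1 B2 hB
  have kC := key β β C0 C1 C2 hC
  refine ⟨(A2, 2 * B2 - A1, C2 - 2 * B1, -C1), fun x y => ?_⟩
  unfold cub dl d0 d1 d2
  push_cast
  linear_combination ((x : ℂ) * (s 1 (α : K) - s 2 (α : K)) + y * (s 1 (β : K) - s 2 (β : K))) *
      ((x : ℂ) ^ 2 * (kA 2 - kA 0) + 2 * x * y * (kB 2 - kB 0) + (y : ℂ) ^ 2 * (kC 2 - kC 0)) -
    ((x : ℂ) * (s 2 (α : K) - s 0 (α : K)) + y * (s 2 (β : K) - s 0 (β : K))) *
      ((x : ℂ) ^ 2 * (kA 1 - kA 2) + 2 * x * y * (kB 1 - kB 2) + (y : ℂ) ^ 2 * (kC 1 - kC 2))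

omit [NumberField K] in
theorem integral_of_cubic {x : K} {p q r : ℤ} (h : x ^ 3 + p * x ^ 2 + q * x + r = 0) :
    IsIntegral ℤ x := by
  refine ⟨X ^ 3 + C p * X ^ 2 + C q * X + C r, ?_, ?_⟩
  · monicity!
  · rw [← h]
    simp only [eval₂_add, eval₂_mul, eval₂_pow, eval₂_X, eval₂_C]
    simp

omit [NumberField K] in
theorem d0_int (n x y : ℤ) (v w : K) : d0 s ((n : K) + x * v + y * w) =
    x * d0 s v + y * d0 s w := by
  unfold d0
  simp only [map_add, map_mul, map_intCast]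
  ring

omit [NumberField K] in
theorem d1_int (n x y : ℤ) (v w : K) : d1 s ((n : K) + x * v + y * w) =
    x * d1 s v + y * d1 s w := by
  unfold d1
  simp only [map_add, map_mul, map_intCast]
  ring

omit [NumberField K] in
theorem d2_int (n x y : ℤ) (v w : K) : d2 s ((n : K) + x * v + y * w) =
    x * d2 s v + y * d2 s w := by
  unfold d2
  simp only [map_add, map_mul, map_intCast]
  ring

/-- lower bounds for the form -/
theorem qf_low {α β : K} (h1 : qf s α ≤ qf s β) (h2 : |2 * (ip s α β).re| ≤ qf s α) (n x y : ℤ) :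
    3 / 4 * (qf s α * (x : ℝ) ^ 2) ≤ qf s ((n : K) + x * α + y * β) ∧
      3 / 4 * (qf s β * (y : ℝ) ^ 2) ≤ qf s ((n : K) + x * α + y * β) := by
  have e := qf_comb s n x y α β
  push_cast at e
  rw [e]
  have hA : 0 ≤ qf s α := qf_nonneg s α
  have h3 : -(qf s α * (|(x : ℝ)| * |(y : ℝ)|)) ≤ 2 * x * y * (ip s α β).re := by
    have h4 : -(2 * (x : ℝ) * y * (ip s α β).re) ≤ |(x : ℝ)| * |(y : ℝ)| * |2 * (ip s α β).re| := by
      rw [← abs_mul, ← abs_mul]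
      refine le_trans (le_of_eq ?_) (neg_le_abs _)
      ring
    have h5 : |(x : ℝ)| * |(y : ℝ)| * |2 * (ip s α β).re| ≤ |(x : ℝ)| * |(y : ℝ)| * qf s α := by
      gcongr
    linarith
  rw [← sq_abs (x : ℝ), ← sq_abs (y : ℝ)]
  obtain ⟨X, hX⟩ : ∃ X : ℝ, X = |(x : ℝ)| := ⟨_, rfl⟩
  obtain ⟨Y, hY⟩ : ∃ Y : ℝ, Y = |(y : ℝ)| := ⟨_, rfl⟩
  rw [← hX, ← hY] at h3 ⊢
  constructor
  · have h6 : qf s α * Y ^ 2 ≤ qf s β * Y ^ 2 := by gcongr
    nlinarith [mul_nonneg hA (sq_nonneg (X / 2 - Y))]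
  · have h6 : qf s α * (Y ^ 2 / 4) ≤ qf s β * (Y ^ 2 / 4) := by gcongr
    nlinarith [mul_nonneg hA (sq_nonneg (X - Y / 2))]

/-- **the polynomial of an element of a cubic field is represented by the reduced index form** -/
theorem rep_of (hK : Module.finrank ℚ K = 3) {t : K} (ht : ∀ r : ℚ, t ≠ (r : K)) {a b c d : ℤ}
    (ha0 : a ≠ 0) (h : (a : K) * t ^ 3 + b * t ^ 2 + c * t + d = 0) {T : ℝ}
    (ha : |(a : ℝ)| ≤ T) (hb : |(b : ℝ)| ≤ T) (hc : |(c : ℝ)| ≤ T) (hd : |(d : ℝ)| ≤ T) :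
    (∃ g u X1 X2, Rep (12 * T) (2 * √|(discr K : ℝ)|) (a, b, c, d) g u X1 X2) ∧
      |(discr K : ℝ)| ≤ 5184 * T ^ 4 := by
  classical
  obtain ⟨s⟩ : Nonempty (Fin 3 ≃ (K →+* ℂ)) := by
    apply Fintype.card_eq.1
    rw [Embeddings.card, hK, Fintype.card_fin]
  have hT : 0 ≤ T := (abs_nonneg _).trans ha
  obtain ⟨α, β, hspan, hdisc, hvv, hAC, hB⟩ := exists_red s hK
  obtain ⟨g, hg⟩ := index_form s hspan
  obtain ⟨g0, g1, g2, g3⟩ := coeffs hg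
  obtain ⟨δ, hδ⟩ : ∃ δ : ℂ, δ = dl s (α : K) (β : K) := ⟨_, rfl⟩
  rw [← hδ] at hg g0 g1 g2 g3 hdisc
  -- the size of `δ`
  have hδ2 : ‖δ‖ ^ 2 = |(discr K : ℝ)| := by
    rw [← norm_pow, ← hdisc, Complex.norm_intCast]
  have hD1 : (1 : ℝ) ≤ |(discr K : ℝ)| := by
    exact_mod_cast Int.one_le_abs (discr_ne_zero K)
  have hδ1 : 1 ≤ ‖δ‖ := by nlinarith [norm_nonneg δ]
  have hδs : ‖δ‖ = √|(discr K : ℝ)| := by
    rw [← hδ2, Real.sqrt_sq (norm_nonneg _)]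
  have hδ0 : δ ≠ 0 := by
    intro h0
    rw [h0, norm_zero] at hδ1
    linarith
  obtain ⟨X1, hX1⟩ : ∃ X1 : ℝ, X1 = √(qf s (α : K)) := ⟨_, rfl⟩
  obtain ⟨X2, hX2⟩ : ∃ X2 : ℝ, X2 = √(qf s (β : K)) := ⟨_, rfl⟩
  have hq1 : X1 ^ 2 = qf s (α : K) := by rw [hX1, Real.sq_sqrt (qf_nonneg _ _)]
  have hq2 : X2 ^ 2 = qf s (β : K) := by rw [hX2, Real.sq_sqrt (qf_nonneg _ _)]
  have hX10 : 0 ≤ X1 := by rw [hX1]; exact Real.sqrt_nonneg _
  have hX20 : 0 ≤ X2 := by rw [hX2]; exact Real.sqrt_nonneg _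
  have hX12 : X1 ≤ X2 := by rw [hX1, hX2]; exact Real.sqrt_le_sqrt hAC
  -- `X1 X2 ≤ 2 |δ|`
  have hXX : X1 * X2 ≤ 2 * ‖δ‖ := by
    have h1 := lagrange s (α : K) (β : K)
    rw [← hδ, ← hq1, ← hq2] at h1
    have h2 : (2 * (ip s (α : K) (β : K)).re) ^ 2 ≤ (X1 * X2) ^ 2 := by
      rw [← sq_abs (2 * (ip s (α : K) (β : K)).re)]
      rw [← hq1] at hB
      have h3 : X1 ^ 2 ≤ X1 * X2 := by nlinarith
      have h4 := hB.trans h3
      have := abs_nonneg (2 * (ip s (α : K) (β : K)).re)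
      gcongr
    have h3 : (X1 * X2) ^ 2 ≤ (2 * ‖δ‖) ^ 2 := by nlinarith
    exact (pow_le_pow_iff_left₀ (by positivity) (by positivity) two_ne_zero).1 h3
  -- the sizes of the differences
  have hn : ∀ v : K, ∀ X : ℝ, 0 ≤ X → X ^ 2 = qf s v → ‖d0 s v‖ ≤ X ∧ ‖d1 s v‖ ≤ X ∧ ‖d2 s v‖ ≤ X := by
    intro v X hX hq
    unfold qf at hq
    refine ⟨?_, ?_, ?_⟩ <;>
      refine (pow_le_pow_iff_left₀ (norm_nonneg _) hX two_ne_zero).1 ?_ <;>
      nlinarith [sq_nonneg ‖d0 s v‖, sq_nonneg ‖d1 s v‖, sq_nonneg ‖d2 s v‖]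
  obtain ⟨α0, α1, α2⟩ := hn (α : K) X1 hX10 hq1
  obtain ⟨β0, β1, β2⟩ := hn (β : K) X2 hX20 hq2
  have hgne : g.1 ≠ 0 := by
    intro h0
    apply hvv
    unfold vv
    rw [← g0, h0]
    simp
  have n0 : |(g.1 : ℝ)| * ‖δ‖ ≤ X1 ^ 3 := by
    have h1 : |(g.1 : ℝ)| * ‖δ‖ = ‖(g.1 : ℂ) * δ‖ := by rw [norm_mul, Complex.norm_intCast]
    rw [h1, g0]
    refine (norm_three α0 α1 α2).trans (le_of_eq (by ring))
  have n1 : |(g.2.1 : ℝ)| * ‖δ‖ ≤ 3 * (X1 ^ 2 * X2) := by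
    have h1 : |(g.2.1 : ℝ)| * ‖δ‖ = ‖(g.2.1 : ℂ) * δ‖ := by rw [norm_mul, Complex.norm_intCast]
    rw [h1, g1]
    have e1 := norm_three β0 α1 α2
    have e2 := norm_three α0 β1 α2
    have e3 := norm_three α0 α1 β2
    have e4 := norm_add_le (d0 s (β : K) * d1 s (α : K) * d2 s (α : K) +
      d0 s (α : K) * d1 s (β : K) * d2 s (α : K)) (d0 s (α : K) * d1 s (α : K) * d2 s (β : K))
    have e5 := norm_add_le (d0 s (β : K) * d1 s (α : K) * d2 s (α : K))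
      (d0 s (α : K) * d1 s (β : K) * d2 s (α : K))
    nlinarith
  have n2 : |(g.2.2.1 : ℝ)| * ‖δ‖ ≤ 3 * (X1 * X2 ^ 2) := by
    have h1 : |(g.2.2.1 : ℝ)| * ‖δ‖ = ‖(g.2.2.1 : ℂ) * δ‖ := by
      rw [norm_mul, Complex.norm_intCast]
    rw [h1, g2]
    have e1 := norm_three α0 β1 β2
    have e2 := norm_three β0 α1 β2
    have e3 := norm_three β0 β1 α2
    have e4 := norm_add_le (d0 s (α : K) * d1 s (β : K) * d2 s (β : K) +
      d0 s (β : K) * d1 s (α : K) * d2 s (β : K)) (d0 s (β : K) * d1 s (β : K) * d2 s (α : K))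
    have e5 := norm_add_le (d0 s (α : K) * d1 s (β : K) * d2 s (β : K))
      (d0 s (β : K) * d1 s (α : K) * d2 s (β : K))
    nlinarith
  have n3 : |(g.2.2.2 : ℝ)| * ‖δ‖ ≤ X2 ^ 3 := by
    have h1 : |(g.2.2.2 : ℝ)| * ‖δ‖ = ‖(g.2.2.2 : ℂ) * δ‖ := by
      rw [norm_mul, Complex.norm_intCast]
    rw [h1, g3]
    refine (norm_three β0 β1 β2).trans (le_of_eq (by ring))
  have hX1one : 1 ≤ X1 := by
    have h1 : (1 : ℝ) ≤ |(g.1 : ℝ)| := by exact_mod_cast Int.one_le_abs hgne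
    have h2 : 1 ≤ X1 ^ 3 := by nlinarith
    by_contra hlt
    push Not at hlt
    have : X1 ^ 3 < 1 := pow_lt_one₀ hX10 hlt (by norm_num)
    linarith
  have hX1p : 0 < X1 := by linarith
  have hX2p : 0 < X2 := by linarith
  -- `g` is reduced
  have b0 : |(g.1 : ℝ)| * X2 ≤ 2 * X1 ^ 2 := by
    have h1 : |(g.1 : ℝ)| * (X1 * X2) ≤ |(g.1 : ℝ)| * (2 * ‖δ‖) := by gcongr
    have h2 : (|(g.1 : ℝ)| * X2) * X1 ≤ (2 * X1 ^ 2) * X1 := by nlinarith
    exact le_of_mul_le_mul_right h2 hX1p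
  have b1 : |(g.2.1 : ℝ)| ≤ 6 * X1 := by
    have h1 : |(g.2.1 : ℝ)| * (X1 * X2) ≤ |(g.2.1 : ℝ)| * (2 * ‖δ‖) := by gcongr
    have h2 : |(g.2.1 : ℝ)| * (X1 * X2) ≤ (6 * X1) * (X1 * X2) := by nlinarith
    exact le_of_mul_le_mul_right h2 (by positivity)
  have b2 : |(g.2.2.1 : ℝ)| ≤ 6 * X2 := by
    have h1 : |(g.2.2.1 : ℝ)| * (X1 * X2) ≤ |(g.2.2.1 : ℝ)| * (2 * ‖δ‖) := by gcongr
    have h2 : |(g.2.2.1 : ℝ)| * (X1 * X2) ≤ (6 * X2) * (X1 * X2) := by nlinarith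
    exact le_of_mul_le_mul_right h2 (by positivity)
  have b3 : |(g.2.2.2 : ℝ)| * X1 ≤ 2 * X2 ^ 2 := by
    have h1 : |(g.2.2.2 : ℝ)| * (X1 * X2) ≤ |(g.2.2.2 : ℝ)| * (2 * ‖δ‖) := by gcongr
    have h2 : (|(g.2.2.2 : ℝ)| * X1) * X2 ≤ (2 * X2 ^ 2) * X2 := by nlinarith
    exact le_of_mul_le_mul_right h2 hX2p
  -- the conjugates of `t`
  have ht0 : t ≠ 0 := by
    intro h0
    apply ht 0
    rw [h0]
    simp
  have hroot : ∀ i : Fin 3, (a : ℂ) * (s i t) ^ 3 + b * (s i t) ^ 2 + c * (s i t) + d = 0 := by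
    intro i
    have h1 := congrArg (s i) h
    simpa using h1
  have hs0 : ∀ i : Fin 3, s i t ≠ 0 := fun i => (map_ne_zero (s i)).2 ht0
  have h01 : s 0 t ≠ s 1 t := emb_ne hK ht (s.injective.ne (by decide))
  have h02 : s 0 t ≠ s 2 t := emb_ne hK ht (s.injective.ne (by decide))
  have h12 : s 1 t ≠ s 2 t := emb_ne hK ht (s.injective.ne (by decide))
  obtain ⟨v1, v2, v3⟩ := vieta h01 h02 h12 (hroot 0) (hroot 1) (hroot 2)
  have hac : (a : ℂ) ≠ 0 := by exact_mod_cast ha0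
  have hd0 : d ≠ 0 := by
    intro h0
    rw [h0] at v3
    simp only [Int.cast_zero, neg_zero, mul_eq_zero] at v3
    rcases v3 with h1 | (h1 | h1) | h1
    · exact hac h1
    · exact hs0 _ h1
    · exact hs0 _ h1
    · exact hs0 _ h1
  have na : ‖(a : ℂ)‖ ≤ T := by rw [Complex.norm_intCast]; exact ha
  have nb : ‖(b : ℂ)‖ ≤ T := by rw [Complex.norm_intCast]; exact hb
  have nc : ‖(c : ℂ)‖ ≤ T := by rw [Complex.norm_intCast]; exact hc
  have nd : ‖(d : ℂ)‖ ≤ T := by rw [Complex.norm_intCast]; exact hd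
  have r0 := root_bd na nb nc nd (hroot 0)
  have r1 := root_bd na nb nc nd (hroot 1)
  have r2 := root_bd na nb nc nd (hroot 2)
  have p01 : ‖(a : ℂ) * (s 0 t * s 1 t)‖ ≤ 3 * T :=
    root_bd2 na nb nc nd (hs0 2) (hroot 2) v3
  have p12 : ‖(a : ℂ) * (s 1 t * s 2 t)‖ ≤ 3 * T :=
    root_bd2 na nb nc nd (hs0 0) (hroot 0) (by rw [← v3]; ring)
  have p02 : ‖(a : ℂ) * (s 0 t * s 2 t)‖ ≤ 3 * T :=
    root_bd2 na nb nc nd (hs0 1) (hroot 1) (by rw [← v3]; ring)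
  -- the integers `a t`, `a t ^ 2 + b t`
  have i1 : IsIntegral ℤ ((a : K) * t) := by
    apply integral_of_cubic (p := b) (q := a * c) (r := a ^ 2 * d)
    push_cast
    linear_combination (a : K) ^ 2 * h
  have i2 : IsIntegral ℤ ((a : K) * t ^ 2 + b * t) := by
    have h1 : IsIntegral ℤ ((a : K) * t ^ 2 + b * t + c) := by
      apply integral_of_cubic (p := -c) (q := b * d) (r := -(a * d ^ 2))
      push_cast
      linear_combination (((a : K) * t ^ 2 + b * t + c) * (a * t + b) - a * d) * h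
    have h2 : IsIntegral ℤ (c : K) := isIntegral_algebraMap (R := ℤ) (A := K) (x := c)
    have h3 := h1.sub h2
    rwa [add_sub_cancel_right] at h3
  obtain ⟨w1, u1, u2, hw1⟩ := hspan ⟨(a : K) * t, i1⟩
  obtain ⟨w2, y1, y2, hw2⟩ := hspan ⟨(a : K) * t ^ 2 + b * t, i2⟩
  have hw1' : (a : K) * t = (w1 : K) + u1 * α + u2 * β := by
    have := congrArg (fun z : 𝓞 K => (z : K)) hw1
    rw [coe_comb3] at this
    exact this
  have hw2' : (a : K) * t ^ 2 + b * t = (w2 : K) + y1 * α + y2 * β := by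
    have := congrArg (fun z : 𝓞 K => (z : K)) hw2
    rw [coe_comb3] at this
    exact this
  -- their differences
  have D10 : (u1 : ℂ) * d0 s (α : K) + u2 * d0 s (β : K) = a * s 1 t - a * s 2 t := by
    rw [← d0_int s w1, ← hw1']
    unfold d0
    simp only [map_mul, map_intCast]
  have D11 : (u1 : ℂ) * d1 s (α : K) + u2 * d1 s (β : K) = a * s 2 t - a * s 0 t := by
    rw [← d1_int s w1, ← hw1']
    unfold d1
    simp only [map_mul, map_intCast]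
  have D12 : (u1 : ℂ) * d2 s (α : K) + u2 * d2 s (β : K) = a * s 0 t - a * s 1 t := by
    rw [← d2_int s w1, ← hw1']
    unfold d2
    simp only [map_mul, map_intCast]
  have D20 : (y1 : ℂ) * d0 s (α : K) + y2 * d0 s (β : K) = a * (s 0 t * s 2 t) - a * (s 0 t * s 1 t) := by
    rw [← d0_int s w2, ← hw2']
    unfold d0
    simp only [map_add, map_mul, map_pow, map_intCast]
    linear_combination (s 1 t - s 2 t) * v1
  have D21 : (y1 : ℂ) * d1 s (α : K) + y2 * d1 s (β : K) = a * (s 0 t * s 1 t) - a * (s 1 t * s 2 t) := by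
    rw [← d1_int s w2, ← hw2']
    unfold d1
    simp only [map_add, map_mul, map_pow, map_intCast]
    linear_combination (s 2 t - s 0 t) * v1
  have D22 : (y1 : ℂ) * d2 s (α : K) + y2 * d2 s (β : K) = a * (s 1 t * s 2 t) - a * (s 0 t * s 2 t) := by
    rw [← d2_int s w2, ← hw2']
    unfold d2
    simp only [map_add, map_mul, map_pow, map_intCast]
    linear_combination (s 0 t - s 1 t) * v1
  obtain ⟨Δ, hΔ⟩ : ∃ Δ : ℂ, Δ = a ^ 2 * ((s 1 t - s 2 t) * (s 2 t - s 0 t) * (s 0 t - s 1 t)) :=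
    ⟨_, rfl⟩
  have hΔ0 : Δ ≠ 0 := by
    rw [hΔ]
    exact mul_ne_zero (pow_ne_zero _ hac) (mul_ne_zero (mul_ne_zero (sub_ne_zero.2 h12)
      (sub_ne_zero.2 h02.symm)) (sub_ne_zero.2 h01))
  have hm : ((u1 * y2 - u2 * y1 : ℤ) : ℂ) * δ = Δ := by
    have e1 : ((u1 * y2 - u2 * y1 : ℤ) : ℂ) * δ =
        ((u1 : ℂ) * d0 s (α : K) + u2 * d0 s (β : K)) * ((y1 : ℂ) * d1 s (α : K) + y2 * d1 s (β : K)) -
        ((u1 : ℂ) * d1 s (α : K) + u2 * d1 s (β : K)) * ((y1 : ℂ) * d0 s (α : K) + y2 * d0 s (β : K)) := by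
      rw [hδ]
      unfold dl
      push_cast
      ring
    rw [e1, D10, D11, D20, D21, hΔ]
    ring
  have hm0 : u1 * y2 - u2 * y1 ≠ 0 := by
    intro h0
    rw [h0] at hm
    apply hΔ0
    rw [← hm]
    simp
  have hrel : ∀ x y : ℤ, cub g (x * u1 + y * y1) (x * u2 + y * y2) =
      (u1 * y2 - u2 * y1) * cub (a, b, c, d) x y := by
    intro x y
    have e1 := hg (x * u1 + y * y1) (x * u2 + y * y2)
    have e2 : ((((x * u1 + y * y1 : ℤ) : ℂ) * d0 s (α : K) + ((x * u2 + y * y2 : ℤ) : ℂ) *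
        d0 s (β : K))) = (x - y * s 0 t) * (a * s 1 t - a * s 2 t) := by
      push_cast
      linear_combination (x : ℂ) * D10 + (y : ℂ) * D20
    have e3 : ((((x * u1 + y * y1 : ℤ) : ℂ) * d1 s (α : K) + ((x * u2 + y * y2 : ℤ) : ℂ) *
        d1 s (β : K))) = (x - y * s 1 t) * (a * s 2 t - a * s 0 t) := by
      push_cast
      linear_combination (x : ℂ) * D11 + (y : ℂ) * D21
    have e4 : ((((x * u1 + y * y1 : ℤ) : ℂ) * d2 s (α : K) + ((x * u2 + y * y2 : ℤ) : ℂ) *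
        d2 s (β : K))) = (x - y * s 2 t) * (a * s 0 t - a * s 1 t) := by
      push_cast
      linear_combination (x : ℂ) * D12 + (y : ℂ) * D22
    rw [e2, e3, e4] at e1
    have e5 : ((cub (a, b, c, d) x y : ℤ) : ℂ) = a * ((x - y * s 0 t) * (x - y * s 1 t) *
        (x - y * s 2 t)) := by
      unfold cub
      push_cast
      linear_combination ((x : ℂ) ^ 2 * y) * v1 - ((x : ℂ) * y ^ 2) * v2 + ((y : ℂ) ^ 3) * v3
    have e6 : ((cub g (x * u1 + y * y1) (x * u2 + y * y2) : ℤ) : ℂ) * δ =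
        (((u1 * y2 - u2 * y1) * cub (a, b, c, d) x y : ℤ) : ℂ) * δ := by
      have e7 : (((u1 * y2 - u2 * y1) * cub (a, b, c, d) x y : ℤ) : ℂ) =
          ((u1 * y2 - u2 * y1 : ℤ) : ℂ) * ((cub (a, b, c, d) x y : ℤ) : ℂ) := by push_cast; ring
      rw [e7, mul_right_comm, hm, e5, ← e1, hΔ]
      ring
    exact_mod_cast mul_right_cancel₀ hδ0 e6
  -- the sizes of the coordinates
  have hsix : ∀ x y : ℂ, ‖x‖ ≤ 3 * T → ‖y‖ ≤ 3 * T → ‖x - y‖ ^ 2 ≤ 36 * T ^ 2 := by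
    intro x y hx hy
    have h1 := (norm_sub_le x y).trans (add_le_add hx hy)
    have h2 : 3 * T + 3 * T = 6 * T := by ring
    rw [h2] at h1
    calc ‖x - y‖ ^ 2 ≤ (6 * T) ^ 2 := by gcongr
      _ = 36 * T ^ 2 := by ring
  have Q1 : qf s ((w1 : K) + u1 * α + u2 * β) ≤ 108 * T ^ 2 := by
    unfold qf
    rw [d0_int, d1_int, d2_int, D10, D11, D12]
    have e1 := hsix _ _ r1 r2
    have e2 := hsix _ _ r2 r0
    have e3 := hsix _ _ r0 r1
    linarith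
  have Q2 : qf s ((w2 : K) + y1 * α + y2 * β) ≤ 108 * T ^ 2 := by
    unfold qf
    rw [d0_int, d1_int, d2_int, D20, D21, D22]
    have e1 := hsix _ _ p02 p01
    have e2 := hsix _ _ p01 p12
    have e3 := hsix _ _ p12 p02
    linarith
  obtain ⟨L11, L12⟩ := qf_low s hAC hB w1 u1 u2
  obtain ⟨L21, L22⟩ := qf_low s hAC hB w2 y1 y2
  rw [← hq1] at L11 L21
  rw [← hq2] at L12 L22
  have hfin : ∀ (X : ℝ) (z : ℤ), 0 ≤ X → 3 / 4 * (X ^ 2 * (z : ℝ) ^ 2) ≤ 108 * T ^ 2 →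
      |(z : ℝ)| * X ≤ 12 * T := by
    intro X z hX hz
    have h1 : (|(z : ℝ)| * X) ^ 2 ≤ (12 * T) ^ 2 := by
      rw [mul_pow, sq_abs]
      nlinarith
    exact (pow_le_pow_iff_left₀ (by positivity) (by positivity) two_ne_zero).1 h1
  have hsix' : ∀ x y : ℂ, ‖x‖ ≤ 3 * T → ‖y‖ ≤ 3 * T → ‖x - y‖ ≤ 6 * T := by
    intro x y hx hy
    have h1 := (norm_sub_le x y).trans (add_le_add hx hy)
    linarith
  have hdd : |(discr K : ℝ)| ≤ 5184 * T ^ 4 := by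
    have h1 : (1 : ℝ) ≤ |((u1 * y2 - u2 * y1 : ℤ) : ℝ)| := by exact_mod_cast Int.one_le_abs hm0
    have h2 : ‖δ‖ ≤ ‖Δ‖ := by
      rw [← hm, norm_mul, Complex.norm_intCast]
      exact le_mul_of_one_le_left (norm_nonneg _) h1
    have h3 : Δ = (a * s 1 t - a * s 2 t) * (a * (s 0 t * s 1 t) - a * (s 1 t * s 2 t)) -
        (a * s 2 t - a * s 0 t) * (a * (s 0 t * s 2 t) - a * (s 0 t * s 1 t)) := by
      rw [hΔ]
      ring
    have h4 : ‖Δ‖ ≤ (6 * T) * (6 * T) + (6 * T) * (6 * T) := by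
      rw [h3]
      refine (norm_sub_le _ _).trans ?_
      rw [norm_mul, norm_mul]
      have e1 := hsix' _ _ r1 r2
      have e2 := hsix' _ _ p01 p12
      have e3 := hsix' _ _ r2 r0
      have e4 := hsix' _ _ p02 p01
      gcongr
    have h5 : ‖δ‖ ≤ 72 * T ^ 2 := by linarith [h2.trans h4]
    rw [← hδ2]
    calc ‖δ‖ ^ 2 ≤ (72 * T ^ 2) ^ 2 := by gcongr
      _ = 5184 * T ^ 4 := by ring
  refine ⟨⟨g, (u1, u2, y1, y2), X1, X2, ?_⟩, hdd⟩
  exact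
    { one_le := hX1one
      le := hX12
      mul_le := by rw [← hδs]; exact hXX
      g0 := hgne
      b0 := b0
      b1 := b1
      b2 := b2
      b3 := b3
      u1 := hfin _ _ hX10 (L11.trans Q1)
      u2 := hfin _ _ hX20 (L12.trans Q1)
      v1 := hfin _ _ hX10 (L21.trans Q2)
      v2 := hfin _ _ hX20 (L22.trans Q2)
      rel := hrel
      det_ne := hm0
      a_ne := ha0
      d_ne := hd0 }

/-- the discriminant is at most that of any triple of integers `1, v, w` -/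
theorem disc_le_dl (hK : Module.finrank ℚ K = 3) (v w : 𝓞 K) (h : dl s (v : K) (w : K) ≠ 0) :
    |(discr K : ℝ)| ≤ ‖dl s (v : K) (w : K)‖ ^ 2 := by
  obtain ⟨α, β, hspan, hdisc, -⟩ := exists_red s hK
  obtain ⟨n, x, y, hv⟩ := hspan v
  obtain ⟨n', x', y', hw⟩ := hspan w
  have hv' : (v : K) = (n : K) + x * α + y * β := by
    rw [← coe_comb3, ← hv]
  have hw' : (w : K) = (n' : K) + x' * α + y' * β := by
    rw [← coe_comb3, ← hw]
  have e : dl s (v : K) (w : K) = ((x * y' - y * x' : ℤ) : ℂ) * dl s (α : K) (β : K) := by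
    unfold dl
    rw [hv', hw', d0_int, d1_int, d0_int, d1_int]
    push_cast
    ring
  have hne : x * y' - y * x' ≠ 0 := by
    intro h0
    apply h
    rw [e, h0]
    simp
  have h1 : (1 : ℝ) ≤ |((x * y' - y * x' : ℤ) : ℝ)| := by exact_mod_cast Int.one_le_abs hne
  have h2 : |(discr K : ℝ)| = ‖dl s (α : K) (β : K)‖ ^ 2 := by
    rw [← norm_pow, ← hdisc, Complex.norm_intCast]
  rw [h2, e, norm_mul, Complex.norm_intCast]
  have h3 : ‖dl s (α : K) (β : K)‖ ≤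
      |((x * y' - y * x' : ℤ) : ℝ)| * ‖dl s (α : K) (β : K)‖ :=
    le_mul_of_one_le_left (norm_nonneg _) h1
  gcongr

end Pool.Agent.H88.CP
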