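import Pool.Agent.H88.CP4
import Pool.Agent.R365.QP.VUp

/-!
# Points of degree three over fields of small discriminant
-/

set_option autoImplicit false

namespace Pool.Agent.H88.CP

open NumberField IsDedekindDomain Finset Pool.Agent.H691R3 Pool.Agent.W223.AK Polynomial
open Pool.Agent.W222.UABC

/-- the cubic polynomial of a point of a cubic field -/
theorem cubic_of {K : Type} [Field K] [NumberField K] (hK : Module.finrank ℚ K = 3) {t : K}
    (ht' : Pt t) : ∃ a b c d : ℤ, a ≠ 0 ∧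
      |(a : ℝ)| ≤ 32 * Real.exp (ht t) ∧ |(b : ℝ)| ≤ 32 * Real.exp (ht t) ∧
      |(c : ℝ)| ≤ 32 * Real.exp (ht t) ∧ |(d : ℝ)| ≤ 32 * Real.exp (ht t) ∧
      (a : K) * t ^ 3 + b * t ^ 2 + c * t + d = 0 := by
  obtain ⟨P, hP⟩ := exists_isP ∅ ht'
  obtain ⟨z, χ, h1, h2, h3, h4, h5, h6, h7⟩ := data ht' hP
  rw [hK] at h2 h7
  have hlen : Real.log (nn (P 1)) ≤ ht t + 3 * Real.log 2 := by
    rw [log_nn]
    have := len_le ht' hP 1
    rw [cS_empty, hK] at this
    push_cast at this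
    linarith
  have hN0 : (0 : ℝ) < nn (P 1) := by exact_mod_cast nn_pos (P 1)
  have hN : (nn (P 1) : ℝ) ≤ 8 * Real.exp (ht t) := by
    rw [← Real.exp_log hN0]
    refine (Real.exp_le_exp.2 hlen).trans (le_of_eq ?_)
    have e : (3 : ℝ) * Real.log 2 = Real.log 8 := by
      rw [show (8 : ℝ) = 2 ^ 3 by norm_num, Real.log_pow]
      norm_num
    rw [e, Real.exp_add, Real.exp_log (by norm_num)]
    ring
  -- the coefficients of `χ`
  obtain ⟨u, v, w, huv⟩ : ∃ u v w : ℚ,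
      χ = X ^ 3 + Polynomial.C u * X ^ 2 + Polynomial.C v * X + Polynomial.C w := by
    refine ⟨χ.coeff 2, χ.coeff 1, χ.coeff 0, ?_⟩
    have hc2 : χ.coeff 3 = 1 := by
      have := h1.coeff_natDegree
      rw [h2] at this
      exact this
    ext k
    rcases k with _ | _ | _ | _ | k
    · simp
    · simp
    · simp [Polynomial.coeff_X]
    · simp [hc2, Polynomial.coeff_X]
    · have : χ.coeff (k + 4) = 0 := by
        apply Polynomial.coeff_eq_zero_of_natDegree_lt
        omega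
      simp [this, Polynomial.coeff_X, Polynomial.coeff_X_pow]
  have hz0 : (z 0 : ℚ) = (nn (P 1) : ℚ) * w := by
    rw [h4 0, huv]
    simp
  have hz1 : (z 1 : ℚ) = (nn (P 1) : ℚ) * (1 + u + v + w) := by
    rw [h4 1, huv]
    simp
  have hzm : (z (-1) : ℚ) = (nn (P 1) : ℚ) * (-1 + u - v + w) := by
    rw [h4 (-1), huv]
    simp
    left
    ring
  have hroot : t ^ 3 + (u : K) * t ^ 2 + (v : K) * t + (w : K) = 0 := by
    rw [huv] at h3
    simpa [Polynomial.aeval_def] using h3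
  have hexp : 0 < Real.exp (ht t) := Real.exp_pos _
  have hb0 := h7 0
  have hb1 := h7 1
  have hbm := h7 (-1)
  norm_num at hb0 hb1 hbm
  rw [abs_le] at hb0 hb1 hbm
  refine ⟨2 * (nn (P 1) : ℤ), z 1 + z (-1) - 2 * z 0, z 1 - z (-1) - 2 * nn (P 1), 2 * z 0,
    ?_, ?_, ?_, ?_, ?_, ?_⟩
  · have : (nn (P 1) : ℤ) ≠ 0 := by exact_mod_cast (nn_pos (P 1)).ne'
    omega
  · push_cast
    rw [abs_of_pos (by positivity)]
    linarith
  · push_cast
    rw [abs_le]
    constructor <;> linarith [hb0.1, hb0.2, hb1.1, hb1.2, hbm.1, hbm.2]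
  · push_cast
    rw [abs_le]
    constructor <;> linarith [hb0.1, hb0.2, hb1.1, hb1.2, hbm.1, hbm.2]
  · push_cast
    rw [abs_le]
    constructor <;> linarith [hb0.1, hb0.2, hb1.1, hb1.2, hbm.1, hbm.2]
  · have e0 : ((z 0 : ℤ) : K) = (nn (P 1) : K) * (w : K) := by
      exact_mod_cast congrArg (Rat.cast : ℚ → K) hz0
    have e1 : ((z 1 : ℤ) : K) = (nn (P 1) : K) * (1 + (u : K) + (v : K) + (w : K)) := by
      exact_mod_cast congrArg (Rat.cast : ℚ → K) hz1
    have em : ((z (-1) : ℤ) : K) = (nn (P 1) : K) * (-1 + (u : K) - (v : K) + (w : K)) := by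
      exact_mod_cast congrArg (Rat.cast : ℚ → K) hzm
    push_cast
    rw [e0, e1, em]
    linear_combination 2 * (nn (P 1) : K) * hroot

/-- the roots of one polynomial -/
theorem card_roots_le (S : Finset (AlgebraicClosure ℚ)) (p : ℤ × ℤ × ℤ × ℤ) (hp : p.1 ≠ 0)
    (h : ∀ x ∈ S, (p.1 : AlgebraicClosure ℚ) * x ^ 3 + p.2.1 * x ^ 2 + p.2.2.1 * x + p.2.2.2 = 0) :
    S.card ≤ 3 := by
  classical
  set f : Polynomial (AlgebraicClosure ℚ) :=
      Polynomial.C (p.1 : AlgebraicClosure ℚ) * Polynomial.X ^ 3 +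
      Polynomial.C (p.2.1 : AlgebraicClosure ℚ) * Polynomial.X ^ 2 +
      Polynomial.C (p.2.2.1 : AlgebraicClosure ℚ) * Polynomial.X +
      Polynomial.C (p.2.2.2 : AlgebraicClosure ℚ) with hf
  have ha : (p.1 : AlgebraicClosure ℚ) ≠ 0 := by exact_mod_cast hp
  have hdeg : f.natDegree = 3 := Polynomial.natDegree_cubic ha
  have hf0 : f ≠ 0 := by
    intro h
    rw [h] at hdeg
    simp at hdeg
  have hsub : S ⊆ f.roots.toFinset := by
    intro x hx
    rw [Multiset.mem_toFinset, Polynomial.mem_roots hf0, Polynomial.IsRoot, hf]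
    simpa using h x hx
  refine (Finset.card_le_card hsub).trans ((Multiset.toFinset_card_le _).trans ?_)
  rw [← hdeg]
  exact Polynomial.card_roots' _

/-- the points of cubic fields of small discriminant -/
theorem small3 {ε : ℝ} (hε : 0 < ε) : ∃ D : ℝ, 0 < D ∧
    ∀ (X Z : ℝ) (E : Finset (AlgebraicClosure ℚ)), 0 ≤ X → 0 ≤ Z →
      (∀ x ∈ E, ∃ (K : IntermediateField ℚ (AlgebraicClosure ℚ)) (_ : NumberField K) (t : K),
        (t : AlgebraicClosure ℚ) = x ∧ Module.finrank ℚ K = 3 ∧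
          (∀ q : ℚ, t ≠ algebraMap ℚ K q) ∧ Pt t ∧ ht t ≤ X ∧
          Real.log |(NumberField.discr K : ℝ)| ≤ Z) →
      (E.card : ℝ) ≤ D * Real.exp (2 * X + Z / 2 + ε * X) := by
  classical
  obtain ⟨D, hD0, hcount⟩ := cnt hε
  refine ⟨3 * (D * (384 : ℝ) ^ (2 + ε) * 2), by positivity, ?_⟩
  intro X Z E hX hZ hE
  have hex : ∀ x : AlgebraicClosure ℚ, ∃ p : ℤ × ℤ × ℤ × ℤ, x ∈ E → (p.1 ≠ 0 ∧
      (p.1 : AlgebraicClosure ℚ) * x ^ 3 + p.2.1 * x ^ 2 + p.2.2.1 * x + p.2.2.2 = 0 ∧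
      ∃ g u X1 X2, Rep (12 * (32 * Real.exp X)) (2 * Real.exp (Z / 2)) p g u X1 X2) := by
    intro x
    by_cases hx : x ∈ E
    · obtain ⟨K, hnf, t, htx, hK, hirr, hPt, hht, hd⟩ := hE x hx
      obtain ⟨a, b, c, d, h1, h2, h3, h4, h5, h6⟩ := cubic_of hK hPt
      have he : 32 * Real.exp (ht t) ≤ 32 * Real.exp X :=
        mul_le_mul_of_nonneg_left (Real.exp_le_exp.2 hht) (by norm_num)
      obtain ⟨⟨g, u, X1, X2, hrep⟩, -⟩ := rep_of hK (t := t) (fun r h => hirr r (by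
        rw [h]; simp)) h1 h6 (h2.trans he) (h3.trans he) (h4.trans he) (h5.trans he)
      refine ⟨(a, b, c, d), fun _ => ⟨h1, ?_, g, u, X1, X2, ?_⟩⟩
      · rw [← htx]
        have := congrArg (algebraMap K (AlgebraicClosure ℚ)) h6
        simpa using this
      · refine { hrep with mul_le := hrep.mul_le.trans ?_ }
        refine mul_le_mul_of_nonneg_left ?_ (by norm_num)
        have h7 : (0 : ℝ) < |(NumberField.discr K : ℝ)| := by
          have := one_le_disc (K := K)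
          linarith
        rw [Real.sqrt_eq_rpow, Real.rpow_def_of_pos h7]
        exact Real.exp_le_exp.2 (by linarith)
    · exact ⟨(0, 0, 0, 0), fun h => absurd h hx⟩
  choose Φ hΦ using hex
  have hfib : ∀ b ∈ E.image Φ, (E.filter fun x => Φ x = b).card ≤ 3 := by
    intro b hb
    obtain ⟨x0, hx0, rfl⟩ := Finset.mem_image.1 hb
    refine card_roots_le _ (Φ x0) (hΦ x0 hx0).1 ?_
    intro x hx
    obtain ⟨hxE, hxx⟩ := Finset.mem_filter.1 hx
    have := (hΦ x hxE).2.1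
    rwa [hxx] at this
  have h1 := Finset.card_le_mul_card_image E 3 hfib
  have hM : (1 : ℝ) ≤ 12 * (32 * Real.exp X) := by
    have := Real.one_le_exp hX
    linarith
  have hW : (1 : ℝ) ≤ 2 * Real.exp (Z / 2) := by
    have := Real.one_le_exp (by linarith : 0 ≤ Z / 2)
    linarith
  have h2 := hcount (12 * (32 * Real.exp X)) (2 * Real.exp (Z / 2)) (E.image Φ) hM hW (by
    intro p hp
    obtain ⟨x, hx, rfl⟩ := Finset.mem_image.1 hp
    exact (hΦ x hx).2.2)
  calc (E.card : ℝ) ≤ 3 * ((E.image Φ).card : ℝ) := by exact_mod_cast h1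
    _ ≤ 3 * (D * (12 * (32 * Real.exp X)) ^ (2 + ε) * (2 * Real.exp (Z / 2))) := by gcongr
    _ = 3 * (D * (384 : ℝ) ^ (2 + ε) * 2) * Real.exp (2 * X + Z / 2 + ε * X) := by
        have e1 : 12 * (32 * Real.exp X) = 384 * Real.exp X := by ring
        rw [e1, Real.mul_rpow (by norm_num) (Real.exp_pos _).le, ← Real.exp_mul]
        have : Real.exp (2 * X + Z / 2 + ε * X) =
            Real.exp (X * (2 + ε)) * Real.exp (Z / 2) := by
          rw [← Real.exp_add]
          congr 1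
          ring
        rw [this]
        ring

end Pool.Agent.H88.CP
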