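import Pool.Agent.H88.CP5
import Pool.Agent.W222.UABC.Final

/-!
# Points of degree three: the upper bound for `δ N` and few violations
-/

set_option autoImplicit false

namespace Pool.Agent.H88.CP

open NumberField IsDedekindDomain Finset Pool.Agent.H691R3 Pool.Agent.W223.AK
open Pool.Agent.W222.UABC Pool.Agent.R365.QP

theorem frac_irr {K : Type} [Field K] [CharZero K] {x : K}
    (hirr : ∀ q : ℚ, x ≠ algebraMap ℚ K q) : ∀ q : ℚ, x / (1 - x) ≠ algebraMap ℚ K q := by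
  have h1 : x ≠ 1 := fun h => hirr 1 (by rw [h, map_one])
  have h1' : (1 : K) - x ≠ 0 := sub_ne_zero.2 h1.symm
  intro q hq
  rw [div_eq_iff h1'] at hq
  have hq1 : (1 : K) + algebraMap ℚ K q ≠ 0 := by
    intro h
    have h2 : algebraMap ℚ K q = -1 := by linear_combination h
    rw [h2] at hq
    have : (0 : K) = 1 := by linear_combination -hq
    exact zero_ne_one this
  apply hirr (q / (1 + q))
  rw [map_div₀, map_add, map_one, eq_div_iff hq1]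
  linear_combination hq

theorem cond_le3 {K : Type} [Field K] [NumberField K] (hK : Module.finrank ℚ K = 3) {x : K}
    (h0 : x ≠ 0) (h1 : x ≠ 1) :
    W222.UABC.conductor ![x, 1 - x, -1] ≤
      3 * W222.UABC.height ![x, 1 - x, -1] + 3 * Real.log 2 := by
  obtain ⟨hPt, hh, P, hP, hR⟩ := point_of h0 h1
  have hl : ∀ l, rl (P l) ≤ ht (x / (1 - x)) + 3 * Real.log 2 := by
    intro l
    have h1 := rl_le_len (P l)
    have h2 := len_le hPt hP l
    rw [cS_empty, hK] at h2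
    push_cast at h2
    linarith
  have k0 := hl 0
  have k1 := hl 1
  have k2 := hl 2
  rw [hK] at hh hR
  push_cast at hh hR
  linarith

/-- a constant -/
noncomputable def Lc : ℝ := Real.log (5184 * 32 ^ 4)

theorem disc_le3 {K : Type} [Field K] [NumberField K]
    (hK : Module.finrank ℚ K = 3) {x : K} (hirr : ∀ q : ℚ, x ≠ algebraMap ℚ K q) :
    Real.log |(NumberField.discr K : ℝ)| ≤
      12 * W222.UABC.height ![x, 1 - x, -1] + Lc := by
  have h0 : x ≠ 0 := fun h => hirr 0 (by rw [h, map_zero])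
  have h1 : x ≠ 1 := fun h => hirr 1 (by rw [h, map_one])
  obtain ⟨hPt, hh, -⟩ := point_of h0 h1
  obtain ⟨a, b, c, d, k1, k2, k3, k4, k5, k6⟩ := cubic_of hK hPt
  have hirr' := frac_irr hirr
  obtain ⟨-, hd⟩ := rep_of hK (fun r h => hirr' r (by rw [h]; simp)) k1 k6 k2 k3 k4 k5
  rw [hK] at hh
  push_cast at hh
  have hd0 : (0 : ℝ) < |(NumberField.discr K : ℝ)| := by
    have := one_le_disc (K := K)
    linarith
  have h2 := Real.log_le_log hd0 hd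
  have e1 : 5184 * (32 * Real.exp (ht (x / (1 - x)))) ^ 4 =
      (5184 * 32 ^ 4) * Real.exp (4 * ht (x / (1 - x))) := by
    rw [mul_pow, ← Real.exp_nat_mul]
    push_cast
    ring
  rw [e1, Real.log_mul (by norm_num) (by positivity), Real.log_exp] at h2
  change _ ≤ Lc + _ at h2
  linarith

/-- `δ_K N ≤ C H ^ 7` -/
theorem up3 {K : Type} [Field K] [NumberField K]
    (hK : Module.finrank ℚ K = 3) {x : K} (hirr : ∀ q : ℚ, x ≠ algebraMap ℚ K q) :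
    W222.UABC.rootDisc K + W222.UABC.conductor ![x, 1 - x, -1] ≤
      7 * W222.UABC.height ![x, 1 - x, -1] +
        (3 * Real.log 2 + Lc / 3) := by
  have h0 : x ≠ 0 := fun h => hirr 0 (by rw [h, map_zero])
  have h1 : x ≠ 1 := fun h => hirr 1 (by rw [h, map_one])
  have k1 := cond_le3 hK h0 h1
  have k2 := disc_le3 hK hirr
  unfold W222.UABC.rootDisc
  rw [hK]
  push_cast
  linarith

/-- `x` has degree three, height at most `B` and violates the inequality -/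
def Vio3 (κ c B : ℝ) (x : AlgebraicClosure ℚ) : Prop :=
  ∃ (K : IntermediateField ℚ (AlgebraicClosure ℚ)) (_ : NumberField K) (t : K),
    (t : AlgebraicClosure ℚ) = x ∧ Module.finrank ℚ K = 3 ∧ (∀ q : ℚ, t ≠ algebraMap ℚ K q) ∧
      W222.UABC.height ![t, 1 - t, -1] ≤ Real.log B ∧
      c + κ * (W222.UABC.rootDisc K + W222.UABC.conductor ![t, 1 - t, -1]) <
        W222.UABC.height ![t, 1 - t, -1]

/-- the data of a violation -/
def Dat3 (κ c X : ℝ) (x : AlgebraicClosure ℚ) (δ : ℝ)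
    (K : IntermediateField ℚ (AlgebraicClosure ℚ)) : Prop :=
  x ≠ 1 ∧ 0 ≤ δ ∧ ∃ (_ : NumberField K) (t : K),
    (t : AlgebraicClosure ℚ) = x / (1 - x) ∧ Module.finrank ℚ K = 3 ∧
      (∀ q : ℚ, t ≠ algebraMap ℚ K q) ∧ Pt t ∧ ht t ≤ X ∧
      Real.log |(NumberField.discr K : ℝ)| = δ ∧ (∃ P : Fin 3 → Idl K, IsP ∅ t P ∧
        rl (P 0) + rl (P 1) + rl (P 2) ≤ (X + 3 * |c|) / κ - δ) ∧
      ∃ y : K, (y : AlgebraicClosure ℚ) = x ∧ y ≠ 0 ∧ y ≠ 1 ∧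
        3 * W222.UABC.height ![y, 1 - y, -1] ≤ X ∧
        3 * W222.UABC.conductor ![y, 1 - y, -1] ≤ (X + 3 * |c|) / κ - δ

theorem exists_dat {κ c B : ℝ} (hκ : 0 < κ) {x : AlgebraicClosure ℚ} (h : Vio3 κ c B x) :
    ∃ δ K, Dat3 κ c (3 * Real.log B) x δ K := by
  obtain ⟨K, hnf, t, htx, hK, hirr, hh, hv⟩ := h
  have ht0 : t ≠ 0 := fun h => hirr 0 (by rw [h, map_zero])
  have ht1 : t ≠ 1 := fun h => hirr 1 (by rw [h, map_one])
  obtain ⟨hPt, hht, P, hP, hR⟩ := point_of ht0 ht1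
  rw [hK] at hht hR
  push_cast at hht hR
  have h1 : W222.UABC.rootDisc K = Real.log |(NumberField.discr K : ℝ)| / 3 := by
    unfold W222.UABC.rootDisc
    rw [hK]
    norm_num
  rw [h1] at hv
  obtain ⟨d, hd⟩ : ∃ d : ℝ, d = Real.log |(NumberField.discr K : ℝ)| := ⟨_, rfl⟩
  obtain ⟨q, hq⟩ : ∃ q : ℝ, q = W222.UABC.conductor ![t, 1 - t, -1] := ⟨_, rfl⟩
  have h2 : 3 * q ≤ (3 * Real.log B + 3 * |c|) / κ - d := by
    rw [← hd, ← hq] at hv
    rw [le_sub_iff_add_le, le_div_iff₀ hκ]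
    have := neg_abs_le c
    nlinarith
  refine ⟨d, K, ?_, ?_, hnf, t / (1 - t), ?_, hK, frac_irr hirr, hPt, ?_, hd.symm, ⟨P, hP, ?_⟩,
    t, htx, ht0, ht1, ?_, ?_⟩
  · rw [← htx]
    intro h
    apply ht1
    exact_mod_cast h
  · rw [hd]
    exact Real.log_nonneg one_le_disc
  · rw [← htx]
    push_cast
    rfl
  · linarith
  · rw [← hR, ← hq]
    exact h2
  · linarith
  · rw [← hq]
    exact h2

/-- the points over fields of large discriminant -/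
theorem vio_large (κ c : ℝ) {ε : ℝ} (hε : 0 < ε) : ∃ D : ℝ, 0 < D ∧
    ∀ (X θ : ℝ) (E : Finset (AlgebraicClosure ℚ)), 0 ≤ X →
      (∀ x ∈ E, ∃ δ K, Dat3 κ c X x δ K ∧ θ ≤ δ) →
      (E.card : ℝ) ≤ D * Real.exp (X + ((X + 3 * |c|) / κ - θ) + ε * X) := by
  classical
  obtain ⟨D, hD, h⟩ := few_x 3 (by norm_num) hε
  refine ⟨D, hD, fun X θ E hX hE => ?_⟩
  rw [← Finset.card_image_of_injOn (inj_div E fun x hx => by
    obtain ⟨δ, K, h1, -⟩ := hE x hx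
    exact h1.1)]
  refine (h X ((X + 3 * |c|) / κ - θ) _ hX ?_).trans (le_of_eq ?_)
  · intro y hy
    obtain ⟨x, hx, rfl⟩ := Finset.mem_image.1 hy
    obtain ⟨δ, K, ⟨-, -, hnf, t, k1, k2, k3, k4, k5, k6, ⟨P, k7, k8⟩, -⟩, h2⟩ := hE x hx
    exact ⟨K, hnf, t, k1, k2, k4, k5, P, k7, k8.trans (by linarith)⟩
  · congr 2
    norm_num

/-- the points over fields of small discriminant -/
theorem vio_small (κ c : ℝ) {ε : ℝ} (hε : 0 < ε) : ∃ D : ℝ, 0 < D ∧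
    ∀ (X θ : ℝ) (E : Finset (AlgebraicClosure ℚ)), 0 ≤ X → 0 ≤ θ →
      (∀ x ∈ E, ∃ δ K, Dat3 κ c X x δ K ∧ δ ≤ θ) →
      (E.card : ℝ) ≤ D * Real.exp (2 * X + θ / 2 + ε * X) := by
  classical
  obtain ⟨D, hD, h⟩ := small3 hε
  refine ⟨D, hD, fun X θ E hX hθ hE => ?_⟩
  rw [← Finset.card_image_of_injOn (inj_div E fun x hx => by
    obtain ⟨δ, K, h1, -⟩ := hE x hx
    exact h1.1)]
  refine h X θ _ hX hθ ?_
  intro y hy
  obtain ⟨x, hx, rfl⟩ := Finset.mem_image.1 hy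
  obtain ⟨δ, K, ⟨-, -, hnf, t, k1, k2, k3, k4, k5, k6, -⟩, h2⟩ := hE x hx
  exact ⟨K, hnf, t, k1, k2, k3, k4, k5, k6.le.trans h2⟩

/-- the exponent `5 + 1 / κ` -/
theorem vio_one {κ c ε : ℝ} (hκ : 0 < κ) (hκ1 : κ ≤ 1) (hε : 0 < ε) : ∃ M : ℝ, 0 < M ∧
    ∀ B : ℝ, 1 ≤ B → ∀ E : Finset (AlgebraicClosure ℚ), (∀ x ∈ E, Vio3 κ c B x) →
      (E.card : ℝ) ≤ M * B ^ (5 + 1 / κ + ε) := by
  classical
  obtain ⟨ε1, hε1⟩ : ∃ ε1 : ℝ, ε1 = ε / 3 := ⟨_, rfl⟩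
  have hε10 : 0 < ε1 := by rw [hε1]; positivity
  obtain ⟨D1, hD1, hlarge⟩ := vio_large κ c hε10
  obtain ⟨D2, hD2, hsmall⟩ := vio_small κ c hε10
  refine ⟨D1 * Real.exp (3 * |c| / κ) + D2, by positivity, ?_⟩
  intro B hB E hE
  have hB0 : 0 < B := by linarith
  have hlB : 0 ≤ Real.log B := Real.log_nonneg hB
  obtain ⟨X, hX⟩ : ∃ X : ℝ, X = 3 * Real.log B := ⟨_, rfl⟩
  have hX0 : 0 ≤ X := by rw [hX]; positivity
  obtain ⟨θ, hθ⟩ : ∃ θ : ℝ, θ = 2 / 3 * (1 / κ - 1) * X := ⟨_, rfl⟩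
  have hl : 1 ≤ 1 / κ := by rwa [le_div_iff₀ hκ, one_mul]
  have hθ0 : 0 ≤ θ := by
    rw [hθ]
    have : 0 ≤ 1 / κ - 1 := by linarith
    positivity
  have hex : ∀ x : AlgebraicClosure ℚ, ∃ δ K, x ∈ E → Dat3 κ c X x δ K := by
    intro x
    by_cases hx : x ∈ E
    · obtain ⟨δ, K, h⟩ := exists_dat hκ (hE x hx)
      rw [← hX] at h
      exact ⟨δ, K, fun _ => h⟩
    · exact ⟨0, ⊥, fun h => absurd h hx⟩
  choose δ K hd using hex
  have hsplit : E.card = (E.filter fun x => θ ≤ δ x).card + (E.filter fun x => ¬ θ ≤ δ x).card :=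
    (Finset.card_filter_add_card_filter_not (s := E) (fun x => θ ≤ δ x)).symm
  have h1 := hlarge X θ (E.filter fun x => θ ≤ δ x) hX0 (by
    intro x hx
    obtain ⟨hxE, hxd⟩ := Finset.mem_filter.1 hx
    exact ⟨_, _, hd x hxE, hxd⟩)
  have h2 := hsmall X θ (E.filter fun x => ¬ θ ≤ δ x) hX0 hθ0 (by
    intro x hx
    obtain ⟨hxE, hxd⟩ := Finset.mem_filter.1 hx
    exact ⟨_, _, hd x hxE, (not_le.1 hxd).le⟩)
  have e1 : Real.exp (X + ((X + 3 * |c|) / κ - θ) + ε1 * X) =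
      Real.exp (3 * |c| / κ) * B ^ (5 + 1 / κ + ε) := by
    rw [Real.rpow_def_of_pos hB0, ← Real.exp_add]
    congr 1
    rw [hθ, hε1, hX]
    field_simp
    ring
  have e2 : Real.exp (2 * X + θ / 2 + ε1 * X) = B ^ (5 + 1 / κ + ε) := by
    rw [Real.rpow_def_of_pos hB0]
    congr 1
    rw [hθ, hε1, hX]
    field_simp
    ring
  rw [e1] at h1
  rw [e2] at h2
  rw [hsplit]
  push_cast
  have e3 : (D1 * Real.exp (3 * |c| / κ) + D2) * B ^ (5 + 1 / κ + ε) =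
      D1 * (Real.exp (3 * |c| / κ) * B ^ (5 + 1 / κ + ε)) + D2 * B ^ (5 + 1 / κ + ε) := by ring
  rw [e3]
  exact add_le_add h1 h2

end Pool.Agent.H88.CP
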