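import Pool.Agent.H88.CP6

/-!
# The number of cubic fields
-/

set_option autoImplicit false

namespace Pool.Agent.H88.CP

open NumberField IsDedekindDomain Finset Pool.Agent.W222.UABC Pool.Agent.W301.Lin

section Field

variable {K : Type} [Field K] [NumberField K] (s : Fin 3 ≃ (K →+* ℂ))

/-- the index form and its root -/
theorem index_root (hK : Module.finrank ℚ K = 3) {α β : 𝓞 K}
    (hspan : ∀ v : 𝓞 K, ∃ n x y : ℤ, v = n + x * α + y * β)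
    (hα : ∀ r : ℚ, (α : K) ≠ (r : K)) (hδ : dl s (α : K) (β : K) ≠ 0) :
    ∃ g : ℤ × ℤ × ℤ × ℤ, (∀ x y : ℤ,
      ((x : ℂ) * d0 s (α : K) + y * d0 s (β : K)) * (x * d1 s (α : K) + y * d1 s (β : K)) *
        (x * d2 s (α : K) + y * d2 s (β : K)) = (cub g x y : ℂ) * dl s (α : K) (β : K)) ∧
      (g.1 ≠ 0 → ∃ θ : K, (∀ r : ℚ, θ ≠ (r : K)) ∧
        (g.1 : K) * θ ^ 3 + g.2.1 * θ ^ 2 + g.2.2.1 * θ + g.2.2.2 = 0) := by
  obtain ⟨A0, A1, A2, hA⟩ := hspan (α * α)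
  obtain ⟨B0, B1, B2, hB⟩ := hspan (α * β)
  obtain ⟨C0, C1, C2, hC⟩ := hspan (β * β)
  have key : ∀ (v w : 𝓞 K) (n x y : ℤ), v * w = n + x * α + y * β → ∀ i : Fin 3,
      s i (v : K) * s i (w : K) = n + x * s i (α : K) + y * s i (β : K) := by
    intro v w n x y h i
    have h1 := congrArg (fun z : 𝓞 K => s i (z : K)) h
    rw [coe_comb3] at h1
    have h2 : ((v * w : 𝓞 K) : K) = v * w := by simp
    rw [h2] at h1
    simpa using h1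
  have kA := key α α A0 A1 A2 hA
  have kB := key α β B0 B1 B2 hB
  have kC := key β β C0 C1 C2 hC
  have hid : ∀ x y : ℤ,
      ((x : ℂ) * d0 s (α : K) + y * d0 s (β : K)) * (x * d1 s (α : K) + y * d1 s (β : K)) *
        (x * d2 s (α : K) + y * d2 s (β : K)) =
          (cub (A2, 2 * B2 - A1, C2 - 2 * B1, -C1) x y : ℂ) * dl s (α : K) (β : K) := by
    intro x y
    unfold cub dl d0 d1 d2
    push_cast
    linear_combination ((x : ℂ) * (s 1 (α : K) - s 2 (α : K)) + y * (s 1 (β : K) - s 2 (β : K))) *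
        ((x : ℂ) ^ 2 * (kA 2 - kA 0) + 2 * x * y * (kB 2 - kB 0) + (y : ℂ) ^ 2 * (kC 2 - kC 0)) -
      ((x : ℂ) * (s 2 (α : K) - s 0 (α : K)) + y * (s 2 (β : K) - s 0 (β : K))) *
        ((x : ℂ) ^ 2 * (kA 1 - kA 2) + 2 * x * y * (kB 1 - kB 2) + (y : ℂ) ^ 2 * (kC 1 - kC 2))
  refine ⟨(A2, 2 * B2 - A1, C2 - 2 * B1, -C1), hid, fun hg => ?_⟩
  simp only at hg
  obtain ⟨g0, g1, g2, g3⟩ := coeffs hid
  have hA2 : (A2 : ℂ) ≠ 0 := by exact_mod_cast hg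
  have hA2K : (A2 : K) ≠ 0 := by exact_mod_cast hg
  have h01 : s 0 (α : K) ≠ s 1 (α : K) := emb_ne hK hα (s.injective.ne (by decide))
  have h02 : s 0 (α : K) ≠ s 2 (α : K) := emb_ne hK hα (s.injective.ne (by decide))
  have h12 : s 1 (α : K) ≠ s 2 (α : K) := emb_ne hK hα (s.injective.ne (by decide))
  have hP : ∀ i : Fin 3, (1 : ℂ) * (s i (α : K)) ^ 3 + (-(A1 + B2)) * (s i (α : K)) ^ 2 +
      (-(A0 + A2 * B1 - A1 * B2)) * (s i (α : K)) + (-(A2 * B0 - A0 * B2)) = 0 := by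
    intro i
    linear_combination (s i (α : K) - B2) * kA i + (A2 : ℂ) * kB i
  obtain ⟨v1, -, -⟩ := vieta h01 h02 h12 (hP 0) (hP 1) (hP 2)
  have hs0 : s 0 (((α : K) - B2) / A2) = (s 0 (α : K) - B2) / A2 := by
    rw [map_div₀, map_sub, map_intCast, map_intCast]
  have hzero : d0 s (β : K) + s 0 (((α : K) - B2) / A2) * d0 s (α : K) = 0 := by
    rw [hs0]
    unfold d0
    field_simp
    linear_combination (s 1 (α : K) - s 2 (α : K)) * v1 - kA 1 + kA 2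
  refine ⟨((α : K) - B2) / A2, ?_, ?_⟩
  · intro r hr
    apply hα (r * A2 + B2)
    rw [div_eq_iff hA2K] at hr
    push_cast
    linear_combination hr
  · obtain ⟨θ, hθ⟩ : ∃ θ : K, θ = ((α : K) - B2) / A2 := ⟨_, rfl⟩
    rw [← hθ] at hzero ⊢
    have h1 : s 0 ((A2 : K) * θ ^ 3 + ((2 * B2 - A1 : ℤ) : K) * θ ^ 2 +
        ((C2 - 2 * B1 : ℤ) : K) * θ + ((-C1 : ℤ) : K)) = 0 := by
      simp only [map_add, map_mul, map_pow, map_intCast]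
      have h2 : ((A2 : ℂ) * (s 0 θ) ^ 3 + ((2 * B2 - A1 : ℤ) : ℂ) * (s 0 θ) ^ 2 +
        ((C2 - 2 * B1 : ℤ) : ℂ) * (s 0 θ) + ((-C1 : ℤ) : ℂ)) * dl s (α : K) (β : K) = 0 := by
        linear_combination (s 0 θ) ^ 3 * g0 + (s 0 θ) ^ 2 * g1 + (s 0 θ) * g2 + g3 +
          (s 0 θ * d1 s (α : K) + d1 s (β : K)) * (s 0 θ * d2 s (α : K) + d2 s (β : K)) * hzero
      exact (mul_eq_zero.1 h2).resolve_right hδ
    exact (map_eq_zero (s 0)).1 h1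

/-- the reduced form of a cubic field -/
theorem field_form (hK : Module.finrank ℚ K = 3) :
    ∃ (g : ℤ × ℤ × ℤ × ℤ) (θ : K) (X1 X2 : ℝ), (∀ r : ℚ, θ ≠ (r : K)) ∧
      (g.1 : K) * θ ^ 3 + g.2.1 * θ ^ 2 + g.2.2.1 * θ + g.2.2.2 = 0 ∧
      1 ≤ X1 ∧ X1 ≤ X2 ∧ X1 * X2 ≤ 2 * √|(discr K : ℝ)| ∧ g.1 ≠ 0 ∧
      |(g.1 : ℝ)| * X2 ≤ 2 * X1 ^ 2 ∧ |(g.2.1 : ℝ)| ≤ 6 * X1 ∧ |(g.2.2.1 : ℝ)| ≤ 6 * X2 ∧
      |(g.2.2.2 : ℝ)| * X1 ≤ 2 * X2 ^ 2 := by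
  classical
  obtain ⟨s⟩ : Nonempty (Fin 3 ≃ (K →+* ℂ)) := by
    apply Fintype.card_eq.1
    rw [Embeddings.card, hK, Fintype.card_fin]
  obtain ⟨α, β, hspan, hdisc, hvv, hAC, hB⟩ := exists_red s hK
  have hαirr : ∀ r : ℚ, (α : K) ≠ (r : K) := by
    intro r h
    apply hvv
    unfold vv
    rw [h, d0_rat, zero_mul, zero_mul]
  have hδ0 : dl s (α : K) (β : K) ≠ 0 := by
    intro h0
    rw [h0] at hdisc
    have : (discr K : ℤ) = 0 := by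
      have h1 : ((discr K : ℤ) : ℂ) = 0 := by rw [hdisc]; ring
      exact_mod_cast h1
    exact discr_ne_zero K this
  obtain ⟨g, hg, hroot⟩ := index_root s hK hspan hαirr hδ0
  obtain ⟨g0, g1, g2, g3⟩ := coeffs hg
  obtain ⟨δ, hδ⟩ : ∃ δ : ℂ, δ = dl s (α : K) (β : K) := ⟨_, rfl⟩
  rw [← hδ] at hg g0 g1 g2 g3 hdisc
  -- the size of `δ`
  have hδ2 : ‖δ‖ ^ 2 = |(discr K : ℝ)| := by
    rw [← norm_pow, ← hdisc, Complex.norm_intCast]
  have hD1 : (1 : ℝ) ≤ |(discr K : ℝ)| := by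
    exact_mod_cast Int.one_le_abs (discr_ne_zero K)
  have hδ1 : 1 ≤ ‖δ‖ := by nlinarith [norm_nonneg δ]
  have hδs : ‖δ‖ = √|(discr K : ℝ)| := by
    rw [← hδ2, Real.sqrt_sq (norm_nonneg _)]
  obtain ⟨X1, hX1⟩ : ∃ X1 : ℝ, X1 = √(qf s (α : K)) := ⟨_, rfl⟩
  obtain ⟨X2, hX2⟩ : ∃ X2 : ℝ, X2 = √(qf s (β : K)) := ⟨_, rfl⟩
  have hq1 : X1 ^ 2 = qf s (α : K) := by rw [hX1, Real.sq_sqrt (qf_nonneg _ _)]
  have hq2 : X2 ^ 2 = qf s (β : K) := by rw [hX2, Real.sq_sqrt (qf_nonneg _ _)]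
  have hX10 : 0 ≤ X1 := by rw [hX1]; exact Real.sqrt_nonneg _
  have hX20 : 0 ≤ X2 := by rw [hX2]; exact Real.sqrt_nonneg _
  have hX12 : X1 ≤ X2 := by rw [hX1, hX2]; exact Real.sqrt_le_sqrt hAC
  have hXX : X1 * X2 ≤ 2 * ‖δ‖ := by
    have h1 := lagrange s (α : K) (β : K)
    rw [← hδ, ← hq1, ← hq2] at h1
    have h2 : (2 * (ip s (α : K) (β : K)).re) ^ 2 ≤ (X1 * X2) ^ 2 := by
      rw [← sq_abs (2 * (ip s (α : K) (β : K)).re)]
      rw [← hq1] at hB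
      have h3 : X1 ^ 2 ≤ X1 * X2 := by nlinarith
      have h4 := hB.trans h3
      have := abs_nonneg (2 * (ip s (α : K) (β : K)).re)
      gcongr
    have h3 : (X1 * X2) ^ 2 ≤ (2 * ‖δ‖) ^ 2 := by nlinarith
    exact (pow_le_pow_iff_left₀ (by positivity) (by positivity) two_ne_zero).1 h3
  have hn : ∀ v : K, ∀ X : ℝ, 0 ≤ X → X ^ 2 = qf s v → ‖d0 s v‖ ≤ X ∧ ‖d1 s v‖ ≤ X ∧ ‖d2 s v‖ ≤ X := by
    intro v X hX hq
    unfold qf at hq
    refine ⟨?_, ?_, ?_⟩ <;>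
      refine (pow_le_pow_iff_left₀ (norm_nonneg _) hX two_ne_zero).1 ?_ <;>
      nlinarith [sq_nonneg ‖d0 s v‖, sq_nonneg ‖d1 s v‖, sq_nonneg ‖d2 s v‖]
  obtain ⟨α0, α1, α2⟩ := hn (α : K) X1 hX10 hq1
  obtain ⟨β0, β1, β2⟩ := hn (β : K) X2 hX20 hq2
  have hgne : g.1 ≠ 0 := by
    intro h0
    apply hvv
    unfold vv
    rw [← g0, h0]
    simp
  obtain ⟨θ, hθ1, hθ2⟩ := hroot hgne
  have n0 : |(g.1 : ℝ)| * ‖δ‖ ≤ X1 ^ 3 := by
    have h1 : |(g.1 : ℝ)| * ‖δ‖ = ‖(g.1 : ℂ) * δ‖ := by rw [_root_.norm_mul, Complex.norm_intCast]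
    rw [h1, g0]
    refine (norm_three α0 α1 α2).trans (le_of_eq (by ring))
  have n1 : |(g.2.1 : ℝ)| * ‖δ‖ ≤ 3 * (X1 ^ 2 * X2) := by
    have h1 : |(g.2.1 : ℝ)| * ‖δ‖ = ‖(g.2.1 : ℂ) * δ‖ := by rw [_root_.norm_mul, Complex.norm_intCast]
    rw [h1, g1]
    have e1 := norm_three β0 α1 α2
    have e2 := norm_three α0 β1 α2
    have e3 := norm_three α0 α1 β2
    have e4 := norm_add_le (d0 s (β : K) * d1 s (α : K) * d2 s (α : K) +
      d0 s (α : K) * d1 s (β : K) * d2 s (α : K)) (d0 s (α : K) * d1 s (α : K) * d2 s (β : K))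
    have e5 := norm_add_le (d0 s (β : K) * d1 s (α : K) * d2 s (α : K))
      (d0 s (α : K) * d1 s (β : K) * d2 s (α : K))
    have e6 : X2 * X1 * X1 = X1 ^ 2 * X2 := by ring
    have e7 : X1 * X2 * X1 = X1 ^ 2 * X2 := by ring
    have e8 : X1 * X1 * X2 = X1 ^ 2 * X2 := by ring
    rw [e6] at e1
    rw [e7] at e2
    rw [e8] at e3
    linarith
  have n2 : |(g.2.2.1 : ℝ)| * ‖δ‖ ≤ 3 * (X1 * X2 ^ 2) := by
    have h1 : |(g.2.2.1 : ℝ)| * ‖δ‖ = ‖(g.2.2.1 : ℂ) * δ‖ := by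
      rw [_root_.norm_mul, Complex.norm_intCast]
    rw [h1, g2]
    have e1 := norm_three α0 β1 β2
    have e2 := norm_three β0 α1 β2
    have e3 := norm_three β0 β1 α2
    have e4 := norm_add_le (d0 s (α : K) * d1 s (β : K) * d2 s (β : K) +
      d0 s (β : K) * d1 s (α : K) * d2 s (β : K)) (d0 s (β : K) * d1 s (β : K) * d2 s (α : K))
    have e5 := norm_add_le (d0 s (α : K) * d1 s (β : K) * d2 s (β : K))
      (d0 s (β : K) * d1 s (α : K) * d2 s (β : K))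
    have e6 : X1 * X2 * X2 = X1 * X2 ^ 2 := by ring
    have e7 : X2 * X1 * X2 = X1 * X2 ^ 2 := by ring
    have e8 : X2 * X2 * X1 = X1 * X2 ^ 2 := by ring
    rw [e6] at e1
    rw [e7] at e2
    rw [e8] at e3
    linarith
  have n3 : |(g.2.2.2 : ℝ)| * ‖δ‖ ≤ X2 ^ 3 := by
    have h1 : |(g.2.2.2 : ℝ)| * ‖δ‖ = ‖(g.2.2.2 : ℂ) * δ‖ := by
      rw [_root_.norm_mul, Complex.norm_intCast]
    rw [h1, g3]
    refine (norm_three β0 β1 β2).trans (le_of_eq (by ring))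
  have hX1one : 1 ≤ X1 := by
    have h1 : (1 : ℝ) ≤ |(g.1 : ℝ)| := by exact_mod_cast Int.one_le_abs hgne
    have h2 : 1 ≤ X1 ^ 3 := by nlinarith
    by_contra hlt
    push Not at hlt
    have : X1 ^ 3 < 1 := pow_lt_one₀ hX10 hlt (by norm_num)
    linarith
  have hX1p : 0 < X1 := by linarith
  have hX2p : 0 < X2 := by linarith
  have b0 : |(g.1 : ℝ)| * X2 ≤ 2 * X1 ^ 2 := by
    have h1 : |(g.1 : ℝ)| * (X1 * X2) ≤ |(g.1 : ℝ)| * (2 * ‖δ‖) := by gcongr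
    have h2 : (|(g.1 : ℝ)| * X2) * X1 ≤ (2 * X1 ^ 2) * X1 := by nlinarith
    exact le_of_mul_le_mul_right h2 hX1p
  have b1 : |(g.2.1 : ℝ)| ≤ 6 * X1 := by
    have h1 : |(g.2.1 : ℝ)| * (X1 * X2) ≤ |(g.2.1 : ℝ)| * (2 * ‖δ‖) := by gcongr
    have h2 : |(g.2.1 : ℝ)| * (X1 * X2) ≤ (6 * X1) * (X1 * X2) := by nlinarith
    exact le_of_mul_le_mul_right h2 (by positivity)
  have b2 : |(g.2.2.1 : ℝ)| ≤ 6 * X2 := by
    have h1 : |(g.2.2.1 : ℝ)| * (X1 * X2) ≤ |(g.2.2.1 : ℝ)| * (2 * ‖δ‖) := by gcongr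
    have h2 : |(g.2.2.1 : ℝ)| * (X1 * X2) ≤ (6 * X2) * (X1 * X2) := by nlinarith
    exact le_of_mul_le_mul_right h2 (by positivity)
  have b3 : |(g.2.2.2 : ℝ)| * X1 ≤ 2 * X2 ^ 2 := by
    have h1 : |(g.2.2.2 : ℝ)| * (X1 * X2) ≤ |(g.2.2.2 : ℝ)| * (2 * ‖δ‖) := by gcongr
    have h2 : (|(g.2.2.2 : ℝ)| * X1) * X2 ≤ (2 * X2 ^ 2) * X2 := by nlinarith
    exact le_of_mul_le_mul_right h2 hX2p
  exact ⟨g, θ, X1, X2, hθ1, hθ2, hX1one, hX12, by rw [← hδs]; exact hXX, hgne, b0, b1, b2, b3⟩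

end Field

/-- a cubic field is generated by each of its irrational elements -/
theorem field_eq {L L' : IntermediateField ℚ (AlgebraicClosure ℚ)} {x : AlgebraicClosure ℚ}
    (h : Module.finrank ℚ L = 3) (h' : Module.finrank ℚ L' = 3) (hx : x ∈ L) (hx' : x ∈ L')
    (hirr : ∀ r : ℚ, x ≠ (r : AlgebraicClosure ℚ)) : L = L' := by
  have key : ∀ M : IntermediateField ℚ (AlgebraicClosure ℚ), Module.finrank ℚ M = 3 → x ∈ M →
      IntermediateField.adjoin ℚ {x} = M := by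
    intro M hM hxM
    have h1 : IntermediateField.adjoin ℚ {x} ≤ M := IntermediateField.adjoin_simple_le_iff.2 hxM
    have h2 : Module.finrank ℚ (IntermediateField.adjoin ℚ {x}) ∣ Module.finrank ℚ M :=
      IntermediateField.finrank_dvd_of_le_right h1
    rw [hM] at h2
    rcases (Nat.dvd_prime Nat.prime_three).1 h2 with h3 | h3
    · exfalso
      rw [IntermediateField.finrank_adjoin_simple_eq_one_iff, IntermediateField.mem_bot] at h3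
      obtain ⟨r, hr⟩ := h3
      apply hirr r
      rw [← hr]
      simp
    · have : FiniteDimensional ℚ M := FiniteDimensional.of_finrank_pos (by rw [hM]; norm_num)
      exact IntermediateField.eq_of_le_of_finrank_eq h1 (h3.trans hM.symm)
  rw [← key L h hx, ← key L' h' hx']

/-- the reduced form of a cubic field, inside the algebraic closure -/
theorem field_data (L : IntermediateField ℚ (AlgebraicClosure ℚ)) [NumberField L]
    (hL : Module.finrank ℚ L = 3) :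
    ∃ (g : ℤ × ℤ × ℤ × ℤ) (θ : AlgebraicClosure ℚ) (X1 X2 : ℝ),
        θ ∈ L ∧ (∀ r : ℚ, θ ≠ (r : AlgebraicClosure ℚ)) ∧
        (g.1 : AlgebraicClosure ℚ) * θ ^ 3 + g.2.1 * θ ^ 2 + g.2.2.1 * θ + g.2.2.2 = 0 ∧
        1 ≤ X1 ∧ X1 ≤ X2 ∧ X1 * X2 ≤ 2 * √|(discr L : ℝ)| ∧ g.1 ≠ 0 ∧
        |(g.1 : ℝ)| * X2 ≤ 2 * X1 ^ 2 ∧ |(g.2.1 : ℝ)| ≤ 6 * X1 ∧ |(g.2.2.1 : ℝ)| ≤ 6 * X2 ∧
        |(g.2.2.2 : ℝ)| * X1 ≤ 2 * X2 ^ 2 := by
  obtain ⟨g, θ, X1, X2, k1, k2, k3, k4, k5, k6, k7, k8, k9, k10⟩ := field_form hL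
  refine ⟨g, (θ : AlgebraicClosure ℚ), X1, X2, θ.2, ?_, ?_, k3, k4, k5, k6, k7, k8, k9, k10⟩
  · intro r hr
    apply k1 r
    apply Subtype.ext
    rw [hr]
    simp
  · have := congrArg (algebraMap L (AlgebraicClosure ℚ)) k2
    simpa using this

/-- **the number of cubic fields** (Davenport's bound up to `X ^ ε`) -/
theorem davenport {ε : ℝ} (hε : 0 < ε) : ∃ C : ℝ, 0 < C ∧ ∀ X : ℝ, 1 ≤ X →
    (FS ℚ 3 X).Finite ∧ ((FS ℚ 3 X).ncard : ℝ) ≤ C * X ^ (1 + ε) := by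
  classical
  obtain ⟨C2, hC2, hlog⟩ := log_pow_le (ε := 2 * ε) (by positivity)
  refine ⟨4 * (3 * (746496 * 4)) * (C2 * 4 ^ ε), by positivity, fun X hX => ?_⟩
  refine ncard_le_of _ _ fun E hE => ?_
  have hX0 : 0 < X := by linarith
  obtain ⟨W, hW⟩ : ∃ W : ℝ, W = 2 * √X := ⟨_, rfl⟩
  have hs1 : 1 ≤ √X := Real.one_le_sqrt.2 hX
  have hW1 : 1 ≤ W := by rw [hW]; linarith
  have hW0 : 0 < W := by linarith
  have hW2 : W ^ 2 = 4 * X := by rw [hW, mul_pow, Real.sq_sqrt hX0.le]; norm_num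
  have hex : ∀ L : IntermediateField ℚ (AlgebraicClosure ℚ),
      ∃ (g : ℤ × ℤ × ℤ × ℤ) (θ : AlgebraicClosure ℚ) (X1 X2 : ℝ) (i j : ℕ), L ∈ E →
        (Module.finrank ℚ L = 3 ∧ θ ∈ L ∧ (∀ r : ℚ, θ ≠ (r : AlgebraicClosure ℚ)) ∧
        (g.1 : AlgebraicClosure ℚ) * θ ^ 3 + g.2.1 * θ ^ 2 + g.2.2.1 * θ + g.2.2.2 = 0) ∧
        (1 ≤ X1 ∧ X1 ≤ X2 ∧ X1 * X2 ≤ W ∧ g.1 ≠ 0 ∧
        |(g.1 : ℝ)| * X2 ≤ 2 * X1 ^ 2 ∧ |(g.2.1 : ℝ)| ≤ 6 * X1 ∧ |(g.2.2.1 : ℝ)| ≤ 6 * X2 ∧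
        |(g.2.2.2 : ℝ)| * X1 ≤ 2 * X2 ^ 2) ∧
        2 ^ i ≤ X1 ∧ X1 < 2 ^ (i + 1) ∧ 2 ^ j ≤ X2 ∧ X2 < 2 ^ (j + 1) := by
    intro L
    by_cases hL : L ∈ E
    · obtain ⟨hL3, hnf, hd⟩ := hE (Finset.mem_coe.2 hL)
      obtain ⟨g, θ, X1, X2, k0, k1, k2, k3, k4, k5, k6, k7, k8, k9, k10⟩ := field_data L hL3
      obtain ⟨i, hi1, hi2⟩ := exists_nat_pow_near k3 (by norm_num : (1 : ℝ) < 2)
      obtain ⟨j, hj1, hj2⟩ := exists_nat_pow_near (k3.trans k4) (by norm_num : (1 : ℝ) < 2)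
      refine ⟨g, θ, X1, X2, i, j, fun _ => ⟨⟨hL3, k0, k1, k2⟩,
        ⟨k3, k4, ?_, k6, k7, k8, k9, k10⟩, hi1, hi2, hj1, hj2⟩⟩
      · rw [hW]
        refine k5.trans (mul_le_mul_of_nonneg_left (Real.sqrt_le_sqrt ?_) (by norm_num))
        rw [Int.cast_abs] at hd
        exact hd
    · exact ⟨0, 0, 0, 0, 0, 0, fun h => absurd h hL⟩
  choose g θ X1 X2 i j hd using hex
  set N : ℕ := ⌊2 * Real.log W⌋₊ with hN
  have hlW : 0 ≤ Real.log W := Real.log_nonneg hW1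
  have hrange : ∀ L ∈ E, i L ≤ j L ∧ j L ≤ N ∧ (2 : ℝ) ^ (i L + j L) ≤ W := by
    intro L hL
    obtain ⟨-, ⟨k3, k4, k5, -⟩, hi1, hi2, hj1, hj2⟩ := hd L hL
    have hX1 : 0 < X1 L := by linarith
    have hX2W : X2 L ≤ W := by nlinarith
    refine ⟨?_, ?_, ?_⟩
    · have : (2 : ℝ) ^ (i L) < 2 ^ (j L + 1) := lt_of_le_of_lt (hi1.trans k4) hj2
      have := (pow_lt_pow_iff_right₀ (by norm_num : (1 : ℝ) < 2)).1 this
      omega
    · rw [hN]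
      apply Nat.le_floor
      have h4 := Real.log_le_log (by positivity) (hj1.trans hX2W)
      rw [Real.log_pow] at h4
      have h5 := Real.log_two_gt_d9
      have h6 : (0 : ℝ) ≤ (j L : ℝ) := Nat.cast_nonneg _
      nlinarith
    · rw [pow_add]
      refine le_trans ?_ k5
      gcongr
  have hmaps : ∀ L ∈ E, (i L, j L) ∈ Finset.range (N + 1) ×ˢ Finset.range (N + 1) := by
    intro L hL
    obtain ⟨h1, h2, -⟩ := hrange L hL
    rw [Finset.mem_product, Finset.mem_range, Finset.mem_range]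
    constructor
    · show i L < N + 1
      omega
    · show j L < N + 1
      omega
  have hbox : ∀ b ∈ Finset.range (N + 1) ×ˢ Finset.range (N + 1),
      ((E.filter fun L => (i L, j L) = b).card : ℝ) ≤ 3 * (746496 * W ^ 2) := by
    rintro ⟨i0, j0⟩ -
    set F1 := E.filter fun L => (i L, j L) = (i0, j0) with hF1
    rcases F1.eq_empty_or_nonempty with hemp | ⟨f1, hf1⟩
    · rw [hemp, Finset.card_empty, Nat.cast_zero]
      positivity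
    have hF1m : ∀ f ∈ F1, f ∈ E ∧ i f = i0 ∧ j f = j0 := by
      intro f hf
      obtain ⟨h1, h2⟩ := Finset.mem_filter.1 hf
      exact ⟨h1, congrArg Prod.fst h2, congrArg Prod.snd h2⟩
    obtain ⟨k1, k2, k3⟩ := hF1m f1 hf1
    obtain ⟨m1, m2, m3⟩ := hrange f1 k1
    rw [k2, k3] at m1 m3
    obtain ⟨p, hp⟩ : ∃ p : ℝ, p = 2 ^ i0 := ⟨_, rfl⟩
    obtain ⟨q, hq⟩ : ∃ q : ℝ, q = 2 ^ j0 := ⟨_, rfl⟩
    have hp1 : 1 ≤ p := by rw [hp]; exact one_le_pow₀ (by norm_num)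
    have hpq : p ≤ q := by rw [hp, hq]; exact pow_le_pow_right₀ (by norm_num) m1
    have hp0 : 0 < p := by linarith
    have hq0 : 0 < q := by linarith
    rw [pow_add, ← hp, ← hq] at m3
    have h1 := card_le_real F1 g 3 (by
      intro g0 hg0
      set F2 := F1.filter fun f => g f = g0 with hF2
      have hF2m : ∀ f ∈ F2, f ∈ F1 ∧ g f = g0 := fun f hf => Finset.mem_filter.1 hf
      have hinj : Set.InjOn θ (F2 : Set _) := by
        intro f hf f' hf' h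
        obtain ⟨a1, a2⟩ := hF2m f (Finset.mem_coe.1 hf)
        obtain ⟨b1, b2⟩ := hF2m f' (Finset.mem_coe.1 hf')
        obtain ⟨⟨c1, c2, c3, -⟩, -⟩ := hd f (hF1m f a1).1
        obtain ⟨⟨e1, e2, e3, -⟩, -⟩ := hd f' (hF1m f' b1).1
        refine field_eq c1 e1 c2 ?_ c3
        rw [h]
        exact e2
      rw [← Finset.card_image_of_injOn hinj]
      obtain ⟨f0, hf0, hf0g⟩ := Finset.mem_image.1 hg0
      have hg0ne : g0.1 ≠ 0 := by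
        obtain ⟨-, ⟨-, -, -, k, -⟩, -⟩ := hd f0 (hF1m f0 hf0).1
        rw [← hf0g]
        exact k
      have h2 := card_roots_le (F2.image θ) g0 hg0ne (by
        intro x hx
        obtain ⟨f, hf, rfl⟩ := Finset.mem_image.1 hx
        obtain ⟨a1, a2⟩ := hF2m f hf
        obtain ⟨⟨-, -, -, k⟩, -⟩ := hd f (hF1m f a1).1
        rw [a2] at k
        exact k)
      exact_mod_cast h2)
    have h2 := card_red p q hp1 hpq (F1.image g) (by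
      intro g0 hg0
      obtain ⟨f, hf, rfl⟩ := Finset.mem_image.1 hg0
      obtain ⟨l1, l2, l3⟩ := hF1m f hf
      obtain ⟨-, ⟨k3, k4, k5, k6, k7, k8, k9, k10⟩, hi1, hi2, hj1, hj2⟩ := hd f l1
      rw [l2, ← hp] at hi1
      rw [l2, pow_succ, ← hp] at hi2
      rw [l3, ← hq] at hj1
      rw [l3, pow_succ, ← hq] at hj2
      have hX1 : 0 < X1 f := by linarith
      have hX2 : 0 < X2 f := by linarith
      have hX1' : X1 f ≤ 2 * p := by linarith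
      have hX2' : X2 f ≤ 2 * q := by linarith
      refine ⟨k6, ?_, ?_, ?_, ?_⟩
      · have a1 : |((g f).1 : ℝ)| * q ≤ 8 * p ^ 2 := by
          calc |((g f).1 : ℝ)| * q ≤ |((g f).1 : ℝ)| * X2 f := by gcongr
            _ ≤ 2 * (X1 f) ^ 2 := k7
            _ ≤ 2 * (2 * p) ^ 2 := by gcongr
            _ = 8 * p ^ 2 := by ring
        rw [← mul_div_assoc, le_div_iff₀ hq0]
        exact a1
      · linarith
      · linarith
      · have a1 : |((g f).2.2.2 : ℝ)| * p ≤ 8 * q ^ 2 := by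
          calc |((g f).2.2.2 : ℝ)| * p ≤ |((g f).2.2.2 : ℝ)| * X1 f := by gcongr
            _ ≤ 2 * (X2 f) ^ 2 := k10
            _ ≤ 2 * (2 * q) ^ 2 := by gcongr
            _ = 8 * q ^ 2 := by ring
        rw [← mul_div_assoc, le_div_iff₀ hp0]
        exact a1)
    calc (F1.card : ℝ) ≤ _ := h1
      _ ≤ 3 * (746496 * (p * q) ^ 2) := by gcongr
      _ ≤ 3 * (746496 * W ^ 2) := by gcongr
  rw [Finset.card_eq_sum_card_fiberwise hmaps]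
  push_cast
  refine (Finset.sum_le_sum hbox).trans ?_
  rw [Finset.sum_const, Finset.card_product, Finset.card_range, nsmul_eq_mul]
  have hNle : ((N + 1 : ℕ) : ℝ) ≤ 2 * (1 + Real.log W) := by
    push_cast
    have : (N : ℝ) ≤ 2 * Real.log W := Nat.floor_le (by positivity)
    linarith
  have hl := hlog W hW1
  have hl2 : (1 + Real.log W) ^ 2 ≤ (1 + Real.log W) ^ 4 :=
    pow_le_pow_right₀ (by linarith) (by norm_num)
  have hWe : W ^ (2 * ε) = 4 ^ ε * X ^ ε := by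
    rw [← Real.mul_rpow (by norm_num) hX0.le, ← hW2, ← Real.rpow_natCast W 2, ← Real.rpow_mul hW0.le]
    norm_num
  calc (((N + 1) * (N + 1) : ℕ) : ℝ) * (3 * (746496 * W ^ 2))
      = (((N + 1 : ℕ) : ℝ) * ((N + 1 : ℕ) : ℝ)) * (3 * (746496 * W ^ 2)) := by push_cast; ring
    _ ≤ ((2 * (1 + Real.log W)) * (2 * (1 + Real.log W))) * (3 * (746496 * W ^ 2)) := by gcongr
    _ = 4 * (3 * (746496 * W ^ 2)) * (1 + Real.log W) ^ 2 := by ring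
    _ ≤ 4 * (3 * (746496 * W ^ 2)) * (C2 * W ^ (2 * ε)) := by
        refine mul_le_mul_of_nonneg_left (hl2.trans hl) (by positivity)
    _ = 4 * (3 * (746496 * 4)) * (C2 * 4 ^ ε) * (X ^ (1 : ℝ) * X ^ ε) := by
        rw [hWe, hW2, Real.rpow_one]
        ring
    _ = 4 * (3 * (746496 * 4)) * (C2 * 4 ^ ε) * X ^ (1 + ε) := by
        rw [← Real.rpow_add hX0]

end Pool.Agent.H88.CP
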