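import Pool.Agent.H88.CP8
import Pool.Agent.H691R3.Rep

/-!
# The heights of the roots of a cubic polynomial
-/

set_option autoImplicit false

namespace Pool.Agent.H88.CP

open NumberField IsDedekindDomain Finset Pool.Agent.H691R3 Pool.Agent.W223.AK
open Pool.Agent.W222.UABC Pool.Agent.R365.QP

section Inf

variable {K : Type} [Field K] [NumberField K] (s : Fin 3 ≃ (K →+* ℂ))

/-- a sum over the infinite places -/
theorem sum_inf (F : ℝ → ℝ) (t : K) :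
    ∑ w : InfinitePlace K, (w.mult : ℝ) * F (w t) = F ‖s 0 t‖ + F ‖s 1 t‖ + F ‖s 2 t‖ := by
  classical
  have h1 : ∑ σ : K →+* ℂ, F ‖σ t‖ = F ‖s 0 t‖ + F ‖s 1 t‖ + F ‖s 2 t‖ := by
    rw [← Equiv.sum_comp s (fun σ : K →+* ℂ => F ‖σ t‖), Fin.sum_univ_three]
  rw [← h1, ← Finset.sum_fiberwise Finset.univ (fun σ : K →+* ℂ => InfinitePlace.mk σ)
    (fun σ => F ‖σ t‖)]
  refine Finset.sum_congr rfl fun w _ => ?_
  rw [Finset.sum_congr rfl (g := fun _ => F (w t)) (by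
    intro σ hσ
    have h2 := (Finset.mem_filter.1 hσ).2
    rw [← h2, InfinitePlace.apply])]
  rw [Finset.sum_const, nsmul_eq_mul, InfinitePlace.card_filter_mk_eq]

/-- the norm -/
theorem norm_three_emb (t : K) :
    ((Algebra.norm ℚ t : ℚ) : ℂ) = s 0 t * s 1 t * s 2 t := by
  have h := Algebra.norm_eq_prod_embeddings ℚ ℂ t
  rw [← Equiv.prod_comp (s.trans (RingHom.equivRatAlgHom K ℂ)), Fin.prod_univ_three] at h
  exact h

end Inf

theorem prod_max_le {a b c d t0 t1 t2 : ℂ} {T : ℝ} (ha : ‖a‖ ≤ T) (hb : ‖b‖ ≤ T) (hc : ‖c‖ ≤ T)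
    (hd : ‖d‖ ≤ T) (h0 : t0 ≠ 0) (h1 : t1 ≠ 0) (h2 : t2 ≠ 0)
    (r0 : a * t0 ^ 3 + b * t0 ^ 2 + c * t0 + d = 0) (r1 : a * t1 ^ 3 + b * t1 ^ 2 + c * t1 + d = 0)
    (r2 : a * t2 ^ 3 + b * t2 ^ 2 + c * t2 + d = 0) (hv : a * (t0 * t1 * t2) = -d) :
    ‖a‖ * (max ‖t0‖ 1 * max ‖t1‖ 1 * max ‖t2‖ 1) ≤ 3 * T := by
  have hT : 0 ≤ T := (norm_nonneg _).trans ha
  have e0 := root_bd ha hb hc hd r0
  have e1 := root_bd ha hb hc hd r1
  have e2 := root_bd ha hb hc hd r2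
  have e01 := root_bd2 ha hb hc hd h2 r2 hv
  have e02 := root_bd2 (t0 := t0) (t1 := t2) ha hb hc hd h1 r1 (by rw [← hv]; ring)
  have e12 := root_bd2 (t0 := t1) (t1 := t2) ha hb hc hd h0 r0 (by rw [← hv]; ring)
  have e012 : ‖a‖ * (‖t0‖ * ‖t1‖ * ‖t2‖) ≤ T := by
    rw [← _root_.norm_mul, ← _root_.norm_mul, ← _root_.norm_mul, hv, norm_neg]
    exact hd
  rw [_root_.norm_mul] at e0 e1 e2
  rw [_root_.norm_mul, _root_.norm_mul] at e01 e02 e12
  rcases le_total ‖t0‖ 1 with k0 | k0 <;> rcases le_total ‖t1‖ 1 with k1 | k1 <;>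
    rcases le_total ‖t2‖ 1 with k2 | k2 <;>
    simp only [max_eq_left, max_eq_right, k0, k1, k2] <;> linarith

/-- the prime ideals which divide an integer -/
theorem dvd_of_mem {K : Type} [Field K] [NumberField K] {v : Pr K} {n : ℤ} {p : ℕ}
    (hp : p.Prime) (hn : fv v ((n : ℤ) : K) < 1) (hd : p ∣ nm v) : (p : ℤ) ∣ n := by
  have h1 : ((n : ℤ) : 𝓞 K) ∈ v.asIdeal := by
    rw [← fv_lt_one_iff]
    have : (((n : ℤ) : 𝓞 K) : K) = ((n : ℤ) : K) := by simp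
    rw [this]
    exact hn
  have h2 : Ideal.span {((n : ℤ) : 𝓞 K)} ≤ v.asIdeal := by
    rw [Ideal.span_le]
    intro x hx
    rw [Set.mem_singleton_iff.1 hx]
    exact h1
  have h3 := Ideal.absNorm_dvd_absNorm_of_le h2
  rw [Ideal.absNorm_span_singleton] at h3
  have h4 : Algebra.norm ℤ ((n : ℤ) : 𝓞 K) = n ^ Module.finrank ℤ (𝓞 K) := by
    have := Algebra.norm_algebraMap (R := ℤ) (S := 𝓞 K) n
    simpa using this
  rw [h4, Int.natAbs_pow] at h3
  have h5 : p ∣ n.natAbs := hp.dvd_of_dvd_pow (hd.trans h3)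
  exact Int.natCast_dvd.2 h5

theorem exists_prime_dvd {K : Type} [Field K] [NumberField K] {P : Idl K} {p : ℕ}
    (hp : p.Prime) (hd : p ∣ nn P) : ∃ v : Pr K, P v ≠ 0 ∧ p ∣ nm v := by
  unfold nn at hd
  obtain ⟨v, hv, hdv⟩ := (Prime.dvd_finsetProd_iff hp.prime _).1 hd
  exact ⟨v, Finsupp.mem_support_iff.1 hv, hp.dvd_of_dvd_pow hdv⟩

/-- the height of a root, when the extreme coefficients are coprime -/
theorem ht_le3 {K : Type} [Field K] [NumberField K] (hK : Module.finrank ℚ K = 3) {t : K}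
    (hirr : ∀ r : ℚ, t ≠ (r : K)) (hPt : Pt t) {a b c d : ℤ}
    (ha0 : a ≠ 0) (h : (a : K) * t ^ 3 + b * t ^ 2 + c * t + d = 0) (hco : IsCoprime a d) {T : ℝ}
    (ha : |(a : ℝ)| ≤ T) (hb : |(b : ℝ)| ≤ T) (hc : |(c : ℝ)| ≤ T) (hd : |(d : ℝ)| ≤ T) :
    ht t ≤ Real.log (3 * T) := by
  classical
  obtain ⟨s⟩ : Nonempty (Fin 3 ≃ (K →+* ℂ)) := by
    apply Fintype.card_eq.1
    rw [Embeddings.card, hK, Fintype.card_fin]
  have ht0 : t ≠ 0 := hPt.1
  have hroot : ∀ i : Fin 3, (a : ℂ) * (s i t) ^ 3 + b * (s i t) ^ 2 + c * (s i t) + d = 0 := by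
    intro i
    have h1 := congrArg (s i) h
    simpa using h1
  have hs0 : ∀ i : Fin 3, s i t ≠ 0 := fun i => (map_ne_zero (s i)).2 ht0
  have h01 : s 0 t ≠ s 1 t := emb_ne hK hirr (s.injective.ne (by decide))
  have h02 : s 0 t ≠ s 2 t := emb_ne hK hirr (s.injective.ne (by decide))
  have h12 : s 1 t ≠ s 2 t := emb_ne hK hirr (s.injective.ne (by decide))
  obtain ⟨v1, v2, v3⟩ := vieta h01 h02 h12 (hroot 0) (hroot 1) (hroot 2)
  have na : ‖(a : ℂ)‖ ≤ T := by rw [Complex.norm_intCast]; exact ha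
  have nb : ‖(b : ℂ)‖ ≤ T := by rw [Complex.norm_intCast]; exact hb
  have nc : ‖(c : ℂ)‖ ≤ T := by rw [Complex.norm_intCast]; exact hc
  have nd : ‖(d : ℂ)‖ ≤ T := by rw [Complex.norm_intCast]; exact hd
  have hmax := prod_max_le na nb nc nd (hs0 0) (hs0 1) (hs0 2) (hroot 0) (hroot 1) (hroot 2) v3
  rw [Complex.norm_intCast] at hmax
  obtain ⟨P, hP⟩ := exists_isP ∅ hPt
  -- the norm of the denominator divides `a`
  have hnorm := W222.UABC.norm_mul hPt hP ht0 (Q := P 0) (fun v => by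
    have := hP.val 0 v (Finset.notMem_empty v)
    rwa [show L 0 t = t from rfl] at this)
  have hN : (a : ℚ) * Algebra.norm ℚ t = -d := by
    have h1 : (((a : ℚ) * Algebra.norm ℚ t : ℚ) : ℂ) = ((-d : ℚ) : ℂ) := by
      push_cast
      rw [norm_three_emb s t, ← v3]
    exact_mod_cast h1
  have hrel : (nn (P 1) : ℤ) * |d| = (nn (P 0) : ℤ) * |a| := by
    have h1 : (nn (P 1) : ℚ) * |(d : ℚ)| = (nn (P 0) : ℚ) * |(a : ℚ)| := by
      rw [← hnorm]
      have h2 : |(d : ℚ)| = |(a : ℚ)| * |Algebra.norm ℚ t| := by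
        rw [← abs_mul, hN, abs_neg]
      rw [h2]
      ring
    exact_mod_cast h1
  have hp0 : ∀ p : ℕ, p.Prime → p ∣ nn (P 0) → (p : ℤ) ∣ d := by
    intro p hp hpd
    obtain ⟨v, hv, hdv⟩ := exists_prime_dvd hp hpd
    refine dvd_of_mem hp ?_ hdv
    have h1 := fv_lt_of_ne hP hv
    rw [L_zero] at h1
    have h2 : fv v t < 1 := by
      by_contra hge
      push Not at hge
      rw [max_eq_left hge] at h1
      exact lt_irrefl _ h1
    have e : ((d : ℤ) : K) = t * (-((a : K) * t ^ 2 + b * t + c)) := by linear_combination h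
    have h3 : fv v (-((a : K) * t ^ 2 + b * t + c)) ≤ 1 := by
      rw [map_neg_eq_map]
      refine (fv_na v _ _).trans (max_le ((fv_na v _ _).trans (max_le ?_ ?_)) (fv_int_le v c))
      · rw [map_mul, map_pow]
        exact mul_le_one₀ (fv_int_le v a) (pow_nonneg (AbsoluteValue.nonneg _ _) _)
          (pow_le_one₀ (AbsoluteValue.nonneg _ _) h2.le)
      · rw [map_mul]
        exact mul_le_one₀ (fv_int_le v b) (AbsoluteValue.nonneg _ _) h2.le
    rw [e, map_mul]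
    calc fv v t * fv v (-((a : K) * t ^ 2 + b * t + c)) ≤ fv v t * 1 :=
          mul_le_mul_of_nonneg_left h3 (AbsoluteValue.nonneg _ _)
      _ < 1 := by rw [mul_one]; exact h2
  have hp1 : ∀ p : ℕ, p.Prime → p ∣ nn (P 1) → (p : ℤ) ∣ a := by
    intro p hp hpd
    obtain ⟨v, hv, hdv⟩ := exists_prime_dvd hp hpd
    refine dvd_of_mem hp ?_ hdv
    have h1 := fv_lt_of_ne hP hv
    rw [L_one, map_one] at h1
    have h2 : 1 < fv v t := by
      by_contra hge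
      push Not at hge
      rw [max_eq_right hge] at h1
      exact lt_irrefl _ h1
    have hti : fv v t⁻¹ < 1 := by
      rw [map_inv₀]
      exact inv_lt_one_of_one_lt₀ h2
    have e : ((a : ℤ) : K) = t⁻¹ * (-((b : K) + c * t⁻¹ + d * t⁻¹ ^ 2)) := by
      field_simp
      linear_combination h
    have h3 : fv v (-((b : K) + c * t⁻¹ + d * t⁻¹ ^ 2)) ≤ 1 := by
      rw [map_neg_eq_map]
      refine (fv_na v _ _).trans (max_le ((fv_na v _ _).trans (max_le (fv_int_le v b) ?_)) ?_)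
      · rw [map_mul]
        exact mul_le_one₀ (fv_int_le v c) (AbsoluteValue.nonneg _ _) hti.le
      · rw [map_mul, map_pow]
        exact mul_le_one₀ (fv_int_le v d) (pow_nonneg (AbsoluteValue.nonneg _ _) _)
          (pow_le_one₀ (AbsoluteValue.nonneg _ _) hti.le)
    rw [e, map_mul]
    calc fv v t⁻¹ * fv v (-((b : K) + c * t⁻¹ + d * t⁻¹ ^ 2)) ≤ fv v t⁻¹ * 1 :=
          mul_le_mul_of_nonneg_left h3 (AbsoluteValue.nonneg _ _)
      _ < 1 := by rw [mul_one]; exact hti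
  have hcop : Nat.Coprime (nn (P 1)) (nn (P 0)) := by
    rw [Nat.coprime_iff_gcd_eq_one]
    by_contra hne
    obtain ⟨p, hp, hpd⟩ := Nat.exists_prime_and_dvd hne
    have k0 := hp0 p hp (hpd.trans (Nat.gcd_dvd_right _ _))
    have k1 := hp1 p hp (hpd.trans (Nat.gcd_dvd_left _ _))
    obtain ⟨x, y, hxy⟩ := hco
    have h1 : (p : ℤ) ∣ 1 := by
      rw [← hxy]
      exact dvd_add (Dvd.dvd.mul_left k1 _) (Dvd.dvd.mul_left k0 _)
    have h2 : p ∣ 1 := by exact_mod_cast h1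
    exact hp.one_lt.ne' (Nat.dvd_one.1 h2)
  have hdvd : (nn (P 1) : ℤ) ∣ |a| := by
    have h1 : (nn (P 1) : ℤ) ∣ (nn (P 0) : ℤ) * |a| := ⟨|d|, hrel.symm⟩
    exact (Nat.isCoprime_iff_coprime.2 hcop).dvd_of_dvd_mul_left h1
  have hle : (nn (P 1) : ℝ) ≤ |(a : ℝ)| := by
    have := Int.le_of_dvd (abs_pos.2 ha0) hdvd
    exact_mod_cast this
  -- the archimedean part
  have hapos : 0 < |(a : ℝ)| := abs_pos.2 (by exact_mod_cast ha0)
  have hnpos : (0 : ℝ) < nn (P 1) := by exact_mod_cast nn_pos (P 1)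
  have hm : ∀ x : ℝ, 0 < max x 1 := fun x => lt_max_of_lt_right one_pos
  rw [ht_SF, ← len_P1 hPt hP, ← log_nn, sum_inf s (fun x => Real.log (max x 1)) t,
    ← Real.log_mul (hm _).ne' (hm _).ne', ← Real.log_mul (mul_pos (hm _) (hm _)).ne' (hm _).ne',
    ← Real.log_mul (mul_pos (mul_pos (hm _) (hm _)) (hm _)).ne' hnpos.ne']
  refine Real.log_le_log (mul_pos (mul_pos (mul_pos (hm _) (hm _)) (hm _)) hnpos) ?_
  calc max ‖s 0 t‖ 1 * max ‖s 1 t‖ 1 * max ‖s 2 t‖ 1 * (nn (P 1) : ℝ) ≤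
        max ‖s 0 t‖ 1 * max ‖s 1 t‖ 1 * max ‖s 2 t‖ 1 * |(a : ℝ)| := by
        refine mul_le_mul_of_nonneg_left hle ?_
        exact (mul_pos (mul_pos (hm _) (hm _)) (hm _)).le
    _ = |(a : ℝ)| * (max ‖s 0 t‖ 1 * max ‖s 1 t‖ 1 * max ‖s 2 t‖ 1) := by ring
    _ ≤ 3 * T := hmax

/-- the height of the triple -/
theorem height_le3 {K : Type} [Field K] [NumberField K] (hK : Module.finrank ℚ K = 3) {x : K}
    (h1 : x ≠ 1) :
    3 * W222.UABC.height ![x, 1 - x, -1] ≤ ht (x / (1 - x)) + 3 * Real.log 2 := by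
  have h1' : (1 : K) - x ≠ 0 := sub_ne_zero.2 h1.symm
  set a : Fin 3 → K := ![x, 1 - x, -1] with ha
  have ha0 : a 0 = x := rfl
  have ha1 : a 1 = 1 - x := rfl
  have ha2 : a 2 = -1 := rfl
  have hs : a 0 + a 1 + a 2 = 0 := by rw [ha0, ha1, ha2]; ring
  have hb := (H3_bounds (x := a) (by rw [ha1]; exact h1') hs).2
  have hl : lossK K = 3 * Real.log 2 := by
    unfold lossK
    rw [← Finset.sum_mul]
    congr 1
    have := InfinitePlace.sum_mult_eq (K := K)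
    rw [hK] at this
    exact_mod_cast this
  rw [hl, ← H3_height, hK, ha0, ha1] at hb
  push_cast at hb
  exact hb

/-- no rational root -/
theorem int_no_root3 {a b c d p q : ℤ} (ha : a % 2 = 1) (hb : b % 2 = 0) (hc : c % 2 = 0)
    (hd : d % 4 = 2) (h : a * p ^ 3 + b * (p ^ 2 * q) + c * (p * q ^ 2) + d * q ^ 3 = 0) :
    2 ∣ p ∧ 2 ∣ q := by
  obtain ⟨b', rfl⟩ : ∃ b', b = 2 * b' := ⟨b / 2, by omega⟩
  obtain ⟨c', rfl⟩ : ∃ c', c = 2 * c' := ⟨c / 2, by omega⟩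
  obtain ⟨d', rfl⟩ : ∃ d', d = 4 * d' + 2 := ⟨d / 4, by omega⟩
  have hp : 2 ∣ p := by
    have h1 : (2 : ℤ) ∣ a * p ^ 3 :=
      ⟨-(b' * (p ^ 2 * q) + c' * (p * q ^ 2) + (2 * d' + 1) * q ^ 3), by linarith⟩
    rcases Int.prime_two.dvd_or_dvd h1 with h2 | h2
    · omega
    · exact Int.prime_two.dvd_of_dvd_pow h2
  obtain ⟨p', rfl⟩ := hp
  refine ⟨⟨p', rfl⟩, ?_⟩
  have h1 : (2 : ℤ) ∣ q ^ 3 :=
    ⟨-(2 * a * p' ^ 3 + 2 * b' * (p' ^ 2 * q) + c' * (p' * q ^ 2) + d' * q ^ 3), by linarith⟩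
  exact Int.prime_two.dvd_of_dvd_pow h1

theorem rat_no_root3 {a b c d : ℤ} (ha : a % 2 = 1) (hb : b % 2 = 0) (hc : c % 2 = 0)
    (hd : d % 4 = 2) (q : ℚ) :
    (a : ℚ) * q ^ 3 + (b : ℚ) * q ^ 2 + (c : ℚ) * q + (d : ℚ) ≠ 0 := by
  intro h
  have hdn : (q.den : ℚ) ≠ 0 := by exact_mod_cast q.den_nz
  have h3 : (q.num : ℚ) = q * (q.den : ℚ) := (Rat.mul_den_eq_num q).symm
  have h2 : (a : ℚ) * (q.num : ℚ) ^ 3 + (b : ℚ) * ((q.num : ℚ) ^ 2 * (q.den : ℚ))
      + (c : ℚ) * ((q.num : ℚ) * (q.den : ℚ) ^ 2) + (d : ℚ) * (q.den : ℚ) ^ 3 = 0 := by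
    rw [h3]
    linear_combination (q.den : ℚ) ^ 3 * h
  have h5 : a * q.num ^ 3 + b * (q.num ^ 2 * (q.den : ℤ)) + c * (q.num * (q.den : ℤ) ^ 2) +
      d * (q.den : ℤ) ^ 3 = 0 := by
    exact_mod_cast h2
  obtain ⟨h6, h7⟩ := int_no_root3 ha hb hc hd h5
  have h8 : Nat.Coprime q.num.natAbs q.den := q.reduced
  have h9 : 2 ∣ q.num.natAbs := by omega
  have h10 : 2 ∣ q.den := by omega
  have h11 := Nat.dvd_gcd h9 h10
  rw [h8] at h11
  omega

open Polynomial in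
theorem root3 {a b c d : ℤ} (ha : a % 2 = 1) (hb : b % 2 = 0) (hc : c % 2 = 0)
    (hd : d % 4 = 2) : ∃ (K : IntermediateField ℚ (AlgebraicClosure ℚ)) (_ : NumberField K) (x : K),
      Module.finrank ℚ K = 3 ∧ (∀ q : ℚ, x ≠ algebraMap ℚ K q) ∧
        (a : K) * x ^ 3 + b * x ^ 2 + c * x + d = 0 := by
  have ha0' : a ≠ 0 := by rintro rfl; simp at ha
  have ha0 : (a : ℚ) ≠ 0 := by exact_mod_cast ha0'
  set f : ℚ[X] := C (a : ℚ) * X ^ 3 + C (b : ℚ) * X ^ 2 + C (c : ℚ) * X + C (d : ℚ) with hf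
  have hdeg : f.natDegree = 3 := natDegree_cubic ha0
  have hev : ∀ q : ℚ, ¬ f.IsRoot q := by
    intro q hq
    have h1 : f.eval q = 0 := hq
    rw [hf] at h1
    simp only [eval_add, eval_mul, eval_C, eval_pow, eval_X] at h1
    exact rat_no_root3 ha hb hc hd q h1
  have hirr : Irreducible f :=
    irreducible_of_degree_le_three_of_not_isRoot (by rw [hdeg]; decide) hev
  obtain ⟨x, hx⟩ := IsAlgClosed.exists_aeval_eq_zero (AlgebraicClosure ℚ) f (by
    rw [degree_eq_natDegree hirr.ne_zero, hdeg]; norm_num)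
  have hint : IsIntegral ℚ x := isAlgebraic_iff_isIntegral.mp ⟨f, hirr.ne_zero, hx⟩
  have hmin : (minpoly ℚ x).natDegree = 3 := by
    rw [← minpoly.eq_of_irreducible hirr hx, natDegree_mul_C, hdeg]
    exact inv_ne_zero (leadingCoeff_ne_zero.mpr hirr.ne_zero)
  have hfin : FiniteDimensional ℚ (IntermediateField.adjoin ℚ {x}) :=
    IntermediateField.adjoin.finiteDimensional hint
  have hrank : Module.finrank ℚ (IntermediateField.adjoin ℚ {x}) = 3 := by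
    rw [IntermediateField.adjoin.finrank hint, hmin]
  have hNF : NumberField (IntermediateField.adjoin ℚ {x}) := ⟨⟩
  set K := IntermediateField.adjoin ℚ {x} with hK
  set g : K := IntermediateField.AdjoinSimple.gen ℚ x with hg
  have hxf : (a : AlgebraicClosure ℚ) * x ^ 3 + (b : AlgebraicClosure ℚ) * x ^ 2
      + (c : AlgebraicClosure ℚ) * x + (d : AlgebraicClosure ℚ) = 0 := by
    rw [hf] at hx
    simpa using hx
  have hgf : (a : K) * g ^ 3 + (b : K) * g ^ 2 + (c : K) * g + (d : K) = 0 := by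
    apply Subtype.ext
    have h1 : ((g : K) : AlgebraicClosure ℚ) = x := IntermediateField.AdjoinSimple.coe_gen ℚ x
    push_cast
    rw [h1]
    exact hxf
  have hgq : ∀ q : ℚ, g ≠ algebraMap ℚ K q := by
    intro q hq
    rw [hq] at hgf
    have h1 : algebraMap ℚ K ((a : ℚ) * q ^ 3 + (b : ℚ) * q ^ 2 + (c : ℚ) * q + (d : ℚ)) = 0 := by
      rw [map_add, map_add, map_add, map_mul, map_mul, map_mul, map_pow, map_pow, map_intCast,
        map_intCast, map_intCast, map_intCast]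
      exact hgf
    exact rat_no_root3 ha hb hc hd q ((map_eq_zero _).mp h1)
  exact ⟨K, hNF, g, hrank, hgq, hgf⟩

end Pool.Agent.H88.CP
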