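import Mathlib

/-!
# Algorithms and data structures with random labels: the model

`G` is the finite group, `L` the set of the labels, `W` the set of the unknown inputs, `F` the set of
the forms; a form `f` has the value `ev f w` in `G` for the input `w`; `cst x` is the constant form.
-/

set_option autoImplicit false

namespace Pool.Agent.H88.GA

/-- One step: the algorithm asks for the label of the value of a form of the input (`eval f`), or for
the element behind the label `l` (`inv l`). -/
inductive Step (F L : Type) : Type
  | eval (f : F)
  | inv (l : L)

/-- An algorithm.  The next step and the output are arbitrary functions of all pairs (form, label)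
which have been learnt so far. -/
structure Alg (F L : Type) where
  next : List (F × L) → Step F L
  out : List (F × L) → Bool

/-- The forms: `ev f w` is the value of the form `f` for the input `w`, `cst x` is the constant form
with the value `x`, and `init` are the forms whose labels are given at the beginning. -/
structure Sys (F W G : Type) where
  ev : F → W → G
  cst : G → F
  ev_cst : ∀ x w, ev (cst x) w = x
  init : List F

section

variable {F W G L : Type}

open Classical in
/-- What is known after a step, if `h` was known before.  A label `l` can be decoded only if it has not
been obtained during the computation (the elements behind the labels obtained are known as forms of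
the input only); otherwise nothing new is learnt. -/
noncomputable def reply (M : Sys F W G) (σ : G ≃ L) (w : W) (h : List (F × L)) :
    Step F L → List (F × L)
  | .eval f => (f, σ (M.ev f w)) :: h
  | .inv l => if l ∈ h.map Prod.snd then h else (M.cst (σ.symm l), l) :: h

/-- The pairs (form, label) which are known after `t` steps on the input `w` (latest first). -/
noncomputable def trans (M : Sys F W G) (A : Alg F L) (σ : G ≃ L) (w : W) : ℕ → List (F × L)
  | 0 => M.init.map fun f => (f, σ (M.ev f w))
  | t + 1 => reply M σ w (trans M A σ w t) (A.next (trans M A σ w t))

/-- The answer after `t` steps. -/
noncomputable def answer (M : Sys F W G) (A : Alg F L) (t : ℕ) (σ : G ≃ L) (w : W) : Bool :=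
  A.out (trans M A σ w t)

/-- An algorithm with advice: `memory σ`, one of `m` values, may depend in any way on the encoding
`σ`; `alg` is the algorithm, which knows the advice. -/
structure DS (F G L : Type) (m : ℕ) where
  memory : (G ≃ L) → Fin m
  alg : Fin m → Alg F L

/-- The answer after `t` steps. -/
noncomputable def DS.answer {m : ℕ} (M : Sys F W G) (D : DS F G L m) (t : ℕ) (σ : G ≃ L)
    (w : W) : Bool :=
  GA.answer M (D.alg (D.memory σ)) t σ w

end

end Pool.Agent.H88.GA
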