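import Mathlib
import Pool.Agent.H88.GAModel

set_option autoImplicit false
set_option linter.unusedSectionVars false

namespace Pool.Agent.H88.GA

open Classical

variable {F W G L : Type} [Fintype G] [Fintype L] (M : Sys F W G)

/-- the encodings which extend a finite set of pairs -/
noncomputable def ext (P : Finset (G × L)) : Finset (G ≃ L) :=
  Finset.univ.filter fun σ => ∀ e ∈ P, σ e.1 = e.2

theorem mem_ext {P : Finset (G × L)} {σ : G ≃ L} : σ ∈ ext P ↔ ∀ e ∈ P, σ e.1 = e.2 := by
  simp [ext]

/-- the pairs (element, label) of a transcript, if the input is `w` -/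
noncomputable def prs (w : W) (τ : List (F × L)) : Finset (G × L) :=
  (τ.map fun e => (M.ev e.1 w, e.2)).toFinset

theorem prs_card (w : W) (τ : List (F × L)) : (prs M w τ).card ≤ τ.length := by
  unfold prs
  exact (List.toFinset_card_le _).trans (by simp)

theorem mem_ext_prs {w : W} {τ : List (F × L)} {σ : G ≃ L} :
    σ ∈ ext (prs M w τ) ↔ ∀ e ∈ τ, σ (M.ev e.1 w) = e.2 := by
  rw [mem_ext]
  unfold prs
  constructor
  · intro h e he
    exact h (M.ev e.1 w, e.2) (by
      rw [List.mem_toFinset, List.mem_map]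
      exact ⟨e, he, rfl⟩)
  · intro h e he
    rw [List.mem_toFinset, List.mem_map] at he
    obtain ⟨e', he', rfl⟩ := he
    exact h e' he'

theorem mem_ext_union {P Q : Finset (G × L)} {σ : G ≃ L} :
    σ ∈ ext (P ∪ Q) ↔ σ ∈ ext P ∧ σ ∈ ext Q := by
  simp only [mem_ext, Finset.mem_union]
  constructor
  · intro h
    exact ⟨fun e he => h e (Or.inl he), fun e he => h e (Or.inr he)⟩
  · rintro ⟨h1, h2⟩ e (he | he)
    · exact h1 e he
    · exact h2 e he

/-- `τ` is a possible transcript after `t` steps -/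
def Valid (A : Alg F L) : ℕ → List (F × L) → Prop
  | 0, τ => τ.map Prod.fst = M.init
  | t + 1, τ => (∃ f l τ', τ = (f, l) :: τ' ∧ Valid A t τ' ∧ A.next τ' = .eval f) ∨
      (∃ x l τ', τ = (M.cst x, l) :: τ' ∧ Valid A t τ' ∧ A.next τ' = .inv l ∧
        l ∉ τ'.map Prod.snd) ∨
      (∃ l, Valid A t τ ∧ A.next τ = .inv l ∧ l ∈ τ.map Prod.snd)

theorem trans_length (A : Alg F L) (σ : G ≃ L) (w : W) (t : ℕ) :
    (trans M A σ w t).length ≤ M.init.length + t := by
  induction t with
  | zero => simp [trans]
  | succ t ih =>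
    rw [trans]
    cases hn : A.next (trans M A σ w t) with
    | eval f =>
      simp only [reply, List.length_cons]
      omega
    | inv l =>
      simp only [reply]
      split_ifs
      · omega
      · simp only [List.length_cons]
        omega

theorem trans_iff (A : Alg F L) (σ : G ≃ L) (w : W) (t : ℕ) (τ : List (F × L)) :
    trans M A σ w t = τ ↔ Valid M A t τ ∧ ∀ e ∈ τ, σ (M.ev e.1 w) = e.2 := by
  induction t generalizing τ with
  | zero =>
    constructor
    · rintro rfl
      refine ⟨?_, ?_⟩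
      · simp only [Valid, trans, List.map_map]
        exact List.map_id M.init
      · intro e he
        simp only [trans, List.mem_map] at he
        obtain ⟨f, -, rfl⟩ := he
        rfl
    · rintro ⟨h1, h2⟩
      simp only [Valid] at h1
      rw [trans, ← h1, List.map_map]
      conv_rhs => rw [← List.map_id τ]
      refine List.map_congr_left fun e he => ?_
      simp only [Function.comp, id]
      rw [h2 e he]
  | succ t ih =>
    constructor
    · rintro rfl
      obtain ⟨h1, h2⟩ := (ih (trans M A σ w t)).1 rfl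
      have h3 : trans M A σ w (t + 1) =
        reply M σ w (trans M A σ w t) (A.next (trans M A σ w t)) := rfl
      cases hn : A.next (trans M A σ w t) with
      | eval f =>
        rw [hn] at h3
        simp only [reply] at h3
        rw [h3]
        refine ⟨Or.inl ⟨f, _, _, rfl, h1, hn⟩, ?_⟩
        intro e he
        rw [List.mem_cons] at he
        rcases he with rfl | he
        · rfl
        · exact h2 e he
      | inv l =>
        rw [hn] at h3
        simp only [reply] at h3
        by_cases hl : l ∈ (trans M A σ w t).map Prod.snd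
        · rw [if_pos hl] at h3
          rw [h3]
          exact ⟨Or.inr (Or.inr ⟨l, h1, hn, hl⟩), h2⟩
        · rw [if_neg hl] at h3
          rw [h3]
          refine ⟨Or.inr (Or.inl ⟨_, l, _, rfl, h1, hn, hl⟩), ?_⟩
          intro e he
          rw [List.mem_cons] at he
          rcases he with rfl | he
          · simp only [M.ev_cst, Equiv.apply_symm_apply]
          · exact h2 e he
    · rintro ⟨h, h2⟩
      rcases h with ⟨f, l, τ', rfl, hv, hn⟩ | ⟨x, l, τ', rfl, hv, hn, hl⟩ | ⟨l, hv, hn, hl⟩
      · have e1 : trans M A σ w t = τ' := (ih τ').2 ⟨hv, fun e he => h2 e (List.mem_cons_of_mem _ he)⟩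
        have e2 := h2 (f, l) List.mem_cons_self
        rw [trans, e1, hn]
        simp only [reply]
        rw [e2]
      · have e1 : trans M A σ w t = τ' := (ih τ').2 ⟨hv, fun e he => h2 e (List.mem_cons_of_mem _ he)⟩
        have e2 := h2 (M.cst x, l) List.mem_cons_self
        simp only [M.ev_cst] at e2
        rw [trans, e1, hn]
        simp only [reply]
        rw [if_neg hl, ← e2, Equiv.symm_apply_apply]
      · have e1 : trans M A σ w t = τ := (ih τ).2 ⟨hv, h2⟩
        rw [trans, e1, hn]
        simp only [reply]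
        rw [if_pos hl]

/-- `w` is good for the transcript `τ` if no two different forms of `τ` take the same value at `w`,
and no form of `τ` takes a value in the domain of `P`, except for the constant form. -/
def Good (P : Finset (G × L)) (w : W) (τ : List (F × L)) : Prop :=
  (∀ e ∈ τ, ∀ e' ∈ τ, M.ev e.1 w = M.ev e'.1 w → e.1 = e'.1) ∧
    ∀ e ∈ τ, ∀ d ∈ P, M.ev e.1 w = d.1 → e.1 = M.cst d.1

variable {M}

theorem Good.tail {P : Finset (G × L)} {w : W} {e : F × L} {τ : List (F × L)}
    (h : Good M P w (e :: τ)) : Good M P w τ :=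
  ⟨fun a ha b hb => h.1 a (List.mem_cons_of_mem _ ha) b (List.mem_cons_of_mem _ hb),
    fun a ha => h.2 a (List.mem_cons_of_mem _ ha)⟩

/-- a permutation which maps one family to another one -/
theorem exists_perm {ι : Type} (f g : ι → G) (h : ∀ i j, f i = f j ↔ g i = g j) :
    ∃ ρ : Equiv.Perm G, ∀ i, ρ (f i) = g i := by
  let F : {x // x ∈ Set.range f} → {x // x ∈ Set.range g} := fun x => ⟨g x.2.choose, ⟨_, rfl⟩⟩
  have hF : ∀ i, F ⟨f i, ⟨i, rfl⟩⟩ = ⟨g i, ⟨i, rfl⟩⟩ := by
    intro i
    apply Subtype.ext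
    have h1 : f (Exists.choose (⟨i, rfl⟩ : f i ∈ Set.range f)) = f i :=
      (⟨i, rfl⟩ : f i ∈ Set.range f).choose_spec
    exact (h _ _).1 h1
  have hbij : Function.Bijective F := by
    constructor
    · rintro ⟨x, i, rfl⟩ ⟨y, j, rfl⟩ hxy
      rw [hF, hF] at hxy
      have := congrArg Subtype.val hxy
      exact Subtype.ext ((h i j).2 this)
    · rintro ⟨y, i, rfl⟩
      exact ⟨⟨f i, ⟨i, rfl⟩⟩, hF i⟩
  let e : {x // x ∈ Set.range f} ≃ {x // x ∈ Set.range g} := Equiv.ofBijective F hbij
  refine ⟨e.extendSubtype, fun i => ?_⟩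
  rw [Equiv.extendSubtype_apply_of_mem e (f i) ⟨i, rfl⟩]
  exact congrArg Subtype.val (hF i)

theorem card_le_of_good {P : Finset (G × L)} {z z' : W} {τ : List (F × L)}
    (h : Good M P z τ) (h' : Good M P z' τ) :
    (ext (P ∪ prs M z τ)).card ≤ (ext (P ∪ prs M z' τ)).card := by
  let f : (↥P ⊕ {e // e ∈ τ}) → G := Sum.elim (fun d => d.1.1) (fun e => M.ev e.1.1 z)
  let g : (↥P ⊕ {e // e ∈ τ}) → G := Sum.elim (fun d => d.1.1) (fun e => M.ev e.1.1 z')
  have hfg : ∀ i j, f i = f j ↔ g i = g j := by
    rintro (d | e) (d' | e')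
    · rfl
    · simp only [f, g, Sum.elim_inl, Sum.elim_inr]
      constructor
      · intro hh
        rw [h.2 e'.1 e'.2 d.1 d.2 hh.symm, M.ev_cst]
      · intro hh
        rw [h'.2 e'.1 e'.2 d.1 d.2 hh.symm, M.ev_cst]
    · simp only [f, g, Sum.elim_inl, Sum.elim_inr]
      constructor
      · intro hh
        rw [h.2 e.1 e.2 d'.1 d'.2 hh, M.ev_cst]
      · intro hh
        rw [h'.2 e.1 e.2 d'.1 d'.2 hh, M.ev_cst]
    · simp only [f, g, Sum.elim_inr]
      constructor
      · intro hh
        rw [h.1 e.1 e.2 e'.1 e'.2 hh]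
      · intro hh
        rw [h'.1 e.1 e.2 e'.1 e'.2 hh]
  obtain ⟨ρ, hρ⟩ := exists_perm f g hfg
  refine Finset.card_le_card_of_injOn (fun σ => ρ.symm.trans σ) ?_ ?_
  · intro σ hσ
    rw [Finset.mem_coe] at hσ ⊢
    rw [mem_ext_union, mem_ext_prs, mem_ext] at hσ ⊢
    constructor
    · intro d hd
      have := hρ (Sum.inl ⟨d, hd⟩)
      simp only [f, g, Sum.elim_inl] at this
      have h2 : ρ.symm d.1 = d.1 := by
        rw [Equiv.symm_apply_eq, this]
      simp only [Equiv.trans_apply, h2]
      exact hσ.1 d hd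
    · intro e he
      have := hρ (Sum.inr ⟨e, he⟩)
      simp only [f, g, Sum.elim_inr] at this
      have h2 : ρ.symm (M.ev e.1 z') = M.ev e.1 z := by
        rw [Equiv.symm_apply_eq, this]
      simp only [Equiv.trans_apply, h2]
      exact hσ.2 e he
  · intro σ _ σ' _ hh
    simp only at hh
    have : ρ.trans (ρ.symm.trans σ) = ρ.trans (ρ.symm.trans σ') := by rw [hh]
    rwa [← Equiv.trans_assoc, ← Equiv.trans_assoc, Equiv.self_trans_symm, Equiv.refl_trans,
      Equiv.refl_trans] at this

theorem card_eq_of_good {P : Finset (G × L)} {z z' : W} {τ : List (F × L)}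
    (h : Good M P z τ) (h' : Good M P z' τ) :
    (ext (P ∪ prs M z τ)).card = (ext (P ∪ prs M z' τ)).card :=
  le_antisymm (card_le_of_good h h') (card_le_of_good h' h)

end Pool.Agent.H88.GA
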