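import Mathlib
import Pool.Agent.H88.GACore

set_option autoImplicit false
set_option linter.unusedSectionVars false

namespace Pool.Agent.H88.GA

open Classical

variable {F W G L : Type} [Fintype W] [Fintype G] [Fintype L] {M : Sys F W G}

/-- all transcripts -/
noncomputable def VV (M : Sys F W G) (A : Alg F L) (t : ℕ) : Finset (List (F × L)) :=
  (Finset.univ : Finset ((G ≃ L) × W)).image fun p => trans M A p.1 p.2 t

theorem valid_of_mem {A : Alg F L} {t : ℕ} {τ : List (F × L)} (h : τ ∈ VV M A t) :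
    Valid M A t τ ∧ τ.length ≤ M.init.length + t := by
  unfold VV at h
  rw [Finset.mem_image] at h
  obtain ⟨p, -, rfl⟩ := h
  exact ⟨((trans_iff M A p.1 p.2 t _).1 rfl).1, trans_length M A p.1 p.2 t⟩

theorem filter_trans {A : Alg F L} {t : ℕ} {τ : List (F × L)} (h : Valid M A t τ)
    (P : Finset (G × L)) (z : W) :
    (ext P).filter (fun σ => trans M A σ z t = τ) = ext (P ∪ prs M z τ) := by
  ext σ
  rw [Finset.mem_filter, mem_ext_union, mem_ext_prs, trans_iff]
  constructor
  · rintro ⟨h1, -, h3⟩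
    exact ⟨h1, h3⟩
  · rintro ⟨h1, h3⟩
    exact ⟨h1, h, h3⟩

/-- sums over the encodings as sums over the transcripts -/
theorem sum_trans' (A : Alg F L) (P : Finset (G × L)) (z : W) (t : ℕ)
    (f : List (F × L) → ℝ) (g : (G ≃ L) → ℝ) :
    ∑ σ ∈ ext P, f (trans M A σ z t) * g σ =
      ∑ τ ∈ VV M A t, f τ * ∑ σ ∈ ext (P ∪ prs M z τ), g σ := by
  have hmaps : ∀ σ ∈ ext P, trans M A σ z t ∈ VV M A t := by
    intro σ _
    unfold VV
    rw [Finset.mem_image]
    exact ⟨(σ, z), Finset.mem_univ _, rfl⟩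
  rw [← Finset.sum_fiberwise_of_maps_to hmaps]
  refine Finset.sum_congr rfl fun τ hτ => ?_
  rw [filter_trans (valid_of_mem hτ).1 P z |>.symm, Finset.mul_sum]
  refine Finset.sum_congr rfl fun σ hσ => ?_
  rw [(Finset.mem_filter.1 hσ).2]

theorem sum_trans (A : Alg F L) (P : Finset (G × L)) (z : W) (t : ℕ)
    (f : List (F × L) → ℝ) :
    ∑ σ ∈ ext P, f (trans M A σ z t) =
      ∑ τ ∈ VV M A t, f τ * ((ext (P ∪ prs M z τ)).card : ℝ) := by
  have := sum_trans' A P z t f (fun _ => 1) (M := M)
  simpa using this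

/-- a good input has no more extensions than an average input of the family `R` -/
theorem star {κ : Type} {ψ : κ → W} {P : Finset (G × L)} {R : Finset κ} {b : ℝ}
    {τ : List (F × L)} {z : W}
    (hb : (((R.filter fun j => ¬ Good M P (ψ j) τ).card : ℕ) : ℝ) ≤ b) (hz : Good M P z τ) :
    ((R.card : ℝ) - b) * ((ext (P ∪ prs M z τ)).card : ℝ) ≤
      ∑ j ∈ R, ((ext (P ∪ prs M (ψ j) τ)).card : ℝ) := by
  have h1 : ∑ j ∈ R.filter (fun j => Good M P (ψ j) τ), ((ext (P ∪ prs M (ψ j) τ)).card : ℝ) ≤
      ∑ j ∈ R, ((ext (P ∪ prs M (ψ j) τ)).card : ℝ) :=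
    Finset.sum_le_sum_of_subset_of_nonneg (Finset.filter_subset _ _) fun _ _ _ => by positivity
  have h2 : ∑ j ∈ R.filter (fun j => Good M P (ψ j) τ), ((ext (P ∪ prs M (ψ j) τ)).card : ℝ) =
      ((R.filter (fun j => Good M P (ψ j) τ)).card : ℝ) *
        ((ext (P ∪ prs M z τ)).card : ℝ) := by
    rw [Finset.sum_congr rfl (g := fun _ => ((ext (P ∪ prs M z τ)).card : ℝ)), Finset.sum_const,
      nsmul_eq_mul]
    intro z' hz'
    rw [card_eq_of_good (Finset.mem_filter.1 hz').2 hz]
  have h3 : (R.card : ℝ) - b ≤ ((R.filter (fun j => Good M P (ψ j) τ)).card : ℝ) := by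
    have : (R.filter (fun j => Good M P (ψ j) τ)).card +
        (R.filter (fun j => ¬ Good M P (ψ j) τ)).card =
        R.card := Finset.card_filter_add_card_filter_not _
    have h4 : ((R.filter (fun j => Good M P (ψ j) τ)).card : ℝ) +
        ((R.filter (fun j => ¬ Good M P (ψ j) τ)).card : ℝ) = (R.card : ℝ) := by
      exact_mod_cast this
    linarith
  calc ((R.card : ℝ) - b) * ((ext (P ∪ prs M z τ)).card : ℝ)
      ≤ ((R.filter (fun j => Good M P (ψ j) τ)).card : ℝ) *
          ((ext (P ∪ prs M z τ)).card : ℝ) := by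
        gcongr
    _ ≤ _ := by rw [← h2]; exact h1

/-- the next form of the algorithm collides at `z` -/
def Coll (A : Alg F L) (P : Finset (G × L)) (M : Sys F W G) (z : W) (τ : List (F × L)) : Prop :=
  ∃ f, A.next τ = .eval f ∧ ((∃ e ∈ τ, M.ev e.1 z = M.ev f z ∧ e.1 ≠ f) ∨
    ∃ d ∈ P, M.ev f z = d.1 ∧ f ≠ M.cst d.1)

theorem coll_of {A : Alg F L} {P : Finset (G × L)} {σ : G ≃ L} {z : W} {t : ℕ}
    (h1 : Good M P z (trans M A σ z t)) (h2 : ¬ Good M P z (trans M A σ z (t + 1))) :
    Coll A P M z (trans M A σ z t) := by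
  by_contra hc
  apply h2
  set τ := trans M A σ z t with hτ
  have hcons : ∀ e ∈ τ, σ (M.ev e.1 z) = e.2 := ((trans_iff M A σ z t τ).1 rfl).2
  -- a new entry `e` is harmless if it collides only with equal forms
  have key : ∀ e : F × L, (∀ a ∈ τ, M.ev a.1 z = M.ev e.1 z → a.1 = e.1) →
      (∀ d ∈ P, M.ev e.1 z = d.1 → e.1 = M.cst d.1) → Good M P z (e :: τ) := by
    intro e h3 h4
    constructor
    · intro a ha a' ha' haa
      rw [List.mem_cons] at ha ha'
      rcases ha with rfl | ha <;> rcases ha' with rfl | ha'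
      · rfl
      · exact (h3 a' ha' haa.symm).symm
      · exact h3 a ha haa
      · exact h1.1 a ha a' ha' haa
    · intro a ha d hd hda
      rw [List.mem_cons] at ha
      rcases ha with rfl | ha
      · exact h4 d hd hda
      · exact h1.2 a ha d hd hda
  change Good M P z (reply M σ z τ (A.next τ))
  cases hn : A.next τ with
  | eval f =>
    simp only [reply]
    apply key
    · intro a ha haa
      by_contra hne
      exact hc ⟨f, hn, Or.inl ⟨a, ha, haa, hne⟩⟩
    · intro d hd hda
      by_contra hne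
      exact hc ⟨f, hn, Or.inr ⟨d, hd, hda, hne⟩⟩
  | inv l =>
    simp only [reply]
    by_cases hl : l ∈ τ.map Prod.snd
    · rw [if_pos hl]
      exact h1
    · rw [if_neg hl]
      apply key
      · intro a ha haa
        exfalso
        apply hl
        rw [List.mem_map]
        refine ⟨a, ha, ?_⟩
        simp only [M.ev_cst] at haa
        rw [← hcons a ha, haa, Equiv.apply_symm_apply]
      · intro d hd hda
        simp only [M.ev_cst] at hda
        simp only [hda]

theorem not_good_of_coll {A : Alg F L} {P : Finset (G × L)} {σ : G ≃ L} {z z' : W} {t : ℕ}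
    (h : Coll A P M z (trans M A σ z' t)) : ¬ Good M P z (trans M A σ z' (t + 1)) := by
  intro hg
  obtain ⟨f, hf, h1⟩ := h
  change Good M P z (reply M σ z' _ (A.next (trans M A σ z' t))) at hg
  rw [hf] at hg
  simp only [reply] at hg
  rcases h1 with ⟨e, he, h2, h3⟩ | ⟨d, hd, h2, h3⟩
  · exact h3 (hg.1 e (List.mem_cons_of_mem _ he) (f, σ (M.ev f z')) (List.mem_cons_self) h2)
  · exact h3 (hg.2 (f, σ (M.ev f z')) (List.mem_cons_self) d hd h2)

theorem good_of_succ {A : Alg F L} {P : Finset (G × L)} {σ : G ≃ L} {z z' : W} {t : ℕ}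
    (h : Good M P z (trans M A σ z' (t + 1))) : Good M P z (trans M A σ z' t) := by
  change Good M P z (reply M σ z' _ (A.next (trans M A σ z' t))) at h
  cases hn : A.next (trans M A σ z' t) with
  | eval f =>
    rw [hn] at h
    simp only [reply] at h
    exact h.tail
  | inv l =>
    rw [hn] at h
    simp only [reply] at h
    by_cases hl : l ∈ (trans M A σ z' t).map Prod.snd
    · rwa [if_pos hl] at h
    · rw [if_neg hl] at h
      exact h.tail

/-- the indicator of a proposition -/
noncomputable def ind (p : Prop) : ℝ := if p then 1 else 0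

theorem ind_nonneg (p : Prop) : 0 ≤ ind p := by unfold ind; split_ifs <;> norm_num

theorem ind_le_one (p : Prop) : ind p ≤ 1 := by unfold ind; split_ifs <;> norm_num

theorem ind_true {p : Prop} (h : p) : ind p = 1 := if_pos h

theorem ind_false {p : Prop} (h : ¬ p) : ind p = 0 := if_neg h

theorem sum_ind {α : Type} (s : Finset α) (p : α → Prop) :
    ∑ a ∈ s, ind (p a) = ((s.filter p).card : ℝ) := by
  unfold ind
  rw [Finset.sum_ite]
  simp

theorem bad_bound {κ : Type} (ψ : κ → W) (A : Alg F L) (P : Finset (G × L)) (R : Finset κ)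
    (T : ℕ) (b : ℝ) (hR : 0 < R.card)
    (hb : ∀ τ : List (F × L), τ.length ≤ M.init.length + T →
      (((R.filter fun j => ¬ Good M P (ψ j) τ).card : ℕ) : ℝ) ≤ b)
    (hb2 : 2 * b ≤ R.card) (z : W) (t : ℕ) (ht : t ≤ T) :
    ∑ σ ∈ ext P, ind (¬ Good M P z (trans M A σ z t)) ≤
      2 / (R.card : ℝ) * ∑ j ∈ R, ∑ σ ∈ ext P, ind (¬ Good M P z (trans M A σ (ψ j) t)) := by
  have hR' : (0 : ℝ) < R.card := by exact_mod_cast hR
  induction t with
  | zero =>
    have h1 : ∀ (σ : G ≃ L) (z' : W), Good M P z (trans M A σ z' 0) ↔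
        Good M P z (trans M A σ z 0) := by
      intro σ z'
      simp only [trans, Good, List.mem_map, forall_exists_index, and_imp,
        forall_apply_eq_imp_iff₂]
    have h2 : ∀ j ∈ R, ∑ σ ∈ ext P, ind (¬ Good M P z (trans M A σ (ψ j) 0)) =
        ∑ σ ∈ ext P, ind (¬ Good M P z (trans M A σ z 0)) := by
      intro z' _
      refine Finset.sum_congr rfl fun σ _ => ?_
      rw [h1 σ (ψ z')]
    rw [Finset.sum_congr rfl h2, Finset.sum_const, nsmul_eq_mul]
    have h3 : 0 ≤ ∑ σ ∈ ext P, ind (¬ Good M P z (trans M A σ z 0)) :=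
      Finset.sum_nonneg fun _ _ => ind_nonneg _
    have h4 : 2 / (R.card : ℝ) *
        ((R.card : ℝ) * ∑ σ ∈ ext P, ind (¬ Good M P z (trans M A σ z 0))) =
        2 * ∑ σ ∈ ext P, ind (¬ Good M P z (trans M A σ z 0)) := by
      field_simp
    rw [h4]
    linarith
  | succ t ih =>
    have ih' := ih (by omega)
    -- the new bad encodings
    have h1 : ∑ σ ∈ ext P, ind (¬ Good M P z (trans M A σ z (t + 1))) ≤
        ∑ σ ∈ ext P, ind (¬ Good M P z (trans M A σ z t)) +
          ∑ σ ∈ ext P, ind (Good M P z (trans M A σ z t) ∧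
            Coll A P M z (trans M A σ z t)) := by
      rw [← Finset.sum_add_distrib]
      refine Finset.sum_le_sum fun σ _ => ?_
      by_cases hg : Good M P z (trans M A σ z t)
      · by_cases hg' : Good M P z (trans M A σ z (t + 1))
        · rw [ind_false (not_not.2 hg')]
          exact add_nonneg (ind_nonneg _) (ind_nonneg _)
        · rw [ind_true (⟨hg, coll_of hg hg'⟩ :
            Good M P z (trans M A σ z t) ∧ Coll A P M z (trans M A σ z t))]
          have := ind_le_one (¬ Good M P z (trans M A σ z (t + 1)))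
          have := ind_nonneg (¬ Good M P z (trans M A σ z t))
          linarith
      · rw [ind_true hg]
        have := ind_le_one (¬ Good M P z (trans M A σ z (t + 1)))
        have := ind_nonneg (Good M P z (trans M A σ z t) ∧ Coll A P M z (trans M A σ z t))
        linarith
    have h2 : ∑ σ ∈ ext P, ind (Good M P z (trans M A σ z t) ∧
        Coll A P M z (trans M A σ z t)) ≤
        2 / (R.card : ℝ) * ∑ j ∈ R, ∑ σ ∈ ext P,
          ind (Good M P z (trans M A σ (ψ j) t) ∧ Coll A P M z (trans M A σ (ψ j) t)) := by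
      rw [sum_trans A P z t (fun τ => ind (Good M P z τ ∧ Coll A P M z τ))]
      rw [Finset.sum_congr rfl (fun z' _ =>
        sum_trans A P (ψ z') t (fun τ => ind (Good M P z τ ∧ Coll A P M z τ)))]
      rw [Finset.sum_comm, Finset.mul_sum]
      refine Finset.sum_le_sum fun τ hτ => ?_
      rw [← Finset.mul_sum]
      by_cases hg : Good M P z τ ∧ Coll A P M z τ
      · have hlen := (valid_of_mem hτ).2
        have h3 := star (ψ := ψ) (hb τ (by omega)) hg.1
        rw [ind_true hg, one_mul, one_mul]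
        rw [div_mul_eq_mul_div, le_div_iff₀ hR']
        have h5 : (0 : ℝ) ≤ ((ext (P ∪ prs M z τ)).card : ℝ) := by positivity
        nlinarith
      · rw [ind_false hg]
        simp
    have h3 : ∀ j ∈ R, ∑ σ ∈ ext P, ind (¬ Good M P z (trans M A σ (ψ j) t)) +
        ∑ σ ∈ ext P, ind (Good M P z (trans M A σ (ψ j) t) ∧
          Coll A P M z (trans M A σ (ψ j) t)) ≤
        ∑ σ ∈ ext P, ind (¬ Good M P z (trans M A σ (ψ j) (t + 1))) := by
      intro j _
      rw [← Finset.sum_add_distrib]
      refine Finset.sum_le_sum fun σ _ => ?_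
      by_cases hg : Good M P z (trans M A σ (ψ j) t)
      · rw [ind_false (not_not.2 hg), zero_add]
        by_cases hc : Coll A P M z (trans M A σ (ψ j) t)
        · rw [ind_true (not_good_of_coll hc)]
          exact ind_le_one _
        · rw [ind_false (fun h => hc h.2)]
          exact ind_nonneg _
      · have hg' : ¬ Good M P z (trans M A σ (ψ j) (t + 1)) := fun h => hg (good_of_succ h)
        rw [ind_true hg, ind_true hg', ind_false (fun h => hg h.1), add_zero]
    have h4 := Finset.sum_le_sum h3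
    rw [Finset.sum_add_distrib] at h4
    have h5 : (0 : ℝ) ≤ 2 / (R.card : ℝ) := by positivity
    have h6 := mul_le_mul_of_nonneg_left h4 h5
    rw [mul_add] at h6
    linarith

/-- **One input.**  An algorithm accepts an average member of the family `C` with hardly larger
probability than an average member of the family `R`. -/
theorem one_step {ι κ : Type} (φ : ι → W) (ψ : κ → W) (A : Alg F L) (P : Finset (G × L))
    (C : Finset ι) (R : Finset κ) (T : ℕ) (b c : ℝ)
    (hR : 0 < R.card) (hC : 0 < C.card) (hb0 : 0 ≤ b)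
    (hb : ∀ τ : List (F × L), τ.length ≤ M.init.length + T →
      (((R.filter fun j => ¬ Good M P (ψ j) τ).card : ℕ) : ℝ) ≤ b)
    (hb2 : 2 * b ≤ R.card)
    (hc : ∀ τ : List (F × L), τ.length ≤ M.init.length + T →
      (((C.filter fun i => ¬ Good M P (φ i) τ).card : ℕ) : ℝ) ≤ c) :
    (∑ i ∈ C, ∑ σ ∈ ext P, ind (answer M A T σ (φ i) = true)) / C.card ≤
      (∑ j ∈ R, ∑ σ ∈ ext P, ind (answer M A T σ (ψ j) = true)) / R.card +
        (2 * b / R.card + 2 * c / C.card) * (ext P).card := by
  have hR' : (0 : ℝ) < R.card := by exact_mod_cast hR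
  have hC' : (0 : ℝ) < C.card := by exact_mod_cast hC
  set V : ℝ := ((ext P).card : ℝ) with hV
  have hV0 : 0 ≤ V := by positivity
  set DR : ℝ := ∑ j ∈ R, ∑ σ ∈ ext P, ind (answer M A T σ (ψ j) = true) with hDR
  have hRb : (0 : ℝ) < (R.card : ℝ) - b := by linarith
  have hDR0 : 0 ≤ DR := Finset.sum_nonneg fun _ _ => Finset.sum_nonneg fun _ _ => ind_nonneg _
  have hDR1 : DR ≤ R.card * V := by
    calc DR ≤ ∑ j ∈ R, ∑ σ ∈ ext P, (1 : ℝ) :=
          Finset.sum_le_sum fun _ _ => Finset.sum_le_sum fun _ _ => ind_le_one _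
      _ = R.card * V := by simp [hV]
  -- good part
  have h1 : ∀ i ∈ C, ((R.card : ℝ) - b) * ∑ σ ∈ ext P,
      ind (Good M P (φ i) (trans M A σ (φ i) T) ∧ A.out (trans M A σ (φ i) T) = true) ≤ DR := by
    intro i _
    rw [sum_trans A P (φ i) T (fun τ => ind (Good M P (φ i) τ ∧ A.out τ = true)),
      Finset.mul_sum]
    have : DR = ∑ τ ∈ VV M A T, ∑ j ∈ R, ind (A.out τ = true) *
        ((ext (P ∪ prs M (ψ j) τ)).card : ℝ) := by
      rw [Finset.sum_comm, hDR]
      refine Finset.sum_congr rfl fun z' _ => ?_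
      exact sum_trans A P (ψ z') T (fun τ => ind (A.out τ = true))
    rw [this]
    refine Finset.sum_le_sum fun τ hτ => ?_
    rw [← Finset.mul_sum]
    by_cases hg : Good M P (φ i) τ ∧ A.out τ = true
    · have hlen := (valid_of_mem hτ).2
      rw [ind_true hg, ind_true hg.2, one_mul, one_mul]
      exact star (ψ := ψ) (hb τ (by omega)) hg.1
    · rw [ind_false hg, zero_mul, mul_zero]
      exact mul_nonneg (ind_nonneg _) (Finset.sum_nonneg fun _ _ => by positivity)
  have h2 : ∀ i ∈ C, ∑ σ ∈ ext P, ind (answer M A T σ (φ i) = true) ≤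
      DR / ((R.card : ℝ) - b) +
        ∑ σ ∈ ext P, ind (¬ Good M P (φ i) (trans M A σ (φ i) T)) := by
    intro i hi
    have h3 : ∑ σ ∈ ext P, ind (Good M P (φ i) (trans M A σ (φ i) T) ∧
        A.out (trans M A σ (φ i) T) = true) ≤
        DR / ((R.card : ℝ) - b) := by
      rw [le_div_iff₀ hRb, mul_comm]
      exact h1 i hi
    have h4 : ∑ σ ∈ ext P, ind (answer M A T σ (φ i) = true) ≤
        ∑ σ ∈ ext P, ind (Good M P (φ i) (trans M A σ (φ i) T) ∧
          A.out (trans M A σ (φ i) T) = true) +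
          ∑ σ ∈ ext P, ind (¬ Good M P (φ i) (trans M A σ (φ i) T)) := by
      rw [← Finset.sum_add_distrib]
      refine Finset.sum_le_sum fun σ _ => ?_
      by_cases hg : Good M P (φ i) (trans M A σ (φ i) T)
      · by_cases ho : A.out (trans M A σ (φ i) T) = true
        · rw [ind_true (⟨hg, ho⟩ : Good M P (φ i) (trans M A σ (φ i) T) ∧
            A.out (trans M A σ (φ i) T) = true)]
          have := ind_le_one (answer M A T σ (φ i) = true)
          have := ind_nonneg (¬ Good M P (φ i) (trans M A σ (φ i) T))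
          linarith
        · rw [ind_false (show ¬ answer M A T σ (φ i) = true from ho)]
          exact add_nonneg (ind_nonneg _) (ind_nonneg _)
      · rw [ind_true hg]
        have := ind_le_one (answer M A T σ (φ i) = true)
        have := ind_nonneg (Good M P (φ i) (trans M A σ (φ i) T) ∧
          A.out (trans M A σ (φ i) T) = true)
        linarith
    linarith
  have h5 : ∑ i ∈ C, ∑ σ ∈ ext P, ind (¬ Good M P (φ i) (trans M A σ (φ i) T)) ≤
      2 * c * V := by
    calc ∑ i ∈ C, ∑ σ ∈ ext P, ind (¬ Good M P (φ i) (trans M A σ (φ i) T))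
        ≤ ∑ i ∈ C, 2 / (R.card : ℝ) * ∑ j ∈ R, ∑ σ ∈ ext P,
            ind (¬ Good M P (φ i) (trans M A σ (ψ j) T)) :=
          Finset.sum_le_sum fun i _ => bad_bound ψ A P R T b hR hb hb2 (φ i) T le_rfl
      _ = 2 / (R.card : ℝ) * ∑ j ∈ R, ∑ σ ∈ ext P, ∑ i ∈ C,
            ind (¬ Good M P (φ i) (trans M A σ (ψ j) T)) := by
          rw [← Finset.mul_sum, Finset.sum_comm]
          congr 1
          refine Finset.sum_congr rfl fun z' _ => ?_
          rw [Finset.sum_comm]
      _ ≤ 2 / (R.card : ℝ) * ∑ j ∈ R, ∑ σ ∈ ext P, c := by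
          refine mul_le_mul_of_nonneg_left ?_ (by positivity)
          refine Finset.sum_le_sum fun j _ => Finset.sum_le_sum fun σ _ => ?_
          rw [sum_ind]
          refine le_trans (le_of_eq ?_) (hc _ (trans_length M A σ (ψ j) T))
          congr!
      _ = 2 * c * V := by
          simp only [Finset.sum_const, nsmul_eq_mul]
          rw [← hV]
          field_simp
  have h6 : ∑ i ∈ C, ∑ σ ∈ ext P, ind (answer M A T σ (φ i) = true) ≤
      C.card * (DR / ((R.card : ℝ) - b)) + 2 * c * V := by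
    have h7 := Finset.sum_le_sum h2
    rw [Finset.sum_add_distrib, Finset.sum_const, nsmul_eq_mul] at h7
    linarith
  have h8 : DR / ((R.card : ℝ) - b) ≤ DR / R.card + 2 * b / R.card * V := by
    rw [div_le_iff₀ hRb]
    have e1 : (DR / R.card + 2 * b / R.card * V) * ((R.card : ℝ) - b) =
        DR + (b / R.card) * (2 * V * ((R.card : ℝ) - b) - DR) := by
      field_simp
      ring
    rw [e1]
    have e2 : 0 ≤ b / (R.card : ℝ) := by positivity
    have e3 : 0 ≤ 2 * V * ((R.card : ℝ) - b) - DR := by nlinarith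
    nlinarith [mul_nonneg e2 e3]
  rw [div_le_iff₀ hC']
  calc ∑ i ∈ C, ∑ σ ∈ ext P, ind (answer M A T σ (φ i) = true)
      ≤ C.card * (DR / ((R.card : ℝ) - b)) + 2 * c * V := h6
    _ ≤ C.card * (DR / R.card + 2 * b / R.card * V) + 2 * c * V := by gcongr
    _ = (DR / R.card + (2 * b / R.card + 2 * c / C.card) * V) * C.card := by
        field_simp
        ring

end Pool.Agent.H88.GA
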