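import Mathlib
import Pool.Agent.H88.GAStep

set_option autoImplicit false
set_option linter.unusedSectionVars false

namespace Pool.Agent.H88.GA

open Classical

variable {F W G L : Type} [Fintype W] [Fintype G] [Fintype L] {M : Sys F W G}
variable {ι κ : Type} (φ : ι → W) (ψ : κ → W)

/-- the average success of an algorithm, if the input is a random member of the family `C` with
probability one half and a random member of the family `R` with probability one half -/
noncomputable def succ (M : Sys F W G) (A : Alg F L) (T : ℕ) (C : Finset ι) (R : Finset κ)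
    (σ : G ≃ L) : ℝ :=
  (∑ i ∈ C, ind (answer M A T σ (φ i) = true)) / (2 * C.card) +
    (∑ j ∈ R, ind (answer M A T σ (ψ j) = false)) / (2 * R.card)

theorem succ_nonneg (A : Alg F L) (T : ℕ) (C : Finset ι) (R : Finset κ) (σ : G ≃ L) :
    0 ≤ succ φ ψ M A T C R σ := by
  unfold succ
  have h1 : 0 ≤ ∑ i ∈ C, ind (answer M A T σ (φ i) = true) :=
    Finset.sum_nonneg fun _ _ => ind_nonneg _
  have h2 : 0 ≤ ∑ j ∈ R, ind (answer M A T σ (ψ j) = false) :=
    Finset.sum_nonneg fun _ _ => ind_nonneg _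
  positivity

theorem ind_false_eq (b : Bool) : ind (b = false) = 1 - ind (b = true) := by
  cases b <;> simp [ind]

/-- one input, in terms of the success -/
theorem succ_step (A : Alg F L) (P : Finset (G × L)) (C : Finset ι) (R : Finset κ) (T : ℕ)
    (b c : ℝ) (hR : 0 < R.card) (hC : 0 < C.card) (hb0 : 0 ≤ b)
    (hb : ∀ τ : List (F × L), τ.length ≤ M.init.length + T →
      (((R.filter fun j => ¬ Good M P (ψ j) τ).card : ℕ) : ℝ) ≤ b)
    (hb2 : 2 * b ≤ R.card)
    (hc : ∀ τ : List (F × L), τ.length ≤ M.init.length + T →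
      (((C.filter fun i => ¬ Good M P (φ i) τ).card : ℕ) : ℝ) ≤ c) :
    ∑ σ ∈ ext P, succ φ ψ M A T C R σ ≤
      (1 / 2 + (b / R.card + c / C.card)) * (ext P).card := by
  have hR' : (0 : ℝ) < R.card := by exact_mod_cast hR
  have hC' : (0 : ℝ) < C.card := by exact_mod_cast hC
  have h := one_step φ ψ A P C R T b c hR hC hb0 hb hb2 hc
  have e1 : ∑ σ ∈ ext P, succ φ ψ M A T C R σ =
      (∑ i ∈ C, ∑ σ ∈ ext P, ind (answer M A T σ (φ i) = true)) / (2 * C.card) +
        (R.card * (ext P).card - ∑ j ∈ R, ∑ σ ∈ ext P, ind (answer M A T σ (ψ j) = true)) /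
          (2 * R.card) := by
    unfold succ
    rw [Finset.sum_add_distrib, ← Finset.sum_div, ← Finset.sum_div, Finset.sum_comm]
    congr 2
    rw [Finset.sum_comm]
    have e2 : ∀ j ∈ R, ∑ σ ∈ ext P, ind (answer M A T σ (ψ j) = false) =
        (ext P).card - ∑ σ ∈ ext P, ind (answer M A T σ (ψ j) = true) := by
      intro j _
      rw [Finset.sum_congr rfl (fun σ _ => ind_false_eq (answer M A T σ (ψ j))),
        Finset.sum_sub_distrib]
      simp
    rw [Finset.sum_congr rfl e2, Finset.sum_sub_distrib]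
    simp
  rw [e1]
  have e3 : (∑ i ∈ C, ∑ σ ∈ ext P, ind (answer M A T σ (φ i) = true)) / (2 * (C.card : ℝ)) =
      ((∑ i ∈ C, ∑ σ ∈ ext P, ind (answer M A T σ (φ i) = true)) / C.card) / 2 := by
    rw [div_div, mul_comm (2 : ℝ)]
  have e4 : (R.card * (ext P).card - ∑ j ∈ R, ∑ σ ∈ ext P, ind (answer M A T σ (ψ j) = true)) /
      (2 * (R.card : ℝ)) =
      ((ext P).card - (∑ j ∈ R, ∑ σ ∈ ext P, ind (answer M A T σ (ψ j) = true)) / R.card) /
        2 := by
    field_simp
  rw [e3, e4]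
  have e5 : (2 * b / R.card + 2 * c / C.card) * ((ext P).card : ℝ) =
      2 * ((b / R.card + c / C.card) * (ext P).card) := by ring
  rw [e5] at h
  linarith

/-- **Many inputs.** -/
theorem succ_pow (A : Alg F L) (C : Finset ι) (R : Finset κ) (T s r : ℕ)
    (hr : M.init.length + T ≤ r) (B : ℝ) (hB : 0 ≤ B)
    (h1 : ∀ P : Finset (G × L), P.card ≤ s →
      ∑ σ ∈ ext P, succ φ ψ M A T C R σ ≤ B * (ext P).card)
    (k : ℕ) (P : Finset (G × L)) (hP : P.card + k * r ≤ s + r) :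
    ∑ σ ∈ ext P, succ φ ψ M A T C R σ ^ k ≤ B ^ k * (ext P).card := by
  induction k generalizing P with
  | zero => simp
  | succ k ih =>
    have hcard : ∀ (z : W) (τ : List (F × L)), τ ∈ VV M A T →
        (P ∪ prs M z τ).card + k * r ≤ s + r := by
      intro z τ hτ
      have h2 := (valid_of_mem hτ).2
      have h3 := prs_card M (L := L) z τ
      have h4 := Finset.card_union_le P (prs M z τ)
      have h5 : (k + 1) * r = k * r + r := by ring
      omega
    have hstep : ∀ (z : W) (f : List (F × L) → ℝ), (∀ τ, 0 ≤ f τ) →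
        ∑ σ ∈ ext P, f (trans M A σ z T) * succ φ ψ M A T C R σ ^ k ≤
          B ^ k * ∑ σ ∈ ext P, f (trans M A σ z T) := by
      intro z f hf
      rw [sum_trans' A P z T f (fun σ => succ φ ψ M A T C R σ ^ k), sum_trans A P z T f,
        Finset.mul_sum]
      refine Finset.sum_le_sum fun τ hτ => ?_
      have := mul_le_mul_of_nonneg_left (ih (P ∪ prs M z τ) (hcard z τ hτ)) (hf τ)
      calc _ ≤ _ := this
        _ = _ := by ring
    have e1 : ∑ σ ∈ ext P, succ φ ψ M A T C R σ ^ (k + 1) =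
        (∑ i ∈ C, ∑ σ ∈ ext P, ind (answer M A T σ (φ i) = true) *
            succ φ ψ M A T C R σ ^ k) / (2 * C.card) +
          (∑ j ∈ R, ∑ σ ∈ ext P, ind (answer M A T σ (ψ j) = false) *
            succ φ ψ M A T C R σ ^ k) / (2 * R.card) := by
      rw [Finset.sum_comm (s := C), Finset.sum_comm (s := R), Finset.sum_div, Finset.sum_div,
        ← Finset.sum_add_distrib]
      refine Finset.sum_congr rfl fun σ _ => ?_
      rw [← Finset.sum_mul, ← Finset.sum_mul, pow_succ]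
      nth_rewrite 2 [succ]
      ring
    have e2 : ∑ σ ∈ ext P, succ φ ψ M A T C R σ =
        (∑ i ∈ C, ∑ σ ∈ ext P, ind (answer M A T σ (φ i) = true)) / (2 * C.card) +
          (∑ j ∈ R, ∑ σ ∈ ext P, ind (answer M A T σ (ψ j) = false)) / (2 * R.card) := by
      rw [Finset.sum_comm (s := C), Finset.sum_comm (s := R), Finset.sum_div, Finset.sum_div,
        ← Finset.sum_add_distrib]
      rfl
    have e3 : ∑ σ ∈ ext P, succ φ ψ M A T C R σ ^ (k + 1) ≤
        B ^ k * ∑ σ ∈ ext P, succ φ ψ M A T C R σ := by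
      rw [e1, e2, mul_add, ← mul_div_assoc, ← mul_div_assoc, Finset.mul_sum, Finset.mul_sum]
      refine add_le_add ?_ ?_
      · refine div_le_div_of_nonneg_right ?_ (by positivity)
        refine Finset.sum_le_sum fun i _ => ?_
        exact hstep (φ i) (fun τ => ind (A.out τ = true)) fun _ => ind_nonneg _
      · refine div_le_div_of_nonneg_right ?_ (by positivity)
        refine Finset.sum_le_sum fun j _ => ?_
        exact hstep (ψ j) (fun τ => ind (A.out τ = false)) fun _ => ind_nonneg _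
    have h2 : P.card ≤ s := by
      have h5 : (k + 1) * r = k * r + r := by ring
      omega
    calc _ ≤ _ := e3
      _ ≤ B ^ k * (B * (ext P).card) :=
          mul_le_mul_of_nonneg_left (h1 P h2) (pow_nonneg hB k)
      _ = _ := by ring

/-- the expected success of a random algorithm with advice -/
noncomputable def expected (M : Sys F W G) {m : ℕ} (T : ℕ) (C : Finset ι) (R : Finset κ)
    {Ω : Type} [Fintype Ω] (p : Ω → ℝ) (D : Ω → DS F G L m) : ℝ :=
  ∑ ω, p ω * ((∑ σ : G ≃ L, succ φ ψ M ((D ω).alg ((D ω).memory σ)) T C R σ) /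
    Fintype.card (G ≃ L))

/-- **The union bound over the advice.** -/
theorem union_bound {m : ℕ} (C : Finset ι) (R : Finset κ) (T s r k : ℕ)
    (hr : M.init.length + T ≤ r) (B : ℝ) (hB : 0 ≤ B)
    (hN : 0 < Fintype.card (G ≃ L))
    (h1 : ∀ (A : Alg F L) (P : Finset (G × L)), P.card ≤ s →
      ∑ σ ∈ ext P, succ φ ψ M A T C R σ ≤ B * (ext P).card)
    (hk : k * r ≤ s + r) {Ω : Type} [Fintype Ω] (p : Ω → ℝ)
    (hp : ∀ ω, 0 ≤ p ω) (hp1 : ∑ ω, p ω = 1) (D : Ω → DS F G L m) :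
    expected φ ψ M T C R p D ^ k ≤ m * B ^ k := by
  have hN' : (0 : ℝ) < Fintype.card (G ≃ L) := by exact_mod_cast hN
  set N : ℝ := ((Fintype.card (G ≃ L) : ℕ) : ℝ) with hNdef
  have huniv : ext (∅ : Finset (G × L)) = Finset.univ := by
    ext σ
    simp [mem_ext]
  have hA : ∀ A : Alg F L, ∑ σ : G ≃ L, succ φ ψ M A T C R σ ^ k ≤ B ^ k * N := by
    intro A
    have := succ_pow φ ψ A C R T s r hr B hB (h1 A) k ∅ (by simpa using hk)
    rw [huniv] at this
    simpa using this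
  have hD : ∀ ω, ∑ σ : G ≃ L, succ φ ψ M ((D ω).alg ((D ω).memory σ)) T C R σ ^ k ≤
      m * (B ^ k * N) := by
    intro ω
    calc ∑ σ : G ≃ L, succ φ ψ M ((D ω).alg ((D ω).memory σ)) T C R σ ^ k
        ≤ ∑ σ : G ≃ L, ∑ a : Fin m, succ φ ψ M ((D ω).alg a) T C R σ ^ k := by
          refine Finset.sum_le_sum fun σ _ => ?_
          exact Finset.single_le_sum (f := fun a => succ φ ψ M ((D ω).alg a) T C R σ ^ k)
            (fun a _ => pow_nonneg (succ_nonneg _ _ _ _ _ _ _) k)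
            (Finset.mem_univ ((D ω).memory σ))
      _ = ∑ a : Fin m, ∑ σ : G ≃ L, succ φ ψ M ((D ω).alg a) T C R σ ^ k := Finset.sum_comm
      _ ≤ ∑ a : Fin m, B ^ k * N := Finset.sum_le_sum fun a _ => hA _
      _ = m * (B ^ k * N) := by simp
  have hj : ∀ ω, ((∑ σ : G ≃ L, succ φ ψ M ((D ω).alg ((D ω).memory σ)) T C R σ) / N) ^ k ≤
      m * B ^ k := by
    intro ω
    have h2 := Real.pow_arith_mean_le_arith_mean_pow (Finset.univ : Finset (G ≃ L))
      (fun _ => 1 / N) (fun σ => succ φ ψ M ((D ω).alg ((D ω).memory σ)) T C R σ)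
      (fun _ _ => by positivity) (by
        rw [Finset.sum_const, Finset.card_univ, nsmul_eq_mul, ← hNdef]
        field_simp) (fun σ _ => succ_nonneg _ _ _ _ _ _ _) k
    rw [← Finset.mul_sum, ← Finset.mul_sum] at h2
    have e1 : (∑ σ : G ≃ L, succ φ ψ M ((D ω).alg ((D ω).memory σ)) T C R σ) / N =
        1 / N * ∑ σ : G ≃ L, succ φ ψ M ((D ω).alg ((D ω).memory σ)) T C R σ := by ring
    rw [e1]
    calc _ ≤ _ := h2
      _ ≤ 1 / N * (m * (B ^ k * N)) :=
          mul_le_mul_of_nonneg_left (hD ω) (by positivity)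
      _ = m * B ^ k := by
          field_simp
  have h3 := Real.pow_arith_mean_le_arith_mean_pow (Finset.univ : Finset Ω) p
    (fun ω => (∑ σ : G ≃ L, succ φ ψ M ((D ω).alg ((D ω).memory σ)) T C R σ) / N)
    (fun ω _ => hp ω) hp1 (fun ω _ => by
      have : 0 ≤ ∑ σ : G ≃ L, succ φ ψ M ((D ω).alg ((D ω).memory σ)) T C R σ :=
        Finset.sum_nonneg fun _ _ => succ_nonneg _ _ _ _ _ _ _
      positivity) k
  unfold expected
  calc _ ≤ _ := h3
    _ ≤ ∑ ω, p ω * (m * B ^ k) :=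
        Finset.sum_le_sum fun ω _ => mul_le_mul_of_nonneg_left (hj ω) (hp ω)
    _ = m * B ^ k := by rw [← Finset.sum_mul, hp1, one_mul]

/-- the numerical part -/
theorem log_bound {m k : ℕ} {δ B E : ℝ} (hδ : 0 < δ) (hδ2 : δ ≤ 1 / 2) (hB0 : 0 < B)
    (hB : B ≤ 1 / 2 + δ / 2) (hE : 1 / 2 + δ ≤ E) (h : E ^ k ≤ m * B ^ k) :
    2 * δ / 3 * k ≤ Real.logb 2 m := by
  have h1 : (1 + 2 * δ / 3) * B ≤ E := by
    have : (1 + 2 * δ / 3) * B ≤ (1 + 2 * δ / 3) * (1 / 2 + δ / 2) :=
      mul_le_mul_of_nonneg_left hB (by positivity)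
    nlinarith
  have h2 : ((1 + 2 * δ / 3) * B) ^ k ≤ E ^ k := pow_le_pow_left₀ (by positivity) h1 k
  have h3 : (1 + 2 * δ / 3) ^ k ≤ m := by
    have hBk : 0 < B ^ k := pow_pos hB0 k
    have := h2.trans h
    rw [mul_pow] at this
    exact le_of_mul_le_mul_right this hBk
  have h4 : (2 : ℝ) ^ (2 * δ / 3) ≤ 1 + 2 * δ / 3 := by
    have := rpow_one_add_le_one_add_mul_self (s := (1 : ℝ)) (by norm_num)
      (show (0 : ℝ) ≤ 2 * δ / 3 by positivity) (by linarith)
    norm_num at this ⊢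
    linarith
  have h5 : (2 : ℝ) ^ (2 * δ / 3 * k) ≤ m := by
    rw [Real.rpow_mul (by norm_num), Real.rpow_natCast]
    exact (pow_le_pow_left₀ (by positivity) h4 k).trans h3
  have hm : (0 : ℝ) < m := lt_of_lt_of_le (by positivity) h5
  rw [Real.le_logb_iff_rpow_le (by norm_num) hm]
  exact h5

theorem succ_le_one (A : Alg F L) (T : ℕ) (C : Finset ι) (R : Finset κ) (σ : G ≃ L) :
    succ φ ψ M A T C R σ ≤ 1 := by
  unfold succ
  have h1 : ∑ i ∈ C, ind (answer M A T σ (φ i) = true) ≤ C.card := by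
    calc _ ≤ ∑ i ∈ C, (1 : ℝ) := Finset.sum_le_sum fun _ _ => ind_le_one _
      _ = _ := by simp
  have h2 : ∑ j ∈ R, ind (answer M A T σ (ψ j) = false) ≤ R.card := by
    calc _ ≤ ∑ j ∈ R, (1 : ℝ) := Finset.sum_le_sum fun _ _ => ind_le_one _
      _ = _ := by simp
  have h3 : (∑ i ∈ C, ind (answer M A T σ (φ i) = true)) / (2 * (C.card : ℝ)) ≤ 1 / 2 := by
    rcases Nat.eq_zero_or_pos C.card with h | h
    · rw [h]; norm_num
    · have : (0 : ℝ) < C.card := by exact_mod_cast h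
      rw [div_le_iff₀ (by positivity)]
      linarith
  have h4 : (∑ j ∈ R, ind (answer M A T σ (ψ j) = false)) / (2 * (R.card : ℝ)) ≤ 1 / 2 := by
    rcases Nat.eq_zero_or_pos R.card with h | h
    · rw [h]; norm_num
    · have : (0 : ℝ) < R.card := by exact_mod_cast h
      rw [div_le_iff₀ (by positivity)]
      linarith
  linarith

theorem expected_le_one {m : ℕ} (T : ℕ) (C : Finset ι) (R : Finset κ) {Ω : Type} [Fintype Ω]
    (p : Ω → ℝ) (hp : ∀ ω, 0 ≤ p ω) (hp1 : ∑ ω, p ω = 1) (D : Ω → DS F G L m) :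
    expected φ ψ M T C R p D ≤ 1 := by
  unfold expected
  rw [← hp1]
  refine Finset.sum_le_sum fun ω _ => ?_
  have h1 : (∑ σ : G ≃ L, succ φ ψ M ((D ω).alg ((D ω).memory σ)) T C R σ) /
      (Fintype.card (G ≃ L) : ℝ) ≤ 1 := by
    have h2 : ∑ σ : G ≃ L, succ φ ψ M ((D ω).alg ((D ω).memory σ)) T C R σ ≤
        (Fintype.card (G ≃ L) : ℝ) := by
      calc _ ≤ ∑ σ : G ≃ L, (1 : ℝ) := Finset.sum_le_sum fun _ _ => succ_le_one _ _ _ _ _ _ _
        _ = _ := by simp
    exact div_le_one_of_le₀ h2 (by positivity)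
  calc p ω * _ ≤ p ω * 1 := mul_le_mul_of_nonneg_left h1 (hp ω)
    _ = p ω := mul_one _

/-- the general consequence of the union bound -/
theorem bound_of_step {S : ℕ} (C : Finset ι) (R : Finset κ) (T s r k : ℕ)
    (hr : M.init.length + T ≤ r) (δ ε : ℝ) (hδ : 0 < δ)
    (hε : 0 ≤ ε) (hε2 : ε ≤ δ / 2) (hN : Nonempty (G ≃ L))
    (h1 : ∀ (A : Alg F L) (P : Finset (G × L)), P.card ≤ s →
      ∑ σ ∈ ext P, succ φ ψ M A T C R σ ≤ (1 / 2 + ε) * (ext P).card)
    (hk : k * r ≤ s + r) {Ω : Type} [Fintype Ω] (p : Ω → ℝ)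
    (hp : ∀ ω, 0 ≤ p ω) (hp1 : ∑ ω, p ω = 1) (D : Ω → DS F G L (2 ^ S))
    (hD : 1 / 2 + δ ≤ expected φ ψ M T C R p D) :
    2 * δ / 3 * k ≤ S := by
  have hN' : 0 < Fintype.card (G ≃ L) := by
    have := hN
    exact Fintype.card_pos
  have hδ2 : δ ≤ 1 / 2 := by
    have := expected_le_one φ ψ (M := M) T C R p hp hp1 D
    linarith
  have h2 := union_bound φ ψ C R T s r k hr (1 / 2 + ε) (by positivity) hN' h1 hk p hp hp1 D
  have h3 := log_bound (m := 2 ^ S) (k := k) (B := 1 / 2 + ε) hδ hδ2 (by positivity)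
    (by linarith) hD h2
  have h4 : Real.logb 2 ((2 ^ S : ℕ) : ℝ) = S := by
    rw [Nat.cast_pow, Nat.cast_ofNat, ← Real.rpow_natCast, Real.logb_rpow] <;> norm_num
  rwa [h4] at h3

end Pool.Agent.H88.GA
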