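import Mathlib
import Pool.Agent.H88.GAModel

/-!
# Exact Triangle with random labels: the inputs and the forms
-/

set_option autoImplicit false

namespace Pool.Agent.H88.GA.Tri

/-- The edges between three parts with `n` vertices each. -/
abbrev Var (n : ℕ) : Type := Fin 3 × Fin n × Fin n

/-- The three edges of the triangle `T = (i, j, k)`, where `i` is in the first part, `j` in the second
and `k` in the third part. -/
def dir {n : ℕ} (b : Fin 3) (T : Fin n × Fin n × Fin n) : Var n :=
  match b with
  | 0 => (0, T.1, T.2.1)
  | 1 => (1, T.2.1, T.2.2)
  | 2 => (2, T.2.2, T.1)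

/-- The weights `w` after the weight of the third edge of the triangle `T` has been changed so that
the weights of the three edges of `T` add up to zero. -/
def plant {n : ℕ} {A : Type} [AddGroup A] (T : Fin n × Fin n × Fin n) (w : Var n → A) :
    Var n → A :=
  Function.update w (dir 2 T) (-w (dir 0 T) - w (dir 1 T))

/-- The forms `w ↦ ∑ v, c v • w v + u`. -/
abbrev Form (K G : Type) (n : ℕ) : Type := (Var n → K) × G

/-- The system of these forms; the labels of all the weights are given at the beginning. -/
noncomputable def sys (K G : Type) [Field K] [AddCommGroup G] [Module K G] (n : ℕ) :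
    Sys (Form K G n) (Var n → G) G where
  ev f w := ∑ v, f.1 v • w v + f.2
  cst x := (0, x)
  ev_cst := fun x w => by simp
  init := (Finset.univ : Finset (Var n)).toList.map fun v => (Pi.single v 1, 0)

end Pool.Agent.H88.GA.Tri
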