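import Mathlib
import Pool.Agent.H88.GAMain
import Pool.Agent.H88.GATriModel
import Pool.Agent.W962.Generic.Cover

set_option autoImplicit false
set_option linter.unusedSectionVars false

namespace Pool.Agent.H88.GA.Tri

open Classical MvPolynomial

open Pool.Agent.W962.Generic (cover_bound Dir)

theorem dir_fst {n : ℕ} (b : Fin 3) (T : Fin n × Fin n × Fin n) : (dir b T).1 = b := by
  fin_cases b <;> rfl

theorem dir_inj {n : ℕ} {b b' : Fin 3} (h : b ≠ b') (T T' : Fin n × Fin n × Fin n) :
    dir b T ≠ dir b' T' := by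
  intro h'
  apply h
  rw [← dir_fst b T, h', dir_fst]

/-- The block `b`. -/
def blk (n : ℕ) (b : Fin 3) : Finset (Var n) := Finset.univ.filter fun v => v.1 = b

theorem cover {R : Type} [CommRing R] [IsDomain R] {n : ℕ} (d k : ℕ)
    (W : Finset (MvPolynomial (Var n) R))
    (hk : W.card < 2 ^ (k + 1)) (hd : ∀ f ∈ W, f.totalDegree ≤ d)
    (C : Finset (Fin n × Fin n × Fin n))
    (hC : ∀ T ∈ C, ∃ f ∈ W, ∃ g ∈ W, f ≠ g ∧
      (X (dir 0 T) + (X (dir 1 T) + X (dir 2 T)) : MvPolynomial (Var n) R) ∣ f - g) :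
    C.card ≤ W.card * (3 * (d * k) ^ 2) := by
  classical
  have h := cover_bound (blk n) dir (fun b T => by simp [blk, dir_fst]) d k W hk hd C ?_
    ({{0, 1}, {1, 2}, {0, 2}} : Finset (Finset (Fin 3))) (by decide) (fun _ => 1) ?_
  · refine h.trans (Nat.mul_le_mul_left _ (le_of_eq ?_))
    rw [Finset.sum_insert (by decide), Finset.sum_insert (by decide), Finset.sum_singleton]
    have c1 : ({0, 1} : Finset (Fin 3)).card = 2 := by decide
    have c2 : ({1, 2} : Finset (Fin 3)).card = 2 := by decide
    have c3 : ({0, 2} : Finset (Fin 3)).card = 2 := by decide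
    rw [c1, c2, c3]
    ring
  · intro T hT
    obtain ⟨f, hf, g, hg, hne, hdvd⟩ := hC T hT
    refine ⟨f, hf, g, hg, fun b => ⟨hne, ?_⟩⟩
    have hv : ∀ (b b' b'' : Fin 3), b' ≠ b → b'' ≠ b →
        ∀ s ∈ (X (dir b' T) + X (dir b'' T) : MvPolynomial (Var n) R).vars, s ∉ blk n b := by
      intro b b' b'' h1 h2 s hs
      have h3 := vars_add_subset _ _ hs
      rw [vars_X, vars_X, Finset.mem_union, Finset.mem_singleton, Finset.mem_singleton] at h3
      rcases h3 with rfl | rfl
      · simp [blk, dir_fst, h1]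
      · simp [blk, dir_fst, h2]
    fin_cases b
    · exact ⟨X (dir 1 T) + X (dir 2 T), hv 0 1 2 (by decide) (by decide), hdvd⟩
    · refine ⟨X (dir 0 T) + X (dir 2 T), hv 1 0 2 (by decide) (by decide), ?_⟩
      have e : X (dir 1 T) + (X (dir 0 T) + X (dir 2 T)) =
        (X (dir 0 T) + (X (dir 1 T) + X (dir 2 T)) : MvPolynomial (Var n) R) := by
        ring
      exact e ▸ hdvd
    · refine ⟨X (dir 0 T) + X (dir 1 T), hv 2 0 1 (by decide) (by decide), ?_⟩
      have e : X (dir 2 T) + (X (dir 0 T) + X (dir 1 T)) =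
        (X (dir 0 T) + (X (dir 1 T) + X (dir 2 T)) : MvPolynomial (Var n) R) := by
        ring
      exact e ▸ hdvd
  · intro S hS T₀ _ F hF
    rw [Finset.card_le_one]
    intro T hT T' hT'
    have hT := (hF T hT).2
    have hT' := (hF T' hT').2
    have hTT : ∀ i ∈ S, dir i T = dir i T' := fun i hi => (hT i hi).trans (hT' i hi).symm
    obtain ⟨i, j, k⟩ := T
    obtain ⟨i', j', k'⟩ := T'
    simp only [Finset.mem_insert, Finset.mem_singleton] at hS
    rcases hS with rfl | rfl | rfl
    · have h0 := hTT 0 (by decide)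
      have h1 := hTT 1 (by decide)
      simp only [dir, Prod.mk.injEq] at h0 h1 ⊢
      exact ⟨h0.2.1, h0.2.2, h1.2.2⟩
    · have h0 := hTT 1 (by decide)
      have h1 := hTT 2 (by decide)
      simp only [dir, Prod.mk.injEq] at h0 h1 ⊢
      exact ⟨h1.2.2, h0.2.1, h0.2.2⟩
    · have h0 := hTT 0 (by decide)
      have h1 := hTT 2 (by decide)
      simp only [dir, Prod.mk.injEq] at h0 h1 ⊢
      exact ⟨h0.2.1, h0.2.2, h1.2.1⟩

variable {K G L : Type} [Field K] [AddCommGroup G] [Module K G] {n : ℕ}

theorem ev_sub (f g : Form K G n) (w : Var n → G) :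
    (sys K G n).ev f w = (sys K G n).ev g w ↔ ∑ v, (f.1 v - g.1 v) • w v + (f.2 - g.2) = 0 := by
  simp only [sys]
  rw [← sub_eq_zero]
  have : ∑ v, (f.1 v - g.1 v) • w v = ∑ v, f.1 v • w v - ∑ v, g.1 v • w v := by
    rw [← Finset.sum_sub_distrib]
    exact Finset.sum_congr rfl fun v _ => sub_smul _ _ _
  rw [this]
  have e : ∑ v, f.1 v • w v - ∑ v, g.1 v • w v + (f.2 - g.2) =
      ∑ v, f.1 v • w v + f.2 - (∑ v, g.1 v • w v + g.2) := by abel
  rw [e]

/-- the cube -/
noncomputable def cube {Z : Type} (n : ℕ) (I : Finset Z) : Finset (Var n → Z) :=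
  Fintype.piFinset fun _ : Var n => I

theorem mem_cube {Z : Type} {I : Finset Z} {w : Var n → Z} : w ∈ cube n I ↔ ∀ v, w v ∈ I := by
  unfold cube
  rw [Fintype.mem_piFinset]

/-- two different forms seldom take the same value -/
theorem count_eq {Z : Type} (c : Z → G) (I : Finset Z) (hc : Set.InjOn c I) (f g : Form K G n)
    (hfg : f ≠ g) :
    I.card * ((cube n I).filter fun w => (sys K G n).ev f (fun v => c (w v)) =
      (sys K G n).ev g (fun v => c (w v))).card ≤ (cube n I).card := by
  by_cases h1 : f.1 = g.1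
  · have h2 : f.2 ≠ g.2 := fun h2 => hfg (Prod.ext h1 h2)
    have h3 : ((cube n I).filter fun w => (sys K G n).ev f (fun v => c (w v)) =
        (sys K G n).ev g (fun v => c (w v))) = ∅ := by
      rw [Finset.filter_eq_empty_iff]
      intro w _ h
      rw [ev_sub, h1] at h
      simp only [sub_self, zero_smul, Finset.sum_const_zero, zero_add] at h
      exact h2 (sub_eq_zero.1 h)
    rw [h3]
    simp
  · obtain ⟨v, hv⟩ : ∃ v, f.1 v ≠ g.1 v := by
      by_contra hcon
      push Not at hcon
      exact h1 (funext hcon)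
    rw [← Finset.card_product]
    refine Finset.card_le_card_of_injOn (fun p => Function.update p.2 v p.1) ?_ ?_
    · intro p hp
      rw [Finset.mem_coe, Finset.mem_product, Finset.mem_filter, mem_cube] at hp
      rw [Finset.mem_coe, mem_cube]
      intro u
      change Function.update p.2 v p.1 u ∈ I
      rcases eq_or_ne u v with rfl | hu
      · rw [Function.update_self]
        exact hp.1
      · rw [Function.update_of_ne hu]
        exact hp.2.1 u
    · rintro ⟨x, w⟩ hp ⟨x', w'⟩ hp' h
      rw [Finset.mem_coe, Finset.mem_product, Finset.mem_filter, mem_cube] at hp hp'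
      obtain ⟨hx, hw, he⟩ := hp
      obtain ⟨hx', hw', he'⟩ := hp'
      simp only at hx hw he hx' hw' he' h
      have h2 : x = x' := by
        have := congrFun h v
        simpa using this
      have h3 : ∀ u, u ≠ v → w u = w' u := by
        intro u hu
        have := congrFun h u
        simpa [Function.update_of_ne hu] using this
      have h4 : w v = w' v := by
        rw [ev_sub] at he he'
        have h5 : ∑ u, (f.1 u - g.1 u) • c (w u) = ∑ u, (f.1 u - g.1 u) • c (w' u) := by
          exact add_right_cancel (he.trans he'.symm)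
        rw [← Finset.add_sum_erase _ _ (Finset.mem_univ v),
          ← Finset.add_sum_erase (a := v) _ (fun u => (f.1 u - g.1 u) • c (w' u))
            (Finset.mem_univ v)] at h5
        have h6 : ∑ u ∈ Finset.univ.erase v, (f.1 u - g.1 u) • c (w u) =
            ∑ u ∈ Finset.univ.erase v, (f.1 u - g.1 u) • c (w' u) := by
          refine Finset.sum_congr rfl fun u hu => ?_
          rw [h3 u (Finset.ne_of_mem_erase hu)]
        rw [h6] at h5
        have h7 := add_right_cancel h5
        have h8 : f.1 v - g.1 v ≠ 0 := sub_ne_zero.2 hv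
        have h9 := congrArg (fun y => (f.1 v - g.1 v)⁻¹ • y) h7
        simp only [smul_smul, inv_mul_cancel₀ h8, one_smul] at h9
        exact hc (hw v) (hw' v) h9
      rw [h2, Prod.mk.injEq]
      refine ⟨rfl, funext fun u => ?_⟩
      rcases eq_or_ne u v with rfl | hu
      · exact h4
      · exact h3 u hu

/-- the number of bad inputs: `θ` transforms the inputs and `F` transforms the forms -/
theorem bad_count {Z : Type} (c : Z → G) (I : Finset Z) (hc : Set.InjOn c I)
    (θ : (Var n → G) → (Var n → G)) (F : Form K G n → Form K G n)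
    (hθ : ∀ f w, (sys K G n).ev f (θ w) = (sys K G n).ev (F f) w)
    (P : Finset (G × L)) (τ : List (Form K G n × L))
    (h1 : ∀ e ∈ τ, ∀ e' ∈ τ, e.1 ≠ e'.1 → F e.1 ≠ F e'.1)
    (h2 : ∀ e ∈ τ, ∀ d ∈ P, e.1 ≠ (0, d.1) → F e.1 ≠ F (0, d.1)) (r s : ℕ)
    (hτ : τ.length ≤ r) (hP : P.card ≤ s) :
    I.card * ((cube n I).filter fun w =>
      ¬ Good (sys K G n) P (θ fun v => c (w v)) τ).card ≤ r * (r + s) * (cube n I).card := by
  let E : Form K G n → Form K G n → Finset (Var n → Z) := fun f g =>
    (cube n I).filter fun w => (sys K G n).ev f (fun v => c (w v)) =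
      (sys K G n).ev g (fun v => c (w v))
  let Q : Finset ((Form K G n × L) × (Form K G n × L)) :=
    (τ.toFinset ×ˢ τ.toFinset).filter fun p => p.1.1 ≠ p.2.1
  let Q' : Finset ((Form K G n × L) × (G × L)) :=
    (τ.toFinset ×ˢ P).filter fun p => p.1.1 ≠ (0, p.2.1)
  have hsub : ((cube n I).filter fun w => ¬ Good (sys K G n) P (θ fun v => c (w v)) τ) ⊆
      (Q.biUnion fun p => E (F p.1.1) (F p.2.1)) ∪
        (Q'.biUnion fun p => E (F p.1.1) (F (0, p.2.1))) := by
    intro w hw
    rw [Finset.mem_filter] at hw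
    obtain ⟨hw, hg⟩ := hw
    unfold Good at hg
    rw [not_and_or] at hg
    rw [Finset.mem_union, Finset.mem_biUnion, Finset.mem_biUnion]
    rcases hg with hg | hg
    · left
      push Not at hg
      obtain ⟨e, he, e', he', h3, h4⟩ := hg
      rw [hθ, hθ] at h3
      exact ⟨(e, e'), Finset.mem_filter.2 ⟨Finset.mk_mem_product (List.mem_toFinset.2 he)
        (List.mem_toFinset.2 he'), h4⟩, Finset.mem_filter.2 ⟨hw, h3⟩⟩
    · right
      push Not at hg
      obtain ⟨e, he, d, hd, h3, h4⟩ := hg
      refine ⟨(e, d), Finset.mem_filter.2 ⟨Finset.mk_mem_product (List.mem_toFinset.2 he) hd,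
        h4⟩, Finset.mem_filter.2 ⟨hw, ?_⟩⟩
      simp only
      rw [← hθ, ← hθ, h3]
      simp [sys]
  have hQ : Q.card ≤ r * r := by
    refine (Finset.card_filter_le _ _).trans ?_
    rw [Finset.card_product]
    exact Nat.mul_le_mul ((List.toFinset_card_le _).trans hτ) ((List.toFinset_card_le _).trans hτ)
  have hQ' : Q'.card ≤ r * s := by
    refine (Finset.card_filter_le _ _).trans ?_
    rw [Finset.card_product]
    exact Nat.mul_le_mul ((List.toFinset_card_le _).trans hτ) hP
  have hE : ∀ f g, f ≠ g → I.card * (E f g).card ≤ (cube n I).card := fun f g hfg =>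
    count_eq c I hc f g hfg
  calc I.card * _ ≤ I.card * (∑ p ∈ Q, (E (F p.1.1) (F p.2.1)).card +
        ∑ p ∈ Q', (E (F p.1.1) (F (0, p.2.1))).card) := by
        refine Nat.mul_le_mul_left _ ((Finset.card_le_card hsub).trans
          ((Finset.card_union_le _ _).trans ?_))
        exact Nat.add_le_add Finset.card_biUnion_le Finset.card_biUnion_le
    _ = ∑ p ∈ Q, I.card * (E (F p.1.1) (F p.2.1)).card +
        ∑ p ∈ Q', I.card * (E (F p.1.1) (F (0, p.2.1))).card := by
        rw [mul_add, Finset.mul_sum, Finset.mul_sum]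
    _ ≤ ∑ p ∈ Q, (cube n I).card + ∑ p ∈ Q', (cube n I).card := by
        refine Nat.add_le_add (Finset.sum_le_sum fun p hp => ?_)
          (Finset.sum_le_sum fun p hp => ?_)
        · obtain ⟨h3, h4⟩ := Finset.mem_filter.1 hp
          rw [Finset.mem_product, List.mem_toFinset, List.mem_toFinset] at h3
          exact hE _ _ (h1 _ h3.1 _ h3.2 h4)
        · obtain ⟨h3, h4⟩ := Finset.mem_filter.1 hp
          rw [Finset.mem_product, List.mem_toFinset] at h3
          exact hE _ _ (h2 _ h3.1 _ h3.2 h4)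
    _ = (Q.card + Q'.card) * (cube n I).card := by
        rw [Finset.sum_const, Finset.sum_const, smul_eq_mul, smul_eq_mul, add_mul]
    _ ≤ (r * r + r * s) * (cube n I).card := by gcongr
    _ = _ := by ring

/-! ### Planted triangles -/

/-- the form after planting -/
noncomputable def pl (T : Fin n × Fin n × Fin n) (f : Form K G n) : Form K G n :=
  (fun v => f.1 v - f.1 (dir 2 T) * ((if v = dir 0 T then 1 else 0) +
    (if v = dir 1 T then 1 else 0) + (if v = dir 2 T then 1 else 0)), f.2)

theorem ev_plant (T : Fin n × Fin n × Fin n) (f : Form K G n) (w : Var n → G) :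
    (sys K G n).ev f (plant T w) = (sys K G n).ev (pl T f) w := by
  simp only [sys, pl]
  congr 1
  have e1 : ∀ v, f.1 v • plant T w v = f.1 v • w v +
      (if v = dir 2 T then f.1 (dir 2 T) • (-w (dir 0 T) - w (dir 1 T) - w (dir 2 T)) else 0) := by
    intro v
    unfold plant
    rcases eq_or_ne v (dir 2 T) with rfl | hv
    · rw [Function.update_self, if_pos rfl, ← smul_add]
      congr 1
      abel
    · rw [Function.update_of_ne hv, if_neg hv, add_zero]
  have e2 : ∀ v, (f.1 v - f.1 (dir 2 T) * ((if v = dir 0 T then 1 else 0) +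
      (if v = dir 1 T then 1 else 0) + (if v = dir 2 T then 1 else 0))) • w v =
      f.1 v • w v - ((if v = dir 0 T then f.1 (dir 2 T) • w v else 0) +
        (if v = dir 1 T then f.1 (dir 2 T) • w v else 0) +
        (if v = dir 2 T then f.1 (dir 2 T) • w v else 0)) := by
    intro v
    rw [sub_smul, mul_add, mul_add, add_smul, add_smul]
    congr 2
    · congr 1 <;> split_ifs <;> simp
    · split_ifs <;> simp
  rw [Finset.sum_congr rfl fun v _ => e1 v, Finset.sum_congr rfl fun v _ => e2 v,
    Finset.sum_add_distrib, Finset.sum_sub_distrib, Finset.sum_add_distrib,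
    Finset.sum_add_distrib]
  simp only [Finset.sum_ite_eq', Finset.mem_univ, if_true]
  rw [smul_sub, smul_sub, smul_neg]
  abel

/-- the polynomial of a form -/
noncomputable def poly (f : Form K G n) : MvPolynomial (Var n) K :=
  ∑ v, C (f.1 v) * X v

theorem poly_degree (f : Form K G n) : (poly f).totalDegree ≤ 1 := by
  unfold poly
  refine totalDegree_finsetSum_le fun v _ => ?_
  refine (totalDegree_mul _ _).trans ?_
  rw [totalDegree_C, totalDegree_X]

theorem poly_inj {f g : Form K G n} (h : poly f = poly g) : f.1 = g.1 := by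
  funext v
  have := congrArg (coeff (Finsupp.single v 1)) h
  unfold poly at this
  rw [coeff_sum, coeff_sum] at this
  simp only [coeff_C_mul, coeff_X] at this
  simpa [Finsupp.single_left_inj] using this

theorem poly_of_pl {T : Fin n × Fin n × Fin n} {f g : Form K G n} (hfg : f ≠ g)
    (h : pl T f = pl T g) :
    poly f ≠ poly g ∧
      (X (dir 0 T) + (X (dir 1 T) + X (dir 2 T)) : MvPolynomial (Var n) K) ∣
        poly f - poly g := by
  have h2' : (pl T f).2 = (pl T g).2 := by rw [h]
  have h2 : f.2 = g.2 := h2'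
  have h1 := congrArg Prod.fst h
  simp only [pl] at h1
  constructor
  · intro h3
    exact hfg (Prod.ext (poly_inj h3) h2)
  · refine ⟨C (f.1 (dir 2 T) - g.1 (dir 2 T)), ?_⟩
    have h4 : ∀ v, f.1 v - g.1 v = (f.1 (dir 2 T) - g.1 (dir 2 T)) *
        ((if v = dir 0 T then 1 else 0) + (if v = dir 1 T then 1 else 0) +
          (if v = dir 2 T then 1 else 0)) := by
      intro v
      have := congrFun h1 v
      linear_combination this
    unfold poly
    rw [← Finset.sum_sub_distrib]
    have h5 : ∀ v, (C (f.1 v) * X v - C (g.1 v) * X v : MvPolynomial (Var n) K) =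
        (if v = dir 0 T then C (f.1 (dir 2 T) - g.1 (dir 2 T)) * X v else 0) +
        (if v = dir 1 T then C (f.1 (dir 2 T) - g.1 (dir 2 T)) * X v else 0) +
        (if v = dir 2 T then C (f.1 (dir 2 T) - g.1 (dir 2 T)) * X v else 0) := by
      intro v
      rw [← sub_mul, ← C_sub, h4 v]
      simp only [mul_add, C_add, add_mul]
      congr 1
      · congr 1 <;> split_ifs <;> simp
      · split_ifs <;> simp
    rw [Finset.sum_congr rfl fun v _ => h5 v, Finset.sum_add_distrib, Finset.sum_add_distrib]
    simp only [Finset.sum_ite_eq', Finset.mem_univ, if_true]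
    ring

/-- the places which are covered by the forms of a transcript -/
noncomputable def Cov (P : Finset (G × L)) (τ : List (Form K G n × L)) :
    Finset (Fin n × Fin n × Fin n) :=
  Finset.univ.filter fun T => (∃ e ∈ τ, ∃ e' ∈ τ, e.1 ≠ e'.1 ∧ pl T e.1 = pl T e'.1) ∨
    ∃ e ∈ τ, ∃ d ∈ P, e.1 ≠ (0, d.1) ∧ pl T e.1 = pl T (0, d.1)

theorem cov_card (P : Finset (G × L)) (τ : List (Form K G n × L)) (r : ℕ) (hτ : τ.length ≤ r) :
    (Cov P τ).card ≤ (r + 1) * (3 * (Nat.log 2 (r + 1)) ^ 2) := by
  let W : Finset (MvPolynomial (Var n) K) := insert 0 (τ.toFinset.image fun e => poly e.1)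
  have hW : W.card ≤ r + 1 := by
    refine (Finset.card_insert_le _ _).trans (Nat.add_le_add_right ?_ 1)
    exact Finset.card_image_le.trans ((List.toFinset_card_le _).trans hτ)
  have hk : W.card < 2 ^ (Nat.log 2 (r + 1) + 1) :=
    lt_of_le_of_lt hW (Nat.lt_pow_succ_log_self (by norm_num) _)
  have hmem : ∀ e ∈ τ, poly e.1 ∈ W := fun e he =>
    Finset.mem_insert_of_mem (Finset.mem_image_of_mem _ (List.mem_toFinset.2 he))
  have h0 : ∀ x : G, poly ((0, x) : Form K G n) = 0 := by
    intro x
    simp [poly]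
  have h := cover 1 (Nat.log 2 (r + 1)) W hk ?_ (Cov P τ) ?_
  · rw [one_mul] at h
    exact h.trans (Nat.mul_le_mul_right _ hW)
  · intro f hf
    rw [Finset.mem_insert, Finset.mem_image] at hf
    rcases hf with rfl | ⟨e, -, rfl⟩
    · simp
    · exact poly_degree _
  · intro T hT
    obtain ⟨-, hT⟩ := Finset.mem_filter.1 hT
    rcases hT with ⟨e, he, e', he', hne, h⟩ | ⟨e, he, d, hd, hne, h⟩
    · obtain ⟨h1, h2⟩ := poly_of_pl hne h
      exact ⟨_, hmem e he, _, hmem e' he', h1, h2⟩
    · obtain ⟨h1, h2⟩ := poly_of_pl hne h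
      rw [h0] at h1 h2
      exact ⟨_, hmem e he, 0, Finset.mem_insert_self _ _, h1, h2⟩

end Pool.Agent.H88.GA.Tri
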