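import Mathlib
import Pool.Agent.H88.GATri

set_option autoImplicit false
set_option linter.unusedSectionVars false

namespace Pool.Agent.H88.GA.Tri

open Classical

variable {K G L : Type} [Field K] [AddCommGroup G] [Module K G] [Fintype G] [Fintype L] {n : ℕ}

/-- the inputs without a zero triangle -/
noncomputable def noZero {Z : Type} (n : ℕ) (c : Z → G) (I : Finset Z) : Finset (Var n → Z) :=
  (cube n I).filter fun w => ∀ T : Fin n × Fin n × Fin n,
    c (w (dir 0 T)) + c (w (dir 1 T)) + c (w (dir 2 T)) ≠ 0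

/-- the form of a triangle -/
noncomputable def zf (K G : Type) [Field K] [AddCommGroup G] [Module K G]
    (T : Fin n × Fin n × Fin n) : Form K G n :=
  (fun v => (if v = dir 0 T then 1 else 0) + (if v = dir 1 T then 1 else 0) +
    (if v = dir 2 T then 1 else 0), 0)

theorem ev_zf (T : Fin n × Fin n × Fin n) (w : Var n → G) :
    (sys K G n).ev (zf K G T) w = w (dir 0 T) + w (dir 1 T) + w (dir 2 T) := by
  simp only [sys, zf, add_zero, add_smul, Finset.sum_add_distrib, ite_smul, one_smul, zero_smul,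
    Finset.sum_ite_eq', Finset.mem_univ, if_true]

theorem zf_ne (T : Fin n × Fin n × Fin n) : zf K G T ≠ (0, 0) := by
  intro h
  have h1 := congrFun (congrArg Prod.fst h) (dir 0 T)
  simp [zf, dir_inj (show (0 : Fin 3) ≠ 1 by decide) T T,
    dir_inj (show (0 : Fin 3) ≠ 2 by decide) T T] at h1

theorem noZero_card {Z : Type} (K : Type) [Field K] [Module K G] (c : Z → G) (I : Finset Z)
    (hc : Set.InjOn c I) :
    I.card * (cube n I).card ≤ I.card * (noZero n c I).card + n ^ 3 * (cube n I).card := by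
  have h1 : (noZero n c I).card + ((cube n I).filter fun w => ¬ ∀ T : Fin n × Fin n × Fin n,
      c (w (dir 0 T)) + c (w (dir 1 T)) + c (w (dir 2 T)) ≠ 0).card = (cube n I).card :=
    Finset.card_filter_add_card_filter_not _
  have hsub : ((cube n I).filter fun w => ¬ ∀ T : Fin n × Fin n × Fin n,
      c (w (dir 0 T)) + c (w (dir 1 T)) + c (w (dir 2 T)) ≠ 0) ⊆
      (Finset.univ : Finset (Fin n × Fin n × Fin n)).biUnion fun T =>
        (cube n I).filter fun w => (sys K G n).ev (zf K G T) (fun v => c (w v)) =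
          (sys K G n).ev (0, 0) (fun v => c (w v)) := by
    intro w hw
    rw [Finset.mem_filter] at hw
    obtain ⟨hw, h2⟩ := hw
    push Not at h2
    obtain ⟨T, hT⟩ := h2
    rw [Finset.mem_biUnion]
    refine ⟨T, Finset.mem_univ _, Finset.mem_filter.2 ⟨hw, ?_⟩⟩
    rw [ev_zf, hT]
    simp [sys]
  have h3 := (Finset.card_le_card hsub).trans Finset.card_biUnion_le
  have h4 : I.card * ∑ T : Fin n × Fin n × Fin n,
      ((cube n I).filter fun w => (sys K G n).ev (zf K G T) (fun v => c (w v)) =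
          (sys K G n).ev (0, 0) (fun v => c (w v))).card ≤ n ^ 3 * (cube n I).card := by
    rw [Finset.mul_sum]
    calc _ ≤ ∑ _T : Fin n × Fin n × Fin n, (cube n I).card :=
          Finset.sum_le_sum fun T _ => count_eq c I hc _ _ (zf_ne T)
      _ = n ^ 3 * (cube n I).card := by
          rw [Finset.sum_const, Finset.card_univ, smul_eq_mul]
          simp only [Fintype.card_prod, Fintype.card_fin]
          ring
  calc I.card * (cube n I).card = I.card * (noZero n c I).card + I.card *
        ((cube n I).filter fun w => ¬ ∀ T : Fin n × Fin n × Fin n,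
      c (w (dir 0 T)) + c (w (dir 1 T)) + c (w (dir 2 T)) ≠ 0).card := by
        rw [← mul_add, h1]
    _ ≤ I.card * (noZero n c I).card + I.card * ∑ T : Fin n × Fin n × Fin n,
      ((cube n I).filter fun w => (sys K G n).ev (zf K G T) (fun v => c (w v)) =
          (sys K G n).ev (0, 0) (fun v => c (w v))).card := by
        gcongr
    _ ≤ _ := by gcongr

theorem init_length : (sys K G n).init.length = 3 * n ^ 2 := by
  simp only [sys, List.length_map, Finset.length_toList, Finset.card_univ, Fintype.card_prod,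
    Fintype.card_fin]
  ring

/-- the bad inputs without a zero triangle -/
theorem bad_noZero {Z : Type} (c : Z → G) (I : Finset Z) (hc : Set.InjOn c I)
    (P : Finset (G × L)) (τ : List (Form K G n × L)) (r s : ℕ)
    (hτ : τ.length ≤ r) (hP : P.card ≤ s) :
    I.card * ((noZero n c I).filter fun w =>
      ¬ Good (sys K G n) P (fun v => c (w v)) τ).card ≤ r * (r + s) * (cube n I).card := by
  refine le_trans (Nat.mul_le_mul_left _ (Finset.card_le_card ?_))
    (bad_count c I hc id id (fun _ _ => rfl) P τ (fun _ _ _ _ h => h) (fun _ _ _ _ h => h) r s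
      hτ hP)
  intro w hw
  rw [Finset.mem_filter] at hw ⊢
  exact ⟨(Finset.mem_filter.1 hw.1).1, hw.2⟩

/-- the bad planted inputs -/
theorem bad_planted {Z : Type} (c : Z → G) (I : Finset Z) (hc : Set.InjOn c I)
    (P : Finset (G × L)) (τ : List (Form K G n × L)) (r s : ℕ)
    (hτ : τ.length ≤ r) (hP : P.card ≤ s) :
    I.card * ((((Finset.univ : Finset (Fin n × Fin n × Fin n)) ×ˢ cube n I)).filter fun i =>
      ¬ Good (sys K G n) P (plant i.1 fun v => c (i.2 v)) τ).card ≤
      I.card * ((r + 1) * (3 * (Nat.log 2 (r + 1)) ^ 2) * (cube n I).card) +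
        n ^ 3 * (r * (r + s) * (cube n I).card) := by
  have e1 : ((((Finset.univ : Finset (Fin n × Fin n × Fin n)) ×ˢ cube n I)).filter fun i =>
      ¬ Good (sys K G n) P (plant i.1 fun v => c (i.2 v)) τ).card =
      ∑ T : Fin n × Fin n × Fin n, ((cube n I).filter fun w =>
        ¬ Good (sys K G n) P (plant T fun v => c (w v)) τ).card := by
    rw [Finset.card_filter, Finset.sum_product]
    refine Finset.sum_congr rfl fun T _ => ?_
    rw [Finset.card_filter]
  rw [e1, ← Finset.sum_filter_add_sum_filter_not Finset.univ (fun T => T ∈ Cov P τ), mul_add]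
  refine Nat.add_le_add ?_ ?_
  · refine Nat.mul_le_mul_left _ ?_
    calc ∑ T ∈ Finset.univ.filter (fun T => T ∈ Cov P τ), _
        ≤ ∑ T ∈ Finset.univ.filter (fun T => T ∈ Cov P τ), (cube n I).card :=
          Finset.sum_le_sum fun T _ => Finset.card_filter_le _ _
      _ = (Cov P τ).card * (cube n I).card := by
          rw [Finset.sum_const, smul_eq_mul]
          congr 2
          ext T
          simp
      _ ≤ _ := Nat.mul_le_mul_right _ (cov_card P τ r hτ)
  · rw [Finset.mul_sum]
    calc ∑ T ∈ Finset.univ.filter (fun T => ¬ T ∈ Cov P τ), _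
        ≤ ∑ T ∈ Finset.univ.filter (fun T => ¬ T ∈ Cov P τ), r * (r + s) * (cube n I).card := by
          refine Finset.sum_le_sum fun T hT => ?_
          have hT' := (Finset.mem_filter.1 hT).2
          unfold Cov at hT'
          rw [Finset.mem_filter] at hT'
          push Not at hT'
          obtain ⟨h1, h2⟩ := hT' (Finset.mem_univ _)
          exact bad_count c I hc (plant T) (pl T) (fun f w => ev_plant T f w) P τ
            (fun e he e' he' hne => h1 e he e' he' hne) (fun e he d hd hne => h2 e he d hd hne)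
            r s hτ hP
      _ ≤ ∑ T : Fin n × Fin n × Fin n, r * (r + s) * (cube n I).card :=
          Finset.sum_le_sum_of_subset (Finset.filter_subset _ _)
      _ = _ := by
          rw [Finset.sum_const, Finset.card_univ, smul_eq_mul]
          simp only [Fintype.card_prod, Fintype.card_fin]
          ring

/-- **The main bound.** -/
theorem main {Z : Type} (K : Type) [Field K] [Module K G] (c : Z → G) (I : Finset Z)
    (hc : Set.InjOn c I) (hn : 0 < n)
    (hN : Nonempty (G ≃ L)) (S T : ℕ) (δ : ℝ) (hδ : 0 < δ) {Ω : Type} [Fintype Ω] (p : Ω → ℝ)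
    (hp : ∀ ω, 0 ≤ p ω) (hp1 : ∑ ω, p ω = 1) (D : Ω → DS (Form K G n) G L (2 ^ S))
    (hD : 1 / 2 + δ ≤ expected
      (fun i : (Fin n × Fin n × Fin n) × (Var n → Z) => plant i.1 fun v => c (i.2 v))
      (fun w : Var n → Z => fun v => c (w v)) (sys K G n) T
      ((Finset.univ : Finset (Fin n × Fin n × Fin n)) ×ˢ cube n I) (noZero n c I) p D)
    (hbig : 18 * ((T : ℝ) + 3 * n ^ 2) ^ 2 * (S + 1) ≤ δ ^ 2 * I.card) :
    δ * n ^ 3 ≤ 12 * ((T + 3 * n ^ 2 + 1 : ℕ) : ℝ) * (Nat.log 2 (T + 3 * n ^ 2 + 1) : ℝ) ^ 2 := by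
  by_contra hcon
  push Not at hcon
  set r : ℕ := T + 3 * n ^ 2 with hr
  have hrR : (r : ℝ) = (T : ℝ) + 3 * n ^ 2 := by rw [hr]; push_cast; ring
  rw [← hrR] at hbig
  have hr1 : 3 ≤ r := by
    have : 1 ≤ n ^ 2 := Nat.one_le_pow _ _ hn
    omega
  have hr1R : (3 : ℝ) ≤ r := by exact_mod_cast hr1
  have hδ2 : δ ≤ 1 / 2 := by
    have := expected_le_one _ _ (M := sys K G n) T _ _ p hp hp1 D |>.trans' hD
    linarith
  set i : ℝ := (I.card : ℝ) with hi
  have hS0 : (0 : ℝ) ≤ S := by positivity
  have hipos : 0 < i := by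
    have h1 : 0 < 18 * (r : ℝ) ^ 2 * (S + 1) := by positivity
    have h2 : 0 < δ ^ 2 * i := lt_of_lt_of_le h1 hbig
    exact pos_of_mul_pos_right h2 (by positivity)
  have hIpos : 0 < I.card := by
    have : (0 : ℝ) < (I.card : ℝ) := hipos
    exact_mod_cast this
  -- the number of the repetitions
  set k : ℕ := ⌊3 * (S : ℝ) / (2 * δ)⌋₊ + 1 with hk
  have hk1 : (3 * (S : ℝ) / (2 * δ)) < k := by
    rw [hk]
    push_cast
    exact Nat.lt_floor_add_one _
  have hk2 : (k : ℝ) ≤ 3 * (S + 1) / (2 * δ) := by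
    rw [hk]
    push_cast
    have h1 := Nat.floor_le (show 0 ≤ 3 * (S : ℝ) / (2 * δ) by positivity)
    have h2 : (1 : ℝ) ≤ 3 / (2 * δ) := by
      rw [le_div_iff₀ (by positivity)]
      linarith
    calc (⌊3 * (S : ℝ) / (2 * δ)⌋₊ : ℝ) + 1 ≤ 3 * (S : ℝ) / (2 * δ) + 3 / (2 * δ) := by
          linarith
      _ = 3 * (S + 1) / (2 * δ) := by ring
  have hk3 : 1 ≤ k := by omega
  have hkR : (1 : ℝ) ≤ k := by exact_mod_cast hk3
  -- `3 k r² / i ≤ δ / 4`
  have hkey : 12 * k * (r : ℝ) ^ 2 ≤ δ * i := by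
    have h1 : 12 * (k : ℝ) * r ^ 2 ≤ 12 * (3 * (S + 1) / (2 * δ)) * r ^ 2 := by gcongr
    have h2 : 12 * (3 * ((S : ℝ) + 1) / (2 * δ)) * r ^ 2 = 18 * r ^ 2 * (S + 1) / δ := by
      field_simp
      ring
    rw [h2] at h1
    refine h1.trans ?_
    rw [div_le_iff₀ hδ]
    calc _ ≤ _ := hbig
      _ = _ := by ring
  set s : ℕ := (k - 1) * r with hs
  have hrs : r + s = k * r := by
    obtain ⟨k', hk'⟩ : ∃ k', k = k' + 1 := ⟨k - 1, by omega⟩
    rw [hs, hk', Nat.add_sub_cancel]
    ring
  set N : ℝ := ((cube n I).card : ℝ) with hNdef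
  have hNpos : 0 < (cube n I).card := by
    unfold cube
    rw [Fintype.card_piFinset]
    exact Finset.prod_pos fun _ _ => hIpos
  have hNR : 0 < N := by rw [hNdef]; exact_mod_cast hNpos
  have hn3 : (0 : ℝ) < (n : ℝ) ^ 3 := by positivity
  -- the size of `R`
  set R := noZero n c I with hRdef
  have hR1 : i * N ≤ i * R.card + (n : ℝ) ^ 3 * N := by
    have := noZero_card K c I hc (n := n)
    rw [hi, hNdef]
    exact_mod_cast this
  have hn3i : 2 * (n : ℝ) ^ 3 ≤ i := by
    have h1 : (n : ℝ) ^ 3 ≤ (r : ℝ) ^ 2 := by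
      have h2 : n ^ 3 ≤ r ^ 2 := by
        have h4 : n ^ 2 ≤ r := by omega
        calc n ^ 3 ≤ n ^ 4 := Nat.pow_le_pow_right hn (by norm_num)
          _ = (n ^ 2) ^ 2 := by ring
          _ ≤ r ^ 2 := Nat.pow_le_pow_left h4 2
      exact_mod_cast h2
    have h3 : 12 * (1 : ℝ) * r ^ 2 ≤ 12 * k * r ^ 2 := by gcongr
    have h4 : δ * i ≤ 1 / 2 * i := by gcongr
    nlinarith
  have hR2 : N / 2 ≤ R.card := by
    have h1 : i * (N / 2) ≤ i * R.card := by nlinarith
    exact le_of_mul_le_mul_left h1 hipos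
  have hR3 : 0 < R.card := by
    have : (0 : ℝ) < R.card := by linarith
    exact_mod_cast this
  have hR4 : (0 : ℝ) < R.card := by exact_mod_cast hR3
  set C := (Finset.univ : Finset (Fin n × Fin n × Fin n)) ×ˢ cube n I with hCdef
  have hC1 : C.card = n ^ 3 * (cube n I).card := by
    rw [hCdef, Finset.card_product, Finset.card_univ]
    simp only [Fintype.card_prod, Fintype.card_fin]
    ring
  have hC2 : 0 < C.card := by rw [hC1]; positivity
  have hC3 : (C.card : ℝ) = n ^ 3 * N := by rw [hC1, hNdef]; push_cast; ring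
  set cov : ℝ := ((r + 1 : ℕ) : ℝ) * (3 * (Nat.log 2 (r + 1) : ℝ) ^ 2) with hcov
  have hcov0 : 0 ≤ cov := by positivity
  set b : ℝ := k * (r : ℝ) ^ 2 / i * N with hb
  have hb0 : 0 ≤ b := by positivity
  have hlen : (sys K G n).init.length + T = r := by rw [init_length, hr]; ring
  have hbound : ∀ (A : Alg (Form K G n) L) (P : Finset (G × L)), P.card ≤ s →
      ∑ σ ∈ ext P, succ
        (fun i : (Fin n × Fin n × Fin n) × (Var n → Z) => plant i.1 fun v => c (i.2 v))
        (fun w : Var n → Z => fun v => c (w v)) (sys K G n) A T C R σ ≤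
        (1 / 2 + (b / R.card + (cov * N + n ^ 3 * b) / C.card)) * (ext P).card := by
    intro A P hP
    refine succ_step _ _ A P C R T b (cov * N + n ^ 3 * b) hR3 hC2 hb0 ?_ ?_ ?_
    · intro τ hτ
      rw [hlen] at hτ
      have h1 := bad_noZero (K := K) c I hc P τ r s hτ hP
      rw [hrs] at h1
      have h2 : i * (((R.filter fun j => ¬ Good (sys K G n) P (fun v => c (j v)) τ).card : ℕ) : ℝ)
          ≤ r * (k * r) * N := by
        rw [hi, hNdef]
        exact_mod_cast h1
      rw [hb, div_mul_eq_mul_div, le_div_iff₀ hipos]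
      calc _ = _ := mul_comm _ _
        _ ≤ _ := h2
        _ = _ := by ring
    · have h1 : 2 * b ≤ N / 2 := by
        have h3 : b * i = k * r ^ 2 * N := by rw [hb]; field_simp
        have h4 : (4 * b) * i ≤ N * i := by
          have h5 : 4 * (k * (r : ℝ) ^ 2) ≤ i := by nlinarith
          calc (4 * b) * i = 4 * (k * (r : ℝ) ^ 2) * N := by linear_combination 4 * h3
            _ ≤ i * N := by gcongr
            _ = _ := by ring
        have h6 := le_of_mul_le_mul_right h4 hipos
        linarith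
      linarith
    · intro τ hτ
      rw [hlen] at hτ
      have h1 := bad_planted (K := K) c I hc P τ r s hτ hP
      rw [hrs] at h1
      have h2 : i * (((C.filter fun j => ¬ Good (sys K G n) P
          (plant j.1 fun v => c (j.2 v)) τ).card : ℕ) : ℝ) ≤
          i * (cov * N) + n ^ 3 * (r * (k * r) * N) := by
        rw [hi, hNdef, hcov]
        exact_mod_cast h1
      have h3 : n ^ 3 * (r * (k * r) * N) = i * (n ^ 3 * b) := by
        rw [hb]
        field_simp
      rw [h3, ← mul_add] at h2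
      exact le_of_mul_le_mul_left h2 hipos
  have hε : b / R.card + (cov * N + n ^ 3 * b) / C.card ≤ δ / 2 := by
    have h0 : k * (r : ℝ) ^ 2 / i ≤ δ / 12 := by
      rw [div_le_iff₀ hipos]
      nlinarith
    have h1 : b / R.card ≤ δ / 6 := by
      rw [div_le_iff₀ hR4, hb]
      calc k * (r : ℝ) ^ 2 / i * N ≤ δ / 12 * N := by gcongr
        _ = δ / 6 * (N / 2) := by ring
        _ ≤ δ / 6 * R.card := by gcongr
    have h2 : (cov * N + n ^ 3 * b) / C.card = cov / n ^ 3 + k * (r : ℝ) ^ 2 / i := by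
      rw [hC3, hb]
      field_simp
    have h3 : cov / n ^ 3 ≤ δ / 4 := by
      rw [div_le_iff₀ hn3]
      have : 4 * cov = 12 * ((r + 1 : ℕ) : ℝ) * (Nat.log 2 (r + 1) : ℝ) ^ 2 := by
        rw [hcov]; ring
      nlinarith
    rw [h2]
    linarith
  have hfin := bound_of_step
    (fun i : (Fin n × Fin n × Fin n) × (Var n → Z) => plant i.1 fun v => c (i.2 v))
    (fun w : Var n → Z => fun v => c (w v)) (M := sys K G n) C R T s r k hlen.le δ
    (b / R.card + (cov * N + n ^ 3 * b) / C.card) hδ (by positivity) hε hN hbound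
    (by rw [← hrs]; omega) p hp hp1 D hD
  have h1 : 2 * δ / 3 * (3 * (S : ℝ) / (2 * δ)) < 2 * δ / 3 * k := by
    gcongr
  have h2 : 2 * δ / 3 * (3 * (S : ℝ) / (2 * δ)) = S := by
    field_simp
  rw [h2] at h1
  linarith

end Pool.Agent.H88.GA.Tri
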