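import Mathlib

/-!
# Data structures in groups with random labels: the model

`G` is a finite vector space over the finite field `K` (for example `G = K = ZMod p`), `L` is the set
of the labels.  The elements of `G` are named by labels; the encoding is a bijection `σ : G ≃ L`.
-/

set_option autoImplicit false

namespace Pool.Agent.H88.GG

/-- An affine form `z ↦ c • z + u` of the unknown element `z`. -/
abbrev Form (K G : Type) : Type := K × G

/-- The value of the form `(c, u)` at `z`. -/
def ev {K G : Type} [Field K] [AddCommGroup G] [Module K G] (f : Form K G) (z : G) : G :=
  f.1 • z + f.2

/-- One step of a query algorithm: it asks for the label of the element `c • z + u`, where `z` is the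
unknown element behind the label of the query (`eval (c, u)`), or for the element behind the label
`l` (`inv l`). -/
inductive Step (K G L : Type) : Type
  | eval (f : Form K G)
  | inv (l : L)

/-- A query algorithm.  The next step and the output are arbitrary functions of all pairs
(form, label) which have been learnt so far. -/
structure Alg (K G L : Type) where
  next : List (Form K G × L) → Step K G L
  out : List (Form K G × L) → Bool

section

variable {K G L : Type} [Field K] [AddCommGroup G] [Module K G]

open Classical in
/-- What is learnt by a step.  A label `l` can be decoded only if it has not been obtained during the
computation (the elements behind the labels obtained are known as forms of `z` only); otherwise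
nothing new is learnt. -/
noncomputable def reply (σ : G ≃ L) (z : G) (h : List (Form K G × L)) :
    Step K G L → Form K G × L
  | .eval f => (f, σ (ev f z))
  | .inv l => if l ∈ h.map Prod.snd then ((1, 0), σ z) else ((0, σ.symm l), l)

/-- The pairs (form, label) learnt in the first `t` steps on the query whose label is `σ z`
(latest first). -/
noncomputable def trans (A : Alg K G L) (σ : G ≃ L) (z : G) : ℕ → List (Form K G × L)
  | 0 => [((1, 0), σ z)]
  | t + 1 => reply σ z (trans A σ z t) (A.next (trans A σ z t)) :: trans A σ z t

/-- The answer after `t` steps to the query whose label is `σ z`. -/
noncomputable def answer (A : Alg K G L) (t : ℕ) (σ : G ≃ L) (z : G) : Bool :=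
  A.out (trans A σ z t)

/-- A data structure with `m` possible contents of the memory: `memory σ` is the content, which may
depend in any way on the encoding `σ`; `alg` is the query algorithm, which knows the memory. -/
structure DS (K G L : Type) (m : ℕ) where
  memory : (G ≃ L) → Fin m
  alg : Fin m → Alg K G L

/-- The answer of a data structure after `t` steps to the query whose label is `σ z`. -/
noncomputable def DS.answer {m : ℕ} (D : DS K G L m) (t : ℕ) (σ : G ≃ L) (z : G) : Bool :=
  GG.answer (D.alg (D.memory σ)) t σ z

end

end Pool.Agent.H88.GG
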