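import Mathlib
import Pool.Agent.H88.GGModel

set_option autoImplicit false
set_option linter.unusedSectionVars false

namespace Pool.Agent.H88.GG

open Classical

variable {K G L : Type} [Field K] [AddCommGroup G] [Module K G] [Fintype G] [Fintype L]

/-- the encodings which extend a finite set of pairs -/
noncomputable def ext (P : Finset (G × L)) : Finset (G ≃ L) :=
  Finset.univ.filter fun σ => ∀ e ∈ P, σ e.1 = e.2

theorem mem_ext {P : Finset (G × L)} {σ : G ≃ L} : σ ∈ ext P ↔ ∀ e ∈ P, σ e.1 = e.2 := by
  simp [ext]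

/-- the pairs (element, label) of a transcript, if the unknown is `z` -/
noncomputable def prs (z : G) (τ : List (Form K G × L)) : Finset (G × L) :=
  (τ.map fun e => (ev e.1 z, e.2)).toFinset

theorem prs_card (z : G) (τ : List (Form K G × L)) : (prs z τ).card ≤ τ.length := by
  unfold prs
  exact (List.toFinset_card_le _).trans (by simp)

theorem mem_ext_prs {z : G} {τ : List (Form K G × L)} {σ : G ≃ L} :
    σ ∈ ext (prs z τ) ↔ ∀ e ∈ τ, σ (ev e.1 z) = e.2 := by
  rw [mem_ext]
  unfold prs
  constructor
  · intro h e he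
    exact h (ev e.1 z, e.2) (by
      rw [List.mem_toFinset, List.mem_map]
      exact ⟨e, he, rfl⟩)
  · intro h e he
    rw [List.mem_toFinset, List.mem_map] at he
    obtain ⟨e', he', rfl⟩ := he
    exact h e' he'

theorem mem_ext_union {P Q : Finset (G × L)} {σ : G ≃ L} :
    σ ∈ ext (P ∪ Q) ↔ σ ∈ ext P ∧ σ ∈ ext Q := by
  simp only [mem_ext, Finset.mem_union]
  constructor
  · intro h
    exact ⟨fun e he => h e (Or.inl he), fun e he => h e (Or.inr he)⟩
  · rintro ⟨h1, h2⟩ e (he | he)
    · exact h1 e he
    · exact h2 e he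

/-- `e` is a possible result of the step after the transcript `τ` -/
def Ok (A : Alg K G L) (τ : List (Form K G × L)) (e : Form K G × L) : Prop :=
  match A.next τ with
  | .eval f => e.1 = f
  | .inv l => if l ∈ τ.map Prod.snd then e.1 = (1, 0) else e.1.1 = 0 ∧ e.2 = l

/-- `τ` is a possible transcript of length `t + 1` -/
def Valid (A : Alg K G L) : ℕ → List (Form K G × L) → Prop
  | 0, τ => ∃ l, τ = [((1, 0), l)]
  | t + 1, τ => ∃ e τ', τ = e :: τ' ∧ Valid A t τ' ∧ Ok A τ' e

theorem ev_one (z : G) : ev ((1, 0) : Form K G) z = z := by simp [ev]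

theorem ev_zero (x z : G) : ev ((0, x) : Form K G) z = x := by simp [ev]

theorem trans_length (A : Alg K G L) (σ : G ≃ L) (z : G) (t : ℕ) :
    (trans A σ z t).length = t + 1 := by
  induction t with
  | zero => rfl
  | succ t ih => simp [trans, ih]

theorem trans_iff (A : Alg K G L) (σ : G ≃ L) (z : G) (t : ℕ) (τ : List (Form K G × L)) :
    trans A σ z t = τ ↔ Valid A t τ ∧ ∀ e ∈ τ, σ (ev e.1 z) = e.2 := by
  induction t generalizing τ with
  | zero =>
    constructor
    · rintro rfl
      refine ⟨⟨σ z, rfl⟩, ?_⟩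
      intro e he
      simp only [trans, List.mem_singleton] at he
      subst he
      simp [ev_one]
    · rintro ⟨⟨l, rfl⟩, h⟩
      have := h ((1, 0), l) (by simp)
      simp only [ev_one] at this
      simp [trans, this]
  | succ t ih =>
    constructor
    · rintro rfl
      obtain ⟨h1, h2⟩ := (ih (trans A σ z t)).1 rfl
      refine ⟨⟨_, _, rfl, h1, ?_⟩, ?_⟩
      · unfold Ok
        cases hn : A.next (trans A σ z t) with
        | eval f => simp [reply]
        | inv l =>
          simp only [reply]
          by_cases hl : l ∈ (trans A σ z t).map Prod.snd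
          · rw [if_pos hl, if_pos hl]
          · rw [if_neg hl, if_neg hl]
            exact ⟨rfl, rfl⟩
      · intro e he
        rw [trans, List.mem_cons] at he
        rcases he with rfl | he
        · cases hn : A.next (trans A σ z t) with
          | eval f => simp [reply]
          | inv l =>
            simp only [reply]
            by_cases hl : l ∈ (trans A σ z t).map Prod.snd
            · rw [if_pos hl]
              simp [ev_one]
            · rw [if_neg hl]
              simp [ev_zero]
        · exact h2 e he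
    · rintro ⟨⟨e, τ', rfl, hv, hok⟩, h⟩
      have e1 : trans A σ z t = τ' := (ih τ').2 ⟨hv, fun e he => h e (List.mem_cons_of_mem _ he)⟩
      have e2 := h e (List.mem_cons_self)
      rw [trans, e1]
      congr 1
      unfold Ok at hok
      cases hn : A.next τ' with
      | eval f =>
        rw [hn] at hok
        simp only at hok
        simp only [reply]
        rw [← hok, e2]
      | inv l =>
        rw [hn] at hok
        simp only at hok
        simp only [reply]
        by_cases hl : l ∈ τ'.map Prod.snd
        · rw [if_pos hl] at hok ⊢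
          rw [hok, ev_one] at e2
          rw [e2, ← hok]
        · rw [if_neg hl] at hok ⊢
          obtain ⟨h3, h4⟩ := hok
          have h5 : e.1 = (0, e.1.2) := Prod.ext h3 rfl
          rw [h5, ev_zero, h4] at e2
          rw [← e2, Equiv.symm_apply_apply, ← h5, e2, ← h4]

/-- the first pair of a transcript (which is the last in the list) is in it -/
theorem one_mem_trans (A : Alg K G L) (σ : G ≃ L) (z : G) (t : ℕ) :
    (((1, 0), σ z) : Form K G × L) ∈ trans A σ z t := by
  induction t with
  | zero => simp [trans]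
  | succ t ih => rw [trans]; exact List.mem_cons_of_mem _ ih

/-- `z` is good for the transcript `τ` if no two different forms of `τ` take the same value at `z`,
and no form of `τ` takes a value in the domain of `P`, except for the constant form. -/
def Good (P : Finset (G × L)) (z : G) (τ : List (Form K G × L)) : Prop :=
  (∀ e ∈ τ, ∀ e' ∈ τ, ev e.1 z = ev e'.1 z → e.1 = e'.1) ∧
    ∀ e ∈ τ, ∀ d ∈ P, ev e.1 z = d.1 → e.1 = (0, d.1)

theorem Good.tail {P : Finset (G × L)} {z : G} {e : Form K G × L} {τ : List (Form K G × L)}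
    (h : Good P z (e :: τ)) : Good P z τ :=
  ⟨fun a ha b hb => h.1 a (List.mem_cons_of_mem _ ha) b (List.mem_cons_of_mem _ hb),
    fun a ha => h.2 a (List.mem_cons_of_mem _ ha)⟩

/-- a permutation which maps one family to another one -/
theorem exists_perm {ι : Type} (f g : ι → G) (h : ∀ i j, f i = f j ↔ g i = g j) :
    ∃ ρ : Equiv.Perm G, ∀ i, ρ (f i) = g i := by
  classical
  let F : {x // x ∈ Set.range f} → {x // x ∈ Set.range g} := fun x => ⟨g x.2.choose, ⟨_, rfl⟩⟩
  have hF : ∀ i, F ⟨f i, ⟨i, rfl⟩⟩ = ⟨g i, ⟨i, rfl⟩⟩ := by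
    intro i
    apply Subtype.ext
    have h1 : f (Exists.choose (⟨i, rfl⟩ : f i ∈ Set.range f)) = f i :=
      (⟨i, rfl⟩ : f i ∈ Set.range f).choose_spec
    exact (h _ _).1 h1
  have hbij : Function.Bijective F := by
    constructor
    · rintro ⟨x, i, rfl⟩ ⟨y, j, rfl⟩ hxy
      rw [hF, hF] at hxy
      have := congrArg Subtype.val hxy
      exact Subtype.ext ((h i j).2 this)
    · rintro ⟨y, i, rfl⟩
      exact ⟨⟨f i, ⟨i, rfl⟩⟩, hF i⟩
  let e : {x // x ∈ Set.range f} ≃ {x // x ∈ Set.range g} := Equiv.ofBijective F hbij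
  refine ⟨e.extendSubtype, fun i => ?_⟩
  rw [Equiv.extendSubtype_apply_of_mem e (f i) ⟨i, rfl⟩]
  exact congrArg Subtype.val (hF i)

theorem card_le_of_good {P : Finset (G × L)} {z z' : G} {τ : List (Form K G × L)}
    (h : Good P z τ) (h' : Good P z' τ) :
    (ext (P ∪ prs z τ)).card ≤ (ext (P ∪ prs z' τ)).card := by
  let f : (↥P ⊕ {e // e ∈ τ}) → G := Sum.elim (fun d => d.1.1) (fun e => ev e.1.1 z)
  let g : (↥P ⊕ {e // e ∈ τ}) → G := Sum.elim (fun d => d.1.1) (fun e => ev e.1.1 z')
  have hfg : ∀ i j, f i = f j ↔ g i = g j := by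
    rintro (d | e) (d' | e')
    · rfl
    · simp only [f, g, Sum.elim_inl, Sum.elim_inr]
      constructor
      · intro hh
        rw [h.2 e'.1 e'.2 d.1 d.2 hh.symm, ev_zero]
      · intro hh
        rw [h'.2 e'.1 e'.2 d.1 d.2 hh.symm, ev_zero]
    · simp only [f, g, Sum.elim_inl, Sum.elim_inr]
      constructor
      · intro hh
        rw [h.2 e.1 e.2 d'.1 d'.2 hh, ev_zero]
      · intro hh
        rw [h'.2 e.1 e.2 d'.1 d'.2 hh, ev_zero]
    · simp only [f, g, Sum.elim_inr]
      constructor
      · intro hh
        rw [h.1 e.1 e.2 e'.1 e'.2 hh]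
      · intro hh
        rw [h'.1 e.1 e.2 e'.1 e'.2 hh]
  obtain ⟨ρ, hρ⟩ := exists_perm f g hfg
  refine Finset.card_le_card_of_injOn (fun σ => ρ.symm.trans σ) ?_ ?_
  · intro σ hσ
    rw [Finset.mem_coe] at hσ ⊢
    rw [mem_ext_union, mem_ext_prs, mem_ext] at hσ ⊢
    constructor
    · intro d hd
      have := hρ (Sum.inl ⟨d, hd⟩)
      simp only [f, g, Sum.elim_inl] at this
      have h2 : ρ.symm d.1 = d.1 := by
        rw [Equiv.symm_apply_eq, this]
      simp only [Equiv.trans_apply, h2]
      exact hσ.1 d hd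
    · intro e he
      have := hρ (Sum.inr ⟨e, he⟩)
      simp only [f, g, Sum.elim_inr] at this
      have h2 : ρ.symm (ev e.1 z') = ev e.1 z := by
        rw [Equiv.symm_apply_eq, this]
      simp only [Equiv.trans_apply, h2]
      exact hσ.2 e he
  · intro σ _ σ' _ hh
    simp only at hh
    have : ρ.trans (ρ.symm.trans σ) = ρ.trans (ρ.symm.trans σ') := by rw [hh]
    rwa [← Equiv.trans_assoc, ← Equiv.trans_assoc, Equiv.self_trans_symm, Equiv.refl_trans,
      Equiv.refl_trans] at this

theorem card_eq_of_good {P : Finset (G × L)} {z z' : G} {τ : List (Form K G × L)}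
    (h : Good P z τ) (h' : Good P z' τ) :
    (ext (P ∪ prs z τ)).card = (ext (P ∪ prs z' τ)).card :=
  le_antisymm (card_le_of_good h h') (card_le_of_good h' h)

end Pool.Agent.H88.GG
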