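import Mathlib
import Pool.Agent.H88.GGCore

set_option autoImplicit false
set_option linter.unusedSectionVars false

namespace Pool.Agent.H88.GG

open Classical

variable {K G L : Type} [Field K] [Fintype K] [AddCommGroup G] [Module K G] [Fintype G] [Fintype L]

/-- all transcripts -/
noncomputable def VV (A : Alg K G L) (t : ℕ) : Finset (List (Form K G × L)) :=
  (Finset.univ : Finset ((G ≃ L) × G)).image fun p => trans A p.1 p.2 t

theorem valid_of_mem {A : Alg K G L} {t : ℕ} {τ : List (Form K G × L)} (h : τ ∈ VV A t) :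
    Valid A t τ ∧ τ.length = t + 1 := by
  unfold VV at h
  rw [Finset.mem_image] at h
  obtain ⟨p, -, rfl⟩ := h
  exact ⟨((trans_iff A p.1 p.2 t _).1 rfl).1, trans_length A p.1 p.2 t⟩

theorem filter_trans {A : Alg K G L} {t : ℕ} {τ : List (Form K G × L)} (h : Valid A t τ)
    (P : Finset (G × L)) (z : G) :
    (ext P).filter (fun σ => trans A σ z t = τ) = ext (P ∪ prs z τ) := by
  ext σ
  rw [Finset.mem_filter, mem_ext_union, mem_ext_prs, trans_iff]
  constructor
  · rintro ⟨h1, -, h3⟩
    exact ⟨h1, h3⟩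
  · rintro ⟨h1, h3⟩
    exact ⟨h1, h, h3⟩

/-- sums over the encodings as sums over the transcripts -/
theorem sum_trans' (A : Alg K G L) (P : Finset (G × L)) (z : G) (t : ℕ)
    (F : List (Form K G × L) → ℝ) (g : (G ≃ L) → ℝ) :
    ∑ σ ∈ ext P, F (trans A σ z t) * g σ =
      ∑ τ ∈ VV A t, F τ * ∑ σ ∈ ext (P ∪ prs z τ), g σ := by
  have hmaps : ∀ σ ∈ ext P, trans A σ z t ∈ VV A t := by
    intro σ _
    unfold VV
    rw [Finset.mem_image]
    exact ⟨(σ, z), Finset.mem_univ _, rfl⟩
  rw [← Finset.sum_fiberwise_of_maps_to hmaps]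
  refine Finset.sum_congr rfl fun τ hτ => ?_
  rw [filter_trans (valid_of_mem hτ).1 P z |>.symm, Finset.mul_sum]
  refine Finset.sum_congr rfl fun σ hσ => ?_
  rw [(Finset.mem_filter.1 hσ).2]

theorem sum_trans (A : Alg K G L) (P : Finset (G × L)) (z : G) (t : ℕ)
    (F : List (Form K G × L) → ℝ) :
    ∑ σ ∈ ext P, F (trans A σ z t) =
      ∑ τ ∈ VV A t, F τ * ((ext (P ∪ prs z τ)).card : ℝ) := by
  have := sum_trans' A P z t F (fun _ => 1)
  simpa using this

/-- a good element has no more extensions than an average element of `R` -/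
theorem star {P : Finset (G × L)} {R : Finset G} {b : ℝ} {τ : List (Form K G × L)} {z : G}
    (hb : (((R.filter fun z' => ¬ Good P z' τ).card : ℕ) : ℝ) ≤ b) (hz : Good P z τ) :
    ((R.card : ℝ) - b) * ((ext (P ∪ prs z τ)).card : ℝ) ≤
      ∑ z' ∈ R, ((ext (P ∪ prs z' τ)).card : ℝ) := by
  have h1 : ∑ z' ∈ R.filter (fun z' => Good P z' τ), ((ext (P ∪ prs z' τ)).card : ℝ) ≤
      ∑ z' ∈ R, ((ext (P ∪ prs z' τ)).card : ℝ) :=
    Finset.sum_le_sum_of_subset_of_nonneg (Finset.filter_subset _ _) fun _ _ _ => by positivity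
  have h2 : ∑ z' ∈ R.filter (fun z' => Good P z' τ), ((ext (P ∪ prs z' τ)).card : ℝ) =
      ((R.filter (fun z' => Good P z' τ)).card : ℝ) * ((ext (P ∪ prs z τ)).card : ℝ) := by
    rw [Finset.sum_congr rfl (g := fun _ => ((ext (P ∪ prs z τ)).card : ℝ)), Finset.sum_const,
      nsmul_eq_mul]
    intro z' hz'
    rw [card_eq_of_good (Finset.mem_filter.1 hz').2 hz]
  have h3 : (R.card : ℝ) - b ≤ ((R.filter (fun z' => Good P z' τ)).card : ℝ) := by
    have : (R.filter (fun z' => Good P z' τ)).card + (R.filter (fun z' => ¬ Good P z' τ)).card =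
        R.card := Finset.card_filter_add_card_filter_not _
    have h4 : ((R.filter (fun z' => Good P z' τ)).card : ℝ) +
        ((R.filter (fun z' => ¬ Good P z' τ)).card : ℝ) = (R.card : ℝ) := by exact_mod_cast this
    linarith
  calc ((R.card : ℝ) - b) * ((ext (P ∪ prs z τ)).card : ℝ)
      ≤ ((R.filter (fun z' => Good P z' τ)).card : ℝ) * ((ext (P ∪ prs z τ)).card : ℝ) := by
        gcongr
    _ ≤ _ := by rw [← h2]; exact h1

/-- the next form of the algorithm collides at `z` -/
def Coll (A : Alg K G L) (P : Finset (G × L)) (z : G) (τ : List (Form K G × L)) : Prop :=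
  ∃ f, A.next τ = .eval f ∧ ((∃ e ∈ τ, ev e.1 z = ev f z ∧ e.1 ≠ f) ∨
    ∃ d ∈ P, ev f z = d.1 ∧ f ≠ (0, d.1))

theorem coll_of {A : Alg K G L} {P : Finset (G × L)} {σ : G ≃ L} {z : G} {t : ℕ}
    (h1 : Good P z (trans A σ z t)) (h2 : ¬ Good P z (trans A σ z (t + 1))) :
    Coll A P z (trans A σ z t) := by
  by_contra hc
  apply h2
  set τ := trans A σ z t with hτ
  have hcons : ∀ e ∈ τ, σ (ev e.1 z) = e.2 := ((trans_iff A σ z t τ).1 rfl).2
  have hone : (((1, 0), σ z) : Form K G × L) ∈ τ := one_mem_trans A σ z t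
  -- a new entry `e` is harmless if it collides only with equal forms
  have key : ∀ e : Form K G × L, (∀ a ∈ τ, ev a.1 z = ev e.1 z → a.1 = e.1) →
      (∀ d ∈ P, ev e.1 z = d.1 → e.1 = (0, d.1)) → Good P z (e :: τ) := by
    intro e h3 h4
    constructor
    · intro a ha a' ha' haa
      rw [List.mem_cons] at ha ha'
      rcases ha with rfl | ha <;> rcases ha' with rfl | ha'
      · rfl
      · exact (h3 a' ha' haa.symm).symm
      · exact h3 a ha haa
      · exact h1.1 a ha a' ha' haa
    · intro a ha d hd hda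
      rw [List.mem_cons] at ha
      rcases ha with rfl | ha
      · exact h4 d hd hda
      · exact h1.2 a ha d hd hda
  change Good P z (reply σ z τ (A.next τ) :: τ)
  apply key
  · intro a ha haa
    cases hn : A.next τ with
    | eval f =>
      rw [hn] at haa
      simp only [reply] at haa ⊢
      by_contra hne
      exact hc ⟨f, hn, Or.inl ⟨a, ha, haa, hne⟩⟩
    | inv l =>
      rw [hn] at haa
      simp only [reply] at haa ⊢
      by_cases hl : l ∈ τ.map Prod.snd
      · rw [if_pos hl] at haa ⊢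
        exact h1.1 a ha _ hone haa
      · rw [if_neg hl] at haa
        simp only [ev_zero] at haa
        exfalso
        apply hl
        rw [List.mem_map]
        refine ⟨a, ha, ?_⟩
        rw [← hcons a ha, haa, Equiv.apply_symm_apply]
  · intro d hd hda
    cases hn : A.next τ with
    | eval f =>
      rw [hn] at hda
      simp only [reply] at hda ⊢
      by_contra hne
      exact hc ⟨f, hn, Or.inr ⟨d, hd, hda, hne⟩⟩
    | inv l =>
      rw [hn] at hda
      simp only [reply] at hda ⊢
      by_cases hl : l ∈ τ.map Prod.snd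
      · rw [if_pos hl] at hda ⊢
        exact h1.2 _ hone d hd hda
      · rw [if_neg hl] at hda ⊢
        simp only [ev_zero] at hda
        simp only [hda]

theorem not_good_of_coll {A : Alg K G L} {P : Finset (G × L)} {σ : G ≃ L} {z z' : G} {t : ℕ}
    (h : Coll A P z (trans A σ z' t)) : ¬ Good P z (trans A σ z' (t + 1)) := by
  intro hg
  obtain ⟨f, hf, h1⟩ := h
  change Good P z (reply σ z' _ (A.next (trans A σ z' t)) :: trans A σ z' t) at hg
  rw [hf] at hg
  simp only [reply] at hg
  rcases h1 with ⟨e, he, h2, h3⟩ | ⟨d, hd, h2, h3⟩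
  · exact h3 (hg.1 e (List.mem_cons_of_mem _ he) (f, σ (ev f z')) (List.mem_cons_self) h2)
  · exact h3 (hg.2 (f, σ (ev f z')) (List.mem_cons_self) d hd h2)

/-- the indicator of a proposition -/
noncomputable def ind (p : Prop) : ℝ := if p then 1 else 0

theorem ind_nonneg (p : Prop) : 0 ≤ ind p := by unfold ind; split_ifs <;> norm_num

theorem ind_le_one (p : Prop) : ind p ≤ 1 := by unfold ind; split_ifs <;> norm_num

theorem ind_true {p : Prop} (h : p) : ind p = 1 := if_pos h

theorem ind_false {p : Prop} (h : ¬ p) : ind p = 0 := if_neg h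

theorem sum_ind {α : Type} (s : Finset α) (p : α → Prop) :
    ∑ a ∈ s, ind (p a) = ((s.filter p).card : ℝ) := by
  unfold ind
  rw [Finset.sum_ite]
  simp

theorem bad_bound (A : Alg K G L) (P : Finset (G × L)) (R : Finset G) (T : ℕ) (b : ℝ)
    (hR : 0 < R.card)
    (hb : ∀ τ : List (Form K G × L), τ.length ≤ T + 1 →
      (((R.filter fun z' => ¬ Good P z' τ).card : ℕ) : ℝ) ≤ b)
    (hb2 : 2 * b ≤ R.card) (z : G) (t : ℕ) (ht : t ≤ T) :
    ∑ σ ∈ ext P, ind (¬ Good P z (trans A σ z t)) ≤
      2 / (R.card : ℝ) * ∑ z' ∈ R, ∑ σ ∈ ext P, ind (¬ Good P z (trans A σ z' t)) := by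
  have hR' : (0 : ℝ) < R.card := by exact_mod_cast hR
  induction t with
  | zero =>
    have h1 : ∀ (σ : G ≃ L) (z' : G), Good P z (trans A σ z' 0) ↔
        Good P z (trans A σ z 0) := by
      intro σ z'
      simp only [trans, Good, List.mem_singleton, forall_eq]
    have h2 : ∀ z' ∈ R, ∑ σ ∈ ext P, ind (¬ Good P z (trans A σ z' 0)) =
        ∑ σ ∈ ext P, ind (¬ Good P z (trans A σ z 0)) := by
      intro z' _
      refine Finset.sum_congr rfl fun σ _ => ?_
      rw [h1 σ z']
    rw [Finset.sum_congr rfl h2, Finset.sum_const, nsmul_eq_mul]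
    have h3 : 0 ≤ ∑ σ ∈ ext P, ind (¬ Good P z (trans A σ z 0)) :=
      Finset.sum_nonneg fun _ _ => ind_nonneg _
    have h4 : 2 / (R.card : ℝ) * ((R.card : ℝ) * ∑ σ ∈ ext P, ind (¬ Good P z (trans A σ z 0))) =
        2 * ∑ σ ∈ ext P, ind (¬ Good P z (trans A σ z 0)) := by
      field_simp
    rw [h4]
    linarith
  | succ t ih =>
    have ih' := ih (by omega)
    -- the new bad encodings
    have h1 : ∑ σ ∈ ext P, ind (¬ Good P z (trans A σ z (t + 1))) ≤
        ∑ σ ∈ ext P, ind (¬ Good P z (trans A σ z t)) +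
          ∑ σ ∈ ext P, ind (Good P z (trans A σ z t) ∧ Coll A P z (trans A σ z t)) := by
      rw [← Finset.sum_add_distrib]
      refine Finset.sum_le_sum fun σ _ => ?_
      by_cases hg : Good P z (trans A σ z t)
      · by_cases hg' : Good P z (trans A σ z (t + 1))
        · rw [ind_false (not_not.2 hg')]
          exact add_nonneg (ind_nonneg _) (ind_nonneg _)
        · rw [ind_true (⟨hg, coll_of hg hg'⟩ :
            Good P z (trans A σ z t) ∧ Coll A P z (trans A σ z t))]
          have := ind_le_one (¬ Good P z (trans A σ z (t + 1)))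
          have := ind_nonneg (¬ Good P z (trans A σ z t))
          linarith
      · rw [ind_true hg]
        have := ind_le_one (¬ Good P z (trans A σ z (t + 1)))
        have := ind_nonneg (Good P z (trans A σ z t) ∧ Coll A P z (trans A σ z t))
        linarith
    have h2 : ∑ σ ∈ ext P, ind (Good P z (trans A σ z t) ∧ Coll A P z (trans A σ z t)) ≤
        2 / (R.card : ℝ) * ∑ z' ∈ R, ∑ σ ∈ ext P,
          ind (Good P z (trans A σ z' t) ∧ Coll A P z (trans A σ z' t)) := by
      rw [sum_trans A P z t (fun τ => ind (Good P z τ ∧ Coll A P z τ))]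
      rw [Finset.sum_congr rfl (fun z' _ =>
        sum_trans A P z' t (fun τ => ind (Good P z τ ∧ Coll A P z τ)))]
      rw [Finset.sum_comm, Finset.mul_sum]
      refine Finset.sum_le_sum fun τ hτ => ?_
      rw [← Finset.mul_sum]
      by_cases hg : Good P z τ ∧ Coll A P z τ
      · have hlen := (valid_of_mem hτ).2
        have h3 := star (hb τ (by omega)) hg.1
        rw [ind_true hg, one_mul, one_mul]
        rw [div_mul_eq_mul_div, le_div_iff₀ hR']
        have h5 : (0 : ℝ) ≤ ((ext (P ∪ prs z τ)).card : ℝ) := by positivity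
        nlinarith
      · rw [ind_false hg]
        simp
    have h3 : ∀ z' ∈ R, ∑ σ ∈ ext P, ind (¬ Good P z (trans A σ z' t)) +
        ∑ σ ∈ ext P, ind (Good P z (trans A σ z' t) ∧ Coll A P z (trans A σ z' t)) ≤
        ∑ σ ∈ ext P, ind (¬ Good P z (trans A σ z' (t + 1))) := by
      intro z' _
      rw [← Finset.sum_add_distrib]
      refine Finset.sum_le_sum fun σ _ => ?_
      by_cases hg : Good P z (trans A σ z' t)
      · rw [ind_false (not_not.2 hg), zero_add]
        by_cases hc : Coll A P z (trans A σ z' t)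
        · rw [ind_true (not_good_of_coll hc)]
          exact ind_le_one _
        · rw [ind_false (fun h => hc h.2)]
          exact ind_nonneg _
      · have hg' : ¬ Good P z (trans A σ z' (t + 1)) := fun h => hg h.tail
        rw [ind_true hg, ind_true hg', ind_false (fun h => hg h.1), add_zero]
    have h4 := Finset.sum_le_sum h3
    rw [Finset.sum_add_distrib] at h4
    have h5 : (0 : ℝ) ≤ 2 / (R.card : ℝ) := by positivity
    have h6 := mul_le_mul_of_nonneg_left h4 h5
    rw [mul_add] at h6
    linarith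

/-- **One query.**  An algorithm accepts an average element of `C` with hardly larger probability
than an average element of `R`. -/
theorem one_step (A : Alg K G L) (P : Finset (G × L)) (C R : Finset G) (T : ℕ) (b c : ℝ)
    (hR : 0 < R.card) (hC : 0 < C.card) (hb0 : 0 ≤ b)
    (hb : ∀ τ : List (Form K G × L), τ.length ≤ T + 1 →
      (((R.filter fun z' => ¬ Good P z' τ).card : ℕ) : ℝ) ≤ b)
    (hb2 : 2 * b ≤ R.card)
    (hc : ∀ τ : List (Form K G × L), τ.length ≤ T + 1 →
      (((C.filter fun z' => ¬ Good P z' τ).card : ℕ) : ℝ) ≤ c) :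
    (∑ z ∈ C, ∑ σ ∈ ext P, ind (answer A T σ z = true)) / C.card ≤
      (∑ z ∈ R, ∑ σ ∈ ext P, ind (answer A T σ z = true)) / R.card +
        (2 * b / R.card + 2 * c / C.card) * (ext P).card := by
  have hR' : (0 : ℝ) < R.card := by exact_mod_cast hR
  have hC' : (0 : ℝ) < C.card := by exact_mod_cast hC
  set W : ℝ := ((ext P).card : ℝ) with hW
  have hW0 : 0 ≤ W := by positivity
  set DR : ℝ := ∑ z ∈ R, ∑ σ ∈ ext P, ind (answer A T σ z = true) with hDR
  have hRb : (0 : ℝ) < (R.card : ℝ) - b := by linarith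
  have hDR0 : 0 ≤ DR := Finset.sum_nonneg fun _ _ => Finset.sum_nonneg fun _ _ => ind_nonneg _
  have hDR1 : DR ≤ R.card * W := by
    calc DR ≤ ∑ z ∈ R, ∑ σ ∈ ext P, (1 : ℝ) :=
          Finset.sum_le_sum fun _ _ => Finset.sum_le_sum fun _ _ => ind_le_one _
      _ = R.card * W := by simp [hW]
  -- good part
  have h1 : ∀ z ∈ C, ((R.card : ℝ) - b) * ∑ σ ∈ ext P,
      ind (Good P z (trans A σ z T) ∧ A.out (trans A σ z T) = true) ≤ DR := by
    intro z _
    rw [sum_trans A P z T (fun τ => ind (Good P z τ ∧ A.out τ = true)), Finset.mul_sum]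
    have : DR = ∑ τ ∈ VV A T, ∑ z' ∈ R, ind (A.out τ = true) *
        ((ext (P ∪ prs z' τ)).card : ℝ) := by
      rw [Finset.sum_comm, hDR]
      refine Finset.sum_congr rfl fun z' _ => ?_
      exact sum_trans A P z' T (fun τ => ind (A.out τ = true))
    rw [this]
    refine Finset.sum_le_sum fun τ hτ => ?_
    rw [← Finset.mul_sum]
    by_cases hg : Good P z τ ∧ A.out τ = true
    · have hlen := (valid_of_mem hτ).2
      rw [ind_true hg, ind_true hg.2, one_mul, one_mul]
      exact star (hb τ (by omega)) hg.1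
    · rw [ind_false hg, zero_mul, mul_zero]
      exact mul_nonneg (ind_nonneg _) (Finset.sum_nonneg fun _ _ => by positivity)
  have h2 : ∀ z ∈ C, ∑ σ ∈ ext P, ind (answer A T σ z = true) ≤
      DR / ((R.card : ℝ) - b) + ∑ σ ∈ ext P, ind (¬ Good P z (trans A σ z T)) := by
    intro z hz
    have h3 : ∑ σ ∈ ext P, ind (Good P z (trans A σ z T) ∧ A.out (trans A σ z T) = true) ≤
        DR / ((R.card : ℝ) - b) := by
      rw [le_div_iff₀ hRb, mul_comm]
      exact h1 z hz
    have h4 : ∑ σ ∈ ext P, ind (answer A T σ z = true) ≤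
        ∑ σ ∈ ext P, ind (Good P z (trans A σ z T) ∧ A.out (trans A σ z T) = true) +
          ∑ σ ∈ ext P, ind (¬ Good P z (trans A σ z T)) := by
      rw [← Finset.sum_add_distrib]
      refine Finset.sum_le_sum fun σ _ => ?_
      by_cases hg : Good P z (trans A σ z T)
      · by_cases ho : A.out (trans A σ z T) = true
        · rw [ind_true (⟨hg, ho⟩ : Good P z (trans A σ z T) ∧ A.out (trans A σ z T) = true)]
          have := ind_le_one (answer A T σ z = true)
          have := ind_nonneg (¬ Good P z (trans A σ z T))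
          linarith
        · rw [ind_false (show ¬ answer A T σ z = true from ho)]
          exact add_nonneg (ind_nonneg _) (ind_nonneg _)
      · rw [ind_true hg]
        have := ind_le_one (answer A T σ z = true)
        have := ind_nonneg (Good P z (trans A σ z T) ∧ A.out (trans A σ z T) = true)
        linarith
    linarith
  have h5 : ∑ z ∈ C, ∑ σ ∈ ext P, ind (¬ Good P z (trans A σ z T)) ≤ 2 * c * W := by
    calc ∑ z ∈ C, ∑ σ ∈ ext P, ind (¬ Good P z (trans A σ z T))
        ≤ ∑ z ∈ C, 2 / (R.card : ℝ) * ∑ z' ∈ R, ∑ σ ∈ ext P,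
            ind (¬ Good P z (trans A σ z' T)) :=
          Finset.sum_le_sum fun z _ => bad_bound A P R T b hR hb hb2 z T le_rfl
      _ = 2 / (R.card : ℝ) * ∑ z' ∈ R, ∑ σ ∈ ext P, ∑ z ∈ C,
            ind (¬ Good P z (trans A σ z' T)) := by
          rw [← Finset.mul_sum, Finset.sum_comm]
          congr 1
          refine Finset.sum_congr rfl fun z' _ => ?_
          rw [Finset.sum_comm]
      _ ≤ 2 / (R.card : ℝ) * ∑ z' ∈ R, ∑ σ ∈ ext P, c := by
          refine mul_le_mul_of_nonneg_left ?_ (by positivity)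
          refine Finset.sum_le_sum fun z' _ => Finset.sum_le_sum fun σ _ => ?_
          rw [sum_ind]
          refine le_trans (le_of_eq ?_) (hc _ (trans_length A σ z' T).le)
          congr!
      _ = 2 * c * W := by
          simp only [Finset.sum_const, nsmul_eq_mul]
          rw [← hW]
          field_simp
  have h6 : ∑ z ∈ C, ∑ σ ∈ ext P, ind (answer A T σ z = true) ≤
      C.card * (DR / ((R.card : ℝ) - b)) + 2 * c * W := by
    have h7 := Finset.sum_le_sum h2
    rw [Finset.sum_add_distrib, Finset.sum_const, nsmul_eq_mul] at h7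
    linarith
  have h8 : DR / ((R.card : ℝ) - b) ≤ DR / R.card + 2 * b / R.card * W := by
    rw [div_le_iff₀ hRb]
    have e1 : (DR / R.card + 2 * b / R.card * W) * ((R.card : ℝ) - b) =
        DR + (b / R.card) * (2 * W * ((R.card : ℝ) - b) - DR) := by
      field_simp
      ring
    rw [e1]
    have e2 : 0 ≤ b / (R.card : ℝ) := by positivity
    have e3 : 0 ≤ 2 * W * ((R.card : ℝ) - b) - DR := by nlinarith
    nlinarith [mul_nonneg e2 e3]
  rw [div_le_iff₀ hC']
  calc ∑ z ∈ C, ∑ σ ∈ ext P, ind (answer A T σ z = true)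
      ≤ C.card * (DR / ((R.card : ℝ) - b)) + 2 * c * W := h6
    _ ≤ C.card * (DR / R.card + 2 * b / R.card * W) + 2 * c * W := by gcongr
    _ = (DR / R.card + (2 * b / R.card + 2 * c / C.card) * W) * C.card := by
        field_simp
        ring

end Pool.Agent.H88.GG
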