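import Mathlib
import Pool.Agent.H88.GGStep

set_option autoImplicit false
set_option linter.unusedSectionVars false

namespace Pool.Agent.H88.GG

open Classical

variable {K G L : Type} [Field K] [Fintype K] [AddCommGroup G] [Module K G] [Fintype G] [Fintype L]

theorem ev_inj {f : Form K G} (hf : f.1 ≠ 0) {z z' : G} (h : ev f z = ev f z') : z = z' := by
  unfold ev at h
  have h1 := add_right_cancel h
  have h2 := congrArg (fun x => f.1⁻¹ • x) h1
  simpa [smul_smul, inv_mul_cancel₀ hf] using h2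

theorem sol_unique {f g : Form K G} (hfg : f ≠ g) {z z' : G} (h : ev f z = ev g z)
    (h' : ev f z' = ev g z') : z = z' := by
  unfold ev at h h'
  have h1 : (f.1 - g.1) • z = (f.1 - g.1) • z' := by
    rw [sub_smul, sub_smul]
    have e1 : f.1 • z - g.1 • z = g.2 - f.2 := by
      rw [sub_eq_sub_iff_add_eq_add, h, add_comm]
    have e2 : f.1 • z' - g.1 • z' = g.2 - f.2 := by
      rw [sub_eq_sub_iff_add_eq_add, h', add_comm]
    rw [e1, e2]
  by_cases hc : f.1 - g.1 = 0
  · exfalso
    apply hfg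
    rw [sub_eq_zero] at hc
    rw [hc] at h
    exact Prod.ext hc (add_left_cancel h)
  · have h2 := congrArg (fun x => (f.1 - g.1)⁻¹ • x) h1
    simpa [smul_smul, inv_mul_cancel₀ hc] using h2

theorem sol_card {f g : Form K G} (hfg : f ≠ g) (Z : Finset G) :
    (Z.filter fun z => ev f z = ev g z).card ≤ 1 := by
  rw [Finset.card_le_one]
  intro z hz z' hz'
  exact sol_unique hfg (Finset.mem_filter.1 hz).2 (Finset.mem_filter.1 hz').2

/-- the forms of a transcript -/
noncomputable def fms (τ : List (Form K G × L)) : Finset (Form K G) := (τ.map Prod.fst).toFinset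

theorem fms_card (τ : List (Form K G × L)) : (fms τ).card ≤ τ.length := by
  unfold fms
  exact (List.toFinset_card_le _).trans (by simp)

theorem mem_fms {τ : List (Form K G × L)} {e : Form K G × L} (h : e ∈ τ) : e.1 ∈ fms τ := by
  unfold fms
  rw [List.mem_toFinset, List.mem_map]
  exact ⟨e, h, rfl⟩

theorem bad_cases {P : Finset (G × L)} {z : G} {τ : List (Form K G × L)} (h : ¬ Good P z τ) :
    (∃ f ∈ fms τ, ∃ g ∈ fms τ, f ≠ g ∧ ev f z = ev g z) ∨
      ∃ f ∈ fms τ, ∃ d ∈ P, f ≠ (0, d.1) ∧ ev f z = d.1 := by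
  unfold Good at h
  rw [not_and_or] at h
  rcases h with h | h
  · left
    push Not at h
    obtain ⟨e, he, e', he', h1, h2⟩ := h
    exact ⟨e.1, mem_fms he, e'.1, mem_fms he', h2, h1⟩
  · right
    push Not at h
    obtain ⟨e, he, d, hd, h1, h2⟩ := h
    exact ⟨e.1, mem_fms he, d, hd, h2, h1⟩

/-- collisions inside of a transcript -/
theorem self_card (Z : Finset G) (F : Finset (Form K G)) (r : ℕ) (hF : F.card ≤ r) :
    (Z.filter fun z => ∃ f ∈ F, ∃ g ∈ F, f ≠ g ∧ ev f z = ev g z).card ≤ r * r := by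
  have hsub : (Z.filter fun z => ∃ f ∈ F, ∃ g ∈ F, f ≠ g ∧ ev f z = ev g z) ⊆
      ((F ×ˢ F).filter fun p => p.1 ≠ p.2).biUnion fun p =>
        Z.filter fun z => ev p.1 z = ev p.2 z := by
    intro z hz
    rw [Finset.mem_filter] at hz
    obtain ⟨hz, f, hf, g, hg, hne, he⟩ := hz
    rw [Finset.mem_biUnion]
    exact ⟨(f, g), Finset.mem_filter.2 ⟨Finset.mk_mem_product hf hg, hne⟩,
      Finset.mem_filter.2 ⟨hz, he⟩⟩
  refine (Finset.card_le_card hsub).trans (Finset.card_biUnion_le.trans ?_)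
  calc ∑ p ∈ (F ×ˢ F).filter (fun p => p.1 ≠ p.2), (Z.filter fun z => ev p.1 z = ev p.2 z).card
      ≤ ∑ p ∈ (F ×ˢ F).filter (fun p => p.1 ≠ p.2), 1 :=
        Finset.sum_le_sum fun p hp => sol_card (Finset.mem_filter.1 hp).2 Z
    _ ≤ (F ×ˢ F).card := by
        rw [Finset.sum_const, smul_eq_mul, mul_one]
        exact Finset.card_filter_le _ _
    _ ≤ r * r := by
        rw [Finset.card_product]
        exact Nat.mul_le_mul hF hF

/-- collisions with the domain of `P`, general bound -/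
theorem dom_card (Z : Finset G) (F : Finset (Form K G)) (P : Finset (G × L)) (r s : ℕ)
    (hF : F.card ≤ r) (hP : P.card ≤ s) :
    (Z.filter fun z => ∃ f ∈ F, ∃ d ∈ P, f ≠ (0, d.1) ∧ ev f z = d.1).card ≤ r * s := by
  have hsub : (Z.filter fun z => ∃ f ∈ F, ∃ d ∈ P, f ≠ (0, d.1) ∧ ev f z = d.1) ⊆
      ((F ×ˢ P).filter fun p => p.1 ≠ (0, p.2.1)).biUnion fun p =>
        Z.filter fun z => ev p.1 z = ev ((0, p.2.1) : Form K G) z := by
    intro z hz
    rw [Finset.mem_filter] at hz
    obtain ⟨hz, f, hf, d, hd, hne, he⟩ := hz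
    rw [Finset.mem_biUnion]
    refine ⟨(f, d), Finset.mem_filter.2 ⟨Finset.mk_mem_product hf hd, hne⟩,
      Finset.mem_filter.2 ⟨hz, ?_⟩⟩
    simp only [ev_zero]
    exact he
  refine (Finset.card_le_card hsub).trans (Finset.card_biUnion_le.trans ?_)
  calc ∑ p ∈ (F ×ˢ P).filter (fun p => p.1 ≠ (0, p.2.1)),
        (Z.filter fun z => ev p.1 z = ev ((0, p.2.1) : Form K G) z).card
      ≤ ∑ p ∈ (F ×ˢ P).filter (fun p => p.1 ≠ (0, p.2.1)), 1 :=
        Finset.sum_le_sum fun p hp => sol_card (Finset.mem_filter.1 hp).2 Z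
    _ ≤ (F ×ˢ P).card := by
        rw [Finset.sum_const, smul_eq_mul, mul_one]
        exact Finset.card_filter_le _ _
    _ ≤ r * s := by
        rw [Finset.card_product]
        exact Nat.mul_le_mul hF hP

/-- the number of bad elements, general bound -/
theorem bad_card (Z : Finset G) (P : Finset (G × L)) (τ : List (Form K G × L)) (r s : ℕ)
    (hτ : τ.length ≤ r) (hP : P.card ≤ s) :
    (Z.filter fun z => ¬ Good P z τ).card ≤ r * (r + s) := by
  have hF := (fms_card τ).trans hτ
  have hsub : (Z.filter fun z => ¬ Good P z τ) ⊆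
      (Z.filter fun z => ∃ f ∈ fms τ, ∃ g ∈ fms τ, f ≠ g ∧ ev f z = ev g z) ∪
        (Z.filter fun z => ∃ f ∈ fms τ, ∃ d ∈ P, f ≠ (0, d.1) ∧ ev f z = d.1) := by
    intro z hz
    rw [Finset.mem_filter] at hz
    rw [Finset.mem_union, Finset.mem_filter, Finset.mem_filter]
    rcases bad_cases hz.2 with h | h
    · exact Or.inl ⟨hz.1, h⟩
    · exact Or.inr ⟨hz.1, h⟩
  calc _ ≤ _ := Finset.card_le_card hsub
    _ ≤ _ := Finset.card_union_le _ _
    _ ≤ r * r + r * s := Nat.add_le_add (self_card Z _ r hF) (dom_card Z _ P r s hF hP)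
    _ = r * (r + s) := by ring

/-- The set `C` is dispersed: two different nonconstant forms take equal values at few pairs of
elements of `C`. -/
def Dispersed (K : Type) [Field K] [Module K G] (C : Finset G) (H : ℕ) : Prop :=
  ∀ f g : Form K G, f.1 ≠ 0 → g.1 ≠ 0 → f ≠ g →
    ((C ×ˢ C).filter fun p => ev f p.1 = ev g p.2).card ≤ H

/-- collisions with the domain of `P`, better bound for dispersed sets -/
theorem dom_card' {C : Finset G} {H : ℕ} (hC : Dispersed K C H) (F : Finset (Form K G))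
    (P : Finset (G × L)) (r s : ℕ) (hF : F.card ≤ r) (hP : P.card ≤ s) :
    (C.filter fun z => ∃ f ∈ F, ∃ d ∈ P, f ≠ (0, d.1) ∧ ev f z = d.1).card ≤
      s + r * r * H := by
  -- the elements served by `d`
  let S : G × L → Finset G := fun d =>
    C.filter fun z => ∃ f ∈ F, f ≠ (0, d.1) ∧ ev f z = d.1
  let rep : G × L → G := fun d => if h : (S d).Nonempty then h.choose else d.1
  have hrep : ∀ d z, z ∈ S d → rep d ∈ S d := by
    intro d z hz
    have h : (S d).Nonempty := ⟨z, hz⟩
    simp only [rep, dif_pos h]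
    exact h.choose_spec
  let FF := (F ×ˢ F).filter fun p => p.1.1 ≠ 0 ∧ p.2.1 ≠ 0 ∧ p.1 ≠ p.2
  have hnz : ∀ (f : Form K G) (d : G × L) (z : G), f ≠ (0, d.1) → ev f z = d.1 → f.1 ≠ 0 := by
    intro f d z h1 h2 h3
    apply h1
    have h4 : f = (0, f.2) := Prod.ext h3 rfl
    rw [h4, ev_zero] at h2
    rw [h4, h2]
  have hsub : (C.filter fun z => ∃ f ∈ F, ∃ d ∈ P, f ≠ (0, d.1) ∧ ev f z = d.1) ⊆
      P.image rep ∪ FF.biUnion fun p =>
        ((C ×ˢ C).filter fun q => ev p.1 q.1 = ev p.2 q.2).image Prod.fst := by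
    intro z hz
    rw [Finset.mem_filter] at hz
    obtain ⟨hz, f, hf, d, hd, hne, he⟩ := hz
    have hzS : z ∈ S d := Finset.mem_filter.2 ⟨hz, f, hf, hne, he⟩
    rw [Finset.mem_union]
    by_cases hzr : z = rep d
    · left
      rw [Finset.mem_image]
      exact ⟨d, hd, hzr.symm⟩
    · right
      have h1 := hrep d z hzS
      obtain ⟨h2, g, hg, hgne, hge⟩ := Finset.mem_filter.1 h1
      rw [Finset.mem_biUnion]
      refine ⟨(f, g), Finset.mem_filter.2 ⟨Finset.mk_mem_product hf hg, hnz f d z hne he,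
        hnz g d _ hgne hge, ?_⟩, ?_⟩
      · intro hfg
        have hfg' : f = g := hfg
        subst hfg'
        exact hzr (ev_inj (hnz f d z hne he) (he.trans hge.symm))
      · rw [Finset.mem_image]
        exact ⟨(z, rep d), Finset.mem_filter.2 ⟨Finset.mk_mem_product hz h2,
          he.trans hge.symm⟩, rfl⟩
  calc _ ≤ _ := Finset.card_le_card hsub
    _ ≤ _ := Finset.card_union_le _ _
    _ ≤ s + r * r * H := by
        refine Nat.add_le_add (Finset.card_image_le.trans hP) ?_
        refine Finset.card_biUnion_le.trans ?_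
        calc ∑ p ∈ FF, (((C ×ˢ C).filter fun q => ev p.1 q.1 = ev p.2 q.2).image Prod.fst).card
            ≤ ∑ p ∈ FF, H := by
              refine Finset.sum_le_sum fun p hp => Finset.card_image_le.trans ?_
              obtain ⟨-, h1, h2, h3⟩ := Finset.mem_filter.1 hp
              exact hC p.1 p.2 h1 h2 h3
          _ = FF.card * H := by rw [Finset.sum_const, smul_eq_mul]
          _ ≤ r * r * H := by
              refine Nat.mul_le_mul_right _ ((Finset.card_filter_le _ _).trans ?_)
              rw [Finset.card_product]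
              exact Nat.mul_le_mul hF hF

/-- the number of bad elements of a dispersed set -/
theorem bad_card' {C : Finset G} {H : ℕ} (hC : Dispersed K C H) (P : Finset (G × L))
    (τ : List (Form K G × L)) (r s : ℕ) (hτ : τ.length ≤ r) (hP : P.card ≤ s) :
    (C.filter fun z => ¬ Good P z τ).card ≤ r * r * (1 + H) + s := by
  have hF := (fms_card τ).trans hτ
  have hsub : (C.filter fun z => ¬ Good P z τ) ⊆
      (C.filter fun z => ∃ f ∈ fms τ, ∃ g ∈ fms τ, f ≠ g ∧ ev f z = ev g z) ∪
        (C.filter fun z => ∃ f ∈ fms τ, ∃ d ∈ P, f ≠ (0, d.1) ∧ ev f z = d.1) := by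
    intro z hz
    rw [Finset.mem_filter] at hz
    rw [Finset.mem_union, Finset.mem_filter, Finset.mem_filter]
    rcases bad_cases hz.2 with h | h
    · exact Or.inl ⟨hz.1, h⟩
    · exact Or.inr ⟨hz.1, h⟩
  calc _ ≤ _ := Finset.card_le_card hsub
    _ ≤ _ := Finset.card_union_le _ _
    _ ≤ r * r + (s + r * r * H) :=
        Nat.add_le_add (self_card C _ r hF) (dom_card' hC _ P r s hF hP)
    _ = _ := by ring

end Pool.Agent.H88.GG
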