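import Mathlib
import Pool.Agent.H88.GGBad

set_option autoImplicit false
set_option linter.unusedSectionVars false

namespace Pool.Agent.H88.GG

open Classical

variable {K G L : Type} [Field K] [Fintype K] [AddCommGroup G] [Module K G] [Fintype G] [Fintype L]

/-- the average success of an algorithm, if the query is an element of `C` with probability one half
and an element of `R` with probability one half -/
noncomputable def succ (A : Alg K G L) (T : ℕ) (C R : Finset G) (σ : G ≃ L) : ℝ :=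
  (∑ z ∈ C, ind (answer A T σ z = true)) / (2 * C.card) +
    (∑ z ∈ R, ind (answer A T σ z = false)) / (2 * R.card)

theorem succ_nonneg (A : Alg K G L) (T : ℕ) (C R : Finset G) (σ : G ≃ L) :
    0 ≤ succ A T C R σ := by
  unfold succ
  have h1 : 0 ≤ ∑ z ∈ C, ind (answer A T σ z = true) := Finset.sum_nonneg fun _ _ => ind_nonneg _
  have h2 : 0 ≤ ∑ z ∈ R, ind (answer A T σ z = false) := Finset.sum_nonneg fun _ _ => ind_nonneg _
  positivity

theorem ind_false_eq (b : Bool) : ind (b = false) = 1 - ind (b = true) := by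
  cases b <;> simp [ind]

/-- one query, in terms of the success -/
theorem succ_step (A : Alg K G L) (P : Finset (G × L)) (C R : Finset G) (T : ℕ) (b c : ℝ)
    (hR : 0 < R.card) (hC : 0 < C.card) (hb0 : 0 ≤ b)
    (hb : ∀ τ : List (Form K G × L), τ.length ≤ T + 1 →
      (((R.filter fun z' => ¬ Good P z' τ).card : ℕ) : ℝ) ≤ b)
    (hb2 : 2 * b ≤ R.card)
    (hc : ∀ τ : List (Form K G × L), τ.length ≤ T + 1 →
      (((C.filter fun z' => ¬ Good P z' τ).card : ℕ) : ℝ) ≤ c) :
    ∑ σ ∈ ext P, succ A T C R σ ≤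
      (1 / 2 + (b / R.card + c / C.card)) * (ext P).card := by
  have hR' : (0 : ℝ) < R.card := by exact_mod_cast hR
  have hC' : (0 : ℝ) < C.card := by exact_mod_cast hC
  have h := one_step A P C R T b c hR hC hb0 hb hb2 hc
  have e1 : ∑ σ ∈ ext P, succ A T C R σ =
      (∑ z ∈ C, ∑ σ ∈ ext P, ind (answer A T σ z = true)) / (2 * C.card) +
        (R.card * (ext P).card - ∑ z ∈ R, ∑ σ ∈ ext P, ind (answer A T σ z = true)) /
          (2 * R.card) := by
    unfold succ
    rw [Finset.sum_add_distrib, ← Finset.sum_div, ← Finset.sum_div, Finset.sum_comm]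
    congr 2
    rw [Finset.sum_comm]
    have e2 : ∀ z ∈ R, ∑ σ ∈ ext P, ind (answer A T σ z = false) =
        (ext P).card - ∑ σ ∈ ext P, ind (answer A T σ z = true) := by
      intro z _
      rw [Finset.sum_congr rfl (fun σ _ => ind_false_eq (answer A T σ z)),
        Finset.sum_sub_distrib]
      simp
    rw [Finset.sum_congr rfl e2, Finset.sum_sub_distrib]
    simp
  rw [e1]
  have e3 : (∑ z ∈ C, ∑ σ ∈ ext P, ind (answer A T σ z = true)) / (2 * (C.card : ℝ)) =
      ((∑ z ∈ C, ∑ σ ∈ ext P, ind (answer A T σ z = true)) / C.card) / 2 := by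
    rw [div_div, mul_comm (2 : ℝ)]
  have e4 : (R.card * (ext P).card - ∑ z ∈ R, ∑ σ ∈ ext P, ind (answer A T σ z = true)) /
      (2 * (R.card : ℝ)) =
      ((ext P).card - (∑ z ∈ R, ∑ σ ∈ ext P, ind (answer A T σ z = true)) / R.card) / 2 := by
    field_simp
  rw [e3, e4]
  have e5 : (2 * b / R.card + 2 * c / C.card) * ((ext P).card : ℝ) =
      2 * ((b / R.card + c / C.card) * (ext P).card) := by ring
  rw [e5] at h
  linarith

/-- **Many queries.** -/
theorem succ_pow (A : Alg K G L) (C R : Finset G) (T s : ℕ) (B : ℝ) (hB : 0 ≤ B)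
    (h1 : ∀ P : Finset (G × L), P.card ≤ s → ∑ σ ∈ ext P, succ A T C R σ ≤ B * (ext P).card)
    (k : ℕ) (P : Finset (G × L)) (hP : P.card + k * (T + 1) ≤ s + (T + 1)) :
    ∑ σ ∈ ext P, succ A T C R σ ^ k ≤ B ^ k * (ext P).card := by
  induction k generalizing P with
  | zero => simp
  | succ k ih =>
    have hcard : ∀ (z : G) (τ : List (Form K G × L)), τ ∈ VV A T →
        (P ∪ prs z τ).card + k * (T + 1) ≤ s + (T + 1) := by
      intro z τ hτ
      have h2 := (valid_of_mem hτ).2
      have h3 := prs_card (L := L) z τ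
      have h4 := Finset.card_union_le P (prs z τ)
      have h5 : (k + 1) * (T + 1) = k * (T + 1) + (T + 1) := by ring
      omega
    have hstep : ∀ (z : G) (F : List (Form K G × L) → ℝ), (∀ τ, 0 ≤ F τ) →
        ∑ σ ∈ ext P, F (trans A σ z T) * succ A T C R σ ^ k ≤
          B ^ k * ∑ σ ∈ ext P, F (trans A σ z T) := by
      intro z F hF
      rw [sum_trans' A P z T F (fun σ => succ A T C R σ ^ k), sum_trans A P z T F,
        Finset.mul_sum]
      refine Finset.sum_le_sum fun τ hτ => ?_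
      have := mul_le_mul_of_nonneg_left (ih (P ∪ prs z τ) (hcard z τ hτ)) (hF τ)
      calc _ ≤ _ := this
        _ = _ := by ring
    have e1 : ∑ σ ∈ ext P, succ A T C R σ ^ (k + 1) =
        (∑ z ∈ C, ∑ σ ∈ ext P, ind (answer A T σ z = true) * succ A T C R σ ^ k) /
            (2 * C.card) +
          (∑ z ∈ R, ∑ σ ∈ ext P, ind (answer A T σ z = false) * succ A T C R σ ^ k) /
            (2 * R.card) := by
      rw [Finset.sum_comm (s := C), Finset.sum_comm (s := R), Finset.sum_div, Finset.sum_div,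
        ← Finset.sum_add_distrib]
      refine Finset.sum_congr rfl fun σ _ => ?_
      rw [← Finset.sum_mul, ← Finset.sum_mul, pow_succ]
      nth_rewrite 2 [succ]
      ring
    have e2 : ∑ σ ∈ ext P, succ A T C R σ =
        (∑ z ∈ C, ∑ σ ∈ ext P, ind (answer A T σ z = true)) / (2 * C.card) +
          (∑ z ∈ R, ∑ σ ∈ ext P, ind (answer A T σ z = false)) / (2 * R.card) := by
      rw [Finset.sum_comm (s := C), Finset.sum_comm (s := R), Finset.sum_div, Finset.sum_div,
        ← Finset.sum_add_distrib]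
      rfl
    have e3 : ∑ σ ∈ ext P, succ A T C R σ ^ (k + 1) ≤ B ^ k * ∑ σ ∈ ext P, succ A T C R σ := by
      rw [e1, e2, mul_add, ← mul_div_assoc, ← mul_div_assoc, Finset.mul_sum, Finset.mul_sum]
      refine add_le_add ?_ ?_
      · refine div_le_div_of_nonneg_right ?_ (by positivity)
        refine Finset.sum_le_sum fun z _ => ?_
        exact hstep z (fun τ => ind (A.out τ = true)) fun _ => ind_nonneg _
      · refine div_le_div_of_nonneg_right ?_ (by positivity)
        refine Finset.sum_le_sum fun z _ => ?_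
        exact hstep z (fun τ => ind (A.out τ = false)) fun _ => ind_nonneg _
    have h2 : P.card ≤ s := by
      have h5 : (k + 1) * (T + 1) = k * (T + 1) + (T + 1) := by ring
      omega
    calc _ ≤ _ := e3
      _ ≤ B ^ k * (B * (ext P).card) :=
          mul_le_mul_of_nonneg_left (h1 P h2) (pow_nonneg hB k)
      _ = _ := by ring

/-- the expected success of a random data structure -/
noncomputable def expected {m : ℕ} (T : ℕ) (C R : Finset G) {Ω : Type} [Fintype Ω] (p : Ω → ℝ)
    (D : Ω → DS K G L m) : ℝ :=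
  ∑ ω, p ω * ((∑ σ : G ≃ L, succ ((D ω).alg ((D ω).memory σ)) T C R σ) /
    Fintype.card (G ≃ L))

/-- **The union bound over the contents of the memory.** -/
theorem union_bound {m : ℕ} (C R : Finset G) (T s k : ℕ) (B : ℝ) (hB : 0 ≤ B)
    (hN : 0 < Fintype.card (G ≃ L))
    (h1 : ∀ (A : Alg K G L) (P : Finset (G × L)), P.card ≤ s →
      ∑ σ ∈ ext P, succ A T C R σ ≤ B * (ext P).card)
    (hk : k * (T + 1) ≤ s + (T + 1)) {Ω : Type} [Fintype Ω] (p : Ω → ℝ)
    (hp : ∀ ω, 0 ≤ p ω) (hp1 : ∑ ω, p ω = 1) (D : Ω → DS K G L m) :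
    expected T C R p D ^ k ≤ m * B ^ k := by
  have hN' : (0 : ℝ) < Fintype.card (G ≃ L) := by exact_mod_cast hN
  set N : ℝ := ((Fintype.card (G ≃ L) : ℕ) : ℝ) with hNdef
  have huniv : ext (∅ : Finset (G × L)) = Finset.univ := by
    ext σ
    simp [mem_ext]
  have hA : ∀ A : Alg K G L, ∑ σ : G ≃ L, succ A T C R σ ^ k ≤ B ^ k * N := by
    intro A
    have := succ_pow A C R T s B hB (h1 A) k ∅ (by simpa using hk)
    rw [huniv] at this
    simpa using this
  have hD : ∀ ω, ∑ σ : G ≃ L, succ ((D ω).alg ((D ω).memory σ)) T C R σ ^ k ≤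
      m * (B ^ k * N) := by
    intro ω
    calc ∑ σ : G ≃ L, succ ((D ω).alg ((D ω).memory σ)) T C R σ ^ k
        ≤ ∑ σ : G ≃ L, ∑ a : Fin m, succ ((D ω).alg a) T C R σ ^ k := by
          refine Finset.sum_le_sum fun σ _ => ?_
          exact Finset.single_le_sum (f := fun a => succ ((D ω).alg a) T C R σ ^ k)
            (fun a _ => pow_nonneg (succ_nonneg _ _ _ _ _) k)
            (Finset.mem_univ ((D ω).memory σ))
      _ = ∑ a : Fin m, ∑ σ : G ≃ L, succ ((D ω).alg a) T C R σ ^ k := Finset.sum_comm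
      _ ≤ ∑ a : Fin m, B ^ k * N := Finset.sum_le_sum fun a _ => hA _
      _ = m * (B ^ k * N) := by simp
  have hj : ∀ ω, ((∑ σ : G ≃ L, succ ((D ω).alg ((D ω).memory σ)) T C R σ) / N) ^ k ≤
      m * B ^ k := by
    intro ω
    have h2 := Real.pow_arith_mean_le_arith_mean_pow (Finset.univ : Finset (G ≃ L))
      (fun _ => 1 / N) (fun σ => succ ((D ω).alg ((D ω).memory σ)) T C R σ)
      (fun _ _ => by positivity) (by
        rw [Finset.sum_const, Finset.card_univ, nsmul_eq_mul, ← hNdef]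
        field_simp) (fun σ _ => succ_nonneg _ _ _ _ _) k
    rw [← Finset.mul_sum, ← Finset.mul_sum] at h2
    have e1 : (∑ σ : G ≃ L, succ ((D ω).alg ((D ω).memory σ)) T C R σ) / N =
        1 / N * ∑ σ : G ≃ L, succ ((D ω).alg ((D ω).memory σ)) T C R σ := by ring
    rw [e1]
    calc _ ≤ _ := h2
      _ ≤ 1 / N * (m * (B ^ k * N)) :=
          mul_le_mul_of_nonneg_left (hD ω) (by positivity)
      _ = m * B ^ k := by
          field_simp
  have h3 := Real.pow_arith_mean_le_arith_mean_pow (Finset.univ : Finset Ω) p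
    (fun ω => (∑ σ : G ≃ L, succ ((D ω).alg ((D ω).memory σ)) T C R σ) / N)
    (fun ω _ => hp ω) hp1 (fun ω _ => by
      have : 0 ≤ ∑ σ : G ≃ L, succ ((D ω).alg ((D ω).memory σ)) T C R σ :=
        Finset.sum_nonneg fun _ _ => succ_nonneg _ _ _ _ _
      positivity) k
  unfold expected
  calc _ ≤ _ := h3
    _ ≤ ∑ ω, p ω * (m * B ^ k) :=
        Finset.sum_le_sum fun ω _ => mul_le_mul_of_nonneg_left (hj ω) (hp ω)
    _ = m * B ^ k := by rw [← Finset.sum_mul, hp1, one_mul]

/-- the numerical part -/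
theorem log_bound {m k : ℕ} {δ B E : ℝ} (hδ : 0 < δ) (hδ2 : δ ≤ 1 / 2) (hB0 : 0 < B)
    (hB : B ≤ 1 / 2 + δ / 2) (hE : 1 / 2 + δ ≤ E) (h : E ^ k ≤ m * B ^ k) :
    2 * δ / 3 * k ≤ Real.logb 2 m := by
  have h1 : (1 + 2 * δ / 3) * B ≤ E := by
    have : (1 + 2 * δ / 3) * B ≤ (1 + 2 * δ / 3) * (1 / 2 + δ / 2) :=
      mul_le_mul_of_nonneg_left hB (by positivity)
    nlinarith
  have h2 : ((1 + 2 * δ / 3) * B) ^ k ≤ E ^ k := pow_le_pow_left₀ (by positivity) h1 k
  have h3 : (1 + 2 * δ / 3) ^ k ≤ m := by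
    have hBk : 0 < B ^ k := pow_pos hB0 k
    have := h2.trans h
    rw [mul_pow] at this
    exact le_of_mul_le_mul_right this hBk
  have h4 : (2 : ℝ) ^ (2 * δ / 3) ≤ 1 + 2 * δ / 3 := by
    have := rpow_one_add_le_one_add_mul_self (s := (1 : ℝ)) (by norm_num)
      (show (0 : ℝ) ≤ 2 * δ / 3 by positivity) (by linarith)
    norm_num at this ⊢
    linarith
  have h5 : (2 : ℝ) ^ (2 * δ / 3 * k) ≤ m := by
    rw [Real.rpow_mul (by norm_num), Real.rpow_natCast]
    exact (pow_le_pow_left₀ (by positivity) h4 k).trans h3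
  have hm : (0 : ℝ) < m := lt_of_lt_of_le (by positivity) h5
  rw [Real.le_logb_iff_rpow_le (by norm_num) hm]
  exact h5

end Pool.Agent.H88.GG
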