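import Mathlib
import Pool.Agent.H88.GGMain

set_option autoImplicit false
set_option linter.unusedSectionVars false

namespace Pool.Agent.H88.GG

open Classical

variable {K G L : Type} [Field K] [Fintype K] [AddCommGroup G] [Module K G] [Fintype G] [Fintype L]

theorem succ_le_one (A : Alg K G L) (T : ℕ) (C R : Finset G) (σ : G ≃ L) :
    succ A T C R σ ≤ 1 := by
  unfold succ
  have h1 : ∑ z ∈ C, ind (answer A T σ z = true) ≤ C.card := by
    calc _ ≤ ∑ z ∈ C, (1 : ℝ) := Finset.sum_le_sum fun _ _ => ind_le_one _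
      _ = _ := by simp
  have h2 : ∑ z ∈ R, ind (answer A T σ z = false) ≤ R.card := by
    calc _ ≤ ∑ z ∈ R, (1 : ℝ) := Finset.sum_le_sum fun _ _ => ind_le_one _
      _ = _ := by simp
  have h3 : (∑ z ∈ C, ind (answer A T σ z = true)) / (2 * (C.card : ℝ)) ≤ 1 / 2 := by
    rcases Nat.eq_zero_or_pos C.card with h | h
    · rw [h]; norm_num
    · have : (0 : ℝ) < C.card := by exact_mod_cast h
      rw [div_le_iff₀ (by positivity)]
      linarith
  have h4 : (∑ z ∈ R, ind (answer A T σ z = false)) / (2 * (R.card : ℝ)) ≤ 1 / 2 := by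
    rcases Nat.eq_zero_or_pos R.card with h | h
    · rw [h]; norm_num
    · have : (0 : ℝ) < R.card := by exact_mod_cast h
      rw [div_le_iff₀ (by positivity)]
      linarith
  linarith

theorem expected_le_one {m : ℕ} (T : ℕ) (C R : Finset G) {Ω : Type} [Fintype Ω] (p : Ω → ℝ)
    (hp : ∀ ω, 0 ≤ p ω) (hp1 : ∑ ω, p ω = 1) (D : Ω → DS K G L m) :
    expected T C R p D ≤ 1 := by
  unfold expected
  rw [← hp1]
  refine Finset.sum_le_sum fun ω _ => ?_
  have h1 : (∑ σ : G ≃ L, succ ((D ω).alg ((D ω).memory σ)) T C R σ) /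
      (Fintype.card (G ≃ L) : ℝ) ≤ 1 := by
    have h2 : ∑ σ : G ≃ L, succ ((D ω).alg ((D ω).memory σ)) T C R σ ≤
        (Fintype.card (G ≃ L) : ℝ) := by
      calc _ ≤ ∑ σ : G ≃ L, (1 : ℝ) := Finset.sum_le_sum fun _ _ => succ_le_one _ _ _ _ _
        _ = _ := by simp
    exact div_le_one_of_le₀ h2 (by positivity)
  calc p ω * _ ≤ p ω * 1 := mul_le_mul_of_nonneg_left h1 (hp ω)
    _ = p ω := mul_one _

/-- the general consequence of the union bound -/
theorem bound_of_step {S : ℕ} (C R : Finset G) (T s k : ℕ) (δ ε : ℝ) (hδ : 0 < δ)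
    (hε : 0 ≤ ε) (hε2 : ε ≤ δ / 2) (hN : 0 < Fintype.card (G ≃ L))
    (h1 : ∀ (A : Alg K G L) (P : Finset (G × L)), P.card ≤ s →
      ∑ σ ∈ ext P, succ A T C R σ ≤ (1 / 2 + ε) * (ext P).card)
    (hk : k * (T + 1) ≤ s + (T + 1)) {Ω : Type} [Fintype Ω] (p : Ω → ℝ)
    (hp : ∀ ω, 0 ≤ p ω) (hp1 : ∑ ω, p ω = 1) (D : Ω → DS K G L (2 ^ S))
    (hD : 1 / 2 + δ ≤ expected T C R p D) :
    2 * δ / 3 * k ≤ S := by
  have hδ2 : δ ≤ 1 / 2 := by
    have := expected_le_one T C R p hp hp1 D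
    linarith
  have h2 := union_bound C R T s k (1 / 2 + ε) (by positivity) hN h1 hk p hp hp1 D
  have h3 := log_bound (m := 2 ^ S) (k := k) (B := 1 / 2 + ε) hδ hδ2 (by positivity)
    (by linarith) hD h2
  have h4 : Real.logb 2 ((2 ^ S : ℕ) : ℝ) = S := by
    rw [Nat.cast_pow, Nat.cast_ofNat, ← Real.rpow_natCast, Real.logb_rpow] <;> norm_num
  rwa [h4] at h3

/-- **General sets.** -/
theorem bound_general {S : ℕ} (C R : Finset G) (T : ℕ) (δ : ℝ) (hδ : 0 < δ)
    (hne : Nonempty (G ≃ L)) (hC : 0 < C.card) (hCR : C.card ≤ R.card)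
    {Ω : Type} [Fintype Ω] (p : Ω → ℝ)
    (hp : ∀ ω, 0 ≤ p ω) (hp1 : ∑ ω, p ω = 1) (D : Ω → DS K G L (2 ^ S))
    (hD : 1 / 2 + δ ≤ expected T C R p D) :
    δ ^ 2 * C.card ≤ (6 * S + 2) * (T + 1) ^ 2 := by
  have hN : 0 < Fintype.card (G ≃ L) := by
    have := hne
    exact Fintype.card_pos
  have hδ2 : δ ≤ 1 / 2 := by
    have := expected_le_one T C R p hp hp1 D
    linarith
  have hC' : (0 : ℝ) < C.card := by exact_mod_cast hC
  have hR : 0 < R.card := lt_of_lt_of_le hC hCR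
  have hR' : (0 : ℝ) < R.card := by exact_mod_cast hR
  have hCR' : (C.card : ℝ) ≤ R.card := by exact_mod_cast hCR
  set X : ℝ := δ * C.card / (4 * (T + 1) ^ 2) with hX
  have hX0 : 0 ≤ X := by positivity
  set k : ℕ := ⌊X⌋₊ with hk
  have hk1 : (k : ℝ) ≤ X := Nat.floor_le hX0
  have hk2 : X < k + 1 := Nat.lt_floor_add_one X
  have hT : (0 : ℝ) < (T + 1) ^ 2 := by positivity
  have hk3 : 4 * ((T : ℝ) + 1) ^ 2 * k ≤ δ * C.card := by
    rw [hX, le_div_iff₀ (by positivity)] at hk1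
    linarith
  have hfin : 2 * δ / 3 * k ≤ S := by
    rcases Nat.eq_zero_or_pos k with h0 | hkpos
    · rw [h0]; simp
    · have hkS : k * (T + 1) ≤ (k - 1) * (T + 1) + (T + 1) := by
        obtain ⟨k', hk'⟩ : ∃ k', k = k' + 1 := ⟨k - 1, by omega⟩
        rw [hk', Nat.add_sub_cancel]
        exact le_of_eq (by ring)
      refine bound_of_step C R T ((k - 1) * (T + 1)) k δ
        ((((T + 1) * ((T + 1) + (k - 1) * (T + 1)) : ℕ) : ℝ) / R.card +
          (((T + 1) * ((T + 1) + (k - 1) * (T + 1)) : ℕ) : ℝ) / C.card) hδ (by positivity) ?_ hN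
        ?_ hkS p hp hp1 D hD
      · have e1 : (((T + 1) * ((T + 1) + (k - 1) * (T + 1)) : ℕ) : ℝ) = (T + 1) ^ 2 * k := by
          obtain ⟨k', hk'⟩ : ∃ k', k = k' + 1 := ⟨k - 1, by omega⟩
          rw [hk', Nat.add_sub_cancel]
          push_cast
          ring
        rw [e1]
        have e2 : ((T : ℝ) + 1) ^ 2 * k / R.card ≤ (T + 1) ^ 2 * k / C.card := by gcongr
        have e3 : ((T : ℝ) + 1) ^ 2 * k / C.card ≤ δ / 4 := by
          rw [div_le_iff₀ hC']
          linarith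
        linarith
      · intro A P hP
        have hbad : ∀ (Z : Finset G) (τ : List (Form K G × L)), τ.length ≤ T + 1 →
            (((Z.filter fun z' => ¬ Good P z' τ).card : ℕ) : ℝ) ≤
              (((T + 1) * ((T + 1) + (k - 1) * (T + 1)) : ℕ) : ℝ) := by
          intro Z τ hτ
          exact_mod_cast bad_card Z P τ (T + 1) ((k - 1) * (T + 1)) hτ hP
        refine succ_step A P C R T _ _ hR hC (by positivity) (hbad R) ?_ (hbad C)
        have e1 : (((T + 1) * ((T + 1) + (k - 1) * (T + 1)) : ℕ) : ℝ) = (T + 1) ^ 2 * k := by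
          obtain ⟨k', hk'⟩ : ∃ k', k = k' + 1 := ⟨k - 1, by omega⟩
          rw [hk', Nat.add_sub_cancel]
          push_cast
          ring
        rw [e1]
        nlinarith
  -- conclusion
  have h5 : δ * C.card < 4 * (T + 1) ^ 2 * (k + 1) := by
    rw [hX, div_lt_iff₀ (by positivity)] at hk2
    linarith
  have h6 : δ * (δ * C.card) ≤ δ * (4 * (T + 1) ^ 2 * (k + 1)) :=
    mul_le_mul_of_nonneg_left h5.le hδ.le
  have h7 : δ * k ≤ 3 / 2 * S := by linarith
  calc δ ^ 2 * C.card = δ * (δ * C.card) := by ring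
    _ ≤ δ * (4 * (T + 1) ^ 2 * (k + 1)) := h6
    _ = 4 * (δ * k + δ) * (T + 1) ^ 2 := by ring
    _ ≤ 4 * (3 / 2 * S + 1 / 2) * (T + 1) ^ 2 := by gcongr
    _ = (6 * S + 2) * (T + 1) ^ 2 := by ring

/-- **Dispersed sets.** -/
theorem bound_dispersed {S H : ℕ} (C R : Finset G) (hdis : Dispersed K C H) (T : ℕ) (δ : ℝ)
    (hδ : 0 < δ) (hne : Nonempty (G ≃ L)) (hC : 0 < C.card)
    (hCR : 2 * (T + 1) * C.card ≤ R.card)
    (hT : 8 * ((T : ℝ) + 1) ^ 2 * (1 + H) ≤ δ * C.card)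
    {Ω : Type} [Fintype Ω] (p : Ω → ℝ)
    (hp : ∀ ω, 0 ≤ p ω) (hp1 : ∑ ω, p ω = 1) (D : Ω → DS K G L (2 ^ S))
    (hD : 1 / 2 + δ ≤ expected T C R p D) :
    δ ^ 2 * C.card ≤ (6 * S + 2) * (T + 1) := by
  have hN : 0 < Fintype.card (G ≃ L) := by
    have := hne
    exact Fintype.card_pos
  have hδ2 : δ ≤ 1 / 2 := by
    have := expected_le_one T C R p hp hp1 D
    linarith
  have hC' : (0 : ℝ) < C.card := by exact_mod_cast hC
  have hR : 0 < R.card := lt_of_lt_of_le (by positivity) hCR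
  have hR' : (0 : ℝ) < R.card := by exact_mod_cast hR
  have hCR' : 2 * ((T : ℝ) + 1) * C.card ≤ R.card := by exact_mod_cast hCR
  set X : ℝ := δ * C.card / (4 * (T + 1)) with hX
  have hX0 : 0 ≤ X := by positivity
  set k : ℕ := ⌊X⌋₊ with hk
  have hk1 : (k : ℝ) ≤ X := Nat.floor_le hX0
  have hk2 : X < k + 1 := Nat.lt_floor_add_one X
  have hT0 : (0 : ℝ) < (T : ℝ) + 1 := by positivity
  have hk3 : 4 * ((T : ℝ) + 1) * k ≤ δ * C.card := by
    rw [hX, le_div_iff₀ (by positivity)] at hk1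
    linarith
  have hfin : 2 * δ / 3 * k ≤ S := by
    rcases Nat.eq_zero_or_pos k with h0 | hkpos
    · rw [h0]; simp
    · obtain ⟨k', hk'⟩ : ∃ k', k = k' + 1 := ⟨k - 1, by omega⟩
      have hkS : k * (T + 1) ≤ k' * (T + 1) + (T + 1) := by
        rw [hk']
        exact le_of_eq (by ring)
      have e1 : (((T + 1) * ((T + 1) + k' * (T + 1)) : ℕ) : ℝ) = (T + 1) ^ 2 * k := by
        rw [hk']
        push_cast
        ring
      have e2 : (((T + 1) * (T + 1) * (1 + H) + k' * (T + 1) : ℕ) : ℝ) ≤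
          (T + 1) ^ 2 * (1 + H) + (T + 1) * k := by
        rw [hk']
        push_cast
        nlinarith
      have e4 : ((T : ℝ) + 1) ^ 2 * k ≤ δ * R.card / 8 := by
        nlinarith [mul_le_mul_of_nonneg_left hk3 hT0.le, mul_le_mul_of_nonneg_left hCR' hδ.le]
      refine bound_of_step C R T (k' * (T + 1)) k δ
        ((((T + 1) * ((T + 1) + k' * (T + 1)) : ℕ) : ℝ) / R.card +
          (((T + 1) * (T + 1) * (1 + H) + k' * (T + 1) : ℕ) : ℝ) / C.card) hδ
        (by positivity) ?_ hN ?_ hkS p hp hp1 D hD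
      · have e5 : (((T + 1) * ((T + 1) + k' * (T + 1)) : ℕ) : ℝ) / R.card ≤ δ / 8 := by
          rw [e1, div_le_iff₀ hR']
          linarith
        have e6 : (((T + 1) * (T + 1) * (1 + H) + k' * (T + 1) : ℕ) : ℝ) / C.card ≤
            δ / 8 + δ / 4 := by
          rw [div_le_iff₀ hC']
          linarith
        linarith
      · intro A P hP
        refine succ_step A P C R T _ _ hR hC (by positivity) ?_ ?_ ?_
        · intro τ hτ
          exact_mod_cast bad_card R P τ (T + 1) (k' * (T + 1)) hτ hP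
        · rw [e1]
          nlinarith
        · intro τ hτ
          exact_mod_cast bad_card' hdis P τ (T + 1) (k' * (T + 1)) hτ hP
  have h5 : δ * C.card < 4 * (T + 1) * (k + 1) := by
    rw [hX, div_lt_iff₀ (by positivity)] at hk2
    linarith
  have h6 : δ * (δ * C.card) ≤ δ * (4 * (T + 1) * (k + 1)) :=
    mul_le_mul_of_nonneg_left h5.le hδ.le
  have h7 : δ * k ≤ 3 / 2 * S := by linarith
  calc δ ^ 2 * C.card = δ * (δ * C.card) := by ring
    _ ≤ δ * (4 * (T + 1) * (k + 1)) := h6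
    _ = 4 * (δ * k + δ) * (T + 1) := by ring
    _ ≤ 4 * (3 / 2 * S + 1 / 2) * (T + 1) := by gcongr
    _ = (6 * S + 2) * (T + 1) := by ring

end Pool.Agent.H88.GG
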