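import Mathlib
import Pool.Agent.H88.GGFinal

set_option autoImplicit false
set_option linter.unusedSectionVars false

namespace Pool.Agent.H88.GG

/-- the sums of two arrays -/
def sums {G : Type} [AddCommGroup G] [DecidableEq G] {n : ℕ} (a b : Fin n → G) : Finset G :=
  (Finset.univ : Finset (Fin n × Fin n)).image fun ij => a ij.1 + b ij.2

section quad

variable {K : Type} [Field K] [Fintype K] [DecidableEq K]

/-- solutions of two equations -/
def S1 (I : Finset K) (c c' D E : K) : Finset (K × K) :=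
  (I ×ˢ I).filter fun p => c * p.1 - c' * p.2 = D ∧ c * p.1 ^ 2 - c' * p.2 ^ 2 = E

theorem mem_S1 {I : Finset K} {c c' D E : K} {p : K × K} : p ∈ S1 I c c' D E ↔
    (p.1 ∈ I ∧ p.2 ∈ I) ∧ c * p.1 - c' * p.2 = D ∧ c * p.1 ^ 2 - c' * p.2 ^ 2 = E := by
  unfold S1
  rw [Finset.mem_filter, Finset.mem_product]

theorem S1_card_le (I : Finset K) {c c' D E : K} (hc' : c' ≠ 0) :
    (S1 I c c' D E).card ≤ I.card := by
  refine Finset.card_le_card_of_injOn Prod.fst ?_ ?_
  · intro p hp
    exact (mem_S1.1 (Finset.mem_coe.1 hp)).1.1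
  · intro p hp q hq hpq
    have h1 := (mem_S1.1 (Finset.mem_coe.1 hp)).2.1
    have h2 := (mem_S1.1 (Finset.mem_coe.1 hq)).2.1
    have h3 : c' * p.2 = c' * q.2 := by
      rw [show p.1 = q.1 from hpq] at h1
      linear_combination h2 - h1
    exact Prod.ext hpq (mul_left_cancel₀ hc' h3)

theorem S1_card_one (I : Finset K) {c D E : K} (hc : c ≠ 0) (h2 : (2 : K) ≠ 0)
    (hDE : D ≠ 0 ∨ E ≠ 0) : (S1 I c c D E).card ≤ 1 := by
  rw [Finset.card_le_one]
  intro p hp q hq
  obtain ⟨-, h3, h4⟩ := mem_S1.1 hp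
  obtain ⟨-, h5, h6⟩ := mem_S1.1 hq
  have hD : D ≠ 0 := by
    rintro rfl
    rcases hDE with h | h
    · exact h rfl
    · apply h
      have : p.1 = p.2 := by
        have h7 : c * (p.1 - p.2) = 0 := by linear_combination h3
        rcases mul_eq_zero.1 h7 with h8 | h8
        · exact absurd h8 hc
        · exact sub_eq_zero.1 h8
      rw [← h4, this]
      ring
  have e1 : c * (p.1 - p.2) = D := by linear_combination h3
  have e2 : c * (q.1 - q.2) = D := by linear_combination h5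
  have hpd : c * (p.1 - p.2) ≠ 0 := by rw [e1]; exact hD
  have e3 : p.1 - p.2 = q.1 - q.2 := mul_left_cancel₀ hc (e1.trans e2.symm)
  have e4 : (c * (p.1 - p.2)) * (p.1 + p.2) = (c * (p.1 - p.2)) * (q.1 + q.2) := by
    have h7 : (c * (p.1 - p.2)) * (p.1 + p.2) = E := by linear_combination h4
    have h8 : (c * (p.1 - p.2)) * (q.1 + q.2) = E := by
      rw [e3]
      linear_combination h6
    rw [h7, h8]
  have e5 : p.1 + p.2 = q.1 + q.2 := mul_left_cancel₀ hpd e4
  have e6 : (2 : K) * p.1 = 2 * q.1 := by linear_combination e3 + e5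
  have e7 : (2 : K) * p.2 = 2 * q.2 := by linear_combination e5 - e3
  exact Prod.ext (mul_left_cancel₀ h2 e6) (mul_left_cancel₀ h2 e7)

theorem S1_card_two (I : Finset K) {c c' D E : K} (hc : c ≠ 0) (hc' : c' ≠ 0) (hcc : c ≠ c') :
    (S1 I c c' D E).card ≤ 2 := by
  rcases (S1 I c c' D E).eq_empty_or_nonempty with h | ⟨p, hp⟩
  · rw [h]; simp
  · have hsub : S1 I c c' D E ⊆ {p, (-2 * D / (c' - c) - p.1,
        (c * (-2 * D / (c' - c) - p.1) - D) / c')} := by
      intro q hq
      obtain ⟨-, h3, h4⟩ := mem_S1.1 hp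
      obtain ⟨-, h5, h6⟩ := mem_S1.1 hq
      rw [Finset.mem_insert, Finset.mem_singleton]
      by_cases hx : q.1 = p.1
      · left
        have : c' * q.2 = c' * p.2 := by
          rw [hx] at h5
          linear_combination h3 - h5
        exact Prod.ext hx (mul_left_cancel₀ hc' this)
      · right
        have hd : c' - c ≠ 0 := sub_ne_zero.2 (Ne.symm hcc)
        have hx' : c * (q.1 - p.1) ≠ 0 := mul_ne_zero hc (sub_ne_zero.2 hx)
        have key : c * (q.1 - p.1) * ((q.1 + p.1) * (c' - c) + 2 * D) = 0 := by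
          have e1 : c' * (c * q.1 ^ 2 - c' * q.2 ^ 2) = c' * (c * p.1 ^ 2 - c' * p.2 ^ 2) := by
            rw [h4, h6]
          have e2 : c' * q.2 = c * q.1 - D := by linear_combination -h5
          have e3 : c' * p.2 = c * p.1 - D := by linear_combination -h3
          have e4 : c' * (c' * q.2 ^ 2) = (c * q.1 - D) ^ 2 := by rw [← e2]; ring
          have e5 : c' * (c' * p.2 ^ 2) = (c * p.1 - D) ^ 2 := by rw [← e3]; ring
          have e6 : c' * c * q.1 ^ 2 - (c * q.1 - D) ^ 2 =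
              c' * c * p.1 ^ 2 - (c * p.1 - D) ^ 2 := by
            rw [← e4, ← e5]
            linear_combination e1
          linear_combination e6
        have h7 : (q.1 + p.1) * (c' - c) + 2 * D = 0 := by
          rcases mul_eq_zero.1 key with h | h
          · exact absurd h hx'
          · exact h
        have h8 : q.1 = -2 * D / (c' - c) - p.1 := by
          field_simp
          linear_combination h7
        refine Prod.ext h8 ?_
        simp only
        rw [← h8]
        field_simp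
        linear_combination -h5
    calc _ ≤ _ := Finset.card_le_card hsub
      _ ≤ 2 := Finset.card_le_two

end quad

/-- the first array of the example -/
def arrA (q n : ℕ) (i : Fin n) : Fin 4 → ZMod q := ![(i : ℕ), ((i : ℕ) : ZMod q) ^ 2, 0, 0]

/-- the second array of the example -/
def arrB (q n : ℕ) (j : Fin n) : Fin 4 → ZMod q := ![0, 0, (j : ℕ), ((j : ℕ) : ZMod q) ^ 2]

theorem arr_add (q n : ℕ) (i j : Fin n) : arrA q n i + arrB q n j =
    ![((i : ℕ) : ZMod q), ((i : ℕ) : ZMod q) ^ 2, (j : ℕ), ((j : ℕ) : ZMod q) ^ 2] := by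
  ext x
  fin_cases x <;> simp [arrA, arrB]

theorem mem_sums_arr {q n : ℕ} {z : Fin 4 → ZMod q} : z ∈ sums (arrA q n) (arrB q n) ↔
    ∃ i j : Fin n, z = ![((i : ℕ) : ZMod q), ((i : ℕ) : ZMod q) ^ 2, (j : ℕ),
      ((j : ℕ) : ZMod q) ^ 2] := by
  unfold sums
  rw [Finset.mem_image]
  constructor
  · rintro ⟨⟨i, j⟩, -, rfl⟩
    exact ⟨i, j, arr_add q n i j⟩
  · rintro ⟨i, j, rfl⟩
    exact ⟨(i, j), Finset.mem_univ _, arr_add q n i j⟩

theorem cast_inj {q n : ℕ} (hn : n ≤ q) {i j : Fin n}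
    (h : ((i : ℕ) : ZMod q) = ((j : ℕ) : ZMod q)) : i = j := by
  rw [ZMod.natCast_eq_natCast_iff] at h
  apply Fin.ext
  exact Nat.ModEq.eq_of_lt_of_lt h (lt_of_lt_of_le i.2 hn) (lt_of_lt_of_le j.2 hn)

theorem sums_arr_card (q n : ℕ) (hn : n ≤ q) :
    (sums (arrA q n) (arrB q n)).card = n ^ 2 := by
  unfold sums
  rw [Finset.card_image_of_injective]
  · simp [sq]
  · rintro ⟨i, j⟩ ⟨i', j'⟩ h
    simp only [arr_add] at h
    have h0 := congrFun h 0
    have h2 := congrFun h 2
    simp at h0 h2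
    rw [cast_inj hn h0, cast_inj hn h2]

theorem dispersed_arr (q n : ℕ) [Fact q.Prime] (hn : n ≤ q) (h4 : 4 ≤ n) :
    Dispersed (ZMod q) (sums (arrA q n) (arrB q n)) n := by
  intro f g hf hg hfg
  have h2 : (2 : ZMod q) ≠ 0 := by
    intro h
    have : ((2 : ℕ) : ZMod q) = 0 := by exact_mod_cast h
    rw [ZMod.natCast_eq_zero_iff] at this
    have := Nat.le_of_dvd (by norm_num) this
    omega
  let I : Finset (ZMod q) := Finset.image (fun i : Fin n => ((i : ℕ) : ZMod q)) Finset.univ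
  have hIc : I.card ≤ n := Finset.card_image_le.trans (by simp)
  have hmemI : ∀ i : Fin n, ((i : ℕ) : ZMod q) ∈ I := fun i =>
    Finset.mem_image_of_mem _ (Finset.mem_univ i)
  have hinj : ((sums (arrA q n) (arrB q n) ×ˢ sums (arrA q n) (arrB q n)).filter
      fun p => ev f p.1 = ev g p.2).card ≤
      (S1 I f.1 g.1 (g.2 0 - f.2 0) (g.2 1 - f.2 1) ×ˢ
        S1 I f.1 g.1 (g.2 2 - f.2 2) (g.2 3 - f.2 3)).card := by
    refine Finset.card_le_card_of_injOn (fun p => ((p.1 0, p.2 0), (p.1 2, p.2 2))) ?_ ?_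
    · rintro ⟨z, z'⟩ hp
      rw [Finset.mem_coe, Finset.mem_filter, Finset.mem_product] at hp
      obtain ⟨⟨h5, h6⟩, h7⟩ := hp
      obtain ⟨i, j, rfl⟩ := mem_sums_arr.1 h5
      obtain ⟨i', j', rfl⟩ := mem_sums_arr.1 h6
      rw [Finset.mem_coe, Finset.mem_product, mem_S1, mem_S1]
      have k0 := congrFun h7 0
      have k1 := congrFun h7 1
      have k2 := congrFun h7 2
      have k3 := congrFun h7 3
      simp [ev] at k0 k1 k2 k3
      refine ⟨⟨⟨hmemI i, hmemI i'⟩, ?_, ?_⟩, ⟨hmemI j, hmemI j'⟩, ?_, ?_⟩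
      · simp
        linear_combination k0
      · simp
        linear_combination k1
      · simp
        linear_combination k2
      · simp
        linear_combination k3
    · rintro ⟨z, z'⟩ hp ⟨w, w'⟩ hq h
      rw [Finset.mem_coe, Finset.mem_filter, Finset.mem_product] at hp hq
      obtain ⟨⟨h5, h6⟩, h7⟩ := hp
      obtain ⟨⟨h8, h9⟩, h10⟩ := hq
      obtain ⟨i, j, rfl⟩ := mem_sums_arr.1 h5
      obtain ⟨i', j', rfl⟩ := mem_sums_arr.1 h6
      obtain ⟨k, l, rfl⟩ := mem_sums_arr.1 h8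
      obtain ⟨k', l', rfl⟩ := mem_sums_arr.1 h9
      simp only [Prod.mk.injEq] at h
      obtain ⟨⟨e1, e2⟩, e3, e4⟩ := h
      simp at e1 e2 e3 e4
      rw [cast_inj hn e1, cast_inj hn e2, cast_inj hn e3, cast_inj hn e4]
  refine le_trans (le_of_eq ?_) (hinj.trans ?_)
  · congr!
  rw [Finset.card_product]
  by_cases hcc : f.1 = g.1
  · rw [← hcc]
    have hne : (g.2 0 - f.2 0 ≠ 0 ∨ g.2 1 - f.2 1 ≠ 0) ∨
        (g.2 2 - f.2 2 ≠ 0 ∨ g.2 3 - f.2 3 ≠ 0) := by
      by_contra hcon
      push Not at hcon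
      obtain ⟨⟨a0, a1⟩, a2, a3⟩ := hcon
      apply hfg
      refine Prod.ext hcc ?_
      ext x
      fin_cases x
      · exact (sub_eq_zero.1 a0).symm
      · exact (sub_eq_zero.1 a1).symm
      · exact (sub_eq_zero.1 a2).symm
      · exact (sub_eq_zero.1 a3).symm
    rcases hne with h | h
    · calc _ ≤ 1 * I.card := Nat.mul_le_mul (S1_card_one I hf h2 h) (S1_card_le I hf)
        _ ≤ n := by rw [one_mul]; exact hIc
    · calc _ ≤ I.card * 1 := Nat.mul_le_mul (S1_card_le I hf) (S1_card_one I hf h2 h)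
        _ ≤ n := by rw [mul_one]; exact hIc
  · calc _ ≤ 2 * 2 := Nat.mul_le_mul (S1_card_two I hf hg hcc) (S1_card_two I hf hg hcc)
      _ ≤ n := h4

end Pool.Agent.H88.GG
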