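import Mathlib

set_option autoImplicit false

/-!
# A family of c.e. sets with a computable positive numbering and without a one-to-one d.c.e. numbering

The index `2 e + c` (`c < 2`) has the markers `3 e + c` and `3 e + 2`. For the `e`-th pair of c.e.
relations `V ⊇ W` we wait for different indices `i`, `j` with `(i, 3 e)` and `(j, 3 e + 1)` in `V`;
then both sets with the indices `2 e`, `2 e + 1` get both markers `3 e`, `3 e + 1`, so that they become
equal. If later `(i, 3 e)` is in `W`, then `3 e` is put into all sets of the family; if `(j, 3 e + 1)` is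
in `W`, then `3 e + 1` is put into all sets of the family.
-/

namespace Pool.Agent.H88.PosFr

open Nat.Partrec (Code)
open Nat.Partrec.Code

/-- the code with number `n` -/
def cd (n : ℕ) : Code := Denumerable.ofNat Code n

theorem cd_comp : Computable cd := Computable.ofNat Code

/-- the test of the search -/
def P (e t : ℕ) : Bool :=
  (!(decide (t.unpair.1 = t.unpair.2.unpair.1))) &&
    ((evaln t.unpair.2.unpair.2 (cd e.unpair.1) (Nat.pair t.unpair.1 (3 * e))).isSome &&
    (evaln t.unpair.2.unpair.2 (cd e.unpair.1) (Nat.pair t.unpair.2.unpair.1 (3 * e + 1))).isSome)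

theorem P_comp : Computable₂ P := by
  have hcd : Primrec cd := Primrec.ofNat Code
  have ht : Primrec (fun q : ℕ × ℕ => q.2) := Primrec.snd
  have he : Primrec (fun q : ℕ × ℕ => q.1) := Primrec.fst
  have h1 : Primrec (fun q : ℕ × ℕ => q.2.unpair.1) := Primrec.fst.comp (Primrec.unpair.comp ht)
  have h2 : Primrec (fun q : ℕ × ℕ => q.2.unpair.2) := Primrec.snd.comp (Primrec.unpair.comp ht)
  have h3 : Primrec (fun q : ℕ × ℕ => q.2.unpair.2.unpair.1) :=
    Primrec.fst.comp (Primrec.unpair.comp h2)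
  have h4 : Primrec (fun q : ℕ × ℕ => q.2.unpair.2.unpair.2) :=
    Primrec.snd.comp (Primrec.unpair.comp h2)
  have h5 : Primrec (fun q : ℕ × ℕ => 3 * q.1) :=
    Primrec.nat_mul.comp (Primrec.const 3) he
  have h6 : Primrec (fun q : ℕ × ℕ => 3 * q.1 + 1) := Primrec.succ.comp h5
  have h7 : Primrec (fun q : ℕ × ℕ => cd q.1.unpair.1) :=
    hcd.comp (Primrec.fst.comp (Primrec.unpair.comp he))
  have h8 : Primrec (fun q : ℕ × ℕ =>
      (evaln q.2.unpair.2.unpair.2 (cd q.1.unpair.1) (Nat.pair q.2.unpair.1 (3 * q.1))).isSome) :=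
    Primrec.option_isSome.comp (primrec_evaln.comp
      (Primrec.pair (Primrec.pair h4 h7) (Primrec₂.natPair.comp h1 h5)))
  have h9 : Primrec (fun q : ℕ × ℕ =>
      (evaln q.2.unpair.2.unpair.2 (cd q.1.unpair.1)
        (Nat.pair q.2.unpair.2.unpair.1 (3 * q.1 + 1))).isSome) :=
    Primrec.option_isSome.comp (primrec_evaln.comp
      (Primrec.pair (Primrec.pair h4 h7) (Primrec₂.natPair.comp h3 h6)))
  have h10 : Primrec (fun q : ℕ × ℕ => decide (q.2.unpair.1 = q.2.unpair.2.unpair.1)) :=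
    (PrimrecRel.comp Primrec.eq h1 h3).decide
  have h11 : Primrec (fun q : ℕ × ℕ => P q.1 q.2) :=
    Primrec.and.comp (Primrec.not.comp h10) (Primrec.and.comp h8 h9)
  exact h11.to_comp

/-- the result of the search -/
def T (e : ℕ) : Part ℕ := Nat.rfind (fun t => (P e t : Part Bool))

theorem T_partrec : Partrec T := Partrec.rfind (P_comp.partrec₂)

/-- the event that the marker becomes global -/
def G (x : ℕ) : Part ℕ :=
  (T (x / 3)).bind fun t => eval (cd (x / 3).unpair.2)
    (Nat.pair (cond (decide (x % 3 = 0)) t.unpair.1 t.unpair.2.unpair.1) x)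

theorem G_partrec : Partrec G := by
  have h0 : Primrec (fun x : ℕ => x / 3) := Primrec.nat_div.comp Primrec.id (Primrec.const 3)
  have hm : Primrec (fun x : ℕ => x % 3) := Primrec.nat_mod.comp Primrec.id (Primrec.const 3)
  refine Partrec.bind (T_partrec.comp h0.to_comp) ?_
  have hx : Primrec (fun q : ℕ × ℕ => q.1) := Primrec.fst
  have ht : Primrec (fun q : ℕ × ℕ => q.2) := Primrec.snd
  have h1 : Primrec (fun q : ℕ × ℕ => q.2.unpair.1) := Primrec.fst.comp (Primrec.unpair.comp ht)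
  have h2 : Primrec (fun q : ℕ × ℕ => q.2.unpair.2) := Primrec.snd.comp (Primrec.unpair.comp ht)
  have h3 : Primrec (fun q : ℕ × ℕ => q.2.unpair.2.unpair.1) :=
    Primrec.fst.comp (Primrec.unpair.comp h2)
  have h4 : Primrec (fun q : ℕ × ℕ => decide (q.1 % 3 = 0)) :=
    (PrimrecRel.comp Primrec.eq (hm.comp hx) (Primrec.const 0)).decide
  have h5 : Primrec (fun q : ℕ × ℕ =>
      Nat.pair (cond (decide (q.1 % 3 = 0)) q.2.unpair.1 q.2.unpair.2.unpair.1) q.1) :=
    Primrec₂.natPair.comp (Primrec.cond h4 h1 h3) hx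
  have h6 : Primrec (fun q : ℕ × ℕ => cd (q.1 / 3).unpair.2) :=
    (Primrec.ofNat Code).comp (Primrec.snd.comp (Primrec.unpair.comp (h0.comp hx)))
  exact eval_part.comp h6.to_comp h5.to_comp

/-- the enumeration of the sets -/
def F (q : ℕ × ℕ) : Part ℕ :=
  cond (decide (q.2 / 3 = q.1 / 2))
    (cond (decide (q.2 % 3 = 2) || decide (q.2 % 3 = q.1 % 2)) (Part.some 0) (T (q.2 / 3)))
    (cond (decide (q.2 % 3 = 2)) Part.none (G q.2))

theorem F_partrec : Partrec F := by
  have h0 : Primrec (fun x : ℕ => x / 3) := Primrec.nat_div.comp Primrec.id (Primrec.const 3)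
  have hm : Primrec (fun x : ℕ => x % 3) := Primrec.nat_mod.comp Primrec.id (Primrec.const 3)
  have h0' : Primrec (fun x : ℕ => x / 2) := Primrec.nat_div.comp Primrec.id (Primrec.const 2)
  have hm' : Primrec (fun x : ℕ => x % 2) := Primrec.nat_mod.comp Primrec.id (Primrec.const 2)
  have hk : Primrec (fun q : ℕ × ℕ => q.1) := Primrec.fst
  have hx : Primrec (fun q : ℕ × ℕ => q.2) := Primrec.snd
  have h1 : Primrec (fun q : ℕ × ℕ => decide (q.2 / 3 = q.1 / 2)) :=
    (PrimrecRel.comp Primrec.eq (h0.comp hx) (h0'.comp hk)).decide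
  have h2 : Primrec (fun q : ℕ × ℕ => decide (q.2 % 3 = 2)) :=
    (PrimrecRel.comp Primrec.eq (hm.comp hx) (Primrec.const 2)).decide
  have h3 : Primrec (fun q : ℕ × ℕ => decide (q.2 % 3 = q.1 % 2)) :=
    (PrimrecRel.comp Primrec.eq (hm.comp hx) (hm'.comp hk)).decide
  refine Partrec.cond h1.to_comp (Partrec.cond (Primrec.or.comp h2 h3).to_comp
    (Computable.const 0).partrec (T_partrec.comp (h0.comp hx).to_comp))
    (Partrec.cond h2.to_comp Partrec.none (G_partrec.comp hx.to_comp))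

/-- the sets of the family -/
def α (k : ℕ) : Set ℕ := {x | (F (k, x)).Dom}

theorem mem_α (k x : ℕ) : x ∈ α k ↔
    (x / 3 = k / 2 ∧ (x % 3 = 2 ∨ x % 3 = k % 2 ∨ (T (k / 2)).Dom)) ∨
    (x / 3 ≠ k / 2 ∧ x % 3 ≠ 2 ∧ (G x).Dom) := by
  unfold α F
  simp only [Set.mem_ofPred_eq]
  by_cases h1 : x / 3 = k / 2
  · simp only [h1, decide_true, cond_true, ne_eq, not_true_eq_false, false_and, or_false, true_and]
    by_cases h2 : x % 3 = 2
    · simp [h2]
    · by_cases h3 : x % 3 = k % 2
      · simp [h3]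
      · simp [h2, h3]
  · simp only [h1, decide_false, cond_false, false_and, false_or, ne_eq, not_false_eq_true,
      true_and]
    by_cases h2 : x % 3 = 2
    · simp [h2]
    · simp [h2]

theorem G_dom_T {x : ℕ} (h : (G x).Dom) : (T (x / 3)).Dom := by
  unfold G at h
  rw [Part.bind_dom] at h
  exact h.1

/-- a global element is in all sets -/
theorem glob_mem {x : ℕ} (h2 : x % 3 ≠ 2) (h : (G x).Dom) (k : ℕ) : x ∈ α k := by
  rw [mem_α]
  by_cases h1 : x / 3 = k / 2
  · exact Or.inl ⟨h1, Or.inr (Or.inr (h1 ▸ G_dom_T h))⟩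
  · exact Or.inr ⟨h1, h2, h⟩

theorem α_eq_iff (k l : ℕ) : α k = α l ↔ k = l ∨ (k / 2 = l / 2 ∧ (T (k / 2)).Dom) := by
  constructor
  · intro h
    by_cases h1 : k / 2 = l / 2
    · by_cases h2 : k = l
      · exact Or.inl h2
      · right
        refine ⟨h1, ?_⟩
        have h3 : 3 * (k / 2) + k % 2 ∈ α k := by
          rw [mem_α]
          left
          constructor
          · omega
          · right; left; omega
        rw [h, mem_α] at h3
        rcases h3 with ⟨-, h4 | h4 | h4⟩ | ⟨h4, -⟩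
        · omega
        · omega
        · rw [h1]; exact h4
        · omega
    · exfalso
      have h3 : 3 * (k / 2) + 2 ∈ α k := by
        rw [mem_α]
        left
        constructor
        · omega
        · left; omega
      rw [h, mem_α] at h3
      rcases h3 with ⟨h4, -⟩ | ⟨-, h4, -⟩
      · omega
      · omega
  · rintro (h | ⟨h1, h2⟩)
    · rw [h]
    · ext x
      rw [mem_α, mem_α, ← h1]
      simp [h2]

theorem exists_cd {R : ℕ × ℕ → Prop} (h : REPred R) :
    ∃ n : ℕ, ∀ p : ℕ × ℕ, R p ↔ (eval (cd n) (Nat.pair p.1 p.2)).Dom := by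
  have h1 : Partrec (fun m : ℕ => (Part.assert (R m.unpair) fun _ => Part.some ()).map
      fun _ => (0 : ℕ)) :=
    Partrec.map (Partrec.comp (f := fun p : ℕ × ℕ => Part.assert (R p) fun _ => Part.some ()) h
      Computable.unpair) (Computable.const 0).to₂
  obtain ⟨c, hc⟩ := exists_code.1 (Partrec.nat_iff.1 h1)
  refine ⟨Encodable.encode c, fun p => ?_⟩
  unfold cd
  rw [Denumerable.ofNat_encode, hc]
  simp [Part.assert]

theorem evaln_isSome {s c n} (h : (evaln s c n).isSome) : (eval c n).Dom := by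
  obtain ⟨x, hx⟩ := Option.isSome_iff_exists.1 h
  exact Part.dom_iff_mem.2 ⟨x, evaln_sound (by rw [hx]; rfl)⟩

theorem exists_isSome {c n} (h : (eval c n).Dom) : ∃ k, ∀ s ≥ k, (evaln s c n).isSome := by
  obtain ⟨x, hx⟩ := Part.dom_iff_mem.1 h
  obtain ⟨k, hk⟩ := evaln_complete.1 hx
  refine ⟨k, fun s hs => ?_⟩
  have := evaln_mono hs hk
  exact Option.isSome_iff_exists.2 ⟨x, this⟩

theorem T_spec {e t : ℕ} (h : t ∈ T e) :
    t.unpair.1 ≠ t.unpair.2.unpair.1 ∧
    (eval (cd e.unpair.1) (Nat.pair t.unpair.1 (3 * e))).Dom ∧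
    (eval (cd e.unpair.1) (Nat.pair t.unpair.2.unpair.1 (3 * e + 1))).Dom := by
  have h1 := Nat.rfind_spec h
  have h2 : P e t = true := by simpa using h1
  unfold P at h2
  simp only [Bool.and_eq_true, Bool.not_eq_true', decide_eq_false_iff_not] at h2
  exact ⟨h2.1, evaln_isSome h2.2.1, evaln_isSome h2.2.2⟩

theorem T_dom {e i j : ℕ} (hij : i ≠ j)
    (hi : (eval (cd e.unpair.1) (Nat.pair i (3 * e))).Dom)
    (hj : (eval (cd e.unpair.1) (Nat.pair j (3 * e + 1))).Dom) : (T e).Dom := by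
  obtain ⟨a, ha⟩ := exists_isSome hi
  obtain ⟨b, hb⟩ := exists_isSome hj
  have key : P e (Nat.pair i (Nat.pair j (max a b))) = true := by
    unfold P
    simp only [Nat.unpair_pair, Bool.and_eq_true, Bool.not_eq_true', decide_eq_false_iff_not]
    exact ⟨hij, ha _ (le_max_left _ _), hb _ (le_max_right _ _)⟩
  obtain ⟨n, hn, -⟩ := Nat.rfind_min' (p := P e) key
  exact Part.dom_iff_mem.2 ⟨n, hn⟩

/-- There is no one-to-one numbering of the family whose membership relation is a difference of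
c.e. relations. -/
theorem no_friedberg (μ : ℕ → Set ℕ) (hr : Set.range μ = Set.range α)
    (hinj : Function.Injective μ) (V W : ℕ × ℕ → Prop) (hV : REPred V) (hW : REPred W)
    (h : ∀ p : ℕ × ℕ, p.2 ∈ μ p.1 ↔ (V p ∧ ¬ W p)) : False := by
  obtain ⟨v, hv⟩ := exists_cd hV
  obtain ⟨w, hw⟩ := exists_cd hW
  obtain ⟨e, he⟩ : ∃ e, e = Nat.pair v w := ⟨_, rfl⟩
  have e1 : e.unpair.1 = v := by rw [he]; simp
  have e2 : e.unpair.2 = w := by rw [he]; simp
  have hμ : ∀ k, ∃ i, μ i = α k := fun k => by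
    have : α k ∈ Set.range μ := by rw [hr]; exact ⟨k, rfl⟩
    exact this
  have hα : ∀ i, ∃ k, α k = μ i := fun i => by
    have : μ i ∈ Set.range α := by rw [← hr]; exact ⟨i, rfl⟩
    exact this
  have hT : (T e).Dom := by
    by_contra hT
    obtain ⟨i, hi⟩ := hμ (2 * e)
    obtain ⟨j, hj⟩ := hμ (2 * e + 1)
    have hne : α (2 * e) ≠ α (2 * e + 1) := by
      rw [Ne, α_eq_iff]
      rintro (h1 | ⟨-, h1⟩)
      · omega
      · apply hT
        have : 2 * e / 2 = e := by omega
        rwa [this] at h1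
    have hij : i ≠ j := fun h1 => hne (by rw [← hi, ← hj, h1])
    apply hT
    refine T_dom hij ?_ ?_
    · rw [e1]
      have h3 : 3 * e ∈ μ i := by
        rw [hi, mem_α]
        left; constructor
        · omega
        · right; left; omega
      exact (hv (i, 3 * e)).1 ((h (i, 3 * e)).1 h3).1
    · rw [e1]
      have h3 : 3 * e + 1 ∈ μ j := by
        rw [hj, mem_α]
        left; constructor
        · omega
        · right; left; omega
      exact (hv (j, 3 * e + 1)).1 ((h (j, 3 * e + 1)).1 h3).1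
  obtain ⟨t, ht⟩ := Part.dom_iff_mem.1 hT
  obtain ⟨hne, h1, h2⟩ := T_spec ht
  rw [e1] at h1 h2
  have hGi : ∀ x, x / 3 = e → ((G x).Dom ↔ W (cond (decide (x % 3 = 0)) t.unpair.1
      t.unpair.2.unpair.1, x)) := by
    intro x hx
    rw [hw]
    unfold G
    rw [hx, e2]
    have : T e = Part.some t := Part.eq_some_iff.2 ht
    rw [this, Part.bind_some]
  have hG0 := hGi (3 * e) (by omega)
  have hG1 := hGi (3 * e + 1) (by omega)
  have m0 : 3 * e % 3 = 0 := by omega
  have m1 : (3 * e + 1) % 3 = 1 := by omega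
  simp only [m0, decide_true, cond_true] at hG0
  simp only [m1, one_ne_zero, decide_false, cond_false] at hG1
  -- neither marker is global
  have hn0 : ¬ (G (3 * e)).Dom := by
    intro hg
    have h3 := hG0.1 hg
    obtain ⟨k, hk⟩ := hα t.unpair.1
    have h4 := glob_mem (by omega) hg k
    rw [hk] at h4
    exact ((h (t.unpair.1, 3 * e)).1 h4).2 h3
  have hn1 : ¬ (G (3 * e + 1)).Dom := by
    intro hg
    have h3 := hG1.1 hg
    obtain ⟨k, hk⟩ := hα t.unpair.2.unpair.1
    have h4 := glob_mem (by omega) hg k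
    rw [hk] at h4
    exact ((h (t.unpair.2.unpair.1, 3 * e + 1)).1 h4).2 h3
  have h5 : 3 * e ∈ μ t.unpair.1 :=
    (h (t.unpair.1, 3 * e)).2 ⟨(hv (t.unpair.1, 3 * e)).2 h1, fun hc => hn0 (hG0.2 hc)⟩
  have h6 : 3 * e + 1 ∈ μ t.unpair.2.unpair.1 :=
    (h (t.unpair.2.unpair.1, 3 * e + 1)).2
      ⟨(hv (t.unpair.2.unpair.1, 3 * e + 1)).2 h2, fun hc => hn1 (hG1.2 hc)⟩
  obtain ⟨k, hk⟩ := hα t.unpair.1
  obtain ⟨l, hl⟩ := hα t.unpair.2.unpair.1
  have hk2 : k / 2 = e := by
    rw [← hk, mem_α] at h5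
    rcases h5 with ⟨h7, -⟩ | ⟨-, -, h7⟩
    · omega
    · exact absurd h7 hn0
  have hl2 : l / 2 = e := by
    rw [← hl, mem_α] at h6
    rcases h6 with ⟨h7, -⟩ | ⟨-, -, h7⟩
    · omega
    · exact absurd h7 hn1
  have h8 : α k = α l := (α_eq_iff k l).2 (Or.inr ⟨by omega, by rw [hk2]; exact hT⟩)
  exact hne (hinj (by rw [← hk, ← hl, h8]))

theorem α_infinite : (Set.range α).Infinite := by
  have h : Function.Injective (fun e : ℕ => α (2 * e)) := by
    intro a b hab
    have := (α_eq_iff _ _).1 hab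
    omega
  exact (Set.infinite_range_of_injective h).mono (by
    rintro _ ⟨e, rfl⟩
    exact ⟨2 * e, rfl⟩)

theorem α_re : REPred (fun p : ℕ × ℕ => p.2 ∈ α p.1) :=
  (Partrec.dom_re F_partrec).of_eq fun p => by cases p; rfl

/-- the enumeration of the equality relation -/
def E (q : ℕ × ℕ) : Part ℕ :=
  cond (decide (q.1 = q.2)) (Part.some 0)
    (cond (decide (q.1 / 2 = q.2 / 2)) (T (q.1 / 2)) Part.none)

theorem E_partrec : Partrec E := by
  have h0' : Primrec (fun x : ℕ => x / 2) := Primrec.nat_div.comp Primrec.id (Primrec.const 2)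
  have hk : Primrec (fun q : ℕ × ℕ => q.1) := Primrec.fst
  have hx : Primrec (fun q : ℕ × ℕ => q.2) := Primrec.snd
  have h1 : Primrec (fun q : ℕ × ℕ => decide (q.1 = q.2)) :=
    (PrimrecRel.comp Primrec.eq hk hx).decide
  have h2 : Primrec (fun q : ℕ × ℕ => decide (q.1 / 2 = q.2 / 2)) :=
    (PrimrecRel.comp Primrec.eq (h0'.comp hk) (h0'.comp hx)).decide
  exact Partrec.cond h1.to_comp (Computable.const 0).partrec
    (Partrec.cond h2.to_comp (T_partrec.comp (h0'.comp hk).to_comp) Partrec.none)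

theorem α_pos : REPred (fun p : ℕ × ℕ => α p.1 = α p.2) := by
  refine (Partrec.dom_re E_partrec).of_eq fun p => ?_
  rw [α_eq_iff]
  unfold E
  by_cases h1 : p.1 = p.2
  · simp [h1]
  · by_cases h2 : p.1 / 2 = p.2 / 2
    · simp [h1, h2]
    · simp [h1, h2]

theorem none_re : REPred (fun _ : ℕ × ℕ => False) :=
  (Partrec.dom_re (f := fun _ : ℕ × ℕ => (Part.none : Part ℕ)) Partrec.none).of_eq fun _ => by
    simp

/-- parity of the number of relations, for two relations -/
theorem card_two (R : ℕ → ℕ × ℕ → Prop) (p : ℕ × ℕ) :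
    Odd (Nat.card {i : Fin (0 + 2) // R i.val p}) ↔ ¬ (R 0 p ↔ R 1 p) := by
  classical
  rw [Nat.card_eq_fintype_card, Fintype.card_subtype]
  have : (Finset.univ : Finset (Fin (0 + 2))) = {0, 1} := rfl
  rw [this, Finset.filter_insert, Finset.filter_singleton]
  by_cases h0 : R 0 p <;> by_cases h1 : R 1 p <;> simp [h0, h1]

end Pool.Agent.H88.PosFr
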