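import Pool.Agent.W57.SW.Group
import Pool.Agent.Helper112.MultLS

/-! Prime moduli for which all elements of a set of integers lie in a small subgroup: the bound from
the large sieve. -/

set_option autoImplicit false

namespace Pool.Agent.H88.WF

open Finset Real

/-- the exponent of the group generated by the elements of `S` modulo `q` -/
noncomputable def el (q : ℕ) (S : Finset ℕ) : ℕ := S.lcm (fun s => orderOf (s : ZMod q))

lemma el_dvd_of {q k : ℕ} {S : Finset ℕ} (h : ∀ s ∈ S, (s : ZMod q) ^ k = 1) : el q S ∣ k :=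
  Finset.lcm_dvd fun s hs => orderOf_dvd_of_pow_eq_one (h s hs)

lemma pow_el {q : ℕ} {S : Finset ℕ} {s : ℕ} (hs : s ∈ S) : (s : ZMod q) ^ el q S = 1 :=
  orderOf_dvd_iff_pow_eq_one.1 (Finset.dvd_lcm hs)

lemma el_dvd_sub {q : ℕ} (hq : q.Prime) {S : Finset ℕ} (h : ∀ s ∈ S, ¬ q ∣ s) : el q S ∣ q - 1 := by
  have := Fact.mk hq
  refine el_dvd_of fun s hs => ZMod.pow_card_sub_one_eq_one ?_
  rw [Ne, ZMod.natCast_eq_zero_iff]
  exact h s hs

open Classical in
/-- there are at least `(q - 1) / e` characters which are trivial on the elements whose `e`-th power is one -/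
lemma chars {q : ℕ} (hq : q.Prime) {e : ℕ} (he : e ∣ q - 1) (S : Finset ℕ)
    (hS : ∀ s ∈ S, (s : ZMod q) ^ e = 1) :
    (q - 1) / e ≤ ((univ : Finset (DirichletCharacter ℂ q)).filter
      (fun χ => ∀ s ∈ S, χ (s : ZMod q) = 1)).card := by
  have := Fact.mk hq
  have hq1 : 0 < q - 1 := by have := hq.two_le; omega
  have he0 : 0 < e := Nat.pos_of_dvd_of_pos he hq1
  have hcard : Fintype.card (DirichletCharacter ℂ q) = q - 1 := by
    rw [← Nat.card_eq_fintype_card, DirichletCharacter.card_eq_totient_of_hasEnoughRootsOfUnity,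
      Nat.totient_prime hq]
  obtain ⟨g, hg⟩ := IsCyclic.exists_generator (α := (ZMod q)ˣ)
  -- the power map
  obtain ⟨φ, hφ⟩ : ∃ φ : DirichletCharacter ℂ q →* DirichletCharacter ℂ q, ∀ ψ, φ ψ = ψ ^ e :=
    ⟨powMonoidHom e, fun ψ => rfl⟩
  have hker : Nat.card φ.ker ≤ e := by
    have hinj : Function.Injective (fun ψ : φ.ker =>
        (⟨(ψ : DirichletCharacter ℂ q) (g : ZMod q), by
          rw [Polynomial.mem_nthRootsFinset he0]
          have h1 := ψ.2
          rw [MonoidHom.mem_ker, hφ] at h1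
          rw [← MulChar.pow_apply_coe, h1]
          simp⟩ : {z : ℂ // z ∈ Polynomial.nthRootsFinset e (1 : ℂ)})) := by
      intro ψ ψ' h
      have h1 : (ψ : DirichletCharacter ℂ q) (g : ZMod q) = (ψ' : DirichletCharacter ℂ q) (g : ZMod q) :=
        congrArg Subtype.val h
      apply Subtype.ext
      exact (MulChar.eq_iff hg _ _).2 h1
    have h2 := Nat.card_le_card_of_injective _ hinj
    refine h2.trans ?_
    rw [Nat.card_eq_fintype_card, Fintype.card_coe]
    exact (Multiset.toFinset_card_le _).trans (Polynomial.card_nthRoots _ _)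
  have hrange : Nat.card φ.ker * Nat.card φ.range = q - 1 := by
    have h1 := Subgroup.card_mul_index φ.ker
    rw [Subgroup.index_ker] at h1
    rw [h1, Nat.card_eq_fintype_card, hcard]
  have hsub : Nat.card φ.range ≤ ((univ : Finset (DirichletCharacter ℂ q)).filter
      (fun χ => ∀ s ∈ S, χ (s : ZMod q) = 1)).card := by
    have hinj : Function.Injective (fun ψ : φ.range =>
        (⟨(ψ : DirichletCharacter ℂ q), by
          obtain ⟨ψ, ψ0, h0⟩ := ψ
          rw [mem_filter]
          refine ⟨mem_univ _, fun s hs => ?_⟩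
          show ψ _ = 1
          rw [← h0, hφ]
          have h2 := hS s hs
          have h3 : IsUnit (s : ZMod q) := by
            rw [isUnit_iff_ne_zero]
            intro h4
            rw [h4, zero_pow he0.ne'] at h2
            exact zero_ne_one h2
          obtain ⟨u, hu⟩ := h3
          rw [← hu, MulChar.pow_apply_coe, ← map_pow]
          rw [← hu] at h2
          rw [h2, map_one]⟩ : {χ // χ ∈ (univ : Finset (DirichletCharacter ℂ q)).filter
      (fun χ => ∀ s ∈ S, χ (s : ZMod q) = 1)})) := by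
      intro ψ ψ' h
      have h' := congrArg Subtype.val h
      exact Subtype.ext h'
    have h2 := Nat.card_le_card_of_injective _ hinj
    refine h2.trans ?_
    rw [Nat.card_eq_fintype_card, Fintype.card_coe]
  refine le_trans ?_ hsub
  rw [Nat.div_le_iff_le_mul_add_pred he0]
  have h3 : q - 1 ≤ e * Nat.card φ.range := by
    rw [← hrange]
    exact Nat.mul_le_mul_right _ hker
  omega

open Classical in
/-- the large sieve -/
lemma sieve (P : ℕ) (hP : 1 ≤ P) (S : Finset ℕ) (hS : S ⊆ Icc 1 (P ^ 2))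
    (hS1 : ∀ s ∈ S, ∀ q : ℕ, q.Prime → P ≤ q → ¬ q ∣ s) (hS0 : 0 < S.card) :
    ∑ q ∈ (Ico P (2 * P)).filter Nat.Prime, ((((q - 1) / el q S : ℕ) : ℝ) - 1) ≤
      30 * (P : ℝ) ^ 2 / S.card := by
  have hls := Pool.Agent.Helper112.mult_large_sieve (P ^ 2) (2 * P)
    (fun n => if n ∈ S then 1 else 0)
  have hr : ∑ n ∈ Icc 1 (P ^ 2), ‖(if n ∈ S then (1 : ℂ) else 0)‖ ^ 2 = S.card := by
    have h1 : ∀ n ∈ Icc 1 (P ^ 2), ‖(if n ∈ S then (1 : ℂ) else 0)‖ ^ 2 = if n ∈ S then (1 : ℝ) else 0 := by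
      intro n _
      split_ifs <;> simp
    rw [sum_congr rfl h1, sum_ite_mem, inter_eq_right.2 hS, sum_const, nsmul_eq_mul, mul_one]
  have hsum : ∀ (q : ℕ) (χ : DirichletCharacter ℂ q), ∑ n ∈ Icc 1 (P ^ 2), (if n ∈ S then (1 : ℂ) else 0) * χ (n : ZMod q) =
      ∑ s ∈ S, χ (s : ZMod q) := by
    intro q χ
    have h1 : ∀ n ∈ Icc 1 (P ^ 2), (if n ∈ S then (1 : ℂ) else 0) * χ (n : ZMod q) =
        if n ∈ S then χ (n : ZMod q) else 0 := by
      intro n _
      split_ifs <;> simp
    rw [sum_congr rfl h1, sum_ite_mem, inter_eq_right.2 hS]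
  rw [hr] at hls
  simp_rw [hsum] at hls
  have hterm : ∀ q ∈ (Ico P (2 * P)).filter Nat.Prime,
      ((((q - 1) / el q S : ℕ) : ℝ) - 1) * (S.card : ℝ) ^ 2 ≤
      ((q : ℝ) / (Nat.totient q : ℝ)) *
        ∑ χ ∈ (univ : Finset (DirichletCharacter ℂ q)).filter (fun χ => χ.IsPrimitive),
        ‖∑ s ∈ S, χ (s : ZMod q)‖ ^ 2 := by
    intro q hq
    rw [mem_filter, mem_Ico] at hq
    obtain ⟨⟨hq1, hq2⟩, hqp⟩ := hq
    have := Fact.mk hqp
    have h1 := chars hqp (el_dvd_sub hqp (fun s hs => hS1 s hs q hqp hq1)) S (fun s hs => pow_el hs)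
    have hsub : ((univ : Finset (DirichletCharacter ℂ q)).filter
      (fun χ => ∀ s ∈ S, χ (s : ZMod q) = 1)).erase 1 ⊆
        (univ : Finset (DirichletCharacter ℂ q)).filter (fun χ => χ.IsPrimitive) := by
      intro χ hχ
      rw [mem_erase, mem_filter] at hχ
      rw [mem_filter]
      refine ⟨mem_univ _, ?_⟩
      rw [DirichletCharacter.isPrimitive_def]
      rcases (Nat.dvd_prime hqp).1 (DirichletCharacter.conductor_dvd_level χ) with h | h
      · exact absurd (DirichletCharacter.eq_one_iff_conductor_eq_one.2 h) hχ.1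
      · exact h
    have h2 : ((((q - 1) / el q S : ℕ) : ℝ) - 1) ≤ ((((univ : Finset (DirichletCharacter ℂ q)).filter
      (fun χ => ∀ s ∈ S, χ (s : ZMod q) = 1)).erase 1).card : ℝ) := by
      have h3 : ((univ : Finset (DirichletCharacter ℂ q)).filter
        (fun χ => ∀ s ∈ S, χ (s : ZMod q) = 1)).card ≤ (((univ : Finset (DirichletCharacter ℂ q)).filter
        (fun χ => ∀ s ∈ S, χ (s : ZMod q) = 1)).erase 1).card + 1 := by
        have := Finset.pred_card_le_card_erase (s := ((univ : Finset (DirichletCharacter ℂ q)).filter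
          (fun χ => ∀ s ∈ S, χ (s : ZMod q) = 1))) (a := 1)
        omega
      have h4 : (((q - 1) / el q S : ℕ) : ℝ) ≤ ((((univ : Finset (DirichletCharacter ℂ q)).filter
        (fun χ => ∀ s ∈ S, χ (s : ZMod q) = 1)).erase 1).card : ℝ) + 1 := by
        exact_mod_cast h1.trans h3
      linarith
    have h5 : ∑ χ ∈ ((univ : Finset (DirichletCharacter ℂ q)).filter
      (fun χ => ∀ s ∈ S, χ (s : ZMod q) = 1)).erase 1, ‖∑ s ∈ S, χ (s : ZMod q)‖ ^ 2 =
      ((((univ : Finset (DirichletCharacter ℂ q)).filter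
      (fun χ => ∀ s ∈ S, χ (s : ZMod q) = 1)).erase 1).card : ℝ) * (S.card : ℝ) ^ 2 := by
      rw [sum_congr rfl (g := fun _ => (S.card : ℝ) ^ 2), sum_const, nsmul_eq_mul]
      intro χ hχ
      rw [mem_erase, mem_filter] at hχ
      rw [sum_congr rfl hχ.2.2, sum_const, nsmul_eq_mul, mul_one]
      simp
    calc _ ≤ ((((univ : Finset (DirichletCharacter ℂ q)).filter
      (fun χ => ∀ s ∈ S, χ (s : ZMod q) = 1)).erase 1).card : ℝ) * (S.card : ℝ) ^ 2 :=
          mul_le_mul_of_nonneg_right h2 (by positivity)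
      _ ≤ ∑ χ ∈ (univ : Finset (DirichletCharacter ℂ q)).filter (fun χ => χ.IsPrimitive),
        ‖∑ s ∈ S, χ (s : ZMod q)‖ ^ 2 := by
          rw [← h5]
          exact sum_le_sum_of_subset_of_nonneg hsub fun _ _ _ => by positivity
      _ ≤ _ := by
          refine le_mul_of_one_le_left (sum_nonneg fun _ _ => by positivity) ?_
          have h6 : (0 : ℝ) < (Nat.totient q : ℝ) := by exact_mod_cast Nat.totient_pos.2 hqp.pos
          rw [one_le_div h6]
          exact_mod_cast Nat.totient_le q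
  have hsum2 : (∑ q ∈ (Ico P (2 * P)).filter Nat.Prime, ((((q - 1) / el q S : ℕ) : ℝ) - 1)) *
      (S.card : ℝ) ^ 2 ≤ 30 * (P : ℝ) ^ 2 * S.card := by
    rw [sum_mul]
    refine (sum_le_sum hterm).trans ?_
    refine le_trans (sum_le_sum_of_subset_of_nonneg (t := Icc 1 (2 * P)) ?_ ?_) (hls.trans (le_of_eq ?_))
    · intro q hq
      rw [mem_filter, mem_Ico] at hq
      rw [mem_Icc]
      omega
    · intro q _ _
      exact mul_nonneg (by positivity) (sum_nonneg fun _ _ => by positivity)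
    · push_cast
      ring
  have hc : (0 : ℝ) < S.card := by exact_mod_cast hS0
  rw [le_div_iff₀ hc]
  have h7 : (∑ q ∈ (Ico P (2 * P)).filter Nat.Prime, ((((q - 1) / el q S : ℕ) : ℝ) - 1)) * (S.card : ℝ) *
      S.card ≤ 30 * (P : ℝ) ^ 2 * S.card := by
    rw [mul_assoc, ← sq]
    exact hsum2
  exact le_of_mul_le_mul_right h7 hc

end Pool.Agent.H88.WF
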