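import Pool.Agent.H88.WF0

/-! Exceptions with a large prime factor. -/

set_option autoImplicit false

namespace Pool.Agent.H88.WF

open Finset Real Pool.Agent.H379R2.W Pool.Agent.W57.SW

lemma el_dvd_cofactor {A : ℝ} {P q m : ℕ} {S : Finset ℕ} (hP : 2 ≤ P) (hb : Fp A (q * m)) (hq : q.Prime)
    (hPq : P ≤ q) (hA : 0 ≤ A) (hS : ∀ s ∈ S, 1 ≤ s) (hS1 : ∀ s ∈ S, ¬ q ∣ s)
    (hsm : ∀ s ∈ S, ∀ p : ℕ, p.Prime → p ∣ s → (p : ℝ) ≤ 2 * (log P) ^ A) :
    2 ≤ m ∧ el q S ∣ m - 1 := by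
  have hm2 : 2 ≤ m := by
    by_contra h
    have : m = 0 ∨ m = 1 := by omega
    rcases this with h | h
    · have := hb.1
      rw [h, mul_zero] at this
      omega
    · apply hb.2.1
      rw [h, mul_one]
      exact hq
  refine ⟨hm2, ?_⟩
  have hPn : P ≤ q * m := hPq.trans (Nat.le_mul_of_pos_right _ (by omega))
  have hlog : log (P : ℝ) ≤ log ((q * m : ℕ) : ℝ) :=
    log_le_log (by exact_mod_cast (by omega : 0 < P)) (by exact_mod_cast hPn)
  have hlog0 : 0 ≤ log (P : ℝ) := log_natCast_nonneg P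
  have h1 : el q S ∣ q * m - 1 := by
    refine el_dvd_of fun s hs => pow_eq_one_of_primes s (hS s hs) fun p hp hps => ?_
    refine hb.dvd hp ((hsm s hs p hp hps).trans ?_) ⟨m, rfl⟩
    have := rpow_le_rpow hlog0 hlog hA
    linarith
  have h2 : el q S ∣ q - 1 := el_dvd_sub hq hS1
  have e1 : q * m - 1 = (q - 1) * m + (m - 1) := by
    obtain ⟨q', rfl⟩ : ∃ q', q = q' + 1 := ⟨q - 1, by have := hq.two_le; omega⟩
    obtain ⟨m', rfl⟩ : ∃ m', m = m' + 1 := ⟨m - 1, by omega⟩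
    simp only [Nat.add_sub_cancel]
    rw [show (q' + 1) * (m' + 1) = q' * (m' + 1) + m' + 1 by ring]
    omega
  rw [e1] at h1
  exact (Nat.dvd_add_right (h2.mul_right m)).1 h1

open Classical in
lemma block {A : ℝ} (hA : 0 ≤ A) {P x : ℕ} {S : Finset ℕ} (hP : 2 ≤ P) (hS : S ⊆ Icc 1 (P ^ 2))
    (hS1 : ∀ s ∈ S, ∀ q : ℕ, q.Prime → P ≤ q → ¬ q ∣ s) (hS0 : 0 < S.card)
    (hsm : ∀ s ∈ S, ∀ p : ℕ, p.Prime → p ∣ s → (p : ℝ) ≤ 2 * (log P) ^ A) :
    (((Icc 1 x).filter (fun n => Fp A n ∧ ∃ q : ℕ, q.Prime ∧ P ≤ q ∧ q < 2 * P ∧ q ∣ n ∧ x < q ^ 2)).card : ℝ)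
      ≤ 120 * x / S.card := by
  obtain ⟨c, hc⟩ : ∃ c : ℕ → ℕ, ∀ q, c q = if x < q ^ 2 then (x / q - 1) / el q S else 0 := ⟨_, fun _ => rfl⟩
  have hcov : (Icc 1 x).filter (fun n => Fp A n ∧ ∃ q : ℕ, q.Prime ∧ P ≤ q ∧ q < 2 * P ∧ q ∣ n ∧ x < q ^ 2) ⊆
      ((Ico P (2 * P)).filter Nat.Prime).biUnion
        (fun q => (Icc 1 (c q)).image (fun k => q * (k * el q S + 1))) := by
    intro n hn
    rw [mem_filter, mem_Icc] at hn
    obtain ⟨⟨hn1, hnx⟩, hb, q, hq, hq1, hq2, ⟨m, rfl⟩, hq3⟩ := hn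
    rw [mem_biUnion]
    refine ⟨q, ?_, ?_⟩
    · rw [mem_filter, mem_Ico]
      exact ⟨⟨hq1, hq2⟩, hq⟩
    · obtain ⟨h1, k, h2⟩ := el_dvd_cofactor hP hb hq hq1 hA (fun s hs => (mem_Icc.1 (hS hs)).1)
        (fun s hs => hS1 s hs q hq hq1) hsm
      have h3 : m ≤ x / q := by
        rw [Nat.le_div_iff_mul_le hq.pos, mul_comm]
        exact hnx
      have hel : 0 < el q S := by
        rcases Nat.eq_zero_or_pos (el q S) with h | h
        · rw [h, zero_mul] at h2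
          omega
        · exact h
      have hk : 1 ≤ k := by
        rcases Nat.eq_zero_or_pos k with h | h
        · rw [h, mul_zero] at h2
          omega
        · exact h
      rw [mem_image]
      refine ⟨k, ?_, ?_⟩
      · rw [mem_Icc, hc, if_pos hq3, Nat.le_div_iff_mul_le hel]
        refine ⟨hk, ?_⟩
        rw [mul_comm]
        omega
      · rw [mul_comm k, ← h2, Nat.sub_add_cancel (by omega)]
  have h1 : (((Icc 1 x).filter (fun n => Fp A n ∧ ∃ q : ℕ, q.Prime ∧ P ≤ q ∧ q < 2 * P ∧ q ∣ n ∧ x < q ^ 2)).card : ℝ)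
      ≤ ∑ q ∈ (Ico P (2 * P)).filter Nat.Prime, (c q : ℝ) := by
    have h2 := (card_le_card hcov).trans card_biUnion_le
    have h3 : ∑ q ∈ (Ico P (2 * P)).filter Nat.Prime,
        ((Icc 1 (c q)).image (fun k => q * (k * el q S + 1))).card ≤
        ∑ q ∈ (Ico P (2 * P)).filter Nat.Prime, c q := by
      refine sum_le_sum fun q _ => card_image_le.trans ?_
      rw [Nat.card_Icc]
      omega
    exact_mod_cast h2.trans h3
  have hP0 : (0 : ℝ) < P := by exact_mod_cast (by omega : 0 < P)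
  have h4 : ∀ q ∈ (Ico P (2 * P)).filter Nat.Prime,
      (c q : ℝ) ≤ 4 * x / (P : ℝ) ^ 2 * ((((q - 1) / el q S : ℕ) : ℝ) - 1) := by
    intro q hq
    rw [mem_filter, mem_Ico] at hq
    obtain ⟨⟨hq1, hq2⟩, hqp⟩ := hq
    have hdvd := el_dvd_sub (S := S) hqp (fun s hs => hS1 s hs q hqp hq1)
    have hq10 : 0 < q - 1 := by have := hqp.two_le; omega
    have hel : 0 < el q S := Nat.pos_of_dvd_of_pos hdvd hq10
    have ht1 : 1 ≤ (q - 1) / el q S := by
      rw [Nat.le_div_iff_mul_le hel, one_mul]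
      exact Nat.le_of_dvd hq10 hdvd
    have ht1' : (0 : ℝ) ≤ (((q - 1) / el q S : ℕ) : ℝ) - 1 := by
      have : (1 : ℝ) ≤ (((q - 1) / el q S : ℕ) : ℝ) := by exact_mod_cast ht1
      linarith
    rcases Nat.eq_zero_or_pos (c q) with h0 | h0
    · rw [h0, Nat.cast_zero]
      positivity
    · have hx : x < q ^ 2 := by
        by_contra h
        rw [hc, if_neg h] at h0
        omega
      rw [hc, if_pos hx] at h0 ⊢
      have h5 : el q S ≤ x / q - 1 := by
        have := (Nat.le_div_iff_mul_le hel).1 h0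
        omega
      have h6 : x / q < q := by
        rw [Nat.div_lt_iff_lt_mul hqp.pos, ← sq]
        exact hx
      obtain ⟨t, ht⟩ := hdvd
      have htq : (q - 1) / el q S = t := by rw [ht, Nat.mul_div_cancel_left _ hel]
      rw [htq]
      have ht2 : 2 ≤ t := by
        by_contra h
        have : t = 0 ∨ t = 1 := by omega
        rcases this with h' | h'
        · rw [h'] at ht; omega
        · rw [h', mul_one] at ht; omega
      have h7 : ((x / q - 1) / el q S) * el q S * q ≤ x := by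
        have e1 := Nat.div_mul_le_self (x / q - 1) (el q S)
        have e2 := Nat.div_mul_le_self x q
        calc _ ≤ (x / q - 1) * q := Nat.mul_le_mul_right _ e1
          _ ≤ (x / q) * q := Nat.mul_le_mul_right _ (Nat.sub_le _ _)
          _ ≤ x := e2
      obtain ⟨C, hC⟩ : ∃ C, C = (x / q - 1) / el q S := ⟨_, rfl⟩
      rw [← hC] at h7 ⊢
      -- C * el * q ≤ x, el * t = q - 1
      have h8 : (C : ℝ) * el q S * q ≤ x := by exact_mod_cast h7
      have h9 : (el q S : ℝ) * t = (q : ℝ) - 1 := by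
        have e1 : (((q - 1 : ℕ)) : ℝ) = (q : ℝ) - 1 := by
          rw [Nat.cast_sub hqp.one_lt.le]; simp
        rw [← e1, ht]
        push_cast
        ring
      have hqR : (P : ℝ) ≤ q := by exact_mod_cast hq1
      have hP2 : (2 : ℝ) ≤ P := by exact_mod_cast hP
      have ht2R : (2 : ℝ) ≤ t := by exact_mod_cast ht2
      have h10 : (C : ℝ) * ((q : ℝ) - 1) * q ≤ x * t := by
        rw [← h9]
        calc (C : ℝ) * (el q S * t) * q = (C * el q S * q) * t := by ring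
          _ ≤ x * t := mul_le_mul_of_nonneg_right h8 (by linarith)
      have h11 : (P : ℝ) ^ 2 ≤ 2 * (((q : ℝ) - 1) * q) := by nlinarith
      have hC0 : (0 : ℝ) ≤ C := Nat.cast_nonneg _
      have hx0 : (0 : ℝ) ≤ x := Nat.cast_nonneg _
      rw [div_mul_eq_mul_div, le_div_iff₀ (by positivity)]
      calc (C : ℝ) * (P : ℝ) ^ 2 ≤ C * (2 * (((q : ℝ) - 1) * q)) := mul_le_mul_of_nonneg_left h11 hC0
        _ = 2 * (C * ((q : ℝ) - 1) * q) := by ring
        _ ≤ 2 * (x * t) := by linarith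
        _ ≤ 4 * x * (t - 1) := by nlinarith
  refine h1.trans ((sum_le_sum h4).trans ?_)
  rw [← mul_sum]
  have h5 := sieve P (by omega) S hS hS1 hS0
  calc 4 * (x : ℝ) / (P : ℝ) ^ 2 * ∑ q ∈ (Ico P (2 * P)).filter Nat.Prime, ((((q - 1) / el q S : ℕ) : ℝ) - 1)
      ≤ 4 * (x : ℝ) / (P : ℝ) ^ 2 * (30 * (P : ℝ) ^ 2 / S.card) :=
        mul_le_mul_of_nonneg_left h5 (by positivity)
    _ = 120 * x / S.card := by
        field_simp
        ring

/-- the sets of smooth numbers -/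
lemma sets (A : ℝ) (hA : 2 ≤ A) (η : ℝ) (hη : 0 < η) (hη1 : η ≤ 1 / 4) : ∃ P0 : ℕ, ∀ P : ℕ, P0 ≤ P → 2 ≤ P ∧
    ∃ S : Finset ℕ, S ⊆ Icc 1 (P ^ 2) ∧ (∀ s ∈ S, ∀ q : ℕ, q.Prime → P ≤ q → ¬ q ∣ s) ∧
      (∀ s ∈ S, ∀ p : ℕ, p.Prime → p ∣ s → (p : ℝ) ≤ 2 * (log P) ^ A) ∧
      ((P : ℝ) ^ 2) ^ (1 - 1 / A - 2 * η) ≤ (S.card : ℝ) := by
  have hA0 : 0 < A := by linarith
  have h1A : 1 / A ≤ 1 / 2 := by
    rw [div_le_div_iff₀ hA0 (by norm_num)]
    linarith
  have h1A0 : 0 < 1 / A := by positivity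
  obtain ⟨B, hB⟩ : ∃ B, B = 1 / (1 / A + η) := ⟨_, rfl⟩
  have hBpos : 0 < 1 / A + η := by linarith
  have hB1 : 1 < B := by
    rw [hB, lt_div_iff₀ hBpos]
    linarith
  have hBA : B < A := by
    rw [hB, div_lt_iff₀ hBpos, mul_add, mul_one_div_cancel hA0.ne']
    nlinarith
  have hB0 : 0 < B := by linarith
  have hBinv : 1 / B = 1 / A + η := by rw [hB, one_div_one_div]
  obtain ⟨D0, hD0⟩ := smooth_many B η hB1 hη
  have e1 : ∀ᶠ t : ℝ in Filter.atTop, (2 * t) ^ B ≤ 2 * t ^ A := by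
    have h0 : 0 < A - B := by linarith
    filter_upwards [(tendsto_rpow_atTop h0).eventually (Filter.eventually_ge_atTop ((2 : ℝ) ^ B)),
      Filter.eventually_gt_atTop 0] with t ht ht0
    rw [mul_rpow (by norm_num) ht0.le]
    have h1 : t ^ A = t ^ (A - B) * t ^ B := by rw [← rpow_add ht0]; congr 1; ring
    rw [h1]
    have h2 : 0 < t ^ B := by positivity
    have h3 : 0 < t ^ (A - B) := by positivity
    nlinarith [mul_le_mul_of_nonneg_right ht h2.le]
  have e2 : ∀ᶠ t : ℝ in Filter.atTop, (2 * t) ^ B < exp t := by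
    have h := (isLittleO_rpow_exp_pos_mul_atTop B (show (0 : ℝ) < 1 / 2 by norm_num)).def
      (show (0 : ℝ) < 1 / 2 by norm_num)
    have h' := (Filter.tendsto_id.const_mul_atTop (show (0 : ℝ) < 2 by norm_num)).eventually h
    filter_upwards [h', Filter.eventually_gt_atTop 0] with t ht ht0
    simp only [id] at ht
    rw [norm_of_nonneg (by positivity), norm_of_nonneg (by positivity),
      show 1 / 2 * (2 * t) = t by ring] at ht
    have := exp_pos t
    linarith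
  obtain ⟨T, hT⟩ := Filter.eventually_atTop.1 ((e1.and e2).and (Filter.eventually_gt_atTop 0))
  have e3 : ∀ᶠ P : ℕ in Filter.atTop, T ≤ log (P : ℝ) :=
    (tendsto_log_atTop.comp tendsto_natCast_atTop_atTop).eventually (Filter.eventually_ge_atTop T)
  obtain ⟨P1, hP1⟩ := Filter.eventually_atTop.1 e3
  refine ⟨max (max P1 D0) 2, fun P hP => ?_⟩
  have hP2 : 2 ≤ P := (le_max_right _ _).trans hP
  have hPP : P1 ≤ P := (le_max_left _ _).trans ((le_max_left _ _).trans hP)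
  have hPD : D0 ≤ P := (le_max_right _ _).trans ((le_max_left _ _).trans hP)
  obtain ⟨⟨t1, t2⟩, t3⟩ := hT _ (hP1 P hPP)
  refine ⟨hP2, ?_⟩
  obtain ⟨S, hS1, hS2⟩ := hD0 (P ^ 2) (hPD.trans (by nlinarith))
  have hlog : log ((P ^ 2 : ℕ) : ℝ) = 2 * log P := by
    push_cast
    rw [log_pow]
    norm_num
  rw [hlog] at hS1
  have hP0 : (0 : ℝ) < P := by exact_mod_cast (by omega : 0 < P)
  rw [exp_log hP0] at t2
  refine ⟨S, fun s hs => mem_Icc.2 ⟨(hS1 s hs).1, (hS1 s hs).2.1⟩, ?_, ?_, ?_⟩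
  · intro s hs q hq hPq hqs
    have h1 := (hS1 s hs).2.2.2.2 q hq hqs
    have h2 : (P : ℝ) ≤ q := by exact_mod_cast hPq
    linarith
  · intro s hs p hp hps
    exact ((hS1 s hs).2.2.2.2 p hp hps).trans t1
  · refine le_trans (le_of_eq ?_) hS2
    rw [hBinv]
    push_cast
    congr 1
    ring

end Pool.Agent.H88.WF
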