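import Pool.Agent.H88.WF2

/-! The number of the exceptions with a large prime factor. -/

set_option autoImplicit false

namespace Pool.Agent.H88.WF

open Finset Real Pool.Agent.H379R2.W Pool.Agent.W57.SW

open Classical in
theorem count (A ε θ : ℝ) (hA : 2 ≤ A) (hε : 0 < ε) (h1 : 1 / 2 ≤ θ) (h2 : θ ≤ 1) :
    ∃ K : ℝ, ∀ x : ℕ, 1 ≤ x →
      (((Icc 1 x).filter (fun n => Fp A n ∧ ∃ q : ℕ, q.Prime ∧ q ∣ n ∧ (x : ℝ) ^ θ < q)).card : ℝ) ≤
        K * (x : ℝ) ^ (1 - θ * (2 - 2 / A) + ε) := by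
  have hA0 : 0 < A := by linarith
  have h1A : 1 / A ≤ 1 / 2 := by
    rw [div_le_div_iff₀ hA0 (by norm_num)]
    linarith
  have h1A0 : 0 < 1 / A := by positivity
  have h2A : 2 / A = 2 * (1 / A) := by ring
  obtain ⟨η, hη0, hη1, hη2⟩ : ∃ η : ℝ, 0 < η ∧ η ≤ ε / 8 ∧ η ≤ 1 / 4 :=
    ⟨min (ε / 8) (1 / 4), lt_min (by positivity) (by norm_num), min_le_left _ _, min_le_right _ _⟩
  obtain ⟨β, hβ⟩ : ∃ β, β = 1 - 1 / A - 2 * η := ⟨_, rfl⟩
  have hβ0 : 0 ≤ β := by rw [hβ]; linarith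
  have hβ1 : β ≤ 1 := by rw [hβ]; linarith
  obtain ⟨P0, hP0⟩ := sets A hA η hη0 hη2
  obtain ⟨e, he⟩ : ∃ e, e = 1 - θ * (2 - 2 / A) + ε := ⟨_, rfl⟩
  rw [← he]
  have he1 : 1 - e ≤ 2 := by
    rw [he, h2A]
    nlinarith
  refine ⟨max ((4 * ((P0 : ℝ) + 1) ^ 2) ^ (2 : ℝ)) (480 * (1 + 4 / ε)), fun x hx => ?_⟩
  have hx1 : (1 : ℝ) ≤ x := by exact_mod_cast hx
  have hx0 : (0 : ℝ) < x := by linarith
  have hxe : 0 < (x : ℝ) ^ e := by positivity
  rcases lt_or_ge ((x : ℝ) ^ θ) (2 * ((P0 : ℝ) + 1)) with hlt | hge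
  · have h3 : (x : ℝ) ≤ 4 * ((P0 : ℝ) + 1) ^ 2 := by
      have h4 : (x : ℝ) ^ (1 / 2 : ℝ) ≤ (x : ℝ) ^ θ := rpow_le_rpow_of_exponent_le hx1 h1
      have h5 : (x : ℝ) = ((x : ℝ) ^ (1 / 2 : ℝ)) ^ 2 := by
        rw [← rpow_natCast, ← rpow_mul hx0.le]
        norm_num
      have h6 : 0 ≤ (x : ℝ) ^ (1 / 2 : ℝ) := by positivity
      rw [h5]
      nlinarith
    have h4 : (((Icc 1 x).filter (fun n => Fp A n ∧ ∃ q : ℕ, q.Prime ∧ q ∣ n ∧ (x : ℝ) ^ θ < q)).card : ℝ) ≤ x := by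
      have := card_filter_le (Icc 1 x) (fun n => Fp A n ∧ ∃ q : ℕ, q.Prime ∧ q ∣ n ∧ (x : ℝ) ^ θ < q)
      rw [Nat.card_Icc] at this
      exact_mod_cast this.trans (by omega)
    refine h4.trans ?_
    have h5 : (x : ℝ) = (x : ℝ) ^ (1 - e) * (x : ℝ) ^ e := by
      rw [← rpow_add hx0]
      simp
    have h6 : (x : ℝ) ^ (1 - e) ≤ (4 * ((P0 : ℝ) + 1) ^ 2) ^ (2 : ℝ) :=
      (rpow_le_rpow_of_exponent_le hx1 he1).trans (rpow_le_rpow hx0.le h3 (by norm_num))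
    calc (x : ℝ) = (x : ℝ) ^ (1 - e) * (x : ℝ) ^ e := h5
      _ ≤ _ := mul_le_mul_of_nonneg_right (h6.trans (le_max_left _ _)) hxe.le
  · -- the main case
    have hcov : (Icc 1 x).filter (fun n => Fp A n ∧ ∃ q : ℕ, q.Prime ∧ q ∣ n ∧ (x : ℝ) ^ θ < q) ⊆
        ((range (Nat.log 2 x + 1)).filter (fun k => (x : ℝ) ^ θ < 2 ^ (k + 1))).biUnion
          (fun k => (Icc 1 x).filter (fun n => Fp A n ∧ ∃ q : ℕ, q.Prime ∧ 2 ^ k ≤ q ∧ q < 2 * 2 ^ k ∧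
            q ∣ n ∧ x < q ^ 2)) := by
      intro n hn
      rw [mem_filter, mem_Icc] at hn
      obtain ⟨⟨hn1, hnx⟩, hb, q, hq, hqn, hqx⟩ := hn
      have hqx' : q ≤ x := (Nat.le_of_dvd hn1 hqn).trans hnx
      have hk1 : 2 ^ Nat.log 2 q ≤ q := Nat.pow_log_le_self 2 hq.ne_zero
      have hk2 : q < 2 ^ (Nat.log 2 q + 1) := Nat.lt_pow_succ_log_self (by norm_num) q
      rw [mem_biUnion]
      refine ⟨Nat.log 2 q, ?_, ?_⟩
      · rw [mem_filter, mem_range]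
        refine ⟨?_, hqx.trans_le ?_⟩
        · have := Nat.log_mono_right (b := 2) hqx'
          omega
        · exact_mod_cast hk2.le
      · rw [mem_filter, mem_Icc]
        refine ⟨⟨hn1, hnx⟩, hb, q, hq, hk1, ?_, hqn, ?_⟩
        · rw [pow_succ] at hk2
          omega
        · have h4 : (x : ℝ) ^ (1 / 2 : ℝ) ≤ (x : ℝ) ^ θ := rpow_le_rpow_of_exponent_le hx1 h1
          have h5 : (x : ℝ) = ((x : ℝ) ^ (1 / 2 : ℝ)) ^ 2 := by
            rw [← rpow_natCast, ← rpow_mul hx0.le]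
            norm_num
          have h6 : 0 ≤ (x : ℝ) ^ (1 / 2 : ℝ) := by positivity
          have h7 : (x : ℝ) < (q : ℝ) ^ 2 := by
            rw [h5]
            have : (x : ℝ) ^ (1 / 2 : ℝ) < q := h4.trans_lt hqx
            nlinarith
          exact_mod_cast h7
    have hblk : ∀ k ∈ (range (Nat.log 2 x + 1)).filter (fun k => (x : ℝ) ^ θ < 2 ^ (k + 1)),
        (((Icc 1 x).filter (fun n => Fp A n ∧ ∃ q : ℕ, q.Prime ∧ 2 ^ k ≤ q ∧ q < 2 * 2 ^ k ∧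
            q ∣ n ∧ x < q ^ 2)).card : ℝ) ≤ 480 * x / (x : ℝ) ^ (2 * θ * β) := by
      intro k hk
      rw [mem_filter, mem_range] at hk
      have hPk : (x : ℝ) ^ θ / 2 < (2 : ℝ) ^ k := by
        have := hk.2
        rw [pow_succ] at this
        linarith
      have hP : P0 ≤ 2 ^ k := by
        have h3 : (P0 : ℝ) < (2 : ℝ) ^ k := by linarith
        have h4 : (P0 : ℝ) < ((2 ^ k : ℕ) : ℝ) := by push_cast; exact h3
        exact_mod_cast h4.le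
      obtain ⟨a1, S, a2, a3, a4, a5⟩ := hP0 _ hP
      have hS0 : (0 : ℝ) < S.card := by
        refine lt_of_lt_of_le ?_ a5
        have : (0 : ℝ) < ((2 ^ k : ℕ) : ℝ) := by positivity
        positivity
      have h3 := block (x := x) hA0.le a1 a2 a3 (by exact_mod_cast hS0) a4
      refine h3.trans ?_
      rw [← hβ] at a5
      have h4 : (x : ℝ) ^ (2 * θ * β) / 4 ≤ S.card := by
        refine le_trans ?_ a5
        have h5 : ((x : ℝ) ^ θ / 2) ^ 2 ≤ (((2 ^ k : ℕ) : ℝ)) ^ 2 := by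
          push_cast
          exact pow_le_pow_left₀ (by positivity) hPk.le 2
        refine le_trans ?_ (rpow_le_rpow (by positivity) h5 hβ0)
        have h6 : ((x : ℝ) ^ θ / 2) ^ 2 = (x : ℝ) ^ (2 * θ) * (1 / 4) := by
          rw [div_pow, ← rpow_natCast ((x : ℝ) ^ θ) 2, ← rpow_mul hx0.le]
          rw [show θ * ((2 : ℕ) : ℝ) = 2 * θ by push_cast; ring]
          norm_num
          ring
        rw [h6, mul_rpow (by positivity) (by norm_num), ← rpow_mul hx0.le]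
        have h7 : (1 / 4 : ℝ) ≤ (1 / 4 : ℝ) ^ β := by
          have := rpow_le_rpow_of_exponent_ge (show (0 : ℝ) < 1 / 4 by norm_num) (by norm_num) hβ1
          rwa [rpow_one] at this
        have h8 : 0 ≤ (x : ℝ) ^ (2 * θ * β) := by positivity
        calc (x : ℝ) ^ (2 * θ * β) / 4 = (x : ℝ) ^ (2 * θ * β) * (1 / 4) := by ring
          _ ≤ _ := mul_le_mul_of_nonneg_left h7 h8
      have h5 : 0 < (x : ℝ) ^ (2 * θ * β) := by positivity
      rw [div_le_div_iff₀ hS0 h5]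
      nlinarith [mul_le_mul_of_nonneg_left h4 hx0.le]
    have h3 : (((Icc 1 x).filter (fun n => Fp A n ∧ ∃ q : ℕ, q.Prime ∧ q ∣ n ∧ (x : ℝ) ^ θ < q)).card : ℝ) ≤
        ((Nat.log 2 x + 1 : ℕ) : ℝ) * (480 * x / (x : ℝ) ^ (2 * θ * β)) := by
      have h4 : (((Icc 1 x).filter (fun n => Fp A n ∧ ∃ q : ℕ, q.Prime ∧ q ∣ n ∧ (x : ℝ) ^ θ < q)).card : ℝ) ≤
        ∑ k ∈ (range (Nat.log 2 x + 1)).filter (fun k => (x : ℝ) ^ θ < 2 ^ (k + 1)),
        (((Icc 1 x).filter (fun n => Fp A n ∧ ∃ q : ℕ, q.Prime ∧ 2 ^ k ≤ q ∧ q < 2 * 2 ^ k ∧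
            q ∣ n ∧ x < q ^ 2)).card : ℝ) := by
        exact_mod_cast (card_le_card hcov).trans card_biUnion_le
      refine h4.trans ((sum_le_sum hblk).trans ?_)
      rw [sum_const, nsmul_eq_mul]
      refine mul_le_mul_of_nonneg_right ?_ (by positivity)
      have := card_filter_le (range (Nat.log 2 x + 1)) (fun k => (x : ℝ) ^ θ < 2 ^ (k + 1))
      rw [card_range] at this
      exact_mod_cast this
    refine h3.trans ?_
    have h4 : ((Nat.log 2 x + 1 : ℕ) : ℝ) ≤ (1 + 4 / ε) * (x : ℝ) ^ (ε / 2) := by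
      have h5 : ((Nat.log 2 x : ℕ) : ℝ) * log 2 ≤ log x := by
        rw [← log_pow]
        refine log_le_log (by positivity) ?_
        have := Nat.pow_log_le_self 2 (show x ≠ 0 by omega)
        exact_mod_cast this
      have h6 : log (x : ℝ) ≤ (x : ℝ) ^ (ε / 2) / (ε / 2) := log_le_rpow_div hx0.le (by positivity)
      have h7 : (0.5 : ℝ) ≤ log 2 := by linarith [log_two_gt_d9]
      have h8 : ((Nat.log 2 x : ℕ) : ℝ) ≤ 2 * log x := by
        have : (0 : ℝ) ≤ ((Nat.log 2 x : ℕ) : ℝ) := Nat.cast_nonneg _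
        nlinarith
      have h9 : 1 ≤ (x : ℝ) ^ (ε / 2) := one_le_rpow hx1 (by positivity)
      have h10 : (x : ℝ) ^ (ε / 2) / (ε / 2) = 2 / ε * (x : ℝ) ^ (ε / 2) := by
        field_simp
      rw [h10] at h6
      push_cast
      have h11 : (4 / ε) * (x : ℝ) ^ (ε / 2) = 2 * (2 / ε * (x : ℝ) ^ (ε / 2)) := by ring
      rw [add_mul, one_mul, h11]
      linarith
    have h5 : (x : ℝ) / (x : ℝ) ^ (2 * θ * β) * (x : ℝ) ^ (ε / 2) ≤ (x : ℝ) ^ e := by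
      have h6 : (x : ℝ) / (x : ℝ) ^ (2 * θ * β) * (x : ℝ) ^ (ε / 2) =
          (x : ℝ) ^ (1 - 2 * θ * β + ε / 2) := by
        rw [rpow_add hx0, rpow_sub hx0, rpow_one]
      rw [h6]
      refine rpow_le_rpow_of_exponent_le hx1 ?_
      rw [he, hβ, h2A]
      nlinarith
    calc ((Nat.log 2 x + 1 : ℕ) : ℝ) * (480 * x / (x : ℝ) ^ (2 * θ * β))
        ≤ (1 + 4 / ε) * (x : ℝ) ^ (ε / 2) * (480 * x / (x : ℝ) ^ (2 * θ * β)) :=
          mul_le_mul_of_nonneg_right h4 (by positivity)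
      _ = 480 * (1 + 4 / ε) * ((x : ℝ) / (x : ℝ) ^ (2 * θ * β) * (x : ℝ) ^ (ε / 2)) := by ring
      _ ≤ 480 * (1 + 4 / ε) * (x : ℝ) ^ e := mul_le_mul_of_nonneg_left h5 (by positivity)
      _ ≤ _ := mul_le_mul_of_nonneg_right (le_max_right _ _) hxe.le

/-- the largest prime factor of an exception -/
theorem largest (A ε : ℝ) (hA : 2 ≤ A) (hε : 0 < ε) : ∃ N : ℕ, ∀ n : ℕ, N ≤ n → Fp A n →
    ∀ q : ℕ, q.Prime → q ∣ n →
      (q : ℝ) ^ (1 - 1 / A - ε) ≤ (Nat.gcd (q - 1) (n - 1) : ℝ) ∧ (q : ℝ) < (n : ℝ) ^ (A / (2 * A - 1) + ε) := by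
  have hA0 : 0 < A := by linarith
  have h1A : 1 / A ≤ 1 / 2 := by
    rw [div_le_div_iff₀ hA0 (by norm_num)]
    linarith
  have h1A0 : 0 < 1 / A := by positivity
  obtain ⟨δ, hδ0, hδ1, hδ2⟩ : ∃ δ : ℝ, 0 < δ ∧ δ ≤ ε / 4 ∧ δ ≤ 1 / 4 :=
    ⟨min (ε / 4) (1 / 4), lt_min (by positivity) (by norm_num), min_le_left _ _, min_le_right _ _⟩
  obtain ⟨N, hN3, hN⟩ := fp_gcd A δ hA hδ0
  refine ⟨N, fun n hn hb q hq hqn => ?_⟩
  obtain ⟨m, rfl⟩ := hqn
  obtain ⟨h1, h2⟩ := hN (q * m) hn hb q m hq rfl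
  have hq1 : (1 : ℝ) ≤ q := by exact_mod_cast hq.one_lt.le
  have hq0 : (0 : ℝ) < q := by linarith
  have hgcd : Nat.gcd (q - 1) (q * m - 1) = Nat.gcd (q - 1) (m - 1) := by
    have e1 : q * m - 1 = (m - 1) + (q - 1) * m := by
      obtain ⟨q', rfl⟩ : ∃ q', q = q' + 1 := ⟨q - 1, by have := hq.two_le; omega⟩
      obtain ⟨m', rfl⟩ : ∃ m', m = m' + 1 := ⟨m - 1, by omega⟩
      simp only [Nat.add_sub_cancel]
      rw [show (q' + 1) * (m' + 1) = m' + q' * (m' + 1) + 1 by ring]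
      omega
    rw [e1, Nat.gcd_add_mul_left_right]
  refine ⟨?_, ?_⟩
  · rw [hgcd]
    refine le_trans (rpow_le_rpow_of_exponent_le hq1 ?_) h1
    linarith
  · have h3 : (Nat.gcd (q - 1) (m - 1) : ℝ) < m := by
      have h4 : Nat.gcd (q - 1) (m - 1) ≤ m - 1 := Nat.le_of_dvd (by omega) (Nat.gcd_dvd_right _ _)
      exact_mod_cast (by omega : Nat.gcd (q - 1) (m - 1) < m)
    have h4 : (q : ℝ) ^ (1 - 1 / A - δ) < m := h1.trans_lt h3
    have h5 : (q : ℝ) ^ (2 - 1 / A - δ) < ((q * m : ℕ) : ℝ) := by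
      rw [show 2 - 1 / A - δ = 1 + (1 - 1 / A - δ) by ring, rpow_add hq0, rpow_one]
      push_cast
      exact mul_lt_mul_of_pos_left h4 hq0
    have hn1 : (1 : ℝ) ≤ ((q * m : ℕ) : ℝ) := by
      have : 1 ≤ q * m := by omega
      exact_mod_cast this
    have hexp : 0 < 2 - 1 / A - δ := by linarith
    have h6 : (q : ℝ) = ((q : ℝ) ^ (2 - 1 / A - δ)) ^ (1 / (2 - 1 / A - δ)) := by
      rw [← rpow_mul hq0.le, mul_one_div_cancel hexp.ne', rpow_one]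
    rw [h6]
    refine lt_of_lt_of_le (rpow_lt_rpow (by positivity) h5 (by positivity))
      (rpow_le_rpow_of_exponent_le hn1 ?_)
    -- 1 / (2 - 1/A - δ) ≤ A / (2 A - 1) + ε
    have h7 : A / (2 * A - 1) = 1 / (2 - 1 / A) := by
      have : 2 * A - 1 ≠ 0 := by linarith
      have h8 : 2 - 1 / A ≠ 0 := by linarith
      field_simp
    rw [h7]
    have h8 : 0 < 2 - 1 / A := by linarith
    rw [div_le_iff₀ hexp, add_mul, div_mul_eq_mul_div, one_mul]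
    have h9 : (2 - 1 / A - δ) / (2 - 1 / A) = 1 - δ / (2 - 1 / A) := by
      rw [sub_div, div_self h8.ne']
    rw [h9]
    have h10 : δ / (2 - 1 / A) ≤ δ := by
      rw [div_le_iff₀ h8]
      nlinarith
    nlinarith

end Pool.Agent.H88.WF
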